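import Pool.Agent.XM.Lib

/-!
# Column-convex polygons (MP_f6626d_co): arcs and caps are pairs of bridges (modules ARC, CAPC)
-/

set_option autoImplicit false

namespace Pool.Agent.XM.ARC

open Finset Pool.Agent.Lib27 Pool.Agent.OC
open scoped NNReal ENNReal

/-- words which are split into two bridges of width `d` -/
def Sp (w : Wd) (d : ℕ) : Prop :=
  ∃ A B : Wd, A ∈ Bri d ∧ B ∈ Bri d ∧ w = A ++ rv B ∧ (∀ h : ℤ, cr w h = cr A h + cr B h) ∧
    ∀ h : ℤ, crh w h = crh A h + crh B h + cr B h * (ep 0 w).2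

open Classical in
/-- the pair of bridges -/
noncomputable def sp (d : ℕ) (w : Wd) : Wd × Wd :=
  if h : Sp w d then (h.choose, h.choose_spec.choose) else ([], [])

theorem sp_spec {w : Wd} {d : ℕ} (h : Sp w d) : (sp d w).1 ∈ Bri d ∧ (sp d w).2 ∈ Bri d ∧
    w = (sp d w).1 ++ rv (sp d w).2 ∧ (∀ k : ℤ, cr w k = cr (sp d w).1 k + cr (sp d w).2 k) ∧
    ∀ k : ℤ, crh w k = crh (sp d w).1 k + crh (sp d w).2 k + cr (sp d w).2 k * (ep 0 w).2 := by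
  unfold sp
  rw [dif_pos h]
  exact h.choose_spec.choose_spec

theorem sp_inj {w w' : Wd} {d : ℕ} (h : Sp w d) (h' : Sp w' d) (he : sp d w = sp d w') :
    w = w' := by
  rw [(sp_spec h).2.2.1, (sp_spec h').2.2.1, he]

theorem sp_len {w : Wd} {d : ℕ} (h : Sp w d) : lg (sp d w) = w.length := by
  have h1 := congrArg List.length (sp_spec h).2.2.1
  rw [List.length_append, rv_length] at h1
  exact h1.symm

theorem sp_wz {w : Wd} {d : ℕ} (h : Sp w d) (z : ℝ≥0∞) : wz z w ≤ Wz z (sp d w) := by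
  unfold wz Wz
  rw [sp_len h]

theorem sp_Brp {w : Wd} {c d : ℕ} (h : Sp w d) (hc : ∀ k : ℤ, cr w k ≤ c) :
    sp d w ∈ Brp c d := by
  obtain ⟨h1, h2, _, h4, _⟩ := sp_spec h
  refine ⟨h1, h2, fun k => ?_⟩
  rw [← h4]
  exact hc k

theorem sp_of (h1 : ARC1_Stmt) {w : Wd} {d : ℕ} (hs : SAWs w) (he : (ep 0 w).1 = 0)
    (hv : ∀ p ∈ (vs 0 w).tail, 0 < p.1) (hd : ext w = d) (hd1 : 1 ≤ d) : Sp w d :=
  h1 w d hs he hv hd hd1

end Pool.Agent.XM.ARC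

namespace Pool.Agent.XM

open Finset Pool.Agent.Lib27 Pool.Agent.OC
open scoped NNReal ENNReal

theorem arc_thm (h1 : ARC1_Stmt) : ARC_Stmt := by
  intro c d z hd
  have hsp : ∀ w ∈ Ar c d, ARC.Sp w d := fun w hw =>
    ARC.sp_of h1 hw.1 hw.2.1 hw.2.2.1 hw.2.2.2.2 hd
  exact gs_le_of_inj _ _ (ARC.sp d) (fun w hw => ARC.sp_Brp (hsp w hw) hw.2.2.2.1)
    (fun w hw w' hw' he => ARC.sp_inj (hsp w hw) (hsp w' hw') he)
    fun w hw => ARC.sp_wz (hsp w hw) z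

theorem capc_thm (h1 : ARC1_Stmt) : CAPC_Stmt := by
  intro c z
  have hU : Cap (c + 2) ⊆ ⋃ H : ℕ, {w | w ∈ Cap (c + 2) ∧ ext w = H} := by
    intro w hw
    rw [Set.mem_iUnion]
    exact ⟨ext w, hw, rfl⟩
  refine ((gs_mono (wz z) hU).trans (gs_iUnion _ _)).trans ?_
  refine ENNReal.tsum_le_tsum fun H => ?_
  have hsp : ∀ w ∈ {w | w ∈ Cap (c + 2) ∧ ext w = H}, ARC.Sp w H := by
    rintro w ⟨hw, hH⟩
    obtain ⟨hs, he, hv, hne, _⟩ := hw
    refine ARC.sp_of h1 hs he hv hH ?_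
    obtain ⟨p, hp⟩ := List.exists_mem_of_ne_nil _ hne
    have h2 := hv p hp
    have h3 : p ∈ vt 0 w := List.mem_append_left _ (List.mem_of_mem_tail hp)
    have h4 := natAbs_le_ext h3
    omega
  refine gs_le_of_inj _ _ (ARC.sp H) (fun w hw => ?_)
    (fun w hw w' hw' he => ARC.sp_inj (hsp w hw) (hsp w' hw') he)
    fun w hw => ARC.sp_wz (hsp w hw) z
  have hS := hsp w hw
  obtain ⟨⟨hs, he, hv, hne, hev, hc, hcut⟩, hH⟩ := hw
  refine ⟨ARC.sp_Brp hS hc, fun k hk0 hkH hPC => ?_⟩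
  obtain ⟨_, _, _, h4, h5⟩ := ARC.sp_spec hS
  obtain ⟨⟨c1, c2⟩, c3⟩ := hPC
  refine hcut k (by push_cast at hk0; omega) ⟨by rw [h4, c1, c2], ?_⟩
  rw [h5, c2]
  rw [add_zero] at c3
  push_cast
  rw [one_mul]
  exact c3.add hev

end Pool.Agent.XM
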