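import Pool.Agent.XM.Lib

/-!
# Column-convex polygons (MP_f6626d_co): an arc is a pair of bridges (module ARC1)
-/

set_option autoImplicit false

namespace Pool.Agent.XM.ARC1

open Finset Pool.Agent.Lib27 Pool.Agent.OC

theorem vs_cons_tail (s : Fin 4) (t : Wd) : (vs 0 (s :: t)).tail = vs (0 + dv s) t := by
  rw [vs_cons, List.tail_cons]

theorem mem_vs_tail_left {u v : Wd} {p : ℤ × ℤ} (h : p ∈ (vs 0 u).tail) :
    p ∈ (vs 0 (u ++ v)).tail := by
  cases u with
  | nil => simp at h
  | cons s u =>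
    rw [List.cons_append, vs_cons_tail, vs_append]
    rw [vs_cons_tail] at h
    exact List.mem_append_left _ h

theorem mem_vs_tail_right {u v : Wd} (hu : u ≠ []) {q : ℤ × ℤ} (h : q ∈ vs 0 v) :
    q + ep 0 u ∈ (vs 0 (u ++ v)).tail := by
  cases u with
  | nil => exact absurd rfl hu
  | cons s u =>
    rw [List.cons_append, vs_cons_tail, vs_append, List.mem_append]
    right
    have h1 : (stp (0 + ep 0 (s :: u)) v).map Prod.fst = vs (0 + ep 0 (s :: u)) v := stp_fst _ _
    rw [stp_add, List.map_map, zero_add] at h1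
    rw [← ep_cons, ← h1]
    rw [← stp_fst, List.mem_map] at h
    obtain ⟨x, hx, rfl⟩ := h
    exact List.mem_map.2 ⟨x, hx, rfl⟩

theorem mem_vt_tail_rv {v : Wd} {p : ℤ × ℤ} (h : p ∈ (vt 0 (rv v)).tail) :
    ∃ q ∈ vs 0 v, p = q - ep 0 v := by
  rw [vt_rv] at h
  unfold vt at h
  rw [List.map_append, List.reverse_append] at h
  simp only [List.map_cons, List.map_nil, List.reverse_cons, List.reverse_nil, List.nil_append,
    List.cons_append, List.tail_cons, List.mem_reverse, List.mem_map] at h
  obtain ⟨q, hq, rfl⟩ := h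
  exact ⟨q, hq, rfl⟩

end Pool.Agent.XM.ARC1

namespace Pool.Agent.XM

open Finset Pool.Agent.Lib27 Pool.Agent.OC

theorem arc1_thm : ARC1_Stmt := by
  intro w d hs he hv hd h1
  obtain ⟨p, hp, hpd⟩ := exists_ext w
  rw [hd] at hpd
  have hp2 : (d : ℤ) ≤ p.1 := by
    unfold vt at hp
    rw [List.mem_append, List.mem_singleton] at hp
    rcases hp with hp | hp
    · cases w with
      | nil => simp at hp
      | cons s t =>
        rw [vs_cons, List.mem_cons] at hp
        rcases hp with rfl | hp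
        · simp only [Prod.fst_zero, Int.natAbs_zero] at hpd
          omega
        · have := hv p (by rw [ARC1.vs_cons_tail]; exact hp)
          omega
    · rw [hp, he] at hpd
      simp only [Int.natAbs_zero] at hpd
      omega
  obtain ⟨u, v, rfl, hu, hlt⟩ := first_col (w := w) (h := d) (by positivity) ⟨p, hp, hp2⟩
  have hune : u ≠ [] := by
    rintro rfl
    simp only [ep_nil, Prod.fst_zero] at hu
    omega
  have hev : (ep 0 v).1 = -(d : ℤ) := by
    rw [fst_ep_app, hu] at he
    omega
  have hcr : ∀ h : ℤ, cr (rv v) h = cr v (h - d) := by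
    intro h
    rw [cr_rv, hev, sub_eq_add_neg]
  have hle : ∀ q ∈ vt 0 (u ++ v), q.1 ≤ d := by
    intro q hq
    have := natAbs_le_ext hq
    rw [hd] at this
    omega
  refine ⟨u, rv v, ⟨SAWs_left hs, hu, fun q hq => ⟨?_, hle q (mem_vt_left v
    (List.mem_of_mem_tail hq))⟩⟩, ⟨SAWs_rv (SAWs_right hs), ?_, fun q hq => ?_⟩, ?_, fun h => ?_,
    fun h => ?_⟩
  · unfold vt at hq
    rw [List.tail_append_of_ne_nil, List.mem_append, List.mem_singleton] at hq
    · rcases hq with hq | rfl
      · exact hv q (ARC1.mem_vs_tail_left hq)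
      · rw [hu]
        omega
    · cases u with
      | nil => exact absurd rfl hune
      | cons s t => simp
  · rw [ep_rv0, Prod.fst_neg, hev, neg_neg]
  · obtain ⟨x, hx, rfl⟩ := ARC1.mem_vt_tail_rv hq
    have h2 := ARC1.mem_vs_tail_right hune hx
    have h3 := hv _ h2
    have h4 : x + ep 0 u ∈ vt 0 (u ++ v) := by
      unfold vt
      exact List.mem_append_left _ (List.mem_of_mem_tail h2)
    have h5 := hle _ h4
    rw [Prod.fst_add, hu] at h3 h5
    rw [Prod.fst_sub, hev]
    constructor <;> omega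
  · rw [rv_rv]
  · rw [hcr, cr_append, hu]
  · have h2 : (ep 0 (u ++ v)).2 = (ep 0 u).2 + (ep 0 v).2 := snd_ep_app u v
    rw [hcr, h2, crh_append, crh_rv, hu, hev, ← sub_eq_add_neg]
    ring

end Pool.Agent.XM
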