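import Pool.Agent.XM.Lib

/-!
# Column-convex polygons (MP_f6626d_co): BEY, sums beyond the critical point
-/

set_option autoImplicit false

namespace Pool.Agent.XM

open Finset Pool.Agent.Lib27 Pool.Agent.OC
open scoped NNReal ENNReal

namespace BEYB

theorem geo_ne_top {t : ℝ≥0} (ht : t < 1) : (1 - (t : ℝ≥0∞))⁻¹ ≠ ∞ := by
  rw [ne_eq, ENNReal.inv_eq_top]
  have : (t : ℝ≥0∞) < 1 := by exact_mod_cast ht
  exact (tsub_pos_of_lt this).ne'

theorem mono_z {e e' : ℝ≥0} (h : e ≤ e') (z : ℝ≥0∞) :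
    (1 + (e : ℝ≥0∞)) * z ≤ (1 + (e' : ℝ≥0∞)) * z :=
  mul_le_mul' (add_le_add le_rfl (by exact_mod_cast h)) le_rfl

/-- the rates -/
theorem exists_t {r s : ℝ≥0} (hr : r < 1) (hs : 1 < s) :
    ∃ A t : ℝ≥0, 1 < A ∧ t < 1 ∧ ∀ k H : ℕ, A ^ k * r ^ (H - k) ≤ s ^ k * t ^ H := by
  have h1 : 1 < NNReal.sqrt s := by
    rw [← NNReal.sqrt_one]
    exact NNReal.sqrt_lt_sqrt.2 hs
  have h0 : 0 < NNReal.sqrt s := zero_lt_one.trans h1
  set t := max r (NNReal.sqrt s)⁻¹ with ht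
  have ht1 : t < 1 := max_lt hr (inv_lt_one_of_one_lt₀ h1)
  refine ⟨NNReal.sqrt s, t, h1, ht1, fun k H => ?_⟩
  have h2 : NNReal.sqrt s ≤ s * t := by
    calc NNReal.sqrt s = NNReal.sqrt s * (NNReal.sqrt s * (NNReal.sqrt s)⁻¹) := by
          rw [mul_inv_cancel₀ h0.ne', mul_one]
      _ = s * (NNReal.sqrt s)⁻¹ := by rw [← mul_assoc, NNReal.mul_self_sqrt]
      _ ≤ s * t := mul_le_mul' le_rfl (le_max_right _ _)
  calc NNReal.sqrt s ^ k * r ^ (H - k) ≤ (s * t) ^ k * t ^ (H - k) :=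
        mul_le_mul' (pow_le_pow_left₀ bot_le h2 k) (pow_le_pow_left₀ bot_le (le_max_left _ _) _)
    _ = s ^ k * t ^ (k + (H - k)) := by rw [mul_pow, mul_assoc, ← pow_add]
    _ ≤ s ^ k * t ^ H := mul_le_mul' le_rfl (pow_le_pow_of_le_one bot_le ht1.le (by omega))

theorem card_le (c : ℕ) : (NoE c 1).card ≤ 16 := by
  classical
  have h1 : NoE c 1 ⊆ words 2 := by
    intro w hw
    unfold NoE at hw
    have h2 := (mem_filter.1 hw).1
    unfold W at h2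
    exact (mem_filter.1 h2).1
  refine (Finset.card_le_card h1).trans ?_
  rw [card_words]
  norm_num

end BEYB

open BEYB

theorem bey_thm (h1 : NBB_Stmt) (h2 : EONE_Stmt) (h3 : CAPC_Stmt) (h4 : POLYC_Stmt)
    (h5 : LOOP_Stmt) (h6 : ZST_Stmt) : BEY_Stmt := by
  intro c
  obtain ⟨hz8, hz2, -, -⟩ := h6 c
  refine ⟨hz8, hz2, h2 c, ?_⟩
  obtain ⟨r, hr, hn⟩ := h1 c
  obtain ⟨el, s, M, hel, hs, hL, -⟩ := h5 c
  obtain ⟨A, t, hA, ht1, ht⟩ := exists_t hr hs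
  obtain ⟨en, Cn, hen, hn⟩ := hn A hA
  set eta := min el (min en 1) with heta
  have hle1 : eta ≤ el := min_le_left _ _
  have hle2 : eta ≤ en := (min_le_right _ _).trans (min_le_left _ _)
  have hle3 : eta ≤ 1 := (min_le_right _ _).trans (min_le_right _ _)
  set G : ℝ≥0∞ := (1 - (t : ℝ≥0∞))⁻¹ with hG
  have hGt : G ≠ ∞ := geo_ne_top ht1
  set K1 : ℝ≥0∞ := Cn * G with hK1
  set K2 : ℝ≥0∞ := 2 * (Cn * G * (M * M)) with hK2
  have hK1t : K1 ≠ ∞ := ENNReal.mul_ne_top ENNReal.coe_ne_top hGt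
  have hK2t : K2 ≠ ∞ := ENNReal.mul_ne_top (by simp) (ENNReal.mul_ne_top
    (ENNReal.mul_ne_top ENNReal.coe_ne_top hGt)
    (ENNReal.mul_ne_top ENNReal.coe_ne_top ENNReal.coe_ne_top))
  have hKt : K1 + K2 + 16 ≠ ∞ :=
    ENNReal.add_ne_top.2 ⟨ENNReal.add_ne_top.2 ⟨hK1t, hK2t⟩, by simp⟩
  refine ⟨eta, (K1 + K2 + 16).toNNReal, lt_min hel (lt_min hen zero_lt_one), ?_⟩
  rw [ENNReal.coe_toNNReal hKt]
  have hz1 := mono_z hle1 (zst c)
  have hz3 := mono_z hle2 (zst c)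
  have hzone : (1 + (eta : ℝ≥0∞)) * zst c ≤ 1 := by
    calc (1 + (eta : ℝ≥0∞)) * zst c ≤ (1 + 1) * 2⁻¹ :=
          mul_le_mul' (add_le_add le_rfl (by exact_mod_cast hle3)) hz2
      _ = 1 := by
          rw [one_add_one_eq_two]
          exact ENNReal.mul_inv_cancel (by simp) (by simp)
  set z : ℝ≥0∞ := (1 + (eta : ℝ≥0∞)) * zst c with hz
  have hgeo : ∑' n : ℕ, (t : ℝ≥0∞) ^ n = G := ENNReal.tsum_geometric _
  have hhn : ∀ (b : ℤ) (e d H : ℕ), gs (Wz z) (Nb b (c + 2) e (H - d) H) ≤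
      Cn * ((s : ℝ≥0∞) ^ (e + d) * (t : ℝ≥0∞) ^ H) := by
    intro b e d H
    refine (hn z hz3 b e d H).trans ?_
    rw [mul_assoc]
    refine mul_le_mul' le_rfl ?_
    have h9 : ((A ^ (e + d) * r ^ (H - (e + d)) : ℝ≥0) : ℝ≥0∞) ≤
        ((s ^ (e + d) * t ^ H : ℝ≥0) : ℝ≥0∞) := by
      exact_mod_cast ht (e + d) H
    push_cast at h9
    exact h9
  have h00 : ∀ H : ℕ, gs (Wz z) (Nb 0 (c + 2) 0 H H) ≤ Cn * (t : ℝ≥0∞) ^ H := by
    intro H
    have h9 := hhn 0 0 0 H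
    rw [Nat.sub_zero, add_zero, pow_zero, one_mul] at h9
    exact h9
  have hsum : ∑' H : ℕ, gs (Wz z) (Nb 0 (c + 2) 0 H H) ≤ K1 := by
    refine (ENNReal.tsum_le_tsum h00).trans ?_
    rw [ENNReal.tsum_mul_left, hgeo]
  refine ⟨?_, ?_, ?_⟩
  · refine (ENNReal.tsum_le_tsum fun l => ?_).trans
      (hsum.trans (le_add_right (le_add_right le_rfl)))
    exact gs_mono _ fun p hp => hp.1
  · exact (h3 c z).trans (hsum.trans (le_add_right (le_add_right le_rfl)))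
  · intro n hn1
    rcases hn1.eq_or_lt with rfl | hn2
    · have h8 : ((NoE (c + 2) 1).card : ℝ≥0∞) * z ^ (2 * 1) ≤ 16 * 1 := by
        refine mul_le_mul' ?_ (pow_le_one' hzone _)
        exact_mod_cast card_le (c + 2)
      refine h8.trans ?_
      rw [Nat.cast_one, mul_one, mul_one]
      exact le_add_left le_rfl
    · refine (h4 c z n hn2).trans ?_
      have hLz : gs (fun l => wz z l * (s : ℝ≥0∞) ^ ext l) (Lp c) ≤ M := by
        refine le_trans (gs_le _ _ subset_rfl fun l _ => ?_) hL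
        exact mul_le_mul' (pow_le_pow_left' hz1 _) le_rfl
      have h8 : ∀ H : ℕ, gs (fun q : Wd × Wd => wz z q.1 * wz z q.2 *
          gs (Wz z) (Nb (ep 0 q.1).2 (c + 2) (ext q.1) (H - ext q.2) H)) (Lp c ×ˢ Lp c) ≤
          (M * M) * (Cn * (t : ℝ≥0∞) ^ H) := by
        intro H
        calc gs (fun q : Wd × Wd => wz z q.1 * wz z q.2 *
              gs (Wz z) (Nb (ep 0 q.1).2 (c + 2) (ext q.1) (H - ext q.2) H)) (Lp c ×ˢ Lp c)
            ≤ gs (fun q : Wd × Wd => ((wz z q.1 * (s : ℝ≥0∞) ^ ext q.1) *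
                (wz z q.2 * (s : ℝ≥0∞) ^ ext q.2)) * (Cn * (t : ℝ≥0∞) ^ H)) (Lp c ×ˢ Lp c) := by
              refine gs_le _ _ subset_rfl fun q _ => ?_
              refine (mul_le_mul' le_rfl (hhn _ _ _ _)).trans (le_of_eq ?_)
              rw [pow_add]
              ring
          _ = gs (fun q : Wd × Wd => (wz z q.1 * (s : ℝ≥0∞) ^ ext q.1) *
                (wz z q.2 * (s : ℝ≥0∞) ^ ext q.2)) (Lp c ×ˢ Lp c) * (Cn * (t : ℝ≥0∞) ^ H) :=
              gs_mul_right _ _ _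
          _ = gs (fun l => wz z l * (s : ℝ≥0∞) ^ ext l) (Lp c) *
                gs (fun l => wz z l * (s : ℝ≥0∞) ^ ext l) (Lp c) * (Cn * (t : ℝ≥0∞) ^ H) := by
              rw [← gs_prod]
          _ ≤ _ := mul_le_mul' (mul_le_mul' hLz hLz) le_rfl
      calc ((2 * n : ℕ) : ℝ≥0∞) * ∑' H : ℕ, gs (fun q : Wd × Wd => wz z q.1 * wz z q.2 *
            gs (Wz z) (Nb (ep 0 q.1).2 (c + 2) (ext q.1) (H - ext q.2) H)) (Lp c ×ˢ Lp c)
          ≤ ((2 * n : ℕ) : ℝ≥0∞) * ∑' H : ℕ, (M * M : ℝ≥0∞) * (Cn * (t : ℝ≥0∞) ^ H) :=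
            mul_le_mul' le_rfl (ENNReal.tsum_le_tsum h8)
        _ = K2 * n := by
            rw [ENNReal.tsum_mul_left, ENNReal.tsum_mul_left, hgeo, hK2]
            push_cast
            ring
        _ ≤ (K1 + K2 + 16) * n := mul_le_mul' (le_add_right le_add_self) le_rfl

end Pool.Agent.XM
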