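import Pool.Agent.XM.Lib

/-!
# Column-convex polygons (MP_f6626d_co): BLK, the block recursion
-/

set_option autoImplicit false

namespace Pool.Agent.XM.BLK

open Finset Pool.Agent.Lib27 Pool.Agent.OC
open scoped NNReal ENNReal

/-! ### dips -/

theorem dip_le {w : Wd} {p : ℤ × ℤ} (hp : p ∈ vt 0 w) : -(dip w : ℤ) ≤ p.1 := by
  have h1 : (-p.1).toNat ≤ dip w :=
    Finset.le_sup (f := fun p : ℤ × ℤ => (-p.1).toNat) (List.mem_toFinset.2 hp)
  omega

theorem dip_mem (w : Wd) : ∃ p ∈ vt 0 w, p.1 = -(dip w : ℤ) := by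
  have hne : (vt 0 w).toFinset.Nonempty := ⟨0, List.mem_toFinset.2 (mem_vt_self 0 w)⟩
  obtain ⟨p, hp, hd⟩ := Finset.exists_mem_eq_sup _ hne (fun p : ℤ × ℤ => (-p.1).toNat)
  have hd' : dip w = (-p.1).toNat := hd
  rcases Nat.eq_zero_or_pos (dip w) with h0 | h0
  · exact ⟨0, mem_vt_self 0 w, by rw [h0]; simp⟩
  · exact ⟨p, List.mem_toFinset.1 hp, by omega⟩

theorem dip_lt_cc {K : ℕ} (hK : 0 < K) (w : Wd) : dip w < 3 * K * cc K w + K := by
  have h1 : dip w + 2 * K < 3 * K * (cc K w + 1) := by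
    unfold cc
    exact Nat.lt_mul_div_succ _ (by omega)
  have h2 : 3 * K * (cc K w + 1) = 3 * K * cc K w + 3 * K := by ring
  omega

theorem cc_mul_le (K : ℕ) (w : Wd) : 3 * K * cc K w ≤ dip w + 2 * K := by
  unfold cc
  exact Nat.mul_div_le _ _

theorem cc_pos_dip {K : ℕ} {w : Wd} (h : 0 < cc K w) : K ≤ dip w := by
  have h1 := cc_mul_le K w
  have h2 : 3 * K * 1 ≤ 3 * K * cc K w := Nat.mul_le_mul_left _ h
  omega

/-- no crossings below the dip -/
theorem cr_dip {w : Wd} {h : ℤ} (hh : h < -(dip w : ℤ)) : cr w h = 0 :=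
  cr_eq_zero_of_gt fun _ hp => lt_of_lt_of_le hh (dip_le hp)

/-! ### splitting of first passage words -/

theorem Fp_cut {H M : ℕ} {w : Wd} (hw : w ∈ Fp (H + M)) :
    ∃ v s, v ∈ Fp H ∧ s ∈ Fp M ∧ w = v ++ s := by
  have hw2 := hw.2.1
  obtain ⟨v, s, rfl, h1, h2⟩ := first_col (w := w) (h := H) (by positivity)
    ⟨ep 0 w, ep_mem_vt _ _, by rw [hw2]; push_cast; omega⟩
  refine ⟨v, s, ⟨SAWs_left hw.1, h1, h2⟩, ⟨SAWs_right hw.1, ?_, ?_⟩, rfl⟩
  · rw [fst_ep_app] at hw2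
    push_cast at hw2
    omega
  · intro p hp
    have h4 : p + ep 0 v ∈ vs 0 (v ++ s) := by
      rw [vs_append, vs_eq (ep 0 v)]
      exact List.mem_append_right _ (List.mem_map.2 ⟨p, hp, rfl⟩)
    have h3 := hw.2.2 _ h4
    rw [Prod.fst_add] at h3
    push_cast at h3
    omega

theorem Fp_zero {w : Wd} (hw : w ∈ Fp 0) : w = [] := by
  cases w with
  | nil => rfl
  | cons s t =>
    have h1 := hw.2.2 0 (by rw [vs_cons]; exact List.mem_cons_self ..)
    simp at h1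

theorem Fp_col {H : ℕ} {w : Wd} (hw : w ∈ Fp H) {p : ℤ × ℤ} (hp : p ∈ vt 0 w) :
    p.1 ≤ (H : ℤ) := by
  unfold vt at hp
  rw [List.mem_append, List.mem_singleton] at hp
  rcases hp with hp | rfl
  · exact (hw.2.2 p hp).le
  · exact hw.2.1.le

theorem cr_Fp_above {H : ℕ} {v : Wd} (hv : v ∈ Fp H) {h : ℤ} (hh : (H : ℤ) ≤ h) : cr v h = 0 :=
  cr_eq_zero_of_le fun _ hp => (Fp_col hv hp).trans hh

theorem cr_Fp_pos {H : ℕ} {v : Wd} (hv : v ∈ Fp H) {h : ℤ} (h0 : 0 ≤ h) (h1 : h < H) :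
    1 ≤ cr v h := cr_pos_of_lt h0 (by rw [hv.2.1]; exact h1)

theorem cr_Fp_app {H : ℕ} {v : Wd} (hv : v ∈ Fp H) (s : Wd) (h : ℤ) :
    cr (v ++ s) h = cr v h + cr s (h - H) := by rw [cr_append, hv.2.1]

theorem cr_Fp_ge {H : ℕ} {v : Wd} (hv : v ∈ Fp H) (s : Wd) {h : ℤ} (hh : (H : ℤ) ≤ h) :
    cr (v ++ s) h = cr s (h - H) := by rw [cr_Fp_app hv, cr_Fp_above hv hh, zero_add]

theorem cr_Fp_lt {H : ℕ} {v : Wd} (hv : v ∈ Fp H) (s : Wd) {h : ℤ} (hh : h + dip s < H) :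
    cr (v ++ s) h = cr v h := by rw [cr_Fp_app hv, cr_dip (w := s) (by omega), add_zero]

theorem CC_above {H : ℕ} {v v' : Wd} (s s' : Wd) (hv : v ∈ Fp H) (hv' : v' ∈ Fp H) {h : ℤ}
    (hh : (H : ℤ) ≤ h) : CC (v ++ s, v' ++ s') h ↔ CC (s, s') (h - H) := by
  unfold CC
  simp only
  rw [cr_Fp_ge hv s hh, cr_Fp_ge hv' s' hh]

theorem CC_below {H : ℕ} {v v' s s' : Wd} (hv : v ∈ Fp H) (hv' : v' ∈ Fp H) {h : ℤ}
    (h2 : h + dip s < H) (h3 : h + dip s' < H) : CC (v ++ s, v' ++ s') h ↔ CC (v, v') h := by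
  unfold CC
  simp only
  rw [cr_Fp_lt hv s h2, cr_Fp_lt hv' s' h3]

/-- the bounds for the numbers of crossings of the two parts -/
theorem Tc_left {c H : ℕ} {v v' s s' : Wd} (hv : v ∈ Fp H) (hv' : v' ∈ Fp H)
    (ht : Tc c (v ++ s, v' ++ s')) : Tc c (v, v') := by
  intro h
  have h1 := ht h
  simp only at h1 ⊢
  rw [cr_Fp_app hv, cr_Fp_app hv'] at h1
  split_ifs at h1 ⊢ <;> omega

theorem Tc_right {c H : ℕ} {v v' s s' : Wd} (hv : v ∈ Fp H) (hv' : v' ∈ Fp H)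
    (ht : Tc c (v ++ s, v' ++ s')) : Tc c (s, s') := by
  intro h
  have h1 := ht (h + H)
  simp only at h1 ⊢
  rw [cr_Fp_app hv, cr_Fp_app hv', add_sub_cancel_right] at h1
  rcases lt_or_ge h 0 with h0 | h0
  · rw [if_pos h0]
    rcases lt_or_ge (h + H) 0 with h2 | h2
    · rw [if_pos h2] at h1
      omega
    · rw [if_neg (not_lt.2 h2)] at h1
      have h3 := cr_Fp_pos hv h2 (by omega)
      have h4 := cr_Fp_pos hv' h2 (by omega)
      omega
  · rw [if_neg (not_lt.2 h0)]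
    rw [if_neg (by omega : ¬ h + (H : ℤ) < 0)] at h1
    omega

/-- the lower part of a pair without cuts in the middle thirds -/
theorem bad_of_cut {c K k r : ℕ} (hK : 0 < K) {v v' s s' : Wd} (hv : v ∈ Fp (k * (3 * K)))
    (hv' : v' ∈ Fp (k * (3 * K))) (ht : Tc c (v, v'))
    (h : ∀ j : ℕ, j + r < k → ∀ l : ℤ, ((j * (3 * K) + K : ℕ) : ℤ) ≤ l →
      l < ((j * (3 * K) + 2 * K : ℕ) : ℤ) → ¬ CC (v ++ s, v' ++ s') l) :
    (v, v') ∈ Bad c K k (max r (max (cc K s) (cc K s'))) := by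
  refine ⟨⟨hv, hv', ht⟩, ?_⟩
  intro j hj l hl1 hl2 hcc
  have hr : j + r < k := lt_of_le_of_lt (by gcongr; exact le_max_left _ _) hj
  have hc1 : j + cc K s < k := lt_of_le_of_lt (by
    gcongr; exact (le_max_left _ _).trans (le_max_right _ _)) hj
  have hc2 : j + cc K s' < k := lt_of_le_of_lt (by
    gcongr; exact (le_max_right _ _).trans (le_max_right _ _)) hj
  have key : ∀ w : Wd, j + cc K w < k → l + dip w < ((k * (3 * K) : ℕ) : ℤ) := by
    intro w hw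
    have h1 := dip_lt_cc hK w
    have h2 : (j + cc K w + 1) * (3 * K) ≤ k * (3 * K) := Nat.mul_le_mul_right _ hw
    have h3 : (j + cc K w + 1) * (3 * K) = j * (3 * K) + 3 * K * cc K w + 3 * K := by ring
    have h4 : ((j * (3 * K) + 2 * K : ℕ) : ℤ) + dip w < ((k * (3 * K) : ℕ) : ℤ) := by
      have : j * (3 * K) + 2 * K + dip w < k * (3 * K) := by omega
      exact_mod_cast this
    omega
  exact h j hr l hl1 hl2 ((CC_below hv hv' (key s hc1) (key s' hc2)).2 hcc)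

/-- the recursion: the class `Bad` is cut at the highest block -/
theorem Bad_cut {c K k r : ℕ} (hK : 0 < K) {p : Wd × Wd} (hp : p ∈ Bad c K (k + 1) r) :
    ∃ q v : Wd × Wd, (q ∈ Fpp c (3 * K) ∧ (1 ≤ r ∨ SB K q)) ∧
      v ∈ Bad c K k (max (r - 1) (max (cc K q.1) (cc K q.2))) ∧
      p = (v.1 ++ q.1, v.2 ++ q.2) := by
  obtain ⟨a, b⟩ := p
  obtain ⟨⟨ha, hb, ht⟩, hno⟩ := hp
  simp only at ha hb hno
  rw [Nat.succ_mul] at ha hb
  obtain ⟨v, s, hv, hs, rfl⟩ := Fp_cut ha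
  obtain ⟨v', s', hv', hs', rfl⟩ := Fp_cut hb
  refine ⟨(s, s'), (v, v'), ⟨⟨hs, hs', Tc_right hv hv' ht⟩, ?_⟩, ?_, rfl⟩
  · rcases Nat.eq_zero_or_pos r with rfl | hr
    · right
      intro l hl1 hl2 hcc
      refine hno k (by omega) (l + ((k * (3 * K) : ℕ) : ℤ)) (by push_cast; omega)
        (by push_cast; push_cast at hl2; omega) ?_
      rw [CC_above s s' hv hv' (by omega), add_sub_cancel_right]
      exact hcc
    · exact Or.inl hr
  · refine bad_of_cut hK hv hv' (Tc_left hv hv' ht) ?_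
    intro j hj l hl1 hl2
    exact hno j (by omega) l hl1 hl2

end Pool.Agent.XM.BLK

namespace Pool.Agent.XM

open Finset Pool.Agent.Lib27 Pool.Agent.OC
open scoped NNReal ENNReal

theorem blk_thm : BLK_Stmt := by
  classical
  intro c z R K hR hRt hK k
  have hR0 : R ≠ 0 := (zero_lt_one.trans_le hR).ne'
  induction k with
  | zero =>
    intro r
    have h1 : gs (Wz z) (Bad c K 0 r) ≤ gs (Wz z) {(([], []) : Wd × Wd)} := by
      refine gs_mono _ ?_
      rintro ⟨x, y⟩ ⟨⟨hx, hy, -⟩, -⟩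
      simp only at hx hy
      rw [zero_mul] at hx hy
      rw [BLK.Fp_zero hx, BLK.Fp_zero hy]
      rfl
    have h2 : Wz z (([], []) : Wd × Wd) = 1 := pow_zero z
    rw [gs_singleton, h2] at h1
    rw [pow_zero, mul_one]
    exact h1.trans (one_le_pow₀ hR)
  | succ k ih =>
    intro r
    have h1 : gs (Wz z) (Bad c K (k + 1) r) ≤
        gs (fun q => Wz z q * gs (Wz z) (Bad c K k (max (r - 1) (max (cc K q.1) (cc K q.2)))))
          {q | q ∈ Fpp c (3 * K) ∧ (1 ≤ r ∨ SB K q)} := by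
      refine gs_dep (fun (q v : Wd × Wd) => (v.1 ++ q.1, v.2 ++ q.2))
        (fun q => Bad c K k (max (r - 1) (max (cc K q.1) (cc K q.2)))) ?_
      intro p hp
      obtain ⟨q, v, hq, hv, he⟩ := BLK.Bad_cut hK hp
      refine ⟨q, v, hq, hv, he, ?_⟩
      rw [he, mul_comm]
      exact (Wz_cat z v q).le
    refine h1.trans ?_
    unfold theta
    rw [pow_succ, ← mul_assoc, ← gs_mul_left]
    refine gs_le _ _ (fun q hq => hq.1) fun q hq => ?_
    obtain ⟨n, hn⟩ : ∃ n, n = cc K q.1 + cc K q.2 := ⟨_, rfl⟩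
    have hmax : max (cc K q.1) (cc K q.2) ≤ n := by rw [hn]; omega
    have h3 : R ^ (max (r - 1) (max (cc K q.1) (cc K q.2))) ≤
        R ^ r * (R ^ n * (if SB K q then 1 else R⁻¹)) := by
      by_cases hsb : SB K q
      · rw [if_pos hsb, mul_one, ← pow_add]
        exact pow_le_pow_right₀ hR (max_le (by omega) (by omega))
      · rw [if_neg hsb]
        have hr : 1 ≤ r := by
          rcases hq.2 with h | h
          · exact h
          · exact absurd h hsb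
        obtain ⟨r', rfl⟩ : ∃ r', r = r' + 1 := ⟨r - 1, by omega⟩
        have h4 : R ^ (r' + 1) * (R ^ n * R⁻¹) = R ^ (r' + n) := by
          rw [pow_succ, pow_add R r' n]
          calc R ^ r' * R * (R ^ n * R⁻¹) = R ^ r' * R ^ n * (R * R⁻¹) := by ring
            _ = _ := by rw [ENNReal.mul_inv_cancel hR0 hRt, mul_one]
        rw [h4]
        exact pow_le_pow_right₀ hR (max_le (by omega) (by omega))
    calc Wz z q * gs (Wz z) (Bad c K k (max (r - 1) (max (cc K q.1) (cc K q.2))))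
        ≤ Wz z q * (R ^ (max (r - 1) (max (cc K q.1) (cc K q.2))) * theta c z R K ^ k) :=
          mul_le_mul_right (ih _) _
      _ ≤ Wz z q * (R ^ r * (R ^ n * (if SB K q then 1 else R⁻¹)) * theta c z R K ^ k) :=
          mul_le_mul_right (mul_le_mul_left h3 _) _
      _ = _ := by rw [hn]; unfold theta; ring

end Pool.Agent.XM
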