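import Pool.Agent.XM.Stmts
import Pool.Agent.Lib_helper74.MG.Renew

/-!
# EONE: the e-irreducible pairs are critical
-/

set_option autoImplicit false

namespace Pool.Agent.XM

open Finset Pool.Agent.Lib27 Pool.Agent.OC
open scoped NNReal ENNReal

namespace EONE

theorem Ye_le (c : ℕ) (z : ℝ≥0∞) (m : ℕ) : Ye c z m ≤ Y c z m := by
  unfold Ye Y
  exact gs_mono (Wz z) (fun p (hp : p ∈ Bre c m) => hp.1)

end EONE

theorem eone_thm (h1 : ERE_Stmt) (h2 : YEL_Stmt) (h3 : ZST_Stmt) : EONE_Stmt := by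
  intro c
  obtain ⟨c0, hc0, hlow⟩ := h2 c
  exact MG.renewal_one (fun m => Ye (c + 2) (zst c) m) (fun j => we (c + 2) (zst c) (j + 1))
    (h1 c (zst c)).1 (fun H => (h1 c (zst c)).2 H) (c := (c0 : ℝ≥0∞))
    (by exact_mod_cast hc0.ne') hlow
    (fun m => (EONE.Ye_le (c + 2) (zst c) m).trans ((h3 c).2.2.1 m))

end Pool.Agent.XM
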