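import Pool.Agent.XM.Stmts

/-!
# Column-convex polygons (MP_f6626d_co): lemmas on crossings of vertical lines
-/

set_option autoImplicit false

namespace Pool.Agent.XM

open Finset Pool.Agent.Lib27 Pool.Agent.OC
open scoped NNReal ENNReal

/-! ### the list of steps -/

@[simp] theorem stp_nil (p : ℤ × ℤ) : stp p [] = [] := rfl

@[simp] theorem stp_cons (p : ℤ × ℤ) (s : Fin 4) (t : Wd) :
    stp p (s :: t) = (p, s) :: stp (p + dv s) t := rfl

theorem stp_append (p : ℤ × ℤ) (u v : Wd) : stp p (u ++ v) = stp p u ++ stp (ep p u) v := by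
  induction u generalizing p with
  | nil => simp
  | cons s u ih => simp [ih]

theorem stp_add (p q : ℤ × ℤ) (w : Wd) :
    stp (p + q) w = (stp p w).map (fun x => (x.1 + q, x.2)) := by
  induction w generalizing p with
  | nil => simp
  | cons s w ih =>
    simp only [stp_cons, List.map_cons]
    rw [← ih, add_right_comm]

theorem stp_eq (p : ℤ × ℤ) (w : Wd) : stp p w = (stp 0 w).map (fun x => (x.1 + p, x.2)) := by
  rw [← stp_add, zero_add]

theorem stp_fst (p : ℤ × ℤ) (w : Wd) : (stp p w).map Prod.fst = vs p w := by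
  induction w generalizing p with
  | nil => simp
  | cons s w ih => simp [ih]

theorem stp_length (p : ℤ × ℤ) (w : Wd) : (stp p w).length = w.length := by
  induction w generalizing p with
  | nil => simp
  | cons s w ih => simp [ih]

/-- a step of the word, with the parts before and after -/
theorem mem_stp {p : ℤ × ℤ} {w : Wd} {q : (ℤ × ℤ) × Fin 4} (h : q ∈ stp p w) :
    ∃ u v, w = u ++ q.2 :: v ∧ q.1 = ep p u := by
  induction w generalizing p with
  | nil => simp at h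
  | cons s w ih =>
    rw [stp_cons, List.mem_cons] at h
    rcases h with rfl | h
    · exact ⟨[], w, rfl, rfl⟩
    · obtain ⟨u, v, h1, h2⟩ := ih h
      exact ⟨s :: u, v, by rw [h1]; rfl, h2⟩

theorem mem_stp_fst {p : ℤ × ℤ} {w : Wd} {q : (ℤ × ℤ) × Fin 4} (h : q ∈ stp p w) :
    q.1 ∈ vs p w := by
  rw [← stp_fst]
  exact List.mem_map_of_mem h

/-- both end points of a step are vertices -/
theorem mem_stp_vt {p : ℤ × ℤ} {w : Wd} {q : (ℤ × ℤ) × Fin 4} (h : q ∈ stp p w) :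
    q.1 ∈ vt p w ∧ q.1 + dv q.2 ∈ vt p w := by
  obtain ⟨u, v, h1, h2⟩ := mem_stp h
  constructor
  · exact List.mem_append_left _ (mem_stp_fst h)
  · rw [h1, vt_append', List.mem_append, ← h2]
    right
    rw [vt_cons, List.tail_cons]
    exact mem_vt_self _ _

theorem stp_rv (p : ℤ × ℤ) (w : Wd) :
    stp (ep p w) (rv w) = ((stp p w).map (fun q => (q.1 + dv q.2, q.2 + 2))).reverse := by
  induction w generalizing p with
  | nil => simp [rv]
  | cons s w ih =>
    rw [rv_cons, stp_append, ep_cons, ep_rv, ih, stp_cons, stp_cons, stp_nil]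
    simp

/-! ### the crossing predicate -/

theorem xs_iff {h : ℤ} {q : (ℤ × ℤ) × Fin 4} :
    xs h q = true ↔ (q.2 = 0 ∧ q.1.1 = h) ∨ (q.2 = 2 ∧ q.1.1 = h + 1) := by
  unfold xs; exact decide_eq_true_iff

theorem xs_add (h : ℤ) (q : (ℤ × ℤ) × Fin 4) (a : ℤ × ℤ) :
    xs h (q.1 + a, q.2) = xs (h - a.1) q := by
  unfold xs
  simp only [Prod.fst_add]
  congr 1
  apply propext
  constructor
  · rintro (⟨h1, h2⟩ | ⟨h1, h2⟩)
    · exact Or.inl ⟨h1, by omega⟩
    · exact Or.inr ⟨h1, by omega⟩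
  · rintro (⟨h1, h2⟩ | ⟨h1, h2⟩)
    · exact Or.inl ⟨h1, by omega⟩
    · exact Or.inr ⟨h1, by omega⟩

theorem xs_rev (h : ℤ) (q : (ℤ × ℤ) × Fin 4) : xs h (q.1 + dv q.2, q.2 + 2) = xs h q := by
  obtain ⟨p, s⟩ := q
  unfold xs
  congr 1
  apply propext
  fin_cases s <;> simp [dv] <;> omega

theorem xs_rx (h : ℤ) (q : (ℤ × ℤ) × Fin 4) :
    xs h ((-q.1.1, q.1.2), 2 - q.2) = xs (-h - 1) q := by
  obtain ⟨p, s⟩ := q
  unfold xs
  congr 1
  apply propext
  fin_cases s <;> simp <;> omega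

/-- a crossing step is horizontal and joins the columns `h` and `h + 1` -/
theorem xs_cols {h : ℤ} {q : (ℤ × ℤ) × Fin 4} (hq : xs h q = true) :
    (q.1 + dv q.2).2 = q.1.2 ∧
      ((q.1.1 = h ∧ (q.1 + dv q.2).1 = h + 1) ∨ (q.1.1 = h + 1 ∧ (q.1 + dv q.2).1 = h)) := by
  obtain ⟨p, s⟩ := q
  rw [xs_iff] at hq
  rcases hq with ⟨h1, h2⟩ | ⟨h1, h2⟩
  · simp only at h1 h2
    subst h1
    simp [dv, h2]
  · simp only at h1 h2
    subst h1
    simp [dv, h2]

theorem xs_false_of {h : ℤ} {q : (ℤ × ℤ) × Fin 4}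
    (hq : (q.1.1 ≤ h ∧ (q.1 + dv q.2).1 ≤ h) ∨ (h < q.1.1 ∧ h < (q.1 + dv q.2).1)) :
    xs h q = false := by
  by_contra h1
  have h1 : xs h q = true := by simpa using h1
  have := (xs_cols h1).2
  omega

/-! ### number and heights of the crossings -/

theorem cr_def (w : Wd) (h : ℤ) : cr w h = (crs h w).length := by
  unfold cr crs
  rw [List.countP_eq_length_filter]

theorem crh_def (w : Wd) (h : ℤ) : crh w h = ((crs h w).map (fun q => q.1.2)).sum := rfl

@[simp] theorem cr_nil (h : ℤ) : cr [] h = 0 := rfl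

@[simp] theorem crh_nil (h : ℤ) : crh [] h = 0 := rfl

theorem crs_append (h : ℤ) (u v : Wd) :
    crs h (u ++ v) = crs h u ++ (crs (h - (ep 0 u).1) v).map (fun q => (q.1 + ep 0 u, q.2)) := by
  unfold crs
  rw [stp_append, List.filter_append, stp_eq (ep 0 u), List.filter_map]
  congr 2
  refine List.filter_congr fun q _ => ?_
  simp only [Function.comp_apply]
  exact xs_add h q _

theorem cr_append (u v : Wd) (h : ℤ) : cr (u ++ v) h = cr u h + cr v (h - (ep 0 u).1) := by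
  rw [cr_def, crs_append, List.length_append, List.length_map, ← cr_def, ← cr_def]

theorem sum_add_const (l : List ((ℤ × ℤ) × Fin 4)) (a : ℤ × ℤ) :
    (l.map (fun q => (q.1 + a).2)).sum = (l.map (fun q => q.1.2)).sum + l.length * a.2 := by
  induction l with
  | nil => simp
  | cons q l ih =>
    rw [List.map_cons, List.sum_cons, List.map_cons, List.sum_cons, List.length_cons, ih,
      Prod.snd_add]
    push_cast
    ring

theorem crh_append (u v : Wd) (h : ℤ) :
    crh (u ++ v) h =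
      crh u h + (crh v (h - (ep 0 u).1) + cr v (h - (ep 0 u).1) * (ep 0 u).2) := by
  rw [crh_def, crs_append, List.map_append, List.sum_append, List.map_map, ← crh_def]
  congr 1
  rw [cr_def, crh_def, ← sum_add_const]
  rfl

theorem cr_cons (s : Fin 4) (v : Wd) (h : ℤ) :
    cr (s :: v) h = (if xs h (0, s) then 1 else 0) + cr v (h - (dv s).1) := by
  have h1 := cr_append [s] v h
  have h2 : cr [s] h = if xs h (0, s) then 1 else 0 := by
    unfold cr
    simp only [stp_cons, stp_nil, List.countP_cons, List.countP_nil, zero_add]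
  simp only [List.cons_append, List.nil_append, ep_cons, ep_nil, zero_add] at h1
  rw [h1, h2]

theorem crs_rv (h : ℤ) (w : Wd) : crs h (rv w) =
    ((crs (h + (ep 0 w).1) w).map (fun q => (q.1 + dv q.2 - ep 0 w, q.2 + 2))).reverse := by
  unfold crs
  have h1 : stp 0 (rv w) =
      ((stp 0 w).map (fun q => (q.1 + dv q.2 - ep 0 w, q.2 + 2))).reverse := by
    have h2 := stp_rv 0 w
    have h3 := stp_add (ep 0 w) (-ep 0 w) (rv w)
    rw [add_neg_cancel] at h3
    rw [h3, h2, List.map_reverse, List.map_map]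
    congr 2
  rw [h1, List.filter_reverse, List.filter_map]
  congr 2
  refine List.filter_congr fun q _ => ?_
  simp only [Function.comp_apply]
  have h4 := xs_add h (q.1 + dv q.2, q.2 + 2) (-ep 0 w)
  simp only [Prod.fst_neg, sub_neg_eq_add] at h4
  rw [← xs_rev (h + (ep 0 w).1) q, ← h4, sub_eq_add_neg]

theorem cr_rv (w : Wd) (h : ℤ) : cr (rv w) h = cr w (h + (ep 0 w).1) := by
  rw [cr_def, crs_rv, List.length_reverse, List.length_map, ← cr_def]

theorem crh_rv (w : Wd) (h : ℤ) :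
    crh (rv w) h = crh w (h + (ep 0 w).1) - cr w (h + (ep 0 w).1) * (ep 0 w).2 := by
  rw [crh_def, crs_rv, List.map_reverse, List.sum_reverse, List.map_map, crh_def, cr_def]
  have h1 : ∀ l : List ((ℤ × ℤ) × Fin 4), (∀ q ∈ l, xs (h + (ep 0 w).1) q = true) →
      (l.map ((fun q => q.1.2) ∘ fun q => (q.1 + dv q.2 - ep 0 w, q.2 + 2))).sum =
        (l.map (fun q => q.1.2)).sum - l.length * (ep 0 w).2 := by
    intro l
    induction l with
    | nil => simp
    | cons q l ih =>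
      intro hl
      have h2 := ih fun q' hq' => hl q' (List.mem_cons_of_mem _ hq')
      have h3 := (xs_cols (hl q List.mem_cons_self)).1
      simp only [List.map_cons, List.sum_cons, List.length_cons, h2, Function.comp_apply,
        Prod.snd_sub, h3]
      push_cast
      ring
  exact h1 _ fun q hq => (List.mem_filter.1 hq).2

/-! ### reflection -/

/-- reflection of a vertex -/
def rxv (p : ℤ × ℤ) : ℤ × ℤ := (-p.1, p.2)

theorem rxv_add (p q : ℤ × ℤ) : rxv (p + q) = rxv p + rxv q := by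
  unfold rxv; ext <;> simp [add_comm]

theorem rxv_zero : rxv 0 = 0 := rfl

theorem rxv_rxv (p : ℤ × ℤ) : rxv (rxv p) = p := by unfold rxv; ext <;> simp

theorem rxv_injective : Function.Injective rxv := fun a b h => by
  rw [← rxv_rxv a, h, rxv_rxv]

theorem dv_two_sub (s : Fin 4) : dv (2 - s) = rxv (dv s) := by
  fin_cases s <;> simp [dv, rxv]

@[simp] theorem rx_nil : rx [] = [] := rfl

theorem rx_cons (s : Fin 4) (w : Wd) : rx (s :: w) = (2 - s) :: rx w := rfl

theorem rx_append (u v : Wd) : rx (u ++ v) = rx u ++ rx v := by unfold rx; simp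

theorem rx_rx (w : Wd) : rx (rx w) = w := by
  unfold rx
  rw [List.map_map]
  have : ((fun s : Fin 4 => 2 - s) ∘ fun s => 2 - s) = id := by funext s; simp
  rw [this, List.map_id]

theorem rx_length (w : Wd) : (rx w).length = w.length := by unfold rx; simp

theorem rv_length (w : Wd) : (rv w).length = w.length := by unfold rv; simp

theorem rv_append (u v : Wd) : rv (u ++ v) = rv v ++ rv u := by unfold rv; simp

theorem rv_injective : Function.Injective rv := fun a b h => by rw [← rv_rv a, h, rv_rv]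

theorem rx_injective : Function.Injective rx := fun a b h => by rw [← rx_rx a, h, rx_rx]

theorem rx_rv (w : Wd) : rx (rv w) = rv (rx w) := by
  unfold rx rv
  rw [List.map_reverse, List.map_map, List.map_map]
  congr 2
  funext s
  simp only [Function.comp_apply]
  fin_cases s <;> rfl

theorem ep_rx (p : ℤ × ℤ) (w : Wd) : ep (rxv p) (rx w) = rxv (ep p w) := by
  induction w generalizing p with
  | nil => rfl
  | cons s w ih => rw [rx_cons, ep_cons, ep_cons, dv_two_sub, ← rxv_add, ih]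

theorem stp_rx (p : ℤ × ℤ) (w : Wd) :
    stp (rxv p) (rx w) = (stp p w).map (fun q => (rxv q.1, 2 - q.2)) := by
  induction w generalizing p with
  | nil => rfl
  | cons s w ih => rw [rx_cons, stp_cons, stp_cons, dv_two_sub, ← rxv_add, ih]; rfl

theorem vs_rx (p : ℤ × ℤ) (w : Wd) : vs (rxv p) (rx w) = (vs p w).map rxv := by
  induction w generalizing p with
  | nil => rfl
  | cons s w ih => rw [rx_cons, vs_cons, vs_cons, dv_two_sub, ← rxv_add, ih]; rfl

theorem vt_rx (p : ℤ × ℤ) (w : Wd) : vt (rxv p) (rx w) = (vt p w).map rxv := by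
  unfold vt
  rw [vs_rx, ep_rx, List.map_append]; rfl

theorem ep_rx0 (w : Wd) : ep 0 (rx w) = rxv (ep 0 w) := ep_rx 0 w

theorem vt_rx0 (w : Wd) : vt 0 (rx w) = (vt 0 w).map rxv := vt_rx 0 w

theorem vs_rx0 (w : Wd) : vs 0 (rx w) = (vs 0 w).map rxv := vs_rx 0 w

theorem SAWs_rx {w : Wd} (h : SAWs w) : SAWs (rx w) := by
  show (vt 0 (rx w)).Nodup
  rw [vt_rx0]
  exact h.map rxv_injective

theorem cr_rx (w : Wd) (h : ℤ) : cr (rx w) h = cr w (-h - 1) := by
  unfold cr
  have h1 : stp 0 (rx w) = (stp 0 w).map (fun q => (rxv q.1, 2 - q.2)) := stp_rx 0 w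
  rw [h1, List.countP_map]
  congr 1
  funext q
  exact xs_rx h q

theorem crh_rx (w : Wd) (h : ℤ) : crh (rx w) h = crh w (-h - 1) := by
  unfold crh
  have h1 : stp 0 (rx w) = (stp 0 w).map (fun q => (rxv q.1, 2 - q.2)) := stp_rx 0 w
  rw [h1, List.filter_map, List.map_map]
  have h2 : (xs h ∘ fun q => (rxv q.1, 2 - q.2)) = xs (-h - 1) := funext fun q => xs_rx h q
  rw [h2]
  rfl

/-! ### reversal -/

theorem ep_rv0 (w : Wd) : ep 0 (rv w) = -ep 0 w := by
  have h1 := ep_rv 0 w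
  rw [ep_eq] at h1
  exact eq_neg_of_add_eq_zero_left h1

theorem vt_rv (w : Wd) : vt 0 (rv w) = ((vt 0 w).map (· - ep 0 w)).reverse := by
  have h1 : vt (ep 0 w) (rv w) = (vt 0 w).reverse := by
    unfold vt
    rw [ep_rv]
    exact vs_rv 0 w
  have h2 := vt_add (ep 0 w) (-ep 0 w) (rv w)
  rw [add_neg_cancel] at h2
  rw [h2, h1, List.map_reverse]
  rfl

theorem SAWs_rv {w : Wd} (h : SAWs w) : SAWs (rv w) := by
  show (vt 0 (rv w)).Nodup
  rw [vt_rv, List.nodup_reverse]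
  exact h.map (sub_left_injective)

theorem mem_vt_rv {w : Wd} {p : ℤ × ℤ} : p ∈ vt 0 (rv w) ↔ p + ep 0 w ∈ vt 0 w := by
  rw [vt_rv, List.mem_reverse, List.mem_map]
  constructor
  · rintro ⟨q, hq, rfl⟩
    simpa using hq
  · intro h
    exact ⟨_, h, by simp⟩

/-! ### lines which are not crossed, lines which are crossed -/

theorem cr_eq_zero_of_le {w : Wd} {h : ℤ} (hw : ∀ p ∈ vt 0 w, p.1 ≤ h) : cr w h = 0 := by
  unfold cr
  rw [List.countP_eq_zero]
  intro q hq
  have h1 := mem_stp_vt hq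
  rw [xs_false_of (Or.inl ⟨hw _ h1.1, hw _ h1.2⟩)]
  simp

theorem cr_eq_zero_of_gt {w : Wd} {h : ℤ} (hw : ∀ p ∈ vt 0 w, h < p.1) : cr w h = 0 := by
  unfold cr
  rw [List.countP_eq_zero]
  intro q hq
  have h1 := mem_stp_vt hq
  rw [xs_false_of (Or.inr ⟨hw _ h1.1, hw _ h1.2⟩)]
  simp

theorem crh_eq_zero {w : Wd} {h : ℤ} (hw : cr w h = 0) : crh w h = 0 := by
  rw [cr_def, List.length_eq_zero_iff] at hw
  rw [crh_def, hw]
  rfl

theorem dv_fst_cases (s : Fin 4) :
    (s = 0 ∧ (dv s).1 = 1) ∨ (s = 2 ∧ (dv s).1 = -1) ∨ (s ≠ 0 ∧ s ≠ 2 ∧ (dv s).1 = 0) := by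
  fin_cases s <;> simp [dv]

/-- the parity of the number of crossings tells the side of the end point -/
theorem cr_parity (w : Wd) : ∀ h : ℤ, (0 ≤ h → (Odd (cr w h) ↔ h < (ep 0 w).1)) ∧
    (h < 0 → (Odd (cr w h) ↔ (ep 0 w).1 ≤ h)) := by
  induction w with
  | nil =>
    intro h
    simp only [cr_nil, ep_nil, Prod.fst_zero]
    constructor <;> intro h1 <;> simp <;> omega
  | cons s w ih =>
    intro h
    have h1 := ih (h - (dv s).1)
    rw [cr_cons, ep_cons, zero_add, ep_eq (dv s), Prod.fst_add]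
    rcases dv_fst_cases s with ⟨hs, hd⟩ | ⟨hs, hd⟩ | ⟨hs, hs2, hd⟩
    · rw [hd] at h1 ⊢
      by_cases h0 : h = 0
      · have hx : xs h (0, s) = true := by rw [xs_iff]; left; exact ⟨hs, by simp [h0]⟩
        rw [if_pos hx]
        subst h0
        have h2 := h1.2 (by norm_num)
        constructor
        · intro _
          rw [add_comm, Nat.odd_add_one, h2]
          omega
        · intro h3; omega
      · have hx : ¬ xs h (0, s) = true := by
          rw [xs_iff]; push Not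
          refine ⟨fun _ => by simpa using fun h3 => h0 h3.symm, fun h3 => ?_⟩
          rw [hs] at h3; exact absurd h3 (by decide)
        rw [if_neg hx, zero_add]
        constructor
        · intro h3
          rw [h1.1 (by omega)]; omega
        · intro h3
          rw [h1.2 (by omega)]; omega
    · rw [hd] at h1 ⊢
      by_cases h0 : h = -1
      · have hx : xs h (0, s) = true := by rw [xs_iff]; right; exact ⟨hs, by simp [h0]⟩
        rw [if_pos hx]
        subst h0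
        have h2 := h1.1 (by norm_num)
        constructor
        · intro h3; omega
        · intro _
          rw [add_comm, Nat.odd_add_one, h2]
          omega
      · have hx : ¬ xs h (0, s) = true := by
          rw [xs_iff]; push Not
          refine ⟨fun h3 => ?_, fun _ => ?_⟩
          · rw [hs] at h3; exact absurd h3 (by decide)
          · simp only [Prod.fst_zero]
            omega
        rw [if_neg hx, zero_add]
        constructor
        · intro h3
          rw [h1.1 (by omega)]; omega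
        · intro h3
          rw [h1.2 (by omega)]; omega
    · rw [hd] at h1 ⊢
      have hx : ¬ xs h (0, s) = true := by
        rw [xs_iff]; push Not
        exact ⟨fun h3 => absurd h3 hs, fun h3 => absurd h3 hs2⟩
      rw [if_neg hx, zero_add, sub_zero, add_zero]
      rw [sub_zero] at h1
      exact h1

theorem cr_odd {w : Wd} {h : ℤ} (h0 : 0 ≤ h) : Odd (cr w h) ↔ h < (ep 0 w).1 :=
  (cr_parity w h).1 h0

theorem cr_pos_of_lt {w : Wd} {h : ℤ} (h0 : 0 ≤ h) (h1 : h < (ep 0 w).1) : 1 ≤ cr w h := by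
  have := (cr_odd h0).2 h1
  exact this.pos

/-- the parity of the length -/
theorem length_parity (w : Wd) : Even ((w.length : ℤ) + (ep 0 w).1 + (ep 0 w).2) := by
  induction w with
  | nil => simp
  | cons s w ih =>
    rw [ep_cons, zero_add, ep_eq (dv s), Prod.fst_add, Prod.snd_add, List.length_cons]
    obtain ⟨k, hk⟩ := ih
    have h1 : (dv s).1 + (dv s).2 = 1 ∨ (dv s).1 + (dv s).2 = -1 := by
      fin_cases s <;> simp [dv]
    rcases h1 with h1 | h1
    · exact ⟨k + 1, by push_cast; omega⟩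
    · exact ⟨k, by push_cast; omega⟩

/-! ### words which do not cross a line -/

theorem stay_left {w : Wd} : ∀ {h : ℤ}, 0 ≤ h → cr w h = 0 → ∀ p ∈ vt 0 w, p.1 ≤ h := by
  induction w with
  | nil =>
    intro h h0 _ p hp
    simp only [vt_nil, List.mem_singleton] at hp
    subst hp
    exact h0
  | cons s w ih =>
    intro h h0 hc p hp
    rw [cr_cons] at hc
    have hx : ¬ xs h (0, s) = true := by
      intro hx
      rw [if_pos hx] at hc
      omega
    have hc2 : cr w (h - (dv s).1) = 0 := by omega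
    rw [vt_cons, List.mem_cons] at hp
    rcases hp with rfl | hp
    · exact h0
    · rw [zero_add, vt_eq, List.mem_map] at hp
      obtain ⟨q, hq, rfl⟩ := hp
      rcases dv_fst_cases s with ⟨hs, hd⟩ | ⟨hs, hd⟩ | ⟨hs, hs2, hd⟩
      · have h1 : h ≠ 0 := by
          rintro rfl
          apply hx
          rw [xs_iff]
          exact Or.inl ⟨hs, rfl⟩
        have := ih (by omega) hc2 q hq
        rw [Prod.fst_add]
        omega
      · have := ih (by omega) hc2 q hq
        rw [Prod.fst_add]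
        omega
      · have := ih (by omega) hc2 q hq
        rw [Prod.fst_add]
        omega

theorem stay_right {w : Wd} : ∀ {h : ℤ}, h < 0 → cr w h = 0 → ∀ p ∈ vt 0 w, h < p.1 := by
  intro h h0 hc p hp
  have h1 : cr (rx w) (-h - 1) = 0 := by
    rw [cr_rx]
    rw [show -(-h - 1) - 1 = h by ring]
    exact hc
  have h2 := stay_left (w := rx w) (h := -h - 1) (by omega) h1 (rxv p) (by
    rw [vt_rx0]
    exact List.mem_map_of_mem hp)
  simp only [rxv] at h2
  omega

/-! ### splitting words -/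

theorem SAWs_left {u v : Wd} (h : SAWs (u ++ v)) : SAWs u := (SAWs_append u v h).1

theorem SAWs_right {u v : Wd} (h : SAWs (u ++ v)) : SAWs v := (SAWs_append u v h).2

theorem ep_app (u v : Wd) : ep 0 (u ++ v) = ep 0 v + ep 0 u := by
  rw [ep_append, ep_eq (ep 0 u)]

theorem fst_ep_app (u v : Wd) : (ep 0 (u ++ v)).1 = (ep 0 u).1 + (ep 0 v).1 := by
  rw [ep_app, Prod.fst_add, add_comm]

theorem snd_ep_app (u v : Wd) : (ep 0 (u ++ v)).2 = (ep 0 u).2 + (ep 0 v).2 := by
  rw [ep_app, Prod.snd_add, add_comm]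

theorem mem_vt_left {u : Wd} (v : Wd) {p : ℤ × ℤ} (h : p ∈ vt 0 u) : p ∈ vt 0 (u ++ v) := by
  rw [vt_append']; exact List.mem_append_left _ h

theorem mem_vt_right (u : Wd) {v : Wd} {p : ℤ × ℤ} (h : p ∈ vt 0 v) :
    p + ep 0 u ∈ vt 0 (u ++ v) := by
  rw [vt_append, vt_eq (ep 0 u)]
  exact List.mem_append_right _ (List.mem_map.2 ⟨p, h, rfl⟩)

theorem mem_vt_app {u v : Wd} {p : ℤ × ℤ} :
    p ∈ vt 0 (u ++ v) ↔ p ∈ vt 0 u ∨ p - ep 0 u ∈ vt 0 v := by
  constructor
  · intro h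
    rw [vt_append', List.mem_append] at h
    rcases h with h | h
    · exact Or.inl h
    · right
      have h1 := List.mem_of_mem_tail h
      rw [vt_eq, List.mem_map] at h1
      obtain ⟨q, hq, rfl⟩ := h1
      simpa using hq
  · rintro (h | h)
    · exact mem_vt_left v h
    · have := mem_vt_right u h
      simpa using this

/-- vertices of the first part are different from the later vertices of the second part -/
theorem disj_app {u v : Wd} (h : SAWs (u ++ v)) {p : ℤ × ℤ} (hp : p ∈ vt 0 u)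
    (hq : p - ep 0 u ∈ (vt 0 v).tail) : False := by
  have h1 : (vt 0 (u ++ v)).Nodup := h
  rw [vt_append', List.nodup_append] at h1
  have h2 : p ∈ (vt (ep 0 u) v).tail := by
    rw [vt_eq, ← List.map_tail]
    exact List.mem_map.2 ⟨_, hq, by simp⟩
  exact h1.2.2 p hp p h2 rfl

theorem SAWs_app_iff {u v : Wd} : SAWs (u ++ v) ↔ SAWs u ∧ SAWs v ∧
    ∀ p ∈ vt 0 u, p - ep 0 u ∉ (vt 0 v).tail := by
  constructor
  · exact fun h => ⟨SAWs_left h, SAWs_right h, fun p hp hq => disj_app h hp hq⟩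
  · rintro ⟨h1, h2, h3⟩
    show (vt 0 (u ++ v)).Nodup
    rw [vt_append', List.nodup_append]
    refine ⟨h1, ?_, ?_⟩
    · have : (vt (ep 0 u) v).Nodup := (nodup_vt _ _).2 h2
      exact this.tail
    · rintro p hp q hq rfl
      rw [vt_eq, ← List.map_tail, List.mem_map] at hq
      obtain ⟨q, hq, rfl⟩ := hq
      exact h3 _ hp (by simpa using hq)

theorem mem_vt_tail_app {u v : Wd} (hu : u ≠ []) {p : ℤ × ℤ} :
    p ∈ (vt 0 (u ++ v)).tail ↔ p ∈ (vt 0 u).tail ∨ p - ep 0 u ∈ (vt 0 v).tail := by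
  have h1 : vt 0 u ≠ [] := by unfold vt; simp
  rw [vt_append', List.tail_append_of_ne_nil h1, List.mem_append, vt_eq (ep 0 u), ← List.map_tail,
    List.mem_map]
  constructor
  · rintro (h | ⟨q, hq, rfl⟩)
    · exact Or.inl h
    · exact Or.inr (by simpa using hq)
  · rintro (h | h)
    · exact Or.inl h
    · exact Or.inr ⟨_, h, by simp⟩

theorem dv_fst_le (s : Fin 4) : (dv s).1 ≤ 1 ∧ -1 ≤ (dv s).1 := by
  rcases dv_fst_cases s with ⟨_, h⟩ | ⟨_, h⟩ | ⟨_, _, h⟩ <;> omega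

/-- first visit of the column `h` -/
theorem first_col {w : Wd} {h : ℤ} (h0 : 0 ≤ h) (hv : ∃ v ∈ vt 0 w, h ≤ v.1) :
    ∃ u v, w = u ++ v ∧ (ep 0 u).1 = h ∧ ∀ p ∈ vs 0 u, p.1 < h := by
  obtain ⟨u, v, rfl, h1, h2⟩ := split_first (fun p => h ≤ p.1) w 0 hv
  refine ⟨u, v, rfl, le_antisymm ?_ h1, fun p hp => not_le.1 (h2 p hp)⟩
  rcases List.eq_nil_or_concat u with rfl | ⟨u', s, rfl⟩
  · exact h0
  · simp only [List.concat_eq_append] at *
    have h3 : ep 0 u' ∈ vs 0 (u' ++ [s]) := by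
      rw [vs_append]
      exact List.mem_append_right _ List.mem_cons_self
    have h4 := not_le.1 (h2 _ h3)
    have h5 := fst_ep_app u' [s]
    rw [ep_cons, ep_nil, zero_add] at h5
    have := (dv_fst_le s).1
    rw [h5]
    omega

/-- last visit of the column `h` -/
theorem last_col {w : Wd} {h : ℤ} (hv : ∃ v ∈ vt 0 w, v.1 ≤ h) (hend : h ≤ (ep 0 w).1) :
    ∃ u v, w = u ++ v ∧ (ep 0 u).1 = h ∧ ∀ p ∈ (vt 0 v).tail, 0 < p.1 := by
  obtain ⟨u, v, rfl, h1, h2⟩ := split_last (fun p => p.1 ≤ h) w 0 hv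
  have h3 : ∀ p ∈ (vt 0 v).tail, h < p.1 + (ep 0 u).1 := by
    intro p hp
    refine not_le.1 (h2 (p + ep 0 u) ?_)
    rw [vt_eq, ← List.map_tail]
    exact List.mem_map_of_mem hp
  have h4 : (ep 0 u).1 = h := by
    refine le_antisymm h1 ?_
    cases v with
    | nil => rwa [List.append_nil] at hend
    | cons s v =>
      have h5 := h3 (dv s) (by
        rw [vt_cons, List.tail_cons, zero_add]
        exact mem_vt_self _ _)
      have := (dv_fst_le s).1
      omega
  exact ⟨u, v, rfl, h4, fun p hp => by have := h3 p hp; omega⟩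

/-- first crossing of the line `h` -/
theorem first_cross {w : Wd} {h : ℤ} (h0 : 0 ≤ h) (hv : ∃ p ∈ vt 0 w, h < p.1) :
    ∃ u v, w = u ++ 0 :: v ∧ (ep 0 u).1 = h ∧ ∀ p ∈ vt 0 u, p.1 ≤ h := by
  obtain ⟨u, v, rfl, h1, h2⟩ := split_first (fun p => h < p.1) w 0 hv
  rcases List.eq_nil_or_concat u with rfl | ⟨u', s, rfl⟩
  · exact absurd h1 (not_lt.2 h0)
  · simp only [List.concat_eq_append] at *
    have h3 : ∀ p ∈ vt 0 u', p.1 ≤ h := by
      intro p hp
      refine not_lt.1 (h2 p ?_)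
      rw [vs_append, vs_cons, vs_nil]
      exact hp
    have h4 := h3 _ (ep_mem_vt _ _)
    have h5 := fst_ep_app u' [s]
    rw [ep_cons, ep_nil, zero_add] at h5
    rw [h5] at h1
    have h6 : s = 0 ∧ (ep 0 u').1 = h := by
      rcases dv_fst_cases s with ⟨hs, h⟩ | ⟨_, h⟩ | ⟨_, _, h⟩
      · exact ⟨hs, by omega⟩
      · omega
      · omega
    obtain ⟨rfl, h7⟩ := h6
    exact ⟨u', v, by simp, h7, h3⟩

/-- last crossing of the line `h` -/
theorem last_cross {w : Wd} {h : ℤ} (hv : ∃ p ∈ vt 0 w, p.1 ≤ h) (hend : h < (ep 0 w).1) :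
    ∃ u v, w = u ++ 0 :: v ∧ (ep 0 u).1 = h ∧ ∀ p ∈ (vt 0 (0 :: v)).tail, 0 < p.1 := by
  obtain ⟨u, v, rfl, h1, h2⟩ := last_col hv hend.le
  cases v with
  | nil =>
    rw [List.append_nil] at hend
    omega
  | cons s v =>
    have h3 := h2 (dv s) (by
      rw [vt_cons, List.tail_cons, zero_add]
      exact mem_vt_self _ _)
    have hs : s = 0 := by
      rcases dv_fst_cases s with ⟨hs, _⟩ | ⟨_, h⟩ | ⟨_, _, h⟩
      · exact hs
      · omega
      · omega
    subst hs
    exact ⟨u, v, rfl, h1, h2⟩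

/-! ### bridges -/

theorem Bri_col {m : ℕ} {w : Wd} (hw : w ∈ Bri m) {p : ℤ × ℤ} (hp : p ∈ vt 0 w) :
    0 ≤ p.1 ∧ p.1 ≤ m := by
  rw [vt_head, List.mem_cons] at hp
  rcases hp with rfl | hp
  · exact ⟨le_rfl, by simp⟩
  · have := hw.2.2 p hp
    exact ⟨this.1.le, this.2⟩

theorem Bri_zero {w : Wd} : w ∈ Bri 0 ↔ w = [] := by
  constructor
  · intro h
    cases w with
    | nil => rfl
    | cons s w =>
      have h1 := h.2.2 (dv s) (by
        rw [vt_cons, List.tail_cons, zero_add]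
        exact mem_vt_self _ _)
      have h2 : ((0 : ℕ) : ℤ) = 0 := rfl
      rw [h2] at h1
      omega
  · rintro rfl
    exact ⟨List.nodup_singleton _, rfl, by simp [vt]⟩

theorem Bri_ne_nil {m : ℕ} {w : Wd} (hw : w ∈ Bri m) (hm : 1 ≤ m) : w ≠ [] := by
  rintro rfl
  have := hw.2.1
  simp only [ep_nil, Prod.fst_zero] at this
  omega

theorem Bri_cons {m : ℕ} {w : Wd} (hw : w ∈ Bri m) (hm : 1 ≤ m) : ∃ t, w = 0 :: t := by
  cases w with
  | nil => exact absurd rfl (Bri_ne_nil hw hm)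
  | cons s w =>
    have h1 := (hw.2.2 (dv s) (by
      rw [vt_cons, List.tail_cons, zero_add]
      exact mem_vt_self _ _)).1
    rcases dv_fst_cases s with ⟨hs, _⟩ | ⟨_, h⟩ | ⟨_, _, h⟩
    · exact ⟨w, by rw [hs]⟩
    · omega
    · omega

theorem cr_Bri_out {m : ℕ} {w : Wd} (hw : w ∈ Bri m) {h : ℤ} (hh : h < 0 ∨ (m : ℤ) ≤ h) :
    cr w h = 0 := by
  rcases hh with hh | hh
  · exact cr_eq_zero_of_gt fun p hp => lt_of_lt_of_le hh (Bri_col hw hp).1
  · exact cr_eq_zero_of_le fun p hp => (Bri_col hw hp).2.trans hh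

theorem cr_Bri_pos {m : ℕ} {w : Wd} (hw : w ∈ Bri m) {h : ℤ} (h0 : 0 ≤ h) (h1 : h < m) :
    1 ≤ cr w h := cr_pos_of_lt h0 (by rw [hw.2.1]; exact h1)

theorem cr_Bri_odd {m : ℕ} {w : Wd} (hw : w ∈ Bri m) {h : ℤ} (h0 : 0 ≤ h) (h1 : h < m) :
    Odd (cr w h) := (cr_odd h0).2 (by rw [hw.2.1]; exact h1)

theorem Bri_tail_cr {m : ℕ} {t : Wd} (hw : (0 :: t : Wd) ∈ Bri m) : cr t (-1) = 0 := by
  refine cr_eq_zero_of_gt fun p hp => ?_
  have h1 := (hw.2.2 (p + dv 0) (by
    rw [vt_cons, List.tail_cons, zero_add, vt_eq]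
    exact List.mem_map_of_mem hp)).1
  have h2 : (dv 0).1 = 1 := rfl
  rw [Prod.fst_add, h2] at h1
  omega

theorem cr_Bri_zero {m : ℕ} {w : Wd} (hw : w ∈ Bri m) (hm : 1 ≤ m) : cr w 0 = 1 := by
  obtain ⟨t, rfl⟩ := Bri_cons hw hm
  rw [cr_cons]
  have h2 : (dv 0).1 = 1 := rfl
  have h1 : xs 0 (0, 0) = true := by rw [xs_iff]; exact Or.inl ⟨rfl, rfl⟩
  rw [if_pos h1, h2, zero_sub, Bri_tail_cr hw]

theorem crh_Bri_zero {m : ℕ} {w : Wd} (hw : w ∈ Bri m) : crh w 0 = 0 := by
  rcases Nat.eq_zero_or_pos m with rfl | hm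
  · rw [Bri_zero] at hw
    rw [hw]
    rfl
  · obtain ⟨t, rfl⟩ := Bri_cons hw hm
    have h1 := crh_append [0] t 0
    have h2 : (dv 0).1 = 1 := rfl
    rw [List.singleton_append] at h1
    rw [h1, ep_cons, ep_nil, zero_add, h2, zero_sub, crh_eq_zero (Bri_tail_cr hw),
      Bri_tail_cr hw]
    simp [crh, stp, xs]

theorem Bri_append {a b : ℕ} {u v : Wd} (hu : u ∈ Bri a) (hv : v ∈ Bri b) :
    u ++ v ∈ Bri (a + b) := by
  rcases Nat.eq_zero_or_pos a with rfl | ha
  · rw [Bri_zero] at hu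
    rw [hu, List.nil_append, zero_add]
    exact hv
  refine ⟨?_, ?_, ?_⟩
  · rw [SAWs_app_iff]
    refine ⟨hu.1, hv.1, fun p hp hq => ?_⟩
    have h1 := (Bri_col hu hp).2
    have h2 := (hv.2.2 _ hq).1
    rw [Prod.fst_sub, hu.2.1] at h2
    omega
  · rw [fst_ep_app, hu.2.1, hv.2.1]
    push_cast
    ring
  · intro p hp
    rw [mem_vt_tail_app (Bri_ne_nil hu ha)] at hp
    rcases hp with hp | hp
    · have := hu.2.2 p hp
      push_cast
      omega
    · have := hv.2.2 _ hp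
      rw [Prod.fst_sub, hu.2.1] at this
      push_cast
      omega

theorem cr_app_lt {a b : ℕ} {u v : Wd} (hu : u ∈ Bri a) (hv : v ∈ Bri b) {k : ℤ} (hk : k < a) :
    cr (u ++ v) k = cr u k := by
  rw [cr_append, hu.2.1, cr_Bri_out hv (Or.inl (by omega)), add_zero]

theorem cr_app_ge {a : ℕ} {u : Wd} (v : Wd) (hu : u ∈ Bri a) {k : ℤ} (hk : (a : ℤ) ≤ k) :
    cr (u ++ v) k = cr v (k - a) := by
  rw [cr_append, hu.2.1, cr_Bri_out hu (Or.inr hk), zero_add]

theorem crh_app_lt {a b : ℕ} {u v : Wd} (hu : u ∈ Bri a) (hv : v ∈ Bri b) {k : ℤ} (hk : k < a) :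
    crh (u ++ v) k = crh u k := by
  have h1 : cr v (k - a) = 0 := cr_Bri_out hv (Or.inl (by omega))
  rw [crh_append, hu.2.1, crh_eq_zero h1, h1]
  simp

theorem crh_app_ge {a : ℕ} {u : Wd} (v : Wd) (hu : u ∈ Bri a) {k : ℤ} (hk : (a : ℤ) ≤ k) :
    crh (u ++ v) k = crh v (k - a) + cr v (k - a) * (ep 0 u).2 := by
  rw [crh_append, hu.2.1, crh_eq_zero (cr_Bri_out hu (Or.inr hk)), zero_add]

theorem Bri_split {m : ℕ} {w : Wd} (hw : w ∈ Bri m) {h : ℕ} (hm : h ≤ m)
    (hc : h = 0 ∨ h = m ∨ cr w h = 1) : ∃ u v, w = u ++ v ∧ u ∈ Bri h ∧ v ∈ Bri (m - h) := by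
  rcases Nat.eq_zero_or_pos h with rfl | h0
  · exact ⟨[], w, rfl, Bri_zero.2 rfl, hw⟩
  rcases hm.eq_or_lt with rfl | hlt
  · exact ⟨w, [], by simp, hw, by rw [Nat.sub_self]; exact Bri_zero.2 rfl⟩
  have hc : cr w h = 1 := by
    rcases hc with h1 | h1 | h1
    · omega
    · omega
    · exact h1
  obtain ⟨u, v, rfl, h1, h2⟩ := first_cross (w := w) (h := h) (by positivity)
    ⟨ep 0 w, ep_mem_vt _ _, by rw [hw.2.1]; exact_mod_cast hlt⟩
  have h3 : (dv 0).1 = 1 := rfl
  have h4 : xs 0 (0, 0) = true := by rw [xs_iff]; exact Or.inl ⟨rfl, rfl⟩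
  have h5 : cr v (-1) = 0 := by
    rw [cr_append, cr_eq_zero_of_le h2, h1, sub_self, cr_cons, if_pos h4, h3, zero_sub] at hc
    omega
  have h6 := stay_right (by norm_num) h5
  have hune : u ≠ [] := by
    rintro rfl
    simp only [ep_nil, Prod.fst_zero] at h1
    omega
  refine ⟨u, 0 :: v, rfl, ⟨SAWs_left hw.1, h1, fun p hp => ⟨?_, h2 p (List.mem_of_mem_tail hp)⟩⟩,
    ⟨SAWs_right hw.1, ?_, fun p hp => ⟨?_, ?_⟩⟩⟩
  · exact (hw.2.2 p ((mem_vt_tail_app hune).2 (Or.inl hp))).1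
  · have := hw.2.1
    rw [fst_ep_app, h1] at this
    push_cast [Nat.cast_sub hlt.le]
    omega
  · rw [vt_cons, List.tail_cons, zero_add, vt_eq, List.mem_map] at hp
    obtain ⟨q, hq, rfl⟩ := hp
    have := h6 q hq
    rw [Prod.fst_add, h3]
    omega
  · have h7 := (Bri_col hw (mem_vt_right u (List.mem_of_mem_tail hp))).2
    rw [Prod.fst_add, h1] at h7
    push_cast [Nat.cast_sub hlt.le]
    omega

theorem Bri_append_inj {a b : ℕ} {u v u' v' : Wd} (hu : u ∈ Bri a) (hu' : u' ∈ Bri a)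
    (hv : v ∈ Bri b) (hv' : v' ∈ Bri b) (h : u ++ v = u' ++ v') : u = u' ∧ v = v' := by
  have key : ∀ {u v u' v' : Wd}, u ∈ Bri a → u' ∈ Bri a → v ∈ Bri b → v' ∈ Bri b →
      u.length ≤ u'.length → u ++ v = u' ++ v' → u = u' ∧ v = v' := by
    intro u v u' v' hu hu' hv hv' hl h
    rw [List.append_eq_append_iff] at h
    rcases h with ⟨x, h1, h2⟩ | ⟨x, h1, h2⟩
    · rcases x.eq_nil_or_concat with rfl | ⟨x', s, rfl⟩
      · simp only [List.append_nil, List.nil_append] at h1 h2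
        exact ⟨h1.symm, h2⟩
      · exfalso
        simp only [List.concat_eq_append] at *
        have h3 : (ep 0 (x' ++ [s])).1 = 0 := by
          have h4 := hu'.2.1
          rw [h1, fst_ep_app, hu.2.1] at h4
          omega
        have h5 : ep 0 (x' ++ [s]) ∈ (vt 0 v).tail := by
          rw [h2, mem_vt_tail_app (by simp)]
          left
          cases x' with
          | nil => simp [vt_cons]
          | cons r x' =>
            rw [List.cons_append, vt_cons, List.tail_cons]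
            exact ep_mem_vt _ _
        have := (hv.2.2 _ h5).1
        omega
    · have h3 : x = [] := by
        have := congrArg List.length h1
        rw [List.length_append] at this
        exact List.length_eq_zero_iff.1 (by omega)
      subst h3
      simp only [List.append_nil, List.nil_append] at h1 h2
      exact ⟨h1, h2.symm⟩
  rcases le_total u.length u'.length with hl | hl
  · exact key hu hu' hv hv' hl h
  · have := key hu' hu hv' hv hl h.symm
    exact ⟨this.1.symm, this.2.symm⟩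

/-! ### pairs -/

/-- concatenation of pairs -/
def cat (p q : Wd × Wd) : Wd × Wd := (p.1 ++ q.1, p.2 ++ q.2)

theorem lg_cat (p q : Wd × Wd) : lg (cat p q) = lg p + lg q := by
  unfold lg cat
  simp only [List.length_append]
  ring

theorem Wz_cat (z : ℝ≥0∞) (p q : Wd × Wd) : Wz z (cat p q) = Wz z p * Wz z q := by
  unfold Wz
  rw [lg_cat, pow_add]

theorem wz_append (z : ℝ≥0∞) (u v : Wd) : wz z (u ++ v) = wz z u * wz z v := by
  unfold wz
  rw [List.length_append, pow_add]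

theorem Wz_eq (z : ℝ≥0∞) (p : Wd × Wd) : Wz z p = wz z p.1 * wz z p.2 := by
  unfold Wz wz lg
  rw [pow_add]

theorem Brp_out {c m : ℕ} {p : Wd × Wd} (hp : p ∈ Brp c m) {h : ℤ} (hh : h < 0 ∨ (m : ℤ) ≤ h) :
    cr p.1 h + cr p.2 h = 0 := by rw [cr_Bri_out hp.1 hh, cr_Bri_out hp.2.1 hh]

theorem Brp_pos {c m : ℕ} {p : Wd × Wd} (hp : p ∈ Brp c m) {h : ℤ} (h0 : 0 ≤ h) (h1 : h < m) :
    1 ≤ cr p.1 h ∧ 1 ≤ cr p.2 h := ⟨cr_Bri_pos hp.1 h0 h1, cr_Bri_pos hp.2.1 h0 h1⟩

theorem Brp_zero {c : ℕ} {p : Wd × Wd} : p ∈ Brp c 0 ↔ p = ([], []) := by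
  constructor
  · intro h
    exact Prod.ext (Bri_zero.1 h.1) (Bri_zero.1 h.2.1)
  · rintro rfl
    exact ⟨Bri_zero.2 rfl, Bri_zero.2 rfl, fun h => by simp⟩

theorem Y_zero (c : ℕ) (z : ℝ≥0∞) : Y c z 0 = 1 := by
  have h1 : Brp c 0 = {(([] : Wd), ([] : Wd))} := by
    ext p
    rw [Brp_zero]
    rfl
  unfold Y
  rw [h1, gs_singleton]
  simp [Wz, lg]

theorem Brp_CC_zero {c m : ℕ} {p : Wd × Wd} (hp : p ∈ Brp c m) (hm : 1 ≤ m) : CC p 0 :=
  ⟨cr_Bri_zero hp.1 hm, cr_Bri_zero hp.2.1 hm⟩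

theorem Brp_mono {c c' m : ℕ} (h : c ≤ c') : Brp c m ⊆ Brp c' m :=
  fun _ hp => ⟨hp.1, hp.2.1, fun k => (hp.2.2 k).trans h⟩

theorem cr_cat_lt {c a b : ℕ} {p q : Wd × Wd} (hp : p ∈ Brp c a) (hq : q ∈ Brp c b) {k : ℤ}
    (hk : k < a) : cr (cat p q).1 k = cr p.1 k ∧ cr (cat p q).2 k = cr p.2 k :=
  ⟨cr_app_lt hp.1 hq.1 hk, cr_app_lt hp.2.1 hq.2.1 hk⟩

theorem cr_cat_ge {c a : ℕ} {p : Wd × Wd} (q : Wd × Wd) (hp : p ∈ Brp c a) {k : ℤ}
    (hk : (a : ℤ) ≤ k) : cr (cat p q).1 k = cr q.1 (k - a) ∧ cr (cat p q).2 k = cr q.2 (k - a) :=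
  ⟨cr_app_ge _ hp.1 hk, cr_app_ge _ hp.2.1 hk⟩

theorem cat_mem {c a b : ℕ} {p q : Wd × Wd} (hp : p ∈ Brp c a) (hq : q ∈ Brp c b) :
    cat p q ∈ Brp c (a + b) := by
  refine ⟨Bri_append hp.1 hq.1, Bri_append hp.2.1 hq.2.1, fun k => ?_⟩
  rcases lt_or_ge k (a : ℤ) with hk | hk
  · rw [(cr_cat_lt hp hq hk).1, (cr_cat_lt hp hq hk).2]
    exact hp.2.2 k
  · rw [(cr_cat_ge q hp hk).1, (cr_cat_ge q hp hk).2]
    exact hq.2.2 _

theorem cat_inj {c a b : ℕ} {p q p' q' : Wd × Wd} (hp : p ∈ Brp c a) (hq : q ∈ Brp c b)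
    (hp' : p' ∈ Brp c a) (hq' : q' ∈ Brp c b) (h : cat p q = cat p' q') : p = p' ∧ q = q' := by
  have h1 := Bri_append_inj hp.1 hp'.1 hq.1 hq'.1 (congrArg Prod.fst h)
  have h2 := Bri_append_inj hp.2.1 hp'.2.1 hq.2.1 hq'.2.1 (congrArg Prod.snd h)
  exact ⟨Prod.ext h1.1 h2.1, Prod.ext h1.2 h2.2⟩

theorem Brp_split {c m : ℕ} {p : Wd × Wd} (hp : p ∈ Brp c m) {h : ℕ} (hm : h ≤ m)
    (hc : h = 0 ∨ h = m ∨ CC p h) : ∃ q r, p = cat q r ∧ q ∈ Brp c h ∧ r ∈ Brp c (m - h) := by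
  obtain ⟨u, v, h1, hu, hv⟩ := Bri_split hp.1 hm (hc.imp_right (Or.imp_right fun h => h.1))
  obtain ⟨u', v', h1', hu', hv'⟩ := Bri_split hp.2.1 hm (hc.imp_right (Or.imp_right fun h => h.2))
  refine ⟨(u, u'), (v, v'), Prod.ext h1 h1', ⟨hu, hu', fun k => ?_⟩, ⟨hv, hv', fun k => ?_⟩⟩
  · simp only
    rcases lt_or_ge k (h : ℤ) with hk | hk
    · rw [← cr_app_lt hu hv hk, ← cr_app_lt hu' hv' hk, ← h1, ← h1']
      exact hp.2.2 k
    · rw [cr_Bri_out hu (Or.inr hk), cr_Bri_out hu' (Or.inr hk)]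
      exact Nat.zero_le _
  · simp only
    rcases lt_or_ge k 0 with hk | hk
    · rw [cr_Bri_out hv (Or.inl hk), cr_Bri_out hv' (Or.inl hk)]
      exact Nat.zero_le _
    · have h2 := cr_app_ge v hu (k := k + h) (by omega)
      have h3 := cr_app_ge v' hu' (k := k + h) (by omega)
      rw [add_sub_cancel_right, ← h1] at h2
      rw [add_sub_cancel_right, ← h1'] at h3
      rw [← h2, ← h3]
      exact hp.2.2 _

theorem CC_cat_lt {c a b : ℕ} {p q : Wd × Wd} (hp : p ∈ Brp c a) (hq : q ∈ Brp c b) {k : ℤ}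
    (hk : k < a) : CC (cat p q) k ↔ CC p k := by
  unfold CC
  rw [(cr_cat_lt hp hq hk).1, (cr_cat_lt hp hq hk).2]

theorem CC_cat_ge {c a : ℕ} {p : Wd × Wd} (q : Wd × Wd) (hp : p ∈ Brp c a) {k : ℤ}
    (hk : (a : ℤ) ≤ k) : CC (cat p q) k ↔ CC q (k - a) := by
  unfold CC
  rw [(cr_cat_ge q hp hk).1, (cr_cat_ge q hp hk).2]

/-- the parity of the total length of a pair of bridges -/
theorem lg_even {c a : ℕ} {p : Wd × Wd} (hp : p ∈ Brp c a) (b : ℤ) :
    Even ((ep 0 p.1).2 + (ep 0 p.2).2 + b) ↔ Even ((lg p : ℤ) + b) := by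
  obtain ⟨i, hi⟩ := length_parity p.1
  obtain ⟨j, hj⟩ := length_parity p.2
  have h1 := hp.1.2.1
  have h2 := hp.2.1.2.1
  unfold lg
  push_cast
  constructor
  · rintro ⟨t, ht⟩
    exact ⟨t + (p.1.length + p.2.length + a) - i - j, by omega⟩
  · rintro ⟨t, ht⟩
    exact ⟨t - (p.1.length + p.2.length + a) + i + j, by omega⟩

theorem PC_cat_lt {c a b : ℕ} {p q : Wd × Wd} (hp : p ∈ Brp c a) (hq : q ∈ Brp c b) {k : ℤ}
    (hk : k < a) (t : ℤ) : PC t (cat p q) k ↔ PC t p k := by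
  unfold PC
  have h1 : crh (cat p q).1 k = crh p.1 k := crh_app_lt hp.1 hq.1 hk
  have h2 : crh (cat p q).2 k = crh p.2 k := crh_app_lt hp.2.1 hq.2.1 hk
  rw [CC_cat_lt hp hq hk, h1, h2]

/-- the parity of a cut of the second part -/
theorem PC_cat_ge {c a : ℕ} {p : Wd × Wd} (q : Wd × Wd) (hp : p ∈ Brp c a) {k : ℤ}
    (hk : (a : ℤ) ≤ k) (t : ℤ) : PC t (cat p q) k ↔ PC (lg p + t) q (k - a) := by
  unfold PC
  have h1 : crh (cat p q).1 k = _ := crh_app_ge q.1 hp.1 hk
  have h2 : crh (cat p q).2 k = _ := crh_app_ge q.2 hp.2.1 hk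
  rw [CC_cat_ge q hp hk, h1, h2]
  refine and_congr_right fun hc => ?_
  rw [hc.1, hc.2]
  have h3 := lg_even hp (crh q.1 (k - a) + crh q.2 (k - a) + t)
  rw [show crh q.1 (k - a) + ((1 : ℕ) : ℤ) * (ep 0 p.1).2 +
      (crh q.2 (k - a) + ((1 : ℕ) : ℤ) * (ep 0 p.2).2) + t =
      (ep 0 p.1).2 + (ep 0 p.2).2 + (crh q.1 (k - a) + crh q.2 (k - a) + t) by push_cast; ring, h3]
  rw [show (lg p : ℤ) + (crh q.1 (k - a) + crh q.2 (k - a) + t) =
      crh q.1 (k - a) + crh q.2 (k - a) + (lg p + t) by ring]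

/-- the junction of two pairs of bridges is a cut; its parity is the parity of the first length -/
theorem PC_junction {c a b : ℕ} {p q : Wd × Wd} (hp : p ∈ Brp c a) (hq : q ∈ Brp c b)
    (hb : 1 ≤ b) (t : ℤ) : PC t (cat p q) a ↔ Even ((lg p : ℤ) + t) := by
  rw [PC_cat_ge q hp le_rfl, sub_self]
  unfold PC
  rw [crh_Bri_zero hq.1, crh_Bri_zero hq.2.1, zero_add, zero_add]
  exact and_iff_right (Brp_CC_zero hq hb)

theorem CC_junction {c a b : ℕ} {p q : Wd × Wd} (hp : p ∈ Brp c a) (hq : q ∈ Brp c b)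
    (hb : 1 ≤ b) : CC (cat p q) a := by
  rw [CC_cat_ge q hp le_rfl, sub_self]
  exact Brp_CC_zero hq hb

theorem PC_congr {p : Wd × Wd} {k s t : ℤ} (h : Even (s - t)) : PC s p k ↔ PC t p k := by
  unfold PC
  refine and_congr_right fun _ => ?_
  obtain ⟨j, hj⟩ := h
  constructor
  · rintro ⟨i, hi⟩
    exact ⟨i - j, by omega⟩
  · rintro ⟨i, hi⟩
    exact ⟨i + j, by omega⟩

/-! ### extension -/

theorem natAbs_le_ext {w : Wd} {p : ℤ × ℤ} (hp : p ∈ vt 0 w) : p.1.natAbs ≤ ext w :=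
  Finset.le_sup (f := fun p : ℤ × ℤ => p.1.natAbs) (List.mem_toFinset.2 hp)

theorem exists_ext (w : Wd) : ∃ p ∈ vt 0 w, p.1.natAbs = ext w := by
  have hne : (vt 0 w).toFinset.Nonempty := ⟨0, List.mem_toFinset.2 (mem_vt_self 0 w)⟩
  obtain ⟨p, hp, hd⟩ := Finset.exists_mem_eq_sup _ hne (fun p : ℤ × ℤ => p.1.natAbs)
  exact ⟨p, List.mem_toFinset.1 hp, hd.symm⟩

theorem ext_le_iff {w : Wd} {d : ℕ} : ext w ≤ d ↔ ∀ p ∈ vt 0 w, p.1.natAbs ≤ d := by
  unfold ext
  rw [Finset.sup_le_iff]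
  simp only [List.mem_toFinset]

theorem ext_rx (w : Wd) : ext (rx w) = ext w := by
  apply le_antisymm
  · rw [ext_le_iff]
    intro p hp
    rw [vt_rx0, List.mem_map] at hp
    obtain ⟨q, hq, rfl⟩ := hp
    simp only [rxv, Int.natAbs_neg]
    exact natAbs_le_ext hq
  · rw [ext_le_iff]
    intro p hp
    have h1 : rxv p ∈ vt 0 (rx w) := by
      rw [vt_rx0]
      exact List.mem_map_of_mem hp
    have := natAbs_le_ext h1
    simpa only [rxv, Int.natAbs_neg] using this

theorem ext_append_le (u v : Wd) (h : (ep 0 u).1 = 0) : ext (u ++ v) ≤ max (ext u) (ext v) := by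
  rw [ext_le_iff]
  intro p hp
  rw [mem_vt_app] at hp
  rcases hp with hp | hp
  · exact (natAbs_le_ext hp).trans (le_max_left _ _)
  · have := natAbs_le_ext hp
    rw [Prod.fst_sub, h, sub_zero] at this
    exact this.trans (le_max_right _ _)

theorem natAbs_le_length {w : Wd} {p : ℤ × ℤ} (hp : p ∈ vt 0 w) : p.1.natAbs ≤ w.length := by
  induction w generalizing p with
  | nil =>
    simp only [vt_nil, List.mem_singleton] at hp
    subst hp
    simp
  | cons s w ih =>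
    rw [vt_cons, List.mem_cons, zero_add] at hp
    rcases hp with rfl | hp
    · simp
    · rw [vt_eq, List.mem_map] at hp
      obtain ⟨q, hq, rfl⟩ := hp
      have h1 := ih hq
      have h2 := dv_fst_le s
      rw [Prod.fst_add, List.length_cons]
      omega

/-- lines outside of the extension are not crossed -/
theorem cr_out {w : Wd} {h : ℤ} (hh : (ext w : ℤ) ≤ h ∨ h < -(ext w : ℤ)) : cr w h = 0 := by
  rcases hh with hh | hh
  · refine cr_eq_zero_of_le fun p hp => ?_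
    have := natAbs_le_ext hp
    omega
  · refine cr_eq_zero_of_gt fun p hp => ?_
    have := natAbs_le_ext hp
    omega

/-! ### the number of horizontal steps -/

theorem hz_eq_countP (p : ℤ × ℤ) (w : Wd) :
    hz w = (stp p w).countP (fun q => decide (q.2 = 0 ∨ q.2 = 2)) := by
  induction w generalizing p with
  | nil => rfl
  | cons s w ih =>
    have h1 := ih (p + dv s)
    unfold hz at h1 ⊢
    rw [List.countP_cons, stp_cons, List.countP_cons, h1]

theorem hz_append (u v : Wd) : hz (u ++ v) = hz u + hz v := by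
  unfold hz
  rw [List.countP_append]

theorem sum_xs (s : Finset ℤ) (q : (ℤ × ℤ) × Fin 4) (hs : ∀ h : ℤ, xs h q = true → h ∈ s) :
    ∑ h ∈ s, (if xs h q then 1 else 0 : ℕ) = if q.2 = 0 ∨ q.2 = 2 then 1 else 0 := by
  by_cases h0 : q.2 = 0
  · rw [if_pos (Or.inl h0)]
    have h1 : ∀ h : ℤ, xs h q = true ↔ h = q.1.1 := by
      intro h
      rw [xs_iff, h0]
      constructor
      · rintro (h2 | h2)
        · exact h2.2.symm
        · exact absurd h2.1 (by decide)
      · rintro rfl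
        exact Or.inl ⟨rfl, rfl⟩
    rw [Finset.sum_eq_single q.1.1]
    · rw [if_pos ((h1 _).2 rfl)]
    · intro b _ hb
      rw [if_neg]
      rw [h1]
      exact hb
    · intro h2
      exact absurd (hs _ ((h1 _).2 rfl)) h2
  · by_cases h2 : q.2 = 2
    · rw [if_pos (Or.inr h2)]
      have h1 : ∀ h : ℤ, xs h q = true ↔ h = q.1.1 - 1 := by
        intro h
        rw [xs_iff, h2]
        constructor
        · rintro (h3 | h3)
          · exact absurd h3.1 (by decide)
          · omega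
        · rintro rfl
          exact Or.inr ⟨rfl, by ring⟩
      rw [Finset.sum_eq_single (q.1.1 - 1)]
      · rw [if_pos ((h1 _).2 rfl)]
      · intro b _ hb
        rw [if_neg]
        rw [h1]
        exact hb
      · intro h3
        exact absurd (hs _ ((h1 _).2 rfl)) h3
    · rw [if_neg (by tauto)]
      refine Finset.sum_eq_zero fun h _ => ?_
      rw [if_neg]
      rw [xs_iff]
      tauto

theorem sum_countP (s : Finset ℤ) (l : List ((ℤ × ℤ) × Fin 4))
    (hs : ∀ q ∈ l, ∀ h : ℤ, xs h q = true → h ∈ s) :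
    ∑ h ∈ s, l.countP (xs h) = l.countP (fun q => decide (q.2 = 0 ∨ q.2 = 2)) := by
  induction l with
  | nil => simp
  | cons q l ih =>
    have h1 := ih fun q' hq' => hs q' (List.mem_cons_of_mem _ hq')
    have h2 := sum_xs s q (hs q List.mem_cons_self)
    simp only [List.countP_cons]
    rw [Finset.sum_add_distrib, h1, h2]
    simp

/-- the number of horizontal steps is the sum of the numbers of crossings -/
theorem hz_eq_sum (w : Wd) (s : Finset ℤ) (hs : ∀ h : ℤ, 0 < cr w h → h ∈ s) :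
    hz w = ∑ h ∈ s, cr w h := by
  rw [hz_eq_countP 0]
  refine (sum_countP s (stp 0 w) fun q hq h hx => hs h ?_).symm
  unfold cr
  rw [List.countP_pos_iff]
  exact ⟨q, hq, hx⟩

/-! ### mirror images -/

theorem rxrv_rxrv (w : Wd) : rx (rv (rx (rv w))) = w := by
  rw [rx_rv (rx (rv w)), rx_rx, rv_rv]

theorem cr_rxrv (w : Wd) (h : ℤ) : cr (rx (rv w)) h = cr w ((ep 0 w).1 - 1 - h) := by
  rw [cr_rx, cr_rv]
  congr 1
  ring

theorem mem_vt_rxrv {w : Wd} {p : ℤ × ℤ} :
    p ∈ vt 0 (rx (rv w)) ↔ rxv p + ep 0 w ∈ vt 0 w := by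
  rw [vt_rx0, List.mem_map]
  constructor
  · rintro ⟨q, hq, rfl⟩
    rw [rxv_rxv]
    exact mem_vt_rv.1 hq
  · intro h
    exact ⟨rxv p, mem_vt_rv.2 h, rxv_rxv p⟩

theorem ep_rxrv (w : Wd) : ep 0 (rx (rv w)) = ((ep 0 w).1, -(ep 0 w).2) := by
  rw [ep_rx0, ep_rv0]
  unfold rxv
  simp

end Pool.Agent.XM
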