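import Pool.Agent.XM.Stmts
import Pool.Agent.XM.Lib

/-!
# Column-convex polygons (MP_f6626d_co): ERE, the renewal equation of the even pairs
-/

set_option autoImplicit false

namespace Pool.Agent.XM

open Finset Pool.Agent.Lib27 Pool.Agent.OC
open scoped NNReal ENNReal

namespace ERE

/-- the pairs of `Bre` whose first even cut after the line `0` is `j` (`l` counts as a cut) -/
def S (c l j : ℕ) : Set (Wd × Wd) :=
  {p | p ∈ Bre c l ∧ (j = l ∨ PC 0 p j) ∧ ∀ k : ℤ, 0 < k → k < j → ¬ PC 0 p k}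

theorem split {c l j : ℕ} (h2 : j ≤ l) {p : Wd × Wd} (hp : p ∈ S c l j) :
    ∃ q r, q ∈ Eir c j ∧ r ∈ Bre c (l - j) ∧ p = cat q r := by
  obtain ⟨⟨hB, hE⟩, hj, hno⟩ := hp
  obtain ⟨q, r, rfl, hq, hr⟩ := Brp_split hB h2 (Or.inr (hj.imp_right fun h => h.1))
  have hqe : Even (lg q) := by
    rcases Nat.eq_or_lt_of_le h2 with h3 | h3
    · subst h3
      rw [Nat.sub_self] at hr
      rw [Brp_zero.1 hr, lg_cat] at hE
      simpa [lg] using hE
    · have h4 : PC 0 (cat q r) (j : ℤ) := by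
        rcases hj with hj | hj
        · omega
        · exact hj
      have h6 := (PC_junction hq hr (by omega) 0).1 h4
      rw [add_zero] at h6
      exact_mod_cast h6
  have hre : Even (lg r) := by
    rw [lg_cat] at hE
    exact (Nat.even_add.1 hE).1 hqe
  refine ⟨q, r, ⟨⟨hq, ?_⟩, hqe⟩, ⟨hr, hre⟩, rfl⟩
  intro k hk hk' hcc
  exact hno k (by exact_mod_cast hk) hk' ((PC_cat_lt hq hr hk' 0).2 hcc)

theorem join {c l j : ℕ} (h2 : j ≤ l) {q r : Wd × Wd} (hq : q ∈ Eir c j)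
    (hr : r ∈ Bre c (l - j)) : cat q r ∈ S c l j := by
  obtain ⟨⟨hqB, hqN⟩, hqE⟩ := hq
  obtain ⟨hrB, hrE⟩ := hr
  have hB := cat_mem hqB hrB
  rw [Nat.add_sub_cancel' h2] at hB
  refine ⟨⟨hB, ?_⟩, ?_, ?_⟩
  · rw [lg_cat]
    exact hqE.add hrE
  · rcases Nat.eq_or_lt_of_le h2 with h3 | h3
    · exact Or.inl h3
    · refine Or.inr ((PC_junction hqB hrB (by omega) 0).2 ?_)
      rw [add_zero]
      exact_mod_cast hqE
  · intro k hk hk' hcc
    exact hqN k (by exact_mod_cast hk) hk' ((PC_cat_lt hqB hrB hk' 0).1 hcc)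

theorem gs_S (c l j : ℕ) (z : ℝ≥0∞) (h2 : j ≤ l) :
    gs (Wz z) (S c l j) = we c z j * Ye c z (l - j) := by
  apply le_antisymm
  · refine gs_split2 cat ?_
    intro p hp
    obtain ⟨q, r, hq, hr, rfl⟩ := split h2 hp
    exact ⟨q, r, hq, hr, rfl, (Wz_cat z q r).le⟩
  · refine gs_concat2 cat (fun q hq r hr => join h2 hq hr) ?_
      (fun q _ r _ => (Wz_cat z q r).ge)
    intro q hq r hr q' hq' r' hr' h
    exact cat_inj hq.1.1 hr.1 hq'.1.1 hr'.1 h

theorem disj {c l i j : ℕ} (hi : 1 ≤ i) (hi' : i ≤ l) (hj : 1 ≤ j) (hj' : j ≤ l) {p : Wd × Wd}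
    (hp : p ∈ S c l i) (hp' : p ∈ S c l j) : i = j := by
  obtain ⟨_, h1, h2⟩ := hp
  obtain ⟨_, h1', h2'⟩ := hp'
  rcases lt_trichotomy i j with h | h | h
  · exfalso
    rcases h1 with h1 | h1
    · omega
    · exact h2' i (by exact_mod_cast hi) (by exact_mod_cast h) h1
  · exact h
  · exfalso
    rcases h1' with h1' | h1'
    · omega
    · exact h2 j (by exact_mod_cast hj) (by exact_mod_cast h) h1'

theorem Bre_eq_sum (c m : ℕ) (z : ℝ≥0∞) :
    Ye c z (m + 1) = ∑ j ∈ range (m + 1), gs (Wz z) (S c (m + 1) (j + 1)) := by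
  classical
  apply le_antisymm
  · apply gs_le_sum
    intro p hp
    have hex : ∃ j, 1 ≤ j ∧ (j = m + 1 ∨ PC 0 p (j : ℤ)) := ⟨m + 1, by omega, Or.inl rfl⟩
    have h2 := Nat.find_spec hex
    have h3 : Nat.find hex ≤ m + 1 := Nat.find_min' hex ⟨by omega, Or.inl rfl⟩
    refine ⟨Nat.find hex - 1, Finset.mem_range.2 (by omega), ?_⟩
    rw [Nat.sub_add_cancel h2.1]
    refine ⟨hp, h2.2, ?_⟩
    intro k hk hk' hcc
    obtain ⟨t, rfl⟩ : ∃ t : ℕ, k = t := ⟨k.toNat, by omega⟩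
    exact Nat.find_min hex (m := t) (by exact_mod_cast hk') ⟨by omega, Or.inr hcc⟩
  · apply sum_gs_le
    · intro j _ p hp
      exact hp.1
    · intro i hi j hj p hp hp'
      rw [Finset.mem_range] at hi hj
      have := disj (by omega) (by omega) (by omega) (by omega) hp hp'
      omega

end ERE

/-- ERE -/
theorem ere_thm : ERE_Stmt := by
  intro c z
  constructor
  · have h1 : Bre (c + 2) 0 = {(([] : Wd), ([] : Wd))} := by
      ext p
      constructor
      · intro h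
        exact Brp_zero.1 h.1
      · rintro rfl
        exact ⟨Brp_zero.2 rfl, by simp [lg]⟩
    unfold Ye
    rw [h1, gs_singleton]
    simp [Wz, lg]
  · intro m
    rw [ERE.Bre_eq_sum]
    refine Finset.sum_congr rfl fun j hj => ?_
    rw [Finset.mem_range] at hj
    rw [ERE.gs_S (c + 2) (m + 1) (j + 1) z (by omega)]
    congr 2
    omega

end Pool.Agent.XM
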