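import Pool.Agent.XM.Stmts
import Pool.Agent.OC.Hold

/-!
# EVN : pairs of bridges with only even cuts are exponentially small
-/

set_option autoImplicit false

namespace Pool.Agent.XM

open Finset Pool.Agent.Lib27 Pool.Agent.OC
open scoped NNReal ENNReal

namespace EVN

/-- Hoelder's inequality for sums -/
theorem hold {α : Type} (f g : α → ℝ≥0∞) {t : ℝ} (h0 : 0 < t) (h1 : t < 1) :
    ∑' a, f a ^ (1 - t) * g a ^ t ≤ (∑' a, f a) ^ (1 - t) * (∑' a, g a) ^ t := by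
  let _ : MeasurableSpace α := ⊤
  have h2 := ENNReal.lintegral_mul_norm_pow_le (μ := MeasureTheory.Measure.count)
    (f := f) (g := g)
    (p := 1 - t) (q := t) (measurable_from_top.aemeasurable) (measurable_from_top.aemeasurable)
    (by linarith) h0.le (by ring)
  rwa [MeasureTheory.lintegral_count, MeasureTheory.lintegral_count,
    MeasureTheory.lintegral_count] at h2

theorem irv_le (c : ℕ) (z : ℝ≥0∞) (j : ℕ) : gs (Wz z) (Irv (c + 2) j) ≤ ww (c + 2) z j :=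
  gs_mono _ fun _ h => h.1

theorem mem_irr (c : ℕ) : (([0], [0, 1]) : Wd × Wd) ∈ Irr (c + 2) 1 := by
  refine ⟨⟨⟨?_, ?_, ?_⟩, ⟨?_, ?_, ?_⟩, ?_⟩, ?_⟩
  · show (vt 0 [0]).Nodup
    decide
  · decide
  · intro p hp
    have : p = (1, 0) := by
      simpa [vt, vs, ep, dv] using hp
    subst this
    decide
  · show (vt 0 [0, 1]).Nodup
    decide
  · decide
  · intro p hp
    have : p = (1, 0) ∨ p = (1, 1) := by
      simpa [vt, vs, ep, dv] using hp
    rcases this with rfl | rfl <;> decide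
  · intro h
    have h1 : cr [0] h ≤ 1 := le_trans List.countP_le_length (by simp [stp])
    have h2 : cr [0, 1] h ≤ 1 := by
      have e : cr [0, 1] h = ([((0 : ℤ × ℤ), (0 : Fin 4))] : List _).countP (xs h) := by
        simp [cr, stp, xs, List.countP_cons]
      rw [e]
      exact le_trans List.countP_le_length (by simp)
    show cr [0] h + cr [0, 1] h ≤ c + 2
    omega
  · intro h h1 h2
    push_cast at h1 h2
    omega

theorem gap1 (c : ℕ) (z : ℝ≥0∞) (h : ∑' j : ℕ, ww (c + 2) z (j + 1) = 1) :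
    (∑' j : ℕ, gs (Wz z) (Irv (c + 2) (j + 1))) + z ^ 3 ≤ 1 := by
  have h1 : gs (Wz z) (Irv (c + 2) 1) + z ^ 3 ≤ ww (c + 2) z 1 := by
    have e : z ^ 3 = gs (Wz z) {(([0], [0, 1]) : Wd × Wd)} := by rw [gs_singleton]; rfl
    have hd : Disjoint (Irv (c+2) 1) {(([0], [0, 1]) : Wd × Wd)} := by
      rw [Set.disjoint_singleton_right]
      rintro ⟨_, h2⟩
      revert h2
      decide
    have e2 : gs (Wz z) (Irv (c + 2) 1 ∪ {(([0], [0, 1]) : Wd × Wd)}) =
        gs (Wz z) (Irv (c + 2) 1) + gs (Wz z) {(([0], [0, 1]) : Wd × Wd)} :=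
      ENNReal.summable.tsum_union_disjoint hd ENNReal.summable
    rw [e, ← e2]
    refine gs_mono _ (Set.union_subset (fun p hp => hp.1) ?_)
    rw [Set.singleton_subset_iff]
    exact mem_irr c
  calc (∑' j : ℕ, gs (Wz z) (Irv (c + 2) (j + 1))) + z ^ 3
      = ∑' j : ℕ, (gs (Wz z) (Irv (c + 2) (j + 1)) + if j = 0 then z ^ 3 else 0) := by
        rw [ENNReal.tsum_add, tsum_ite_eq]
    _ ≤ ∑' j : ℕ, ww (c + 2) z (j + 1) := ENNReal.tsum_le_tsum fun j => by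
        rcases j with _ | j
        · simpa using h1
        · simpa using irv_le c z (j + 1 + 1)
    _ = 1 := h

theorem weight (x y q : ℝ≥0∞) (n j : ℕ) {t : ℝ} (h0 : 0 < t) :
    (x ^ n) ^ (1 - t) * (y ^ n * q ^ j) ^ t = (x ^ (1 - t) * y ^ t) ^ n * (q ^ t) ^ j := by
  rw [ENNReal.mul_rpow_of_nonneg _ _ h0.le, HOLD.pw_comm, HOLD.pw_comm, HOLD.pw_comm, mul_pow,
    mul_assoc]

/-- the interpolated sum -/
theorem interp (c : ℕ) (x y q : ℝ≥0∞) {t : ℝ} (h0 : 0 < t) (h1 : t < 1) :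
    ∑' j : ℕ, gs (Wz (x ^ (1 - t) * y ^ t)) (Irv (c + 2) (j + 1)) * (q ^ t) ^ (j + 1) ≤
      (∑' j : ℕ, gs (Wz x) (Irv (c + 2) (j + 1))) ^ (1 - t) *
        (∑' j : ℕ, gs (Wz y) (Irv (c + 2) (j + 1)) * q ^ (j + 1)) ^ t := by
  have h2 := hold (α := Σ j : ℕ, ↥(Irv (c + 2) (j + 1))) (fun p => Wz x p.2)
    (fun p => Wz y p.2 * q ^ (p.1 + 1)) h0 h1
  rw [ENNReal.tsum_sigma', ENNReal.tsum_sigma', ENNReal.tsum_sigma'] at h2
  refine le_trans (le_of_eq ?_) (le_trans h2 (le_of_eq ?_))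
  · refine tsum_congr fun j => ?_
    rw [← gs_mul_right]
    refine tsum_congr fun a => ?_
    exact (weight x y q (lg a) (j + 1) h0).symm
  · congr 2
    refine tsum_congr fun j => ?_
    rw [← gs_mul_right]
    rfl

end EVN

theorem evn_thm (h1 : EVR_Stmt) (h2 : GAP_Stmt) (h3 : MEAN_Stmt) (h4 : ZST_Stmt) : EVN_Stmt := by
  intro c
  obtain ⟨e0, C, r, he0, hr, hgap⟩ := h2 c
  obtain ⟨M, hmean, -⟩ := h3 c
  obtain ⟨hz1, hz2, -, -⟩ := h4 c
  set x : ℝ≥0∞ := zst c with hx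
  have hx0 : x ≠ 0 := by
    intro h
    rw [h] at hz1
    simp at hz1
  have hxt : x ≠ ∞ := ne_top_of_le_ne_top (by simp) hz2
  set y : ℝ≥0∞ := (1 + e0) * x with hy
  -- the number q
  set q : ℝ≥0 := 2 / (1 + r) with hq
  have hq1 : 1 < q := by
    rw [hq, lt_div_iff₀ (by positivity), one_mul, ← one_add_one_eq_two]
    gcongr
  have hrq : r * q < 1 := by
    rw [hq, mul_div_assoc', div_lt_one (by positivity), mul_two]
    gcongr
  -- the two sums
  set F : ℝ≥0∞ := ∑' j : ℕ, gs (Wz x) (Irv (c + 2) (j + 1)) with hF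
  set G : ℝ≥0∞ := ∑' j : ℕ, gs (Wz y) (Irv (c + 2) (j + 1)) * (q : ℝ≥0∞) ^ (j + 1) with hG
  have hF1 : F < 1 := by
    have := EVN.gap1 c x hmean
    have h5 : x ^ 3 ≠ 0 := pow_ne_zero 3 hx0
    have h6 : F ≠ ∞ := ne_top_of_le_ne_top ENNReal.one_ne_top (le_trans le_self_add this)
    exact lt_of_lt_of_le (ENNReal.lt_add_right h6 h5) this
  have hGt : G ≠ ∞ := by
    have h5 : G ≤ ∑' j : ℕ, (C : ℝ≥0∞) * ((r * q : ℝ≥0) : ℝ≥0∞) ^ j := by
      rw [hG]
      refine ENNReal.tsum_le_tsum fun j => ?_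
      have h6 := le_trans (EVN.irv_le c y (j + 1)) (hgap y le_rfl (j + 1))
      calc gs (Wz y) (Irv (c + 2) (j + 1)) * (q : ℝ≥0∞) ^ (j + 1)
          ≤ (C * (r : ℝ≥0∞) ^ (j + 1)) * (q : ℝ≥0∞) ^ (j + 1) := by gcongr
        _ = C * ((r * q : ℝ≥0) : ℝ≥0∞) ^ (j + 1) := by
            rw [ENNReal.coe_mul, mul_pow, mul_assoc]
        _ ≤ C * ((r * q : ℝ≥0) : ℝ≥0∞) ^ j := by
            gcongr 1
            exact pow_le_pow_right_of_le_one' (by exact_mod_cast hrq.le) (Nat.le_succ j)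
    refine ne_top_of_le_ne_top ?_ h5
    rw [ENNReal.tsum_mul_left, ENNReal.tsum_geometric]
    refine ENNReal.mul_ne_top ENNReal.coe_ne_top ?_
    rw [ENNReal.inv_ne_top]
    exact (tsub_pos_of_lt (by exact_mod_cast hrq)).ne'
  -- the exponent
  obtain ⟨n, hn⟩ : ∃ n : ℕ, F ^ (n + 1) * G ≤ 1 := by
    have h5 : Filter.Tendsto (fun n : ℕ => F ^ n * G) Filter.atTop (nhds (0 * G)) :=
      ENNReal.Tendsto.mul_const (ENNReal.tendsto_pow_atTop_nhds_zero_of_lt_one hF1) (Or.inr hGt)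
    rw [zero_mul] at h5
    have h6 := (h5.eventually (gt_mem_nhds (zero_lt_one : (0 : ℝ≥0∞) < 1)))
    obtain ⟨n, h7⟩ := (h6.and (Filter.eventually_ge_atTop 1)).exists
    obtain ⟨m, rfl⟩ : ∃ m, n = m + 1 := ⟨n - 1, by omega⟩
    exact ⟨m, h7.1.le⟩
  set t : ℝ := ((n : ℝ) + 2)⁻¹ with ht
  have hn0 : (0 : ℝ) < (n : ℝ) + 2 := by positivity
  have ht0 : 0 < t := inv_pos.2 hn0
  have ht1 : t < 1 := by
    rw [ht]
    refine inv_lt_one_of_one_lt₀ ?_
    have : (0 : ℝ) ≤ n := Nat.cast_nonneg n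
    linarith
  have hFG : F ^ (1 - t) * G ^ t ≤ 1 := by
    have h5 : 1 - t = ((n + 1 : ℕ) : ℝ) * t := by
      rw [ht]
      field_simp
      push_cast
      ring
    rw [h5, ENNReal.rpow_mul, ENNReal.rpow_natCast, ← ENNReal.mul_rpow_of_nonneg _ _ ht0.le]
    exact ENNReal.rpow_le_one hn ht0.le
  -- the new weight
  have hxy : x ^ (1 - t) * y ^ t = (((1 + e0) ^ t : ℝ≥0) : ℝ≥0∞) * x := by
    rw [hy, ENNReal.mul_rpow_of_nonneg _ _ ht0.le, ENNReal.coe_rpow_of_nonneg _ ht0.le,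
      mul_left_comm, ← ENNReal.rpow_add_of_nonneg _ _ (by linarith) ht0.le, sub_add_cancel,
      ENNReal.rpow_one]
    push_cast
    rfl
  have he1 : 1 < (1 + e0) ^ t := NNReal.one_lt_rpow (by simpa using he0) ht0
  set s : ℝ≥0 := q ^ t with hs
  have hs1 : 1 < s := NNReal.one_lt_rpow hq1 ht0
  have hs0 : s ≠ 0 := (lt_trans zero_lt_one hs1).ne'
  refine ⟨(1 + e0) ^ t - 1, s⁻¹, tsub_pos_of_lt he1, inv_lt_one_of_one_lt₀ hs1, ?_⟩
  intro z hz l
  have hz' : z ≤ x ^ (1 - t) * y ^ t := by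
    rw [hxy]
    refine le_trans hz (le_of_eq ?_)
    congr 1
    rw [← ENNReal.coe_one, ← ENNReal.coe_add, add_tsub_cancel_of_le he1.le]
  have hsum : ∑' j : ℕ, gs (Wz z) (Irv (c + 2) (j + 1)) * (s : ℝ≥0∞) ^ (j + 1) ≤ 1 := by
    refine le_trans (ENNReal.tsum_le_tsum fun j => ?_)
      (le_trans (EVN.interp c x y (q : ℝ≥0∞) ht0 ht1) hFG)
    rw [hs, ENNReal.coe_rpow_of_nonneg _ ht0.le]
    gcongr
    exact gs_le _ _ subset_rfl fun p _ => pow_le_pow_left' hz' _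
  have hind : ∀ l : ℕ, gs (Wz z) (Evp (c + 2) l) * (s : ℝ≥0∞) ^ l ≤ 1 := by
    intro l
    induction l using Nat.strong_induction_on with
    | _ l ih =>
      rcases Nat.eq_zero_or_pos l with rfl | hl
      · simpa using (h1 c z).1
      · calc gs (Wz z) (Evp (c + 2) l) * (s : ℝ≥0∞) ^ l
            ≤ (∑ j ∈ Icc 1 l, gs (Wz z) (Irv (c + 2) j) * gs (Wz z) (Evp (c + 2) (l - j))) *
                (s : ℝ≥0∞) ^ l := by
              gcongr
              exact (h1 c z).2 l hl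
          _ = ∑ j ∈ Icc 1 l, (gs (Wz z) (Irv (c + 2) j) * (s : ℝ≥0∞) ^ j) *
                (gs (Wz z) (Evp (c + 2) (l - j)) * (s : ℝ≥0∞) ^ (l - j)) := by
              rw [Finset.sum_mul]
              refine Finset.sum_congr rfl fun j hj => ?_
              have hj' := (Finset.mem_Icc.1 hj).2
              have : (s : ℝ≥0∞) ^ l = (s : ℝ≥0∞) ^ j * (s : ℝ≥0∞) ^ (l - j) := by
                rw [← pow_add, Nat.add_sub_cancel' hj']
              rw [this]
              ring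
          _ ≤ ∑ j ∈ Icc 1 l, (gs (Wz z) (Irv (c + 2) j) * (s : ℝ≥0∞) ^ j) * 1 := by
              refine Finset.sum_le_sum fun j hj => ?_
              have hj' := Finset.mem_Icc.1 hj
              gcongr
              exact ih (l - j) (by omega)
          _ = ∑ j ∈ range l, gs (Wz z) (Irv (c + 2) (j + 1)) * (s : ℝ≥0∞) ^ (j + 1) := by
              simp only [mul_one]
              rw [Finset.range_eq_Ico, Finset.sum_Ico_add' (fun j => gs (Wz z) (Irv (c + 2) j) *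
                (s : ℝ≥0∞) ^ j) 0 l 1]
              congr 1
          _ ≤ ∑' j : ℕ, gs (Wz z) (Irv (c + 2) (j + 1)) * (s : ℝ≥0∞) ^ (j + 1) :=
              ENNReal.sum_le_tsum _
          _ ≤ 1 := hsum
  have h5 := hind l
  have h6 : (s : ℝ≥0∞) ^ l ≠ 0 := pow_ne_zero _ (by exact_mod_cast hs0)
  have h7 : (s : ℝ≥0∞) ^ l ≠ ∞ := ENNReal.pow_ne_top ENNReal.coe_ne_top
  rw [← ENNReal.le_div_iff_mul_le (Or.inl h6) (Or.inl h7)] at h5
  refine le_trans h5 (le_of_eq ?_)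
  rw [ENNReal.coe_inv hs0, ← ENNReal.inv_pow, one_div]

end Pool.Agent.XM
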