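import Pool.Agent.XM.Stmts
import Pool.Agent.XM.Lib

/-!
# Column-convex polygons (MP_f6626d_co): EVR, pairs with only even cuts, split at the first cut
-/

set_option autoImplicit false

namespace Pool.Agent.XM

open Finset Pool.Agent.Lib27 Pool.Agent.OC
open scoped NNReal ENNReal

namespace EVR

/-- the pairs of `Evp` whose first cut after the line `0` is `j` (`l` counts as a cut) -/
def S (c l j : ℕ) : Set (Wd × Wd) :=
  {p | p ∈ Evp c l ∧ (j = l ∨ CC p j) ∧ ∀ k : ℤ, 0 < k → k < j → ¬ CC p k}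

theorem split {c l j : ℕ} (h1 : 1 ≤ j) (h2 : j ≤ l) {p : Wd × Wd} (hp : p ∈ S c l j) :
    ∃ q r, q ∈ Irv c j ∧ r ∈ Evp c (l - j) ∧ p = cat q r := by
  obtain ⟨⟨hB, hE, hC⟩, hj, hno⟩ := hp
  obtain ⟨q, r, rfl, hq, hr⟩ := Brp_split hB h2 (Or.inr hj)
  have hqe : Even (lg q) := by
    rcases Nat.eq_or_lt_of_le h2 with h3 | h3
    · subst h3
      rw [Nat.sub_self] at hr
      rw [Brp_zero.1 hr, lg_cat] at hE
      simpa [lg] using hE
    · have h4 : CC (cat q r) (j : ℤ) := by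
        rcases hj with hj | hj
        · omega
        · exact hj
      have h5 := hC j (by exact_mod_cast h1) (by exact_mod_cast h3) h4
      have h6 := (PC_junction hq hr (by omega) 0).1 h5
      rw [add_zero] at h6
      exact_mod_cast h6
  have hre : Even (lg r) := by
    rw [lg_cat] at hE
    exact (Nat.even_add.1 hE).1 hqe
  refine ⟨q, r, ⟨⟨hq, ?_⟩, hqe⟩, ⟨hr, hre, ?_⟩, rfl⟩
  · intro k hk hk' hcc
    exact hno k (by exact_mod_cast hk) hk' ((CC_cat_lt hq hr hk').2 hcc)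
  · intro k hk hk' hcc
    have e : k + (j : ℤ) - j = k := by ring
    have h7 : CC (cat q r) (k + j) := by
      rw [CC_cat_ge r hq (by omega), e]
      exact hcc
    have h8 := hC (k + j) (by omega) (by omega) h7
    rw [PC_cat_ge r hq (by omega), e] at h8
    refine (PC_congr ?_).1 h8
    rw [add_zero, sub_zero]
    exact_mod_cast hqe

end EVR

open EVR in
/-- EVR -/
theorem evr_thm : EVR_Stmt := by
  classical
  intro c z
  constructor
  · have h1 : Evp (c + 2) 0 ⊆ {(([] : Wd), ([] : Wd))} := fun p hp => Brp_zero.1 hp.1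
    refine (gs_mono _ h1).trans ?_
    rw [gs_singleton]
    simp [Wz, lg]
  · intro l hl
    have h1 : gs (Wz z) (Evp (c + 2) l) ≤ ∑ j ∈ Icc 1 l, gs (Wz z) (S (c + 2) l j) := by
      apply gs_le_sum
      intro p hp
      have hex : ∃ j, 1 ≤ j ∧ (j = l ∨ CC p (j : ℤ)) := ⟨l, hl, Or.inl rfl⟩
      have h2 := Nat.find_spec hex
      have h3 : Nat.find hex ≤ l := Nat.find_min' hex ⟨hl, Or.inl rfl⟩
      refine ⟨Nat.find hex, Finset.mem_Icc.2 ⟨h2.1, h3⟩, hp, h2.2, ?_⟩
      intro k hk hk' hcc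
      obtain ⟨m, rfl⟩ : ∃ m : ℕ, k = m := ⟨k.toNat, by omega⟩
      exact Nat.find_min hex (m := m) (by exact_mod_cast hk') ⟨by omega, Or.inr hcc⟩
    refine h1.trans (Finset.sum_le_sum fun j hj => ?_)
    rw [Finset.mem_Icc] at hj
    refine gs_split2 cat ?_
    intro p hp
    obtain ⟨q, r, hq, hr, rfl⟩ := split hj.1 hj.2 hp
    exact ⟨q, r, hq, hr, rfl, (Wz_cat z q r).le⟩

end Pool.Agent.XM
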