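import Pool.Agent.XM.Stmts
import Pool.Agent.XM.Lib

/-!
# Column-convex polygons (MP_f6626d_co): FPL, pairs without cut in the middle third (helper60)

A first passage word is a loop followed by a word in the columns `≥ 0`.
-/

set_option autoImplicit false

namespace Pool.Agent.XM.FPL

open Finset Pool.Agent.Lib27 Pool.Agent.OC
open scoped NNReal ENNReal

/-- a first passage word is a loop followed by a first passage word in the columns `≥ 0` -/
theorem split {H : ℕ} {s : Wd} (hs : s ∈ Fp H) : ∃ l A : Wd, s = l ++ A ∧ SAWs l ∧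
    (ep 0 l).1 = 0 ∧ A ∈ Fp H ∧ ∀ p ∈ vt 0 A, 0 ≤ p.1 := by
  by_cases hneg : ∃ p ∈ vt 0 s, p.1 ≤ -1
  · obtain ⟨u, v, rfl, h1, h2⟩ := last_cross (w := s) (h := -1) hneg
      (by rw [hs.2.1]; have := Int.natCast_nonneg H; omega)
    have h3 : (dv 0).1 = 1 := rfl
    have h4 : (ep 0 (u ++ [0])).1 = 0 := by
      rw [fst_ep_app, h1, ep_cons, ep_nil, zero_add, h3]
      norm_num
    have he : u ++ 0 :: v = (u ++ [0]) ++ v := by simp
    rw [he] at hs
    refine ⟨u ++ [0], v, he, SAWs_left hs.1, h4, ⟨SAWs_right hs.1, ?_, ?_⟩, ?_⟩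
    · have h5 := hs.2.1
      rw [fst_ep_app, h4, zero_add] at h5
      exact h5
    · intro p hp
      have h5 : p + ep 0 (u ++ [0]) ∈ vs 0 ((u ++ [0]) ++ v) := by
        rw [vs_append]
        refine List.mem_append_right _ ?_
        rw [vs_eq]
        exact List.mem_map_of_mem hp
      have h6 := hs.2.2 _ h5
      rw [Prod.fst_add, h4, add_zero] at h6
      exact h6
    · intro p hp
      have h5 := h2 (p + dv 0) (by
        rw [vt_cons, List.tail_cons, zero_add, vt_eq]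
        exact List.mem_map_of_mem hp)
      rw [Prod.fst_add, h3] at h5
      omega
  · push Not at hneg
    refine ⟨[], s, rfl, List.nodup_singleton _, rfl, hs, fun p hp => ?_⟩
    have := hneg p hp
    omega

theorem Fp_col {H : ℕ} {s : Wd} (hs : s ∈ Fp H) {p : ℤ × ℤ} (hp : p ∈ vt 0 s) : p.1 ≤ H := by
  unfold vt at hp
  rw [List.mem_append, List.mem_singleton] at hp
  rcases hp with hp | rfl
  · exact (hs.2.2 p hp).le
  · exact hs.2.1.le

theorem cr_ext {l : Wd} {h : ℤ} (hh : (ext l : ℤ) ≤ h) : cr l h = 0 := by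
  refine cr_eq_zero_of_le fun p hp => ?_
  have := natAbs_le_ext hp
  omega

/-- both parts of a pair of first passage words -/
theorem parts {c H : ℕ} {l A l' A' : Wd} (hs : (l ++ A, l' ++ A') ∈ Fpp c H)
    (hl : SAWs l) (hl0 : (ep 0 l).1 = 0) (hl0' : (ep 0 l').1 = 0)
    (hA : A ∈ Fp H) (hA' : A' ∈ Fp H) :
    (∀ h : ℤ, cr (l ++ A) h = cr l h + cr A h) ∧ (∀ h : ℤ, cr (l' ++ A') h = cr l' h + cr A' h) ∧
    (∀ h : ℤ, cr A h + cr A' h ≤ c + 2) ∧ l ∈ Lp c := by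
  have e1 : ∀ h : ℤ, cr (l ++ A) h = cr l h + cr A h := fun h => by
    rw [cr_append, hl0, sub_zero]
  have e2 : ∀ h : ℤ, cr (l' ++ A') h = cr l' h + cr A' h := fun h => by
    rw [cr_append, hl0', sub_zero]
  obtain ⟨h1, h2, h3⟩ := hs
  simp only at h1 h2
  have h3' : ∀ h : ℤ, cr (l ++ A) h + cr (l' ++ A') h ≤ if h < 0 then c else c + 2 := h3
  refine ⟨e1, e2, fun h => ?_, hl, hl0, fun h => ?_⟩
  · have := h3' h
    rw [e1, e2] at this
    split_ifs at this <;> omega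
  · have h4 := h3' h
    rw [e1, e2] at h4
    rcases lt_or_ge h 0 with hh | hh
    · rw [if_pos hh] at h4
      omega
    · rw [if_neg (not_lt.2 hh)] at h4
      rcases lt_or_ge h (H : ℤ) with hH | hH
      · have h5 : 1 ≤ cr A h := cr_pos_of_lt hh (by rw [hA.2.1]; exact hH)
        have h6 : 1 ≤ cr A' h := cr_pos_of_lt hh (by rw [hA'.2.1]; exact hH)
        omega
      · have h5 : cr (l ++ A) h = 0 := cr_eq_zero_of_le fun p hp => (Fp_col h1 hp).trans hH
        rw [e1] at h5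
        omega

end Pool.Agent.XM.FPL

namespace Pool.Agent.XM

open Finset Pool.Agent.Lib27 Pool.Agent.OC
open scoped NNReal ENNReal

theorem fpl_thm (h1 : MIR2_Stmt) : FPL_Stmt := by
  intro c z K hK
  let D : Set Wd → Set Wd → Set (Wd × Wd) → Set (Wd × Wd) := fun S S' Q => {p | ∃ (l l' : Wd)
    (q : Wd × Wd), l ∈ S ∧ l' ∈ S' ∧ q ∈ Q ∧ p = (l ++ rx (rv q.1), l' ++ rx (rv q.2))}
  have hD : ∀ S S' Q, gs (Wz z) (D S S' Q) ≤ gs (wz z) S * gs (wz z) S' * gs (Wz z) Q := by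
    intro S S' Q
    refine gs_split3 (fun (l l' : Wd) (q : Wd × Wd) => (l ++ rx (rv q.1), l' ++ rx (rv q.2))) ?_
    rintro p ⟨l, l', q, hl, hl', hq, rfl⟩
    refine ⟨l, l', q, hl, hl', hq, rfl, le_of_eq ?_⟩
    unfold Wz wz lg
    simp only [List.length_append, rx_length, rv_length]
    rw [← pow_add, ← pow_add]
    congr 1
    ring
  have hsub : {p | p ∈ Fpp c (3 * K) ∧ SB K p} ⊆
      (D {l | l ∈ Lp c ∧ K ≤ ext l} (Lp c) (Brp (c + 2) (3 * K)) ∪
        D (Lp c) {l | l ∈ Lp c ∧ K ≤ ext l} (Brp (c + 2) (3 * K))) ∪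
        D (Lp c) (Lp c) (Nc (c + 2) K (2 * K) (3 * K)) := by
    rintro ⟨s, s'⟩ ⟨hs, hsb⟩
    obtain ⟨l, A, rfl, hlS, hl0, hA, hAc⟩ := FPL.split hs.1
    obtain ⟨l', A', hs', hlS', hl0', hA', hAc'⟩ := FPL.split hs.2.1
    simp only at hs'
    subst hs'
    obtain ⟨e1, e2, hAA, hL⟩ := FPL.parts hs hlS hl0 hl0' hA hA'
    have hsw : (l' ++ A', l ++ A) ∈ Fpp c (3 * K) := ⟨hs.2.1, hs.1, fun h => by
      have := hs.2.2 h
      simp only at this ⊢
      rw [add_comm]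
      exact this⟩
    have hL' : l' ∈ Lp c := (FPL.parts hsw hlS' hl0' hl0 hA' hA).2.2.2
    obtain ⟨m1, m2, m3⟩ := h1 (3 * K) A hA hAc
    obtain ⟨m1', m2', m3'⟩ := h1 (3 * K) A' hA' hAc'
    have hB : (rx (rv A), rx (rv A')) ∈ Brp (c + 2) (3 * K) :=
      ⟨m1, m1', fun h => by simp only; rw [m3, m3']; exact hAA _⟩
    have hp : (l ++ A, l' ++ A') = (l ++ rx (rv (rx (rv A), rx (rv A')).1),
        l' ++ rx (rv (rx (rv A), rx (rv A')).2)) := by
      simp only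
      rw [m2, m2']
    rcases le_or_gt K (ext l) with h2 | h2
    · exact Or.inl (Or.inl ⟨l, l', _, ⟨hL, h2⟩, hL', hB, hp⟩)
    rcases le_or_gt K (ext l') with h3 | h3
    · exact Or.inl (Or.inr ⟨l, l', _, hL, ⟨hL', h3⟩, hB, hp⟩)
    refine Or.inr ⟨l, l', _, hL, hL', ⟨hB, ?_⟩, hp⟩
    intro k hk1 hk2 hcc
    have c1 : cr A (((3 * K : ℕ) : ℤ) - 1 - k) = 1 := by rw [← m3]; exact hcc.1
    have c2 : cr A' (((3 * K : ℕ) : ℤ) - 1 - k) = 1 := by rw [← m3']; exact hcc.2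
    have k1 : (K : ℤ) ≤ ((3 * K : ℕ) : ℤ) - 1 - k := by push_cast at hk2 ⊢; omega
    have k2 : ((3 * K : ℕ) : ℤ) - 1 - k < ((2 * K : ℕ) : ℤ) := by push_cast; omega
    refine hsb _ k1 k2 ⟨?_, ?_⟩
    · simp only
      rw [e1, FPL.cr_ext (by omega), c1]
    · simp only
      rw [e2, FPL.cr_ext (by omega), c2]
  refine (gs_mono _ hsub).trans ((gs_union _ _ _).trans ?_)
  refine add_le_add ((gs_union _ _ _).trans ?_) ?_
  · refine (add_le_add (hD _ _ _) (hD _ _ _)).trans (le_of_eq ?_)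
    unfold Y
    ring
  · refine (hD _ _ _).trans (le_of_eq ?_)
    ring

end Pool.Agent.XM
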