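import Pool.Agent.XM.Defs

/-!
# Column-convex polygons (MP_f6626d_co): statements of the modules of the mass gap part

`c` is the number of crossings allowed for arcs and loops, `c + 2` the number allowed for pairs and
polygons (`c + 2 = 2 k` for the `k`-column-convex polygons).  All modules with the same name (without
`X`) exist in `Pool/Agent/OC` for the diagonal direction: levels of vertices are replaced by crossings of
vertical lines.  Read PAPER.md in this folder.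
-/

set_option autoImplicit false

namespace Pool.Agent.XM

open Finset Pool.Agent.Lib27 Pool.Agent.OC
open scoped NNReal ENNReal

/-! ### A. finiteness, the critical point -/

/-- RUN. Proof: a word with exactly `j` horizontal steps is determined by the `j` horizontal steps and
the `j + 1` vertical runs between them; each vertical run (SAWs: no turn by 180 degrees) is
`replicate a 1` or `replicate a 3`. Induction on `j`: split off the last horizontal step and the last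
vertical run (`gs_split3`): `G_{j+1} ≤ G_j * (2 * (3/4)) * V`, `G_0 ≤ V`,
`V = gs (wz (3/4)) Ve ≤ 2 * ∑ (3/4)^a = 8`. -/
def RUN_Stmt : Prop := ∃ C : ℝ≥0, 1 ≤ C ∧ ∀ N : ℕ,
  gs (wz (3 / 4)) {w : Wd | SAWs w ∧ hz w ≤ N} ≤ (C : ℝ≥0∞) ^ (N + 1)

/-- YFIN (from RUN). Proof: for `p ∈ Brp (c+2) m` we have `hz p.1 + hz p.2 = ∑_{0 ≤ h < m} (cr p.1 h +
cr p.2 h) ≤ (c+2) m`; so the sum is at most the product of two sums RUN with `N = (c+2) m`.
Second part: `hz l = ∑_{|h| ≤ d} cr l h ≤ c (2 d + 1)` if `ext l ≤ d`. -/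
def YFIN_Stmt : Prop := ∀ c : ℕ, ∃ C : ℝ≥0, 1 ≤ C ∧
  (∀ m, Y (c + 2) (3 / 4) m ≤ (C : ℝ≥0∞) ^ (m + 1)) ∧
  ∀ d, gs (wz (3 / 4)) {l | l ∈ Lp c ∧ ext l ≤ d} ≤ (C : ℝ≥0∞) ^ (d + 1)

/-- ZST : elementary properties of the critical point. Proof: (1) for `z = 1/8`: the number of words of
length `j` is `4^j`, a word of `Bri m`, `m ≥ 1`, is nonempty, so `Y z m ≤ (∑_{j ≥ 1} (4 z)^j)^2 = 1`.
(2) for `z > 1/2`: `Y z 1 ≥ (z + 2 z^2)^2 > 1` (the words E, EN, ES). (3) `Y z m` is left continuous: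
`gs` is the supremum of finite sums of powers of `z`. (4) definition of `sSup`. Template OC/Zst.lean. -/
def ZST_Stmt : Prop := ∀ c : ℕ, (8 : ℝ≥0∞)⁻¹ ≤ zst c ∧ zst c ≤ 2⁻¹ ∧
  (∀ m, Y (c + 2) (zst c) m ≤ 1) ∧ ∀ z, zst c < z → ∃ m, 1 < Y (c + 2) z m

/-! ### B. insertion of three columns, strict monotonicity -/

/-- the word which replaces a crossing at height `y`: the comb if `y = yy`, four steps East otherwise -/
def sg (yy : ℤ) (j : ℕ) (y : ℤ) : Wd := if y = yy then comb j else [0, 0, 0, 0]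

/-- INSA : the insertion can be undone. Proof: induction on the word with the position `x` of the old
word and `x` or `x + 3` of the new word (`x ≤ h` or `h + 1 ≤ x`): the first step of `comb j` goes from
the column `h` to `h + 1` and is kept by `del`, all other steps of `comb j` stay in the columns
`h + 1 .. h + 4`, not both end points in the column `h + 4`, and are deleted. -/
def INSA_Stmt : Prop := ∀ (h : ℤ) (yy : ℤ) (j : ℕ) (A : Wd), 0 ≤ h →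
  del h 0 (ins h (sg yy j) 0 A) = A

/-- INSB : the new word is a bridge. Proof: vertices of the new word: the old ones (translated by
`(3, 0)` if they are in a column `> h`), and for every crossing of height `y` vertices in the columns
`h+1..h+3`: `(h+1,y), (h+2,y), (h+3,y)`, for `y = yy` the inner vertices of the comb, whose heights are
`≥ yy`. The crossings have different heights. -/
def INSB_Stmt : Prop := ∀ (m : ℕ) (h : ℤ) (yy : ℤ) (j : ℕ) (A : Wd), 0 ≤ h → h < m → A ∈ Bri m →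
  (∀ q ∈ crs h A, q.1.2 ≤ yy) → ins h (sg yy j) 0 A ∈ Bri (m + 3)

/-- INSC : length and crossings of the new word; `e` is the number of crossings of height `yy`
(`0` or `1`). Proof: induction over the word. -/
def INSC_Stmt : Prop := ∀ (m : ℕ) (h : ℤ) (yy : ℤ) (j : ℕ) (A : Wd), 0 ≤ h → h < m → A ∈ Bri m →
  ∃ e : ℕ, e ≤ 1 ∧ ((∃ q ∈ crs h A, q.1.2 = yy) → e = 1) ∧
  (ins h (sg yy j) 0 A).length = A.length + 3 * cr A h + 6 * (e * j) ∧
  (∀ k : ℤ, k ≤ h → cr (ins h (sg yy j) 0 A) k = cr A k) ∧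
  (∀ k : ℤ, h ≤ k → cr (ins h (sg yy j) 0 A) (k + 3) = cr A k) ∧
  cr (ins h (sg yy j) 0 A) (h + 1) = cr A h + 2 * (e * j) ∧
  cr (ins h (sg yy j) 0 A) (h + 2) = cr A h

/-- INSP : insertion at one line, for pairs of bridges (from INSA, INSB, INSC). Proof: `yy` = largest
height of a crossing of `h` by `p.1` (exists, since `0 < h < m`), `j = (c + 2 - (cr p.1 h + cr p.2 h)) / 2`,
`f h p = (ins h (sg yy j) 0 p.1, ins h (sg 0 0) 0 p.2)` (`comb 0 = [0,0,0,0]`). Then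
`lg (f h p) = lg p + 3 (cr p.1 h + cr p.2 h) + 6 j ≤ lg p + 3 (c + 2)`, the line `h + 1` has
`cr p.1 h + cr p.2 h + 2 j ≥ c + 1` crossings. Injective on the given set: `del h 0`. -/
def INSP_Stmt : Prop := ∀ c : ℕ, ∃ f : ℕ → Wd × Wd → Wd × Wd,
  (∀ (m h : ℕ) (p : Wd × Wd), p ∈ Brp (c + 2) m → 0 < h → h < m → cr p.1 h + cr p.2 h ≤ c →
    f h p ∈ Brp (c + 2) (m + 3) ∧ lg (f h p) ≤ lg p + 3 * (c + 2) ∧
    (∀ k : ℤ, k ≤ h → cr (f h p).1 k + cr (f h p).2 k = cr p.1 k + cr p.2 k) ∧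
    (∀ k : ℤ, h ≤ k → cr (f h p).1 (k + 3) + cr (f h p).2 (k + 3) = cr p.1 k + cr p.2 k) ∧
    c + 1 ≤ cr (f h p).1 (h + 1) + cr (f h p).2 (h + 1)) ∧
  ∀ m h : ℕ, 0 < h → h < m → Set.InjOn (f h) {p | p ∈ Brp (c + 2) m ∧ cr p.1 h + cr p.2 h ≤ c}

/-- MONO0 : strict monotonicity at the critical point (from INSP, ZST). Proof: `OC.abs_thm` (the
abstract insertion principle `OC.ABS_Stmt`, file OC/AbsX.lean) with `X = Brp (c+2)`,
`H x` = lines `0 < h < (width)` with at least `c + 1` crossings, `W = Wz (zst c)`, `w = 3`, `a = 1`,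
`Θ = (zst c)^{-3(c+2)}`, `q = 1/2`, `lam` small: for `x ∈ Brp c m` the set `H x` is empty, the right
side is at most `m`. So `Y c (zst c) m ≤ m (1 + lam)^{-(m-1)}`. -/
def MONO0_Stmt : Prop := ∀ c : ℕ, ∃ C r : ℝ≥0, r < 1 ∧ ∀ m, Y c (zst c) m ≤ C * (r : ℝ≥0∞) ^ m

/-- MONO (from MONO0, YFIN, ZST and `OC.hold_thm`). Proof: Hoelder between `zst c` and `3/4 > zst c`:
`Y c z' m ≤ (C r^m)^{1-t} (C'^{m+1})^t`, `z' = (zst c)^{1-t} (3/4)^t ≥ (1 + eta) zst c`, `t` small. -/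
def MONO_Stmt : Prop := ∀ c : ℕ, ∃ eta C r : ℝ≥0, 0 < eta ∧ r < 1 ∧
  ∀ z : ℝ≥0∞, z ≤ (1 + eta) * zst c → ∀ m, Y c z m ≤ C * (r : ℝ≥0∞) ^ m

/-! ### C. arcs and loops -/

/-- ARC1 : an arc is a pair of bridges. Proof: split at the first visit of the column `d = ext w`:
`w = A ++ a''`, `B = rv a''`. (Crossings: `cr_append`, `cr_rv`, `crh_append`, `crh_rv` in XM/Lib.) -/
def ARC1_Stmt : Prop := ∀ (w : Wd) (d : ℕ), SAWs w → (ep 0 w).1 = 0 →
  (∀ p ∈ (vs 0 w).tail, 0 < p.1) → ext w = d → 1 ≤ d →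
  ∃ A B : Wd, A ∈ Bri d ∧ B ∈ Bri d ∧ w = A ++ rv B ∧ (∀ h : ℤ, cr w h = cr A h + cr B h) ∧
    ∀ h : ℤ, crh w h = crh A h + crh B h + cr B h * (ep 0 w).2

/-- ARC (from ARC1): `w ↦ (A, B)` is injective. -/
def ARC_Stmt : Prop := ∀ (c d : ℕ) (z : ℝ≥0∞), 1 ≤ d → gs (wz z) (Ar c d) ≤ Y c z d

/-- CAPC (from ARC1): an even cut `h` of the cap is a cut of the pair `(A, B)` with
`Even (crh A h + crh B h)`, because `(ep 0 w).2` is even. -/
def CAPC_Stmt : Prop := ∀ (c : ℕ) (z : ℝ≥0∞),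
  gs (wz z) (Cap (c + 2)) ≤ ∑' H : ℕ, gs (Wz z) (Nb 0 (c + 2) 0 H H)

/-- LOOPX : loops are vertical runs and arcs. Proof: let `L_r` be the set of the `l ∈ Lp c` with
`cr l 0 + cr l (-1) = 2 r`; then `r ≤ c`. For `r = 0` the word stays in the column `0`: `L_0 ⊆ Ve`.
Splitting off the last arc and the last vertical run `l = l' ++ a ++ v` (`a` starts at the last visit of
the column `0` before the final vertical run, `a` or `rx a` is in `Ar c (d+1)`, `l' ∈ L_{r-1}`,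
`v ∈ Ve`), `ext l ≤ max (ext l') (ext a) ≤ ext l' + ext a`:
`g_{r+1} ≤ g_r * (2 ∑ s^{d+1} gs (Ar c (d+1))) * gs Ve`. -/
def LOOPX_Stmt : Prop := ∀ (c : ℕ) (z s : ℝ≥0∞), 1 ≤ s →
  gs (fun l => wz z l * s ^ ext l) (Lp c) ≤ ∑ r ∈ range (c + 1),
    gs (wz z) Ve * (2 * (∑' d : ℕ, s ^ (d + 1) * gs (wz z) (Ar c (d + 1))) * gs (wz z) Ve) ^ r

/-- LOOP : loops are exponentially small (from LOOPX, ARC, MONO, RUN, ZST). Proof: `s > 1` with `s r < 1`,
`(1 + eta) zst c ≤ 3/4`. The second part follows from the first: `s^d 1_{ext ≥ d} ≤ s^ext`. -/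
def LOOP_Stmt : Prop := ∀ c : ℕ, ∃ eta s M : ℝ≥0, 0 < eta ∧ 1 < s ∧
  gs (fun l => wz ((1 + eta) * zst c) l * (s : ℝ≥0∞) ^ ext l) (Lp c) ≤ M ∧
  ∀ z : ℝ≥0∞, z ≤ (1 + eta) * zst c → ∀ d,
    gs (wz z) {l | l ∈ Lp c ∧ d ≤ ext l} ≤ M * ((s⁻¹ : ℝ≥0) : ℝ≥0∞) ^ d

/-! ### D. lower bound, renewal -/

/-- NSM : super- and submultiplicativity. Proof: (1) concatenation. (2) `A ∈ Bri (m + m')` is cut at
the first and at the last crossing of the line `m`: `A = A1 ++ l ++ A2`, `A1 ∈ Bri m` ends before the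
first crossing, `A2 ∈ Bri m'` starts with the last crossing, `l` is a loop from the column `m`. Since the
first and last parts cross all lines at least once, `l` has at most `c` crossings of every line. -/
def NSM_Stmt : Prop := ∀ (c : ℕ) (z : ℝ≥0∞) (m m' : ℕ),
  Y (c + 2) z m * Y (c + 2) z m' ≤ Y (c + 2) z (m + m') ∧
  Y (c + 2) z (m + m') ≤ Y (c + 2) z m * gs (wz z) (Lp c) ^ 2 * Y (c + 2) z m'

/-- LOW : lower bound at the critical point (from LOOP, NSM, YFIN, ZST and `OC.hold_thm`).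
Template OC/Low.lean. -/
def LOW_Stmt : Prop := ∀ c : ℕ, ∃ c0 : ℝ≥0, 0 < c0 ∧ ∀ m, (c0 : ℝ≥0∞) ≤ Y (c + 2) (zst c) m

/-- YEPS : beyond the critical point (from YFIN, ZST, `OC.hold_thm`). Template OC/Yeps.lean. -/
def YEPS_Stmt : Prop := ∀ (c : ℕ) (A : ℝ≥0), 1 < A → ∃ eta C : ℝ≥0, 0 < eta ∧
  ∀ z : ℝ≥0∞, z ≤ (1 + eta) * zst c → ∀ m, Y (c + 2) z m ≤ C * (A : ℝ≥0∞) ^ m

/-- RENL : lower renewal inequality around the line `t`. Template OC/RenL.lean: the sum is over pairs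
with consecutive cuts `i.1` and `i.1 + i.2`, `i.1 ≤ t < i.1 + i.2` (`M` counts as a cut), which determine
`i`; cuts split uniquely. -/
def RENL_Stmt : Prop := ∀ (c : ℕ) (z : ℝ≥0∞) (t M : ℕ) (s : Finset (ℕ × ℕ)),
  (∀ i ∈ s, i.1 ≤ t ∧ t < i.1 + i.2 ∧ i.1 + i.2 ≤ M) →
  ∑ i ∈ s, Y (c + 2) z i.1 * ww (c + 2) z i.2 * Y (c + 2) z (M - (i.1 + i.2)) ≤ Y (c + 2) z M

/-- RENU : upper renewal inequality. Proof: last cut `≤ A`, first cut `≥ B` (the lines `0` and `L`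
count as cuts). Template OC/RenU.lean. -/
def RENU_Stmt : Prop := ∀ (c : ℕ) (z : ℝ≥0∞) (A B L : ℕ), A < B → B ≤ L →
  gs (Wz z) (Nc (c + 2) A B L) ≤ ∑ i ∈ (range (A + 1) ×ˢ range (L + 1)).filter
    (fun i => B ≤ i.1 + i.2 ∧ i.1 + i.2 ≤ L),
      Y (c + 2) z i.1 * ww (c + 2) z i.2 * Y (c + 2) z (L - (i.1 + i.2))

/-- MEAN : the renewal equation at the critical point (from RENL, RENU, LOW, ZST).
Template OC/Mean.lean. -/
def MEAN_Stmt : Prop := ∀ c : ℕ, ∃ M : ℝ≥0,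
  ∑' j : ℕ, ww (c + 2) (zst c) (j + 1) = 1 ∧ ∑' l : ℕ, (l : ℝ≥0∞) * ww (c + 2) (zst c) l ≤ M

/-- SCALE : a good scale (from RENU, MEAN, ZST). Template OC/Scale.lean. -/
def SCALE_Stmt : Prop := ∀ (c : ℕ) (eps : ℝ≥0) (K0 : ℕ), 0 < eps → ∃ K, K0 ≤ K ∧ 1 ≤ K ∧
  gs (Wz (zst c)) (Nc (c + 2) K (2 * K) (3 * K)) ≤ eps

/-! ### E. blocks -/

/-- BLK : the block recursion. Proof: Lib_helper74/MG/Block.lean (`gp_Bad_le`) and OC/Blk.lean with
columns instead of levels; `Tc c (v ++ s, v' ++ s')` implies `Tc c (v, v')` and `Tc c (s, s')`, because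
first passage words cross all lines between start and end at least once. -/
def BLK_Stmt : Prop := ∀ (c : ℕ) (z R : ℝ≥0∞) (K : ℕ), 1 ≤ R → R ≠ ∞ → 0 < K →
  ∀ k r : ℕ, gs (Wz z) (Bad c K k r) ≤ R ^ r * theta c z R K ^ k

/-- MIR : mirror image. `p ↦ (rx (rv p.1), rx (rv p.2))` maps `Bri l` onto the first passage words with
columns `≥ 0`, the line `h` to the line `l - 1 - h`. -/
def MIR_Stmt : Prop := ∀ (l : ℕ) (w : Wd), w ∈ Bri l → rx (rv w) ∈ Fp l ∧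
  (∀ p ∈ vt 0 (rx (rv w)), 0 ≤ p.1) ∧ (rx (rv w)).length = w.length ∧
  ∀ h : ℤ, cr (rx (rv w)) h = cr w ((l : ℤ) - 1 - h)

/-- MIR2 : converse of MIR. -/
def MIR2_Stmt : Prop := ∀ (l : ℕ) (w : Wd), w ∈ Fp l → (∀ p ∈ vt 0 w, 0 ≤ p.1) →
  rx (rv w) ∈ Bri l ∧ rx (rv (rx (rv w))) = w ∧ ∀ h : ℤ, cr (rx (rv w)) h = cr w ((l : ℤ) - 1 - h)

/-- IRR : pairs without cut (from BLK, MIR). Template OC/Irr.lean: the mirror image of an irreducible
pair of width `k (3K) + m` is a pair of first passage words `v ++ s` with `s ∈ Fp m`. -/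
def IRR_Stmt : Prop := ∀ (c : ℕ) (z R : ℝ≥0∞) (K : ℕ), 1 ≤ R → R ≠ ∞ → 0 < K →
  ∀ k m : ℕ, ww (c + 2) z (k * (3 * K) + m) ≤
    gs (fun p => Wz z p * R ^ (cc K p.1 + cc K p.2)) (Fpp c m) * theta c z R K ^ k

/-- FPS : first passage words are loops followed by bridges (from MIR2). Proof: `s = l ++ A`, `l` ends
after the last crossing of the line `-1` (`l = []` if there is none), `A` stays in the columns `≥ 0`;
`dip s = dip l`; `(A, A')` mirrored is in `Brp (c+2) H`. Template OC/Fps.lean. -/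
def FPS_Stmt : Prop := ∀ (c : ℕ) (z : ℝ≥0∞) (H : ℕ) (f g : ℕ → ℝ≥0∞),
  gs (fun p => Wz z p * (f (dip p.1) * g (dip p.2))) (Fpp c H) ≤
    gs (fun l => wz z l * f (dip l)) (Lp c) * gs (fun l => wz z l * g (dip l)) (Lp c) *
      Y (c + 2) z H

/-- FPL : pairs without cut in the middle third (from MIR2; same decomposition). If both loops have
`ext < K` then the cuts `K ≤ h < 2K` of the pair and of `(A, A')` agree. Template OC/Fpl.lean. -/
def FPL_Stmt : Prop := ∀ (c : ℕ) (z : ℝ≥0∞) (K : ℕ), 0 < K →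
  gs (Wz z) {p | p ∈ Fpp c (3 * K) ∧ SB K p} ≤
    2 * gs (wz z) {l | l ∈ Lp c ∧ K ≤ ext l} * gs (wz z) (Lp c) * Y (c + 2) z (3 * K) +
      gs (wz z) (Lp c) ^ 2 * gs (Wz z) (Nc (c + 2) K (2 * K) (3 * K))

/-- THETA : a block size at the critical point (from LOOP, SCALE, FPS, FPL, ZST).
Template OC/Theta.lean. -/
def THETA_Stmt : Prop := ∀ c : ℕ, ∃ R : ℝ≥0, 1 ≤ R ∧ ∀ K0 : ℕ, ∃ K, 1 ≤ K ∧ K0 ≤ K ∧
  theta c (zst c) R K ≤ 2⁻¹

/-- THFIN : the weight of a block beyond the critical point, and the top part (from LOOP, FPS, YFIN,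
ZST). Template OC/ThFin.lean. -/
def THFIN_Stmt : Prop := ∀ (c : ℕ) (R : ℝ≥0), 1 ≤ R → ∃ (K0 : ℕ) (eta : ℝ≥0), 0 < eta ∧
  ∀ K1 : ℕ, ∃ M : ℝ≥0, ∀ K, K0 ≤ K → K ≤ K1 → theta c ((1 + eta) * zst c) R K ≤ M ∧
    ∀ m ≤ 3 * K1, gs (fun p => Wz ((1 + eta) * zst c) p * (R : ℝ≥0∞) ^ (cc K p.1 + cc K p.2))
      (Fpp c m) ≤ M

/-- GAP : exponential decay of the pairs without cut beyond the critical point (from THETA, THFIN,
IRR, ZST). Template OC/Gap.lean. -/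
def GAP_Stmt : Prop := ∀ c : ℕ, ∃ eta C r : ℝ≥0, 0 < eta ∧ r < 1 ∧
  ∀ z : ℝ≥0∞, z ≤ (1 + eta) * zst c → ∀ l, ww (c + 2) z l ≤ C * (r : ℝ≥0∞) ^ l

/-- NCB : pairs without cut between two lines (from RENU, GAP, YEPS). Template OC/Ncb.lean. -/
def NCB_Stmt : Prop := ∀ c : ℕ, ∃ r : ℝ≥0, r < 1 ∧ ∀ A : ℝ≥0, 1 < A → ∃ eta C : ℝ≥0, 0 < eta ∧
  ∀ z : ℝ≥0∞, z ≤ (1 + eta) * zst c → ∀ e d H : ℕ,
    gs (Wz z) (Nc (c + 2) e (H - d) H) ≤
      C * (A : ℝ≥0∞) ^ (e + d) * (r : ℝ≥0∞) ^ (H - (e + d))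

/-! ### F. even cuts -/

/-- EVR : pairs with only even cuts: split at the first cut. Proof: `l = 0`: only `([], [])`.
`l ≥ 1`: first cut `j ∈ [1, l]` (`l` counts): the left part is irreducible of even length, the right part
is again in `Evp`. The number of steps of `p` before the cut `h` is even iff
`Even (crh p.1 h + crh p.2 h)`. -/
def EVR_Stmt : Prop := ∀ (c : ℕ) (z : ℝ≥0∞), gs (Wz z) (Evp (c + 2) 0) ≤ 1 ∧ ∀ l : ℕ, 1 ≤ l →
  gs (Wz z) (Evp (c + 2) l) ≤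
    ∑ j ∈ Icc 1 l, gs (Wz z) (Irv (c + 2) j) * gs (Wz z) (Evp (c + 2) (l - j))

/-- EVN : pairs with only even cuts are exponentially small (from EVR, GAP, MEAN, ZST). Proof: with
`u_j(z) = gs (Wz z) (Irv (c+2) j) ≤ ww_j(z)`: at `zst c` we have `∑_{j ≥ 1} u_j ≤ 1 - zst^3 < 1`, because
the pair `([0], [0, 1]) ∈ Irr (c+2) 1` has odd length. For `z = (1+eta) zst c`, `s > 1` close to `1`:
Hoelder (for `∑ f^{1-t} g^t`) between the weights `zst^{lg p}` and `((1+eta')zst)^{lg p} (1/r')^{j}`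
(finite by GAP) gives `∑_j s^j u_j(z) ≤ 1`. By EVR and induction `s^l gs (Evp l) ≤ 1`. -/
def EVN_Stmt : Prop := ∀ c : ℕ, ∃ eta r : ℝ≥0, 0 < eta ∧ r < 1 ∧
  ∀ z : ℝ≥0∞, z ≤ (1 + eta) * zst c → ∀ l, gs (Wz z) (Evp (c + 2) l) ≤ (r : ℝ≥0∞) ^ l

/-- NBD : decomposition of the pairs without cut of parity `b` between `A` and `B`. Proof: no cut at all,
or first cut `h1` and last cut `h2` in `(A, B)`; all cuts in `(A, B)` have the same parity, so the middle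
part is in `Evp`. -/
def NBD_Stmt : Prop := ∀ (c : ℕ) (z : ℝ≥0∞) (b : ℤ) (A B L : ℕ), A < B → B ≤ L →
  gs (Wz z) (Nb b (c + 2) A B L) ≤ gs (Wz z) (Nc (c + 2) A B L) +
    ∑ i ∈ (Ioo A B ×ˢ Ioo A B).filter (fun i => i.1 ≤ i.2),
      gs (Wz z) (Nc (c + 2) A i.1 i.1) * gs (Wz z) (Evp (c + 2) (i.2 - i.1)) *
        gs (Wz z) (Nc (c + 2) 0 (B - i.2) (L - i.2))

/-- NBB : pairs without cut of parity `b` between two lines (from NBD, NCB, EVN, YEPS). -/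
def NBB_Stmt : Prop := ∀ c : ℕ, ∃ r : ℝ≥0, r < 1 ∧ ∀ A : ℝ≥0, 1 < A → ∃ eta C : ℝ≥0, 0 < eta ∧
  ∀ z : ℝ≥0∞, z ≤ (1 + eta) * zst c → ∀ (b : ℤ) (e d H : ℕ),
    gs (Wz z) (Nb b (c + 2) e (H - d) H) ≤
      C * (A : ℝ≥0∞) ^ (e + d) * (r : ℝ≥0∞) ^ (H - (e + d))

/-- ERE : renewal equation of the even pairs. Proof: first even cut (`m + 1` counts). -/
def ERE_Stmt : Prop := ∀ (c : ℕ) (z : ℝ≥0∞), Ye (c + 2) z 0 = 1 ∧ ∀ m : ℕ,
  Ye (c + 2) z (m + 1) = ∑ j ∈ range (m + 1), we (c + 2) z (j + 1) * Ye (c + 2) z (m - j)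

/-- YEL : lower bound for the even pairs (from LOW, ZST). Proof: `Y_m = Ye_m + Yo_m`; prefixing
`([0],[0])` or `([0],[0,1])` gives `Ye_{m+1} ≥ z^2 Ye_m`, `Ye_{m+1} ≥ z^3 Yo_m`, so
`2 Ye_{m+1} ≥ z^3 Y_m`. -/
def YEL_Stmt : Prop := ∀ c : ℕ, ∃ c0 : ℝ≥0, 0 < c0 ∧ ∀ m, (c0 : ℝ≥0∞) ≤ Ye (c + 2) (zst c) m

/-- EONE (from ERE, YEL, ZST and `MG.renewal_one`). -/
def EONE_Stmt : Prop := ∀ c : ℕ, ∑' j : ℕ, we (c + 2) (zst c) (j + 1) = 1

/-! ### G. polygons without even cut -/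

/-- POLYR : polygons without even cut, rotated (pure combinatorics). Proof: template OC/PolyR.lean. Rotate
so that the word starts in the leftmost column at the last visit before the first visit of the rightmost
column: `A` is the part up to the first visit of the rightmost column `H`; the reversed rest is `l0 ++ B ++
lt`, `l0` up to the last visit of the column `0`, `B` up to the first visit of the column `H` after it. For
a line `h` with `ext l0 < h < H - ext lt` crossed exactly twice the heights are `crh A h` and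
`crh B h + (ep 0 l0).2`. `H = 0` is impossible for `n ≥ 2`. -/
def POLYR_Stmt : Prop := ∀ (c n : ℕ) (w : Wd), 2 ≤ n → w ∈ NoE (c + 2) n →
  ∃ (j H : ℕ) (A B l0 lt : Wd), j < 2 * n ∧ 1 ≤ H ∧ w.rotate j = A ++ rv (l0 ++ B ++ lt) ∧
    l0 ∈ Lp c ∧ lt ∈ Lp c ∧ (A, B) ∈ Nb (ep 0 l0).2 (c + 2) (ext l0) (H - ext lt) H

/-- POLYC : polygons without even cut (from POLYR). Template OC/PolyC.lean. -/
def POLYC_Stmt : Prop := ∀ (c : ℕ) (z : ℝ≥0∞) (n : ℕ), 2 ≤ n →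
  ((NoE (c + 2) n).card : ℝ≥0∞) * z ^ (2 * n) ≤ (2 * n : ℕ) * ∑' H : ℕ,
    gs (fun q : Wd × Wd => wz z q.1 * wz z q.2 *
      gs (Wz z) (Nb (ep 0 q.1).2 (c + 2) (ext q.1) (H - ext q.2) H)) (Lp c ×ˢ Lp c)

/-- BEY : the result of this part (from NBB, EONE, CAPC, POLYC, LOOP, ZST). Proof: caps: `∑_H C r^H`.
Polygons: NBB with `A` close to `1`: `∑_H C A^(e+d) r^(H-(e+d)) ≤ C' A'^(e+d)`, then
`∑_l wz l * A'^(ext l) < ∞` by LOOP (`A' ≤ s`). `n = 1`: at most `16` words. Template OC/Bey.lean. -/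
def BEY_Stmt : Prop := ∀ c : ℕ, (8 : ℝ≥0∞)⁻¹ ≤ zst c ∧ zst c ≤ 2⁻¹ ∧
  ∑' l : ℕ, we (c + 2) (zst c) (l + 1) = 1 ∧ ∃ eta C : ℝ≥0, 0 < eta ∧
    ∑' l : ℕ, we (c + 2) ((1 + eta) * zst c) l ≤ C ∧
    gs (wz ((1 + eta) * zst c)) (Cap (c + 2)) ≤ C ∧
    ∀ n : ℕ, 1 ≤ n → ((NoE (c + 2) n).card : ℝ≥0∞) * ((1 + eta) * zst c) ^ (2 * n) ≤ C * n

end Pool.Agent.XM
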