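import Pool.Agent.XM.Lib
import Pool.Agent.XM.Stmts

/-!
# Column-convex polygons (MP_f6626d_co): FPS, first passage words are loops followed by bridges
(helper97)
-/

set_option autoImplicit false

namespace Pool.Agent.XM.FPS

open Finset Pool.Agent.Lib27 Pool.Agent.OC Pool.Agent.XM
open scoped NNReal ENNReal

theorem Fp_col {H : ℕ} {w : Wd} (hw : w ∈ Fp H) {p : ℤ × ℤ} (hp : p ∈ vt 0 w) : p.1 ≤ H := by
  unfold vt at hp
  rw [List.mem_append] at hp
  rcases hp with hp | hp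
  · exact (hw.2.2 p hp).le
  · rw [List.mem_singleton] at hp
    rw [hp, hw.2.1]

theorem mem_vs_right (u : Wd) {v : Wd} {p : ℤ × ℤ} (h : p ∈ vs 0 v) :
    p + ep 0 u ∈ vs 0 (u ++ v) := by
  rw [vs_append]
  refine List.mem_append_right _ ?_
  have h1 := vs_add 0 (ep 0 u) v
  rw [zero_add] at h1
  rw [h1]
  exact List.mem_map.2 ⟨p, h, rfl⟩

/-- the part after a return to the column `0` which stays in the columns `≥ 0` -/
theorem split_aux {H : ℕ} {l A : Wd} (hs : l ++ A ∈ Fp H) (hl : (ep 0 l).1 = 0)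
    (hA : ∀ p ∈ vt 0 A, 0 ≤ p.1) : A ∈ Fp H ∧ dip (l ++ A) = dip l := by
  refine ⟨⟨SAWs_right hs.1, ?_, fun p hp => ?_⟩, ?_⟩
  · have := hs.2.1
    rw [fst_ep_app, hl, zero_add] at this
    exact this
  · have := hs.2.2 _ (mem_vs_right l hp)
    rw [Prod.fst_add, hl, add_zero] at this
    exact this
  · unfold dip
    apply le_antisymm
    · refine Finset.sup_le fun p hp => ?_
      rw [List.mem_toFinset, mem_vt_app] at hp
      rcases hp with hp | hp
      · exact Finset.le_sup (f := fun p : ℤ × ℤ => (-p.1).toNat) (List.mem_toFinset.2 hp)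
      · have := hA _ hp
        rw [Prod.fst_sub, hl] at this
        have h2 : (-p.1).toNat = 0 := by omega
        rw [h2]
        exact Nat.zero_le _
    · refine Finset.sup_mono fun p hp => ?_
      rw [List.mem_toFinset] at hp ⊢
      exact mem_vt_left A hp

/-- first passage words are loops followed by first passage words in the columns `≥ 0` -/
theorem Fp_split {H : ℕ} {s : Wd} (hs : s ∈ Fp H) : ∃ l A : Wd, s = l ++ A ∧ (ep 0 l).1 = 0 ∧
    SAWs l ∧ A ∈ Fp H ∧ (∀ p ∈ vt 0 A, 0 ≤ p.1) ∧ dip s = dip l ∧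
    ∀ h : ℤ, cr s h = cr l h + cr A h := by
  have key : ∃ l A : Wd, s = l ++ A ∧ (ep 0 l).1 = 0 ∧ ∀ p ∈ vt 0 A, 0 ≤ p.1 := by
    by_cases hv : ∃ p ∈ vt 0 s, p.1 ≤ -1
    · obtain ⟨u, v, h1, h2, h3⟩ := last_cross hv (by rw [hs.2.1]; omega)
      have h4 : (dv 0).1 = 1 := rfl
      refine ⟨u ++ [0], v, by rw [h1]; simp, ?_, fun p hp => ?_⟩
      · rw [fst_ep_app, h2, ep_cons, ep_nil, zero_add, h4]
        norm_num
      · have h5 := h3 (p + dv 0) (by
          rw [vt_cons, List.tail_cons, zero_add, vt_eq]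
          exact List.mem_map_of_mem hp)
        rw [Prod.fst_add, h4] at h5
        omega
    · refine ⟨[], s, rfl, rfl, fun p hp => ?_⟩
      by_contra h1
      exact hv ⟨p, hp, by omega⟩
  obtain ⟨l, A, rfl, hl, hA⟩ := key
  obtain ⟨h1, h2⟩ := split_aux hs hl hA
  refine ⟨l, A, rfl, hl, SAWs_left hs.1, h1, hA, h2, fun h => ?_⟩
  rw [cr_append, hl, sub_zero]

theorem cr_Fp_pos {H : ℕ} {w : Wd} (hw : w ∈ Fp H) {h : ℤ} (h0 : 0 ≤ h) (h1 : h < H) :
    1 ≤ cr w h := cr_pos_of_lt h0 (by rw [hw.2.1]; exact h1)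

theorem cr_Fp_out {H : ℕ} {w : Wd} (hw : w ∈ Fp H) {h : ℤ} (h1 : (H : ℤ) ≤ h) :
    cr w h = 0 := cr_eq_zero_of_le fun _ hp => (Fp_col hw hp).trans h1

/-- the loop of the first component has at most `c` crossings of every line -/
theorem loop_le {c H : ℕ} {s s' l A l' A' : Wd} (hs : s ∈ Fp H) (hA : A ∈ Fp H)
    (hA' : A' ∈ Fp H) (hT : ∀ h : ℤ, cr s h + cr s' h ≤ if h < 0 then c else c + 2)
    (e : ∀ h : ℤ, cr s h = cr l h + cr A h) (e' : ∀ h : ℤ, cr s' h = cr l' h + cr A' h) (h : ℤ) :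
    cr l h ≤ c := by
  have h1 := hT h
  have h2 := e h
  have h3 := e' h
  by_cases h0 : h < 0
  · rw [if_pos h0] at h1
    omega
  · rw [if_neg h0] at h1
    rcases lt_or_ge h (H : ℤ) with h4 | h4
    · have h5 := cr_Fp_pos hA (not_lt.1 h0) h4
      have h6 := cr_Fp_pos hA' (not_lt.1 h0) h4
      omega
    · have h5 := cr_Fp_out hs h4
      omega

/-- decomposition of the pairs of first passage words -/
theorem Fpp_split (h1 : MIR2_Stmt) {c H : ℕ} {p : Wd × Wd} (hp : p ∈ Fpp c H) :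
    ∃ l l' : Wd, ∃ q : Wd × Wd, l ∈ Lp c ∧ l' ∈ Lp c ∧ q ∈ Brp (c + 2) H ∧
      p = (l ++ rx (rv q.1), l' ++ rx (rv q.2)) ∧ dip p.1 = dip l ∧ dip p.2 = dip l' ∧
      (∀ h : ℤ, cr p.1 h = cr l h + cr q.1 ((H : ℤ) - 1 - h)) ∧
      (∀ h : ℤ, cr p.2 h = cr l' h + cr q.2 ((H : ℤ) - 1 - h)) := by
  obtain ⟨s, s'⟩ := p
  obtain ⟨hs, hs', hT⟩ := hp
  simp only at hs hs'
  have hT : ∀ h : ℤ, cr s h + cr s' h ≤ if h < 0 then c else c + 2 := hT
  obtain ⟨l, A, e1, hl, hlS, hA, hA0, hd, hc⟩ := Fp_split hs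
  obtain ⟨l', A', e1', hl', hlS', hA', hA0', hd', hc'⟩ := Fp_split hs'
  obtain ⟨m1, m2, m3⟩ := h1 H A hA hA0
  obtain ⟨m1', m2', m3'⟩ := h1 H A' hA' hA0'
  have hT' : ∀ h : ℤ, cr s' h + cr s h ≤ if h < 0 then c else c + 2 := fun h => by
    rw [add_comm]; exact hT h
  have e : ∀ h : ℤ, (H : ℤ) - 1 - ((H : ℤ) - 1 - h) = h := fun h => by ring
  refine ⟨l, l', (rx (rv A), rx (rv A')), ⟨hlS, hl, loop_le hs hA hA' hT hc hc'⟩,
    ⟨hlS', hl', loop_le hs' hA' hA hT' hc' hc⟩, ⟨m1, m1', fun h => ?_⟩, ?_, hd, hd', ?_, ?_⟩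
  · simp only
    rw [m3, m3']
    have h2 := hT ((H : ℤ) - 1 - h)
    have h3 := hc ((H : ℤ) - 1 - h)
    have h4 := hc' ((H : ℤ) - 1 - h)
    split_ifs at h2 <;> omega
  · simp only
    rw [m2, m2', ← e1, ← e1']
  · intro h
    simp only
    rw [m3, e, hc]
  · intro h
    simp only
    rw [m3', e, hc']

theorem Wz_split (z : ℝ≥0∞) (l l' : Wd) (q : Wd × Wd) :
    Wz z (l ++ rx (rv q.1), l' ++ rx (rv q.2)) = wz z l * wz z l' * Wz z q := by
  unfold Wz wz lg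
  simp only [List.length_append, rx_length, rv_length]
  rw [← pow_add, ← pow_add]
  congr 1
  ring

end Pool.Agent.XM.FPS

namespace Pool.Agent.XM

open Finset Pool.Agent.Lib27 Pool.Agent.OC
open scoped NNReal ENNReal

/-- module FPS -/
theorem fps_thm (h1 : MIR2_Stmt) : FPS_Stmt := by
  intro c z H f g
  unfold Y
  refine gs_split3 (fun (l l' : Wd) (q : Wd × Wd) => (l ++ rx (rv q.1), l' ++ rx (rv q.2))) ?_
  intro p hp
  obtain ⟨l, l', q, hl, hl', hq, rfl, hd, hd', _, _⟩ := FPS.Fpp_split h1 hp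
  refine ⟨l, l', q, hl, hl', hq, rfl, ?_⟩
  rw [hd, hd', FPS.Wz_split]
  refine le_of_eq ?_
  ring

end Pool.Agent.XM
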