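import Pool.Agent.XM.Stmts
import Pool.Agent.Lib_helper74.MG.Gf

/-!
# Column-convex polygons (MP_f6626d_co): GAP, the mass gap beyond the critical point
-/

set_option autoImplicit false

namespace Pool.Agent.XM.GAP

open Finset Pool.Agent.Lib27 Pool.Agent.OC
open scoped NNReal ENNReal

open Classical in
/-- the weight of a block is a convex function -/
theorem theta_convex (c : ℕ) (R : ℝ≥0∞) (K : ℕ) {w₁ w₂ : ℝ≥0∞} (hw : w₁ + w₂ = 1)
    (z₁ z₂ : ℝ≥0∞) :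
    theta c (w₁ * z₁ + w₂ * z₂) R K ≤ w₁ * theta c z₁ R K + w₂ * theta c z₂ R K := by
  have h : ∀ z : ℝ≥0∞, theta c z R K = ∑' p : Fpp c (3 * K),
      (R ^ (cc K (p : Wd × Wd).1 + cc K (p : Wd × Wd).2) *
          (if SB K (p : Wd × Wd) then 1 else R⁻¹)) *
        z ^ ((p : Wd × Wd).1.length + (p : Wd × Wd).2.length) := by
    intro z
    unfold theta gs Wz lg
    congr 1
    funext p
    ring
  rw [h, h, h]
  exact MG.tsum_pow_convex _ _ _ _ _ _ hw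

/-- a root close to one -/
theorem exists_root (n : ℕ) : ∃ r : ℝ≥0, 0 < r ∧ r < 1 ∧ (3 / 4 : ℝ≥0) ≤ r ^ n := by
  refine ⟨1 - (4 * (n + 1) : ℝ≥0)⁻¹, ?_, ?_, ?_⟩
  · refine tsub_pos_of_lt ?_
    rw [inv_lt_one₀ (by positivity)]
    calc (1 : ℝ≥0) < 4 * (0 + 1) := by norm_num
      _ ≤ 4 * (n + 1) := by gcongr; exact bot_le
  · exact tsub_lt_self one_pos (by positivity)
  · have h1 : (4 * ((n : ℝ≥0) + 1))⁻¹ ≤ 1 := by
      rw [inv_le_one₀ (by positivity)]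
      calc (1 : ℝ≥0) ≤ 4 * (0 + 1) := by norm_num
        _ ≤ 4 * (n + 1) := by gcongr; exact bot_le
    rw [← NNReal.coe_le_coe]
    push_cast [NNReal.coe_sub h1]
    have h2 : (0 : ℝ) ≤ n := Nat.cast_nonneg n
    have h3 := one_add_mul_le_pow (a := -(4 * ((n : ℝ) + 1))⁻¹) (by
      have : (4 * ((n : ℝ) + 1))⁻¹ ≤ 1 := by
        rw [inv_le_one₀ (by positivity)]
        linarith
      linarith) n
    refine le_trans ?_ (h3.trans (le_of_eq ?_))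
    · have h4 : (n : ℝ) * (4 * ((n : ℝ) + 1))⁻¹ ≤ 1 / 4 := by
        rw [← div_eq_mul_inv, div_le_div_iff₀ (by positivity) (by norm_num)]
        linarith
      linarith
    · congr 1

theorem Wz_mono {z z' : ℝ≥0∞} (h : z ≤ z') (p : Wd × Wd) : Wz z p ≤ Wz z' p :=
  pow_le_pow_left₀ bot_le h _

end Pool.Agent.XM.GAP

namespace Pool.Agent.XM

open Finset Pool.Agent.Lib27 Pool.Agent.OC
open scoped NNReal ENNReal

theorem gap_thm (h1 : THETA_Stmt) (h2 : THFIN_Stmt) (h3 : IRR_Stmt) (_h4 : ZST_Stmt) :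
    GAP_Stmt := by
  intro c
  obtain ⟨R, hR, hth⟩ := h1 c
  obtain ⟨K0, e0, he0, hfin⟩ := h2 c R hR
  obtain ⟨K, hKpos, hK0, hhalf⟩ := hth K0
  obtain ⟨M, hM⟩ := hfin K
  obtain ⟨hMth, hMtop⟩ := hM K hK0 le_rfl
  obtain ⟨r, hr0, hr1, hr⟩ := GAP.exists_root (3 * K)
  set s : ℝ≥0 := (4 * (M + 1))⁻¹ with hs
  have hs0 : 0 < s := by positivity
  have hs1 : s ≤ 1 := by
    rw [hs, inv_le_one₀ (by positivity)]
    calc (1 : ℝ≥0) ≤ 4 * (0 + 1) := by norm_num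
      _ ≤ 4 * (M + 1) := by gcongr; exact bot_le
  have hsM : s * M ≤ 4⁻¹ := by
    rw [hs, mul_inv, mul_assoc]
    calc (4 : ℝ≥0)⁻¹ * ((M + 1)⁻¹ * M) ≤ 4⁻¹ * ((M + 1)⁻¹ * (M + 1)) := by
          gcongr
          exact le_self_add
      _ = 4⁻¹ := by rw [inv_mul_cancel₀ (by positivity), mul_one]
  refine ⟨s * e0, 2 * M, r, by positivity, hr1, ?_⟩
  intro z hz l
  have hR' : (1 : ℝ≥0∞) ≤ R := by exact_mod_cast hR
  have hsum : ((1 - s : ℝ≥0) : ℝ≥0∞) + (s : ℝ≥0∞) = 1 := by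
    rw [← ENNReal.coe_add, tsub_add_cancel_of_le hs1, ENNReal.coe_one]
  set z₂ : ℝ≥0∞ := (1 + e0) * zst c with hz₂
  have hz' : z ≤ ((1 - s : ℝ≥0) : ℝ≥0∞) * zst c + (s : ℝ≥0∞) * z₂ := by
    refine hz.trans (le_of_eq ?_)
    rw [hz₂]
    calc (1 + ((s * e0 : ℝ≥0) : ℝ≥0∞)) * zst c
        = ((((1 - s : ℝ≥0) : ℝ≥0∞) + s) + s * e0) * zst c := by rw [hsum]; push_cast; rfl
      _ = _ := by ring
  have hz₂' : ((1 - s : ℝ≥0) : ℝ≥0∞) * zst c + (s : ℝ≥0∞) * z₂ ≤ z₂ := by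
    calc ((1 - s : ℝ≥0) : ℝ≥0∞) * zst c + (s : ℝ≥0∞) * z₂
        ≤ ((1 - s : ℝ≥0) : ℝ≥0∞) * z₂ + (s : ℝ≥0∞) * z₂ := by
          gcongr
          rw [hz₂]
          calc zst c = 1 * zst c := (one_mul _).symm
            _ ≤ (1 + e0) * zst c := mul_le_mul_left le_self_add _
      _ = z₂ := by rw [← add_mul, hsum, one_mul]
  have hthz : theta c z R K ≤ ((3 / 4 : ℝ≥0) : ℝ≥0∞) := by
    have h5 : theta c z R K ≤ theta c (((1 - s : ℝ≥0) : ℝ≥0∞) * zst c + (s : ℝ≥0∞) * z₂) R K :=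
      gs_le _ _ subset_rfl fun p _ => mul_le_mul_left (GAP.Wz_mono hz' p) _
    refine h5.trans ((GAP.theta_convex c R K hsum _ _).trans ?_)
    calc ((1 - s : ℝ≥0) : ℝ≥0∞) * theta c (zst c) R K + (s : ℝ≥0∞) * theta c z₂ R K
        ≤ ((1 : ℝ≥0) : ℝ≥0∞) * ((2⁻¹ : ℝ≥0) : ℝ≥0∞) + (s : ℝ≥0∞) * (M : ℝ≥0∞) := by
          refine add_le_add (mul_le_mul' ?_ ?_) (mul_le_mul_right hMth _)
          · exact_mod_cast tsub_le_self
          · refine hhalf.trans (le_of_eq ?_)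
            rw [ENNReal.coe_inv (by norm_num)]
            rfl
      _ ≤ ((1 : ℝ≥0) : ℝ≥0∞) * ((2⁻¹ : ℝ≥0) : ℝ≥0∞) + ((4⁻¹ : ℝ≥0) : ℝ≥0∞) := by
          refine add_le_add le_rfl ?_
          exact_mod_cast hsM
      _ = ((3 / 4 : ℝ≥0) : ℝ≥0∞) := by
          rw [← ENNReal.coe_mul, ← ENNReal.coe_add]
          congr 1
          rw [← NNReal.coe_inj]
          push_cast
          norm_num
  -- division with remainder
  set k := l / (3 * K) with hk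
  set m := l % (3 * K) with hm
  have hl : k * (3 * K) + m = l := by
    rw [hk, hm, mul_comm]
    exact Nat.div_add_mod l (3 * K)
  have hmlt : m < 3 * K := Nat.mod_lt _ (by omega)
  have h5 := h3 c z R K hR' ENNReal.coe_ne_top hKpos k m
  rw [hl] at h5
  have h6 : gs (fun p => Wz z p * (R : ℝ≥0∞) ^ (cc K p.1 + cc K p.2)) (Fpp c m) ≤ M := by
    refine le_trans ?_ (hMtop m hmlt.le)
    exact gs_le _ _ subset_rfl fun p _ => mul_le_mul_left (GAP.Wz_mono (hz'.trans hz₂') p) _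
  have h7 : ((3 / 4 : ℝ≥0)) ^ k ≤ 2 * r ^ l := by
    calc ((3 / 4 : ℝ≥0)) ^ k ≤ (r ^ (3 * K)) ^ k := by gcongr
      _ = 1 * r ^ (3 * K * k) := by rw [← pow_mul, one_mul]
      _ ≤ (2 * r ^ (3 * K)) * r ^ (3 * K * k) := by
          refine mul_le_mul_left ?_ _
          calc (1 : ℝ≥0) ≤ 2 * (3 / 4) := by
                rw [← NNReal.coe_le_coe]; push_cast; norm_num
            _ ≤ 2 * r ^ (3 * K) := by gcongr
      _ = 2 * r ^ (3 * K + 3 * K * k) := by rw [pow_add]; ring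
      _ ≤ 2 * r ^ l := by
          refine mul_le_mul_right (pow_le_pow_right_of_le_one' hr1.le ?_) _
          have : k * (3 * K) = 3 * K * k := by ring
          omega
  calc ww (c + 2) z l ≤ (M : ℝ≥0∞) * ((3 / 4 : ℝ≥0) : ℝ≥0∞) ^ k :=
        h5.trans (mul_le_mul' h6 (pow_le_pow_left₀ bot_le hthz k))
    _ ≤ (M : ℝ≥0∞) * ((2 * r ^ l : ℝ≥0) : ℝ≥0∞) := by
        refine mul_le_mul_right ?_ _
        exact_mod_cast h7
    _ = ((2 * M : ℝ≥0) : ℝ≥0∞) * (r : ℝ≥0∞) ^ l := by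
        push_cast
        ring

end Pool.Agent.XM
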