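import Pool.Agent.XM.Stmts

/-!
# Column-convex polygons (MP_f6626d_co): INSA, the insertion can be undone
-/

set_option autoImplicit false

namespace Pool.Agent.XM

open Finset Pool.Agent.Lib27 Pool.Agent.OC

namespace INSA

/-- horizontal displacement of a word -/
def px : Wd → ℤ
  | [] => 0
  | s :: t => (dv s).1 + px t

theorem px_append (u v : Wd) : px (u ++ v) = px u + px v := by
  induction u with
  | nil => simp [px]
  | cons s t ih => simp only [List.cons_append, px, ih]; ring

/-- the step from the column `x` to the column `x'` is deleted -/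
def cnd (h x x' : ℤ) : Prop := h + 1 ≤ x ∧ h + 1 ≤ x' ∧ (x ≤ h + 3 ∨ x' ≤ h + 3)

/-- all steps of the word, started in the column `x`, are deleted -/
def Inn (h : ℤ) : ℤ → Wd → Prop
  | _, [] => True
  | x, s :: t => cnd h x (x + (dv s).1) ∧ Inn h (x + (dv s).1) t

theorem inn_append (h : ℤ) (u v : Wd) : ∀ x : ℤ,
    Inn h x (u ++ v) ↔ Inn h x u ∧ Inn h (x + px u) v := by
  induction u with
  | nil => intro x; simp [Inn, px]
  | cons s t ih =>
    intro x
    simp only [List.cons_append, Inn, px, ih, and_assoc, add_assoc]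

theorem dv_rev (s : Fin 4) : (dv (s + 2)).1 = -(dv s).1 := by
  fin_cases s <;> rfl

theorem rv_cons (s : Fin 4) (t : Wd) : rv (s :: t) = rv t ++ [s + 2] := by
  unfold rv
  rw [List.map_cons, List.reverse_cons]

theorem px_rv (u : Wd) : px (rv u) = -px u := by
  induction u with
  | nil => rfl
  | cons s t ih =>
    rw [rv_cons, px_append, ih]
    simp only [px, dv_rev]
    ring

theorem inn_rv (h : ℤ) (u : Wd) : ∀ x : ℤ, Inn h x u → Inn h (x + px u) (rv u) := by
  induction u with
  | nil => intro x _; trivial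
  | cons s t ih =>
    intro x hx
    obtain ⟨h1, h2⟩ := hx
    have h3 := ih _ h2
    rw [rv_cons, inn_append]
    refine ⟨?_, ?_, trivial⟩
    · have : x + px (s :: t) = x + (dv s).1 + px t := by simp only [px]; ring
      rw [this]
      exact h3
    · have e1 : x + px (s :: t) + px (rv t) = x + (dv s).1 := by
        rw [px_rv]; simp only [px]; ring
      have e2 : x + (dv s).1 + (dv (s + 2)).1 = x := by rw [dv_rev]; ring
      rw [e1, e2]
      unfold cnd at h1 ⊢
      omega

theorem del_cons (h x : ℤ) (s : Fin 4) (t : Wd) : del h x (s :: t) =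
    if h + 1 ≤ x ∧ h + 1 ≤ x + (dv s).1 ∧ (x ≤ h + 3 ∨ x + (dv s).1 ≤ h + 3) then
      del h (x + (dv s).1) t
    else s :: del h (x + (dv s).1) t := rfl

theorem del_inn (h : ℤ) (u v : Wd) : ∀ x : ℤ, Inn h x u →
    del h x (u ++ v) = del h (x + px u) v := by
  induction u with
  | nil => intro x _; simp [px]
  | cons s t ih =>
    intro x hx
    obtain ⟨h1, h2⟩ := hx
    unfold cnd at h1
    rw [List.cons_append, del_cons, if_pos h1, ih _ h2]
    congr 1
    simp only [px]
    ring

/-- a segment: first step East, then deleted steps from the column `h + 1` to the column `h + 4` -/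
def Sgm (h : ℤ) (w : Wd) : Prop := ∃ u : Wd, w = 0 :: u ∧ Inn h (h + 1) u ∧ px u = 3

theorem dv0 : (dv 0).1 = 1 := rfl

theorem dv1 : (dv 1).1 = 0 := rfl

theorem dv2 : (dv 2).1 = -1 := rfl

theorem dv3 : (dv 3).1 = 0 := rfl

theorem flat_ok (h : ℤ) (j : ℕ) : Inn h (h + 2) (List.replicate j [1, 2, 1, 0]).flatten ∧
    px (List.replicate j ([1, 2, 1, 0] : Wd)).flatten = 0 := by
  induction j with
  | zero => exact ⟨trivial, rfl⟩
  | succ j ih =>
    rw [List.replicate_succ, List.flatten_cons]
    have h0 : px [1, 2, 1, 0] = 0 := by simp only [px, dv0, dv1, dv2]; norm_num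
    refine ⟨?_, ?_⟩
    · rw [inn_append, h0, add_zero]
      refine ⟨?_, ih.1⟩
      simp only [Inn, cnd, dv0, dv1, dv2, and_true]
      omega
    · rw [px_append, h0, ih.2, add_zero]

theorem rep_ok (h : ℤ) (n : ℕ) : Inn h (h + 3) (List.replicate n 3) ∧
    px (List.replicate n 3) = 0 := by
  induction n with
  | zero => exact ⟨trivial, rfl⟩
  | succ n ih =>
    rw [List.replicate_succ]
    refine ⟨⟨?_, ?_⟩, ?_⟩
    · simp only [cnd, dv3]; omega
    · rw [dv3, add_zero]; exact ih.1
    · simp only [px, dv3, ih.2]; norm_num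

theorem comb_ok (h : ℤ) (j : ℕ) : Sgm h (comb j) := by
  refine ⟨[0] ++ (List.replicate j [1, 2, 1, 0]).flatten ++ [0] ++ List.replicate (2 * j) 3 ++ [0],
    by simp [comb], ?_, ?_⟩
  · have h1 : px [0] = 1 := by simp only [px, dv0]; norm_num
    rw [inn_append, inn_append, inn_append, inn_append]
    simp only [px_append, h1, (flat_ok h j).2, (rep_ok h (2 * j)).2]
    refine ⟨⟨⟨⟨?_, ?_⟩, ?_⟩, ?_⟩, ?_⟩
    · simp only [Inn, cnd, dv0, and_true]; omega
    · rw [show h + 1 + 1 = h + 2 by ring]; exact (flat_ok h j).1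
    · simp only [Inn, cnd, dv0, and_true]; omega
    · rw [show h + 1 + (1 + 0 + 1) = h + 3 by ring]; exact (rep_ok h (2 * j)).1
    · simp only [Inn, cnd, dv0, and_true]; omega
  · have h1 : px [0] = 1 := by simp only [px, dv0]; norm_num
    simp only [px_append, h1, (flat_ok h j).2, (rep_ok h (2 * j)).2]
    norm_num

theorem sg_ok (h yy : ℤ) (j : ℕ) (y : ℤ) : Sgm h (sg yy j y) := by
  unfold sg
  split_ifs
  · exact comb_ok h j
  · refine ⟨[0, 0, 0], rfl, ?_, ?_⟩
    · simp only [Inn, cnd, dv0, and_true]; omega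
    · simp only [px, dv0]; norm_num

theorem ins_cons (h : ℤ) (seg : ℤ → Wd) (p : ℤ × ℤ) (s : Fin 4) (t : Wd) :
    ins h seg p (s :: t) = (if xs h (p, s) = true then
      (if s = 0 then seg p.2 else rv (seg p.2)) else [s]) ++ ins h seg (p + dv s) t := rfl

theorem main (h : ℤ) (seg : ℤ → Wd) (hseg : ∀ y, Sgm h (seg y)) (A : Wd) :
    ∀ (p : ℤ × ℤ) (x : ℤ), (p.1 ≤ h ∧ x = p.1) ∨ (h + 1 ≤ p.1 ∧ x = p.1 + 3) →
      del h x (ins h seg p A) = A := by
  induction A with
  | nil => intro p x _; rfl
  | cons s t ih =>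
    intro p x hx
    rw [ins_cons]
    by_cases hc : xs h (p, s) = true
    · rw [if_pos hc]
      unfold xs at hc
      rw [decide_eq_true_iff] at hc
      obtain ⟨u, hu, hin, hpx⟩ := hseg p.2
      rcases hc with ⟨hs, hp⟩ | ⟨hs, hp⟩
      · simp only at hs hp
        subst hs
        rw [if_pos rfl, hu, List.cons_append, del_cons, dv0, if_neg (by omega)]
        have hx' : x = h := by omega
        rw [hx', del_inn h u _ _ hin, hpx]
        rw [ih (p + dv 0) (h + 1 + 3) (Or.inr (by
          rw [Prod.fst_add, dv0]; omega))]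
      · simp only at hs hp
        subst hs
        rw [if_neg (by decide), hu, rv_cons, List.append_assoc]
        have hx' : x = h + 1 + px u := by omega
        rw [hx', del_inn h (rv u) _ _ (inn_rv h u _ hin), px_rv]
        have h02 : (0 : Fin 4) + 2 = 2 := rfl
        rw [h02, List.singleton_append, del_cons, dv2, if_neg (by omega)]
        rw [ih (p + dv 2) (h + 1 + px u + -px u + -1) (Or.inl (by
          rw [Prod.fst_add, dv2]; omega))]
    · rw [if_neg hc]
      unfold xs at hc
      rw [decide_eq_true_iff] at hc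
      simp only at hc
      push Not at hc
      obtain ⟨hc0, hc2⟩ := hc
      rw [List.singleton_append, del_cons]
      have hs : (s = 0 ∧ (dv s).1 = 1) ∨ (s = 2 ∧ (dv s).1 = -1) ∨ (dv s).1 = 0 := by
        fin_cases s
        · left; exact ⟨rfl, rfl⟩
        · right; right; rfl
        · right; left; exact ⟨rfl, rfl⟩
        · right; right; rfl
      have h0 : s = 0 → p.1 ≠ h := hc0
      have h2 : s = 2 → p.1 ≠ h + 1 := hc2
      rcases hs with ⟨h3, h4⟩ | ⟨h3, h4⟩ | h4
      · have h5 := h0 h3
        rw [if_neg (by omega), ih (p + dv s) _ (by rw [Prod.fst_add]; omega)]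
      · have h5 := h2 h3
        rw [if_neg (by omega), ih (p + dv s) _ (by rw [Prod.fst_add]; omega)]
      · rw [if_neg (by omega), ih (p + dv s) _ (by rw [Prod.fst_add]; omega)]

end INSA

theorem insa_thm : INSA_Stmt := by
  intro h yy j A hh
  exact INSA.main h (sg yy j) (INSA.sg_ok h yy j) A 0 0 (Or.inl ⟨hh, rfl⟩)

end Pool.Agent.XM
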