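import Pool.Agent.XM.Lib

/-!
# Column-convex polygons (MP_f6626d_co): INSB, the new word is a bridge

The vertices of the new word are the old ones (shifted by `(3, 0)` in the columns `> h`) and the
inner vertices of the segments of the crossings, in the columns `h + 1, h + 2, h + 3`.
-/

set_option autoImplicit false

namespace Pool.Agent.XM.INSB

open Finset Pool.Agent.Lib27 Pool.Agent.OC

/-- the position in the new word -/
def sh (h : ℤ) (p : ℤ × ℤ) : ℤ × ℤ := if h < p.1 then p + (3, 0) else p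

/-- segments: from the column `0` to the column `4`, inner vertices in the columns `1, 2, 3` -/
structure Sg (s : Wd) : Prop where
  nodup : (vt 0 s).Nodup
  ep4 : ep 0 s = (4, 0)
  inner : ∀ v ∈ vt 0 s, v = 0 ∨ v = (4, 0) ∨ (1 ≤ v.1 ∧ v.1 ≤ 3 ∧ 0 ≤ v.2)

/-- the word which replaces one step -/
def pt (h : ℤ) (seg : ℤ → Wd) (p : ℤ × ℤ) (s : Fin 4) : Wd :=
  if xs h (p, s) then (if s = 0 then seg p.2 else rv (seg p.2)) else [s]

theorem ins_cons (h : ℤ) (seg : ℤ → Wd) (p : ℤ × ℤ) (s : Fin 4) (t : Wd) :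
    ins h seg p (s :: t) = pt h seg p s ++ ins h seg (p + dv s) t := rfl

/-! ### shifted vertices -/

theorem sh_of_le {h : ℤ} {p : ℤ × ℤ} (hp : p.1 ≤ h) : sh h p = p := by
  unfold sh
  rw [if_neg (by omega)]

theorem sh_of_gt {h : ℤ} {p : ℤ × ℤ} (hp : h < p.1) : sh h p = p + (3, 0) := by
  unfold sh
  rw [if_pos hp]

theorem sh_col (h : ℤ) (p : ℤ × ℤ) : (sh h p).1 ≤ h ∨ h + 4 ≤ (sh h p).1 := by
  rcases le_or_gt p.1 h with h1 | h1
  · rw [sh_of_le h1]
    exact Or.inl h1
  · rw [sh_of_gt h1, Prod.fst_add]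
    right
    show h + 4 ≤ p.1 + 3
    omega

theorem sh_inj (h : ℤ) : Function.Injective (sh h) := by
  intro p q hpq
  have e1 := congrArg Prod.fst hpq
  have e2 := congrArg Prod.snd hpq
  rcases le_or_gt p.1 h with h1 | h1 <;> rcases le_or_gt q.1 h with h2 | h2
  · rw [sh_of_le h1, sh_of_le h2] at hpq
    exact hpq
  · rw [sh_of_le h1, sh_of_gt h2, Prod.fst_add] at e1
    have : ((3 : ℤ), (0 : ℤ)).1 = 3 := rfl
    rw [this] at e1
    omega
  · rw [sh_of_gt h1, sh_of_le h2, Prod.fst_add] at e1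
    have : ((3 : ℤ), (0 : ℤ)).1 = 3 := rfl
    rw [this] at e1
    omega
  · rw [sh_of_gt h1, sh_of_gt h2] at hpq
    exact add_right_cancel hpq

/-! ### one step -/

theorem ep_pt {h : ℤ} {seg : ℤ → Wd} (hs : ∀ y, Sg (seg y)) (p : ℤ × ℤ) (s : Fin 4) :
    ep (sh h p) (pt h seg p s) = sh h (p + dv s) := by
  unfold pt
  by_cases hx : xs h (p, s) = true
  · rw [if_pos hx]
    rw [xs_iff] at hx
    rcases hx with ⟨h1, h2⟩ | ⟨h1, h2⟩
    · simp only at h1 h2
      subst h1
      have h3 : h < (p + dv 0).1 := by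
        rw [Prod.fst_add]
        have : (dv 0).1 = 1 := rfl
        omega
      rw [if_pos rfl, sh_of_le h2.le, sh_of_gt h3, ep_eq, (hs p.2).ep4, add_comm, add_assoc]
      rfl
    · simp only at h1 h2
      subst h1
      have h3 : (p + dv 2).1 ≤ h := by
        rw [Prod.fst_add]
        have : (dv 2).1 = -1 := rfl
        omega
      have h4 : p + (3, 0) = ep (p + dv 2) (seg p.2) := by
        rw [ep_eq, (hs p.2).ep4, add_comm _ (p + dv 2), add_assoc]
        rfl
      rw [if_neg (by decide), sh_of_gt (by omega), sh_of_le h3, h4, ep_rv]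
  · rw [if_neg hx, ep_cons, ep_nil]
    have hx' : xs h (p, s) = false := by simpa using hx
    rcases le_or_gt p.1 h with h1 | h1
    · have h2 : (p + dv s).1 ≤ h := by
        by_contra hc
        apply hx
        rw [xs_iff]
        rw [Prod.fst_add] at hc
        rcases dv_fst_cases s with ⟨h3, h4⟩ | ⟨h3, h4⟩ | ⟨h3, h3', h4⟩
        · exact Or.inl ⟨h3, by simp only; omega⟩
        · omega
        · omega
      rw [sh_of_le h1, sh_of_le h2]
    · have h2 : h < (p + dv s).1 := by
        by_contra hc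
        apply hx
        rw [xs_iff]
        rw [Prod.fst_add] at hc
        rcases dv_fst_cases s with ⟨h3, h4⟩ | ⟨h3, h4⟩ | ⟨h3, h3', h4⟩
        · omega
        · exact Or.inr ⟨h3, by simp only; omega⟩
        · omega
      rw [sh_of_gt h1, sh_of_gt h2, add_right_comm]

/-- inner vertex of the segment of the crossing `q` -/
def In (h : ℤ) (seg : ℤ → Wd) (q : (ℤ × ℤ) × Fin 4) (v : ℤ × ℤ) : Prop :=
  xs h q = true ∧ ∃ u ∈ vt 0 (seg q.1.2), 1 ≤ u.1 ∧ u.1 ≤ 3 ∧ 0 ≤ u.2 ∧ v.1 = h + u.1 ∧
    v.2 = q.1.2 + u.2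

theorem nodup_pt {h : ℤ} {seg : ℤ → Wd} (hs : ∀ y, Sg (seg y)) (p : ℤ × ℤ) (s : Fin 4) :
    (vt (sh h p) (pt h seg p s)).Nodup := by
  unfold pt
  split_ifs with h1 h2
  · rw [nodup_vt]
    exact (hs _).nodup
  · rw [nodup_vt]
    exact SAWs_rv (hs _).nodup
  · rw [nodup_vt]
    have h3 : dv s ≠ 0 := by fin_cases s <;> decide
    simp only [vt_cons, vt_nil, zero_add, List.nodup_cons, List.mem_singleton,
      List.not_mem_nil, not_false_eq_true, List.nodup_nil, and_true]
    exact fun hc => h3 hc.symm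

theorem vs_pt {h : ℤ} {seg : ℤ → Wd} (hs : ∀ y, Sg (seg y)) (p : ℤ × ℤ) (s : Fin 4) {v : ℤ × ℤ}
    (hv : v ∈ vs (sh h p) (pt h seg p s)) : v = sh h p ∨ In h seg (p, s) v := by
  have hn := nodup_pt (h := h) hs p s
  have hne : v ≠ sh h (p + dv s) := by
    rintro rfl
    unfold vt at hn
    rw [ep_pt hs, List.nodup_append] at hn
    exact hn.2.2 _ hv _ (List.mem_singleton.2 rfl) rfl
  have hvt : v ∈ vt (sh h p) (pt h seg p s) := List.mem_append_left _ hv
  by_cases hx : xs h (p, s) = true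
  · unfold pt at hvt
    rw [if_pos hx] at hvt
    have hx' := hx
    rw [xs_iff] at hx'
    rcases hx' with ⟨h1, h2⟩ | ⟨h1, h2⟩
    · simp only at h1 h2
      subst h1
      have h3 : h < (p + dv 0).1 := by
        rw [Prod.fst_add]
        have : (dv 0).1 = 1 := rfl
        omega
      rw [if_pos rfl, vt_eq, List.mem_map] at hvt
      obtain ⟨u, hu, rfl⟩ := hvt
      rcases (hs _).inner u hu with rfl | rfl | ⟨h4, h5, h6⟩
      · left
        rw [zero_add]
      · exfalso
        apply hne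
        rw [sh_of_le h2.le, sh_of_gt h3, add_comm, add_assoc]
        rfl
      · right
        refine ⟨hx, u, hu, h4, h5, h6, ?_, ?_⟩
        · rw [sh_of_le h2.le, Prod.fst_add, h2, add_comm]
        · rw [sh_of_le h2.le, Prod.snd_add, add_comm]
    · simp only at h1 h2
      subst h1
      have h3 : (p + dv 2).1 ≤ h := by
        rw [Prod.fst_add]
        have : (dv 2).1 = -1 := rfl
        omega
      have h4 : p + (3, 0) = ep (p + dv 2) (seg p.2) := by
        rw [ep_eq, (hs p.2).ep4, add_comm _ (p + dv 2), add_assoc]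
        rfl
      have h5 : vt (sh h p) (rv (seg p.2)) = (vt (p + dv 2) (seg p.2)).reverse := by
        rw [sh_of_gt (by omega), h4]
        unfold vt
        rw [ep_rv]
        exact vs_rv _ _
      rw [if_neg (by decide), h5, List.mem_reverse, vt_eq, List.mem_map] at hvt
      obtain ⟨u, hu, rfl⟩ := hvt
      rcases (hs _).inner u hu with rfl | rfl | ⟨h6, h7, h8⟩
      · exfalso
        apply hne
        rw [sh_of_le h3, zero_add]
      · left
        rw [sh_of_gt (by omega), add_comm, add_assoc]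
        rfl
      · right
        refine ⟨hx, u, hu, h6, h7, h8, ?_, ?_⟩
        · rw [Prod.fst_add, Prod.fst_add]
          have : (dv 2).1 = -1 := rfl
          omega
        · rw [Prod.snd_add, Prod.snd_add]
          have : (dv 2).2 = 0 := rfl
          simp only
          omega
  · unfold pt at hv
    rw [if_neg hx, vs_cons, vs_nil, List.mem_singleton] at hv
    exact Or.inl hv

/-! ### the whole word -/

theorem ep_ins {h : ℤ} {seg : ℤ → Wd} (hs : ∀ y, Sg (seg y)) (t : Wd) : ∀ p : ℤ × ℤ,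
    ep (sh h p) (ins h seg p t) = sh h (ep p t) := by
  induction t with
  | nil => intro p; rfl
  | cons s t ih =>
    intro p
    rw [ins_cons, ep_append, ep_pt hs, ih, ep_cons]

theorem mem_ins {h : ℤ} {seg : ℤ → Wd} (hs : ∀ y, Sg (seg y)) (t : Wd) : ∀ p v : ℤ × ℤ,
    v ∈ vt (sh h p) (ins h seg p t) →
      (∃ q ∈ vt p t, v = sh h q) ∨ ∃ q ∈ stp p t, In h seg q v := by
  induction t with
  | nil =>
    intro p v hv
    have hv' : v ∈ vt (sh h p) [] := hv
    rw [vt_nil, List.mem_singleton] at hv'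
    exact Or.inl ⟨p, by simp, hv'⟩
  | cons s t ih =>
    intro p v hv
    rw [ins_cons, vt_append, ep_pt hs, List.mem_append] at hv
    rcases hv with hv | hv
    · rcases vs_pt hs p s hv with rfl | hv
      · exact Or.inl ⟨p, by simp, rfl⟩
      · exact Or.inr ⟨(p, s), by simp, hv⟩
    · rcases ih _ _ hv with ⟨q, hq, rfl⟩ | ⟨q, hq, hv⟩
      · exact Or.inl ⟨q, by rw [vt_cons]; exact List.mem_cons_of_mem _ hq, rfl⟩
      · exact Or.inr ⟨q, by rw [stp_cons]; exact List.mem_cons_of_mem _ hq, hv⟩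

/-- the two end points of a crossing -/
theorem ends {h : ℤ} {q : (ℤ × ℤ) × Fin 4} (hq : xs h q = true) :
    (q.1 = (h, q.1.2) ∨ q.1 = (h + 1, q.1.2)) ∧
      (q.1 = (h, q.1.2) ∨ q.1 + dv q.2 = (h, q.1.2)) ∧
      (q.1 = (h + 1, q.1.2) ∨ q.1 + dv q.2 = (h + 1, q.1.2)) := by
  obtain ⟨h1, h2⟩ := xs_cols hq
  rcases h2 with ⟨h2, h3⟩ | ⟨h2, h3⟩
  · exact ⟨Or.inl (Prod.ext h2 rfl), Or.inl (Prod.ext h2 rfl), Or.inr (Prod.ext h3 h1)⟩
  · exact ⟨Or.inr (Prod.ext h2 rfl), Or.inr (Prod.ext h3 h1), Or.inl (Prod.ext h2 rfl)⟩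

theorem nodup_ins {h : ℤ} {seg : ℤ → Wd} (hs : ∀ y, Sg (seg y)) (yy : ℤ)
    (hflat : ∀ y, y ≠ yy → ∀ v ∈ vt 0 (seg y), v.2 = 0) (t : Wd) : ∀ p : ℤ × ℤ,
    (∀ q ∈ stp p t, xs h q = true → q.1.2 ≤ yy) → (vt p t).Nodup →
      (vt (sh h p) (ins h seg p t)).Nodup := by
  induction t with
  | nil =>
    intro p _ _
    show (vt (sh h p) []).Nodup
    simp
  | cons s t ih =>
    intro p hyy hn
    rw [vt_cons, List.nodup_cons] at hn
    rw [ins_cons, vt_append, ep_pt hs, List.nodup_append]
    refine ⟨?_, ih _ (fun q hq => hyy q (by rw [stp_cons]; exact List.mem_cons_of_mem _ hq)) hn.2,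
      ?_⟩
    · have h1 := nodup_pt (h := h) hs p s
      unfold vt at h1
      exact h1.of_append_left
    · rintro v hv w hw rfl
      have hself : (p, s) ∈ stp p (s :: t) := by simp
      rcases vs_pt hs p s hv with h1 | ⟨h1, u, hu, hu1, hu3, hu0, hv1, hv2⟩
      · rcases mem_ins hs t _ _ hw with ⟨q, hq, h2⟩ | ⟨q, hq, h2, u', hu', hu1', hu3', hu0', hv1', hv2'⟩
        · have h3 := sh_inj h (h1.symm.trans h2)
          rw [← h3] at hq
          exact hn.1 hq
        · have h3 := sh_col h p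
          rw [← h1] at h3
          omega
      · rcases mem_ins hs t _ _ hw with ⟨q, hq, h2⟩ | ⟨q, hq, h2, u', hu', hu1', hu3', hu0', hv1', hv2'⟩
        · have h3 := sh_col h q
          rw [← h2] at h3
          omega
        · simp only at hv2 hu
          -- the heights are different
          have hne : p.2 ≠ q.1.2 := by
            intro he
            have e1 := ends h1
            have e2 := ends h2
            have e3 := mem_stp_vt hq
            simp only at e1
            apply hn.1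
            have e8 : p = q.1 ∨ p = q.1 + dv q.2 := by
              rcases e1.1 with e4 | e4
              · rcases e2.2.1 with e5 | e5
                · exact Or.inl (e4.trans (by rw [he]; exact e5.symm))
                · exact Or.inr (e4.trans (by rw [he]; exact e5.symm))
              · rcases e2.2.2 with e5 | e5
                · exact Or.inl (e4.trans (by rw [he]; exact e5.symm))
                · exact Or.inr (e4.trans (by rw [he]; exact e5.symm))
            rcases e8 with e8 | e8
            · have e9 := e3.1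
              rw [← e8] at e9
              exact e9
            · have e9 := e3.2
              rw [← e8] at e9
              exact e9
          have hq' : q.1.2 ≤ yy := hyy q (by rw [stp_cons]; exact List.mem_cons_of_mem _ hq) h2
          have hp' : p.2 ≤ yy := hyy (p, s) hself h1
          by_cases hy : p.2 = yy
          · have e6 := hflat q.1.2 (fun he => hne (hy.trans he.symm)) u' hu'
            omega
          · have e6 := hflat p.2 hy u hu
            by_cases hy' : q.1.2 = yy
            · omega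
            · have e7 := hflat q.1.2 hy' u' hu'
              omega

/-! ### the segments -/

/-- the zigzag between the columns `1` and `2` -/
def zig (j : ℕ) : Wd := (List.replicate j [1, 2, 1, 0]).flatten

theorem zig_succ (j : ℕ) : zig (j + 1) = [1, 2, 1, 0] ++ zig j := by
  unfold zig
  rw [List.replicate_succ, List.flatten_cons]

theorem dv0 : dv 0 = (1, 0) := rfl

theorem dv1 : dv 1 = (0, 1) := rfl

theorem dv2 : dv 2 = (-1, 0) := rfl

theorem dv3 : dv 3 = (0, -1) := rfl

theorem zig_ok (j : ℕ) : ∀ a : ℤ, ep (2, a) (zig j) = (2, a + 2 * j) ∧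
    (vt (2, a) (zig j)).Nodup ∧ ∀ v ∈ vt (2, a) (zig j), (v.1 = 2 ∧ a ≤ v.2) ∨
      (v.1 = 1 ∧ a + 1 ≤ v.2) := by
  induction j with
  | zero =>
    intro a
    have h0 : zig 0 = [] := rfl
    rw [h0]
    refine ⟨by simp, by simp, ?_⟩
    intro v hv
    rw [vt_nil, List.mem_singleton] at hv
    rw [hv]
    exact Or.inl ⟨rfl, le_rfl⟩
  | succ j ih =>
    intro a
    obtain ⟨h1, h2, h3⟩ := ih (a + 2)
    have e0 : zig (j + 1) = 1 :: 2 :: 1 :: 0 :: zig j := by rw [zig_succ]; rfl
    have e1 : ((2 : ℤ), a) + dv 1 = (2, a + 1) := by rw [dv1]; ext <;> simp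
    have e2 : ((2 : ℤ), a + 1) + dv 2 = (1, a + 1) := by rw [dv2]; ext <;> simp
    have e3 : ((1 : ℤ), a + 1) + dv 1 = (1, a + 2) := by rw [dv1]; ext <;> simp; ring
    have e4 : ((1 : ℤ), a + 2) + dv 0 = (2, a + 2) := by rw [dv0]; ext <;> simp
    have e5 : vt (2, a) (zig (j + 1)) =
        (2, a) :: (2, a + 1) :: (1, a + 1) :: (1, a + 2) :: vt (2, a + 2) (zig j) := by
      rw [e0, vt_cons, e1, vt_cons, e2, vt_cons, e3, vt_cons, e4]
    refine ⟨?_, ?_, ?_⟩
    · rw [e0, ep_cons, e1, ep_cons, e2, ep_cons, e3, ep_cons, e4, h1]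
      ext
      · rfl
      · simp only
        push_cast
        ring
    · rw [e5]
      have k1 : ∀ x y : ℤ, ((x = 2 ∧ y < a + 2) ∨ (x = 1 ∧ y < a + 3)) →
          (x, y) ∉ vt (2, a + 2) (zig j) := by
        intro x y hxy hc
        have := h3 _ hc
        simp only at this
        omega
      simp only [List.nodup_cons, List.mem_cons, not_or]
      refine ⟨⟨?_, ?_, ?_, k1 _ _ (by omega)⟩, ⟨?_, ?_, k1 _ _ (by omega)⟩,
        ⟨?_, k1 _ _ (by omega)⟩, k1 _ _ (by omega), h2⟩ <;>
      · intro hc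
        rw [Prod.mk.injEq] at hc
        omega
    · rw [e5]
      intro v hv
      simp only [List.mem_cons] at hv
      rcases hv with rfl | rfl | rfl | rfl | hv
      · exact Or.inl ⟨rfl, le_rfl⟩
      · exact Or.inl ⟨rfl, by simp only; omega⟩
      · exact Or.inr ⟨rfl, by simp only; omega⟩
      · exact Or.inr ⟨rfl, by simp only; omega⟩
      · have := h3 v hv
        omega

theorem down_ok (n : ℕ) : ∀ b : ℤ, ep (3, b) (List.replicate n 3) = (3, b - n) ∧
    (vt (3, b) (List.replicate n 3)).Nodup ∧ ∀ v ∈ vt (3, b) (List.replicate n 3),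
      v.1 = 3 ∧ b - n ≤ v.2 ∧ v.2 ≤ b := by
  induction n with
  | zero =>
    intro b
    rw [List.replicate_zero]
    refine ⟨by simp, by simp, ?_⟩
    intro v hv
    rw [vt_nil, List.mem_singleton] at hv
    rw [hv]
    simp
  | succ n ih =>
    intro b
    obtain ⟨h1, h2, h3⟩ := ih (b - 1)
    have e1 : ((3 : ℤ), b) + dv 3 = (3, b - 1) := by rw [dv3]; ext <;> simp; ring
    rw [List.replicate_succ]
    refine ⟨?_, ?_, ?_⟩
    · rw [ep_cons, e1, h1]
      ext
      · rfl
      · simp only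
        push_cast
        ring
    · rw [vt_cons, e1, List.nodup_cons]
      refine ⟨?_, h2⟩
      intro hc
      have := h3 _ hc
      simp only at this
      omega
    · intro v hv
      rw [vt_cons, e1, List.mem_cons] at hv
      push_cast
      rcases hv with rfl | hv
      · refine ⟨rfl, ?_, le_rfl⟩
        show b - ((n : ℤ) + 1) ≤ b
        omega
      · have := h3 v hv
        omega

theorem vt_comb (j : ℕ) : vt 0 (comb j) = (0, 0) :: (1, 0) ::
    (vt (2, 0) (zig j) ++ (vt (3, 2 * (j : ℤ)) (List.replicate (2 * j) 3) ++ [(4, 0)])) ∧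
    ep 0 (comb j) = (4, 0) := by
  have z := zig_ok j 0
  have d := down_ok (2 * j) (2 * (j : ℤ))
  have e0 : comb j = 0 :: 0 :: (zig j ++ (0 :: (List.replicate (2 * j) 3 ++ [0]))) := by
    unfold comb zig
    simp
  have e1 : (0 : ℤ × ℤ) + dv 0 = (1, 0) := rfl
  have e2 : ((1 : ℤ), (0 : ℤ)) + dv 0 = (2, 0) := rfl
  have e3 : ((2 : ℤ), 0 + 2 * (j : ℤ)) + dv 0 = (3, 2 * (j : ℤ)) := by rw [dv0]; ext <;> simp
  have e4 : ((3 : ℤ), 2 * (j : ℤ) - ((2 * j : ℕ) : ℤ)) = (3, 0) := by
    ext
    · rfl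
    · simp
  have e5 : ((3 : ℤ), (0 : ℤ)) + dv 0 = (4, 0) := rfl
  constructor
  · rw [e0, vt_cons, e1, vt_cons, e2, vt_append, z.1, vt_cons, e3, vt_append, d.1, e4, vt_cons, e5,
      vt_nil]
    have e6 : vt (2, 0) (zig j) = vs (2, 0) (zig j) ++ [(2, 0 + 2 * (j : ℤ))] := by
      unfold vt
      rw [z.1]
    have e7 : vt (3, 2 * (j : ℤ)) (List.replicate (2 * j) 3) =
        vs (3, 2 * (j : ℤ)) (List.replicate (2 * j) 3) ++ [(3, 0)] := by
      unfold vt
      rw [d.1, e4]
    rw [e6, e7]
    simp only [List.append_assoc, List.cons_append, List.nil_append, zero_add]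
    rfl
  · rw [e0, ep_cons, e1, ep_cons, e2, ep_append, z.1, ep_cons, e3, ep_append, d.1, e4, ep_cons, e5,
      ep_nil]

theorem comb_ok (j : ℕ) : Sg (comb j) := by
  obtain ⟨_, z2, z3⟩ := zig_ok j 0
  obtain ⟨_, d2, d3⟩ := down_ok (2 * j) (2 * (j : ℤ))
  obtain ⟨h1, h2⟩ := vt_comb j
  refine ⟨?_, h2, ?_⟩
  · rw [h1]
    have k0 : ∀ y : ℤ, ∀ x : ℤ, x ≠ 1 → x ≠ 2 → (x, y) ∉ vt (2, 0) (zig j) := by
      intro y x hx1 hx2 hc
      have := z3 _ hc
      simp only at this
      omega
    have k1 : ∀ y : ℤ, ∀ x : ℤ, x ≠ 3 →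
        (x, y) ∉ vt (3, 2 * (j : ℤ)) (List.replicate (2 * j) 3) := by
      intro y x hx hc
      exact hx (d3 _ hc).1
    have k2 : ((1 : ℤ), (0 : ℤ)) ∉ vt (2, 0) (zig j) := by
      intro hc
      have := z3 _ hc
      simp only at this
      omega
    simp only [List.nodup_cons, List.mem_cons, List.mem_append, List.not_mem_nil,
      or_false, not_or, List.nodup_append, List.nodup_nil, not_false_eq_true, and_true, true_and]
    refine ⟨⟨by decide, k0 _ _ (by norm_num) (by norm_num), k1 _ _ (by norm_num), by decide⟩,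
      ⟨k2, k1 _ _ (by norm_num), by decide⟩, z2, ⟨d2, ?_⟩, ?_⟩
    · intro a ha b hb
      have := (d3 a ha).1
      rintro rfl
      rw [hb] at this
      norm_num at this
    · intro a ha b hb
      have h4 := z3 a ha
      rintro rfl
      rcases hb with hb | hb
      · have := (d3 a hb).1
        omega
      · rw [hb] at h4
        norm_num at h4
  · rw [h1]
    intro v hv
    simp only [List.mem_cons, List.mem_append, List.not_mem_nil, or_false] at hv
    rcases hv with rfl | rfl | hv | hv | rfl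
    · exact Or.inl rfl
    · right; right
      norm_num
    · right; right
      have := z3 v hv
      omega
    · right; right
      have := d3 v hv
      push_cast at this
      omega
    · exact Or.inr (Or.inl rfl)

theorem sg_ok (yy : ℤ) (j : ℕ) (y : ℤ) : Sg (sg yy j y) := by
  unfold sg
  split_ifs
  · exact comb_ok j
  · exact comb_ok 0

theorem sg_flat (yy : ℤ) (j : ℕ) (y : ℤ) (hy : y ≠ yy) : ∀ v ∈ vt 0 (sg yy j y), v.2 = 0 := by
  unfold sg
  rw [if_neg hy]
  decide

end Pool.Agent.XM.INSB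

namespace Pool.Agent.XM

open Finset Pool.Agent.Lib27 Pool.Agent.OC Pool.Agent.XM.INSB

/-- INSB : the new word is a bridge. -/
theorem insb_thm : INSB_Stmt := by
  intro m h yy j A h0 hm hA hyy
  have hs := sg_ok yy j
  have hsh0 : sh h 0 = 0 := sh_of_le h0
  have hn : (vt 0 (ins h (sg yy j) 0 A)).Nodup := by
    have := nodup_ins (h := h) hs yy (sg_flat yy j) A 0 (fun q hq hx =>
      hyy q (List.mem_filter.2 ⟨hq, hx⟩)) hA.1
    rw [hsh0] at this
    exact this
  have hep : ep 0 (ins h (sg yy j) 0 A) = sh h (ep 0 A) := by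
    have := ep_ins (h := h) hs A 0
    rw [hsh0] at this
    exact this
  refine ⟨hn, ?_, ?_⟩
  · rw [hep, sh_of_gt (by rw [hA.2.1]; exact hm), Prod.fst_add, hA.2.1]
    push_cast
    rfl
  · intro v hv
    have hv0 : v ≠ 0 := by
      rintro rfl
      rw [vt_head, List.nodup_cons] at hn
      exact hn.1 hv
    have hv' : v ∈ vt (sh h 0) (ins h (sg yy j) 0 A) := by
      rw [hsh0]
      exact List.mem_of_mem_tail hv
    rcases mem_ins hs A 0 v hv' with ⟨q, hq, rfl⟩ | ⟨q, hq, h2, u, hu, hu1, hu3, hu0, hv1, hv2⟩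
    · have hq0 : q ≠ 0 := by
        rintro rfl
        exact hv0 hsh0
      rw [vt_head, List.mem_cons] at hq
      have := hA.2.2 q (hq.resolve_left hq0)
      rcases le_or_gt q.1 h with h1 | h1
      · rw [sh_of_le h1]
        push_cast
        omega
      · rw [sh_of_gt h1, Prod.fst_add]
        push_cast
        omega
    · push_cast
      omega

end Pool.Agent.XM
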