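import Pool.Agent.XM.Lib

/-!
# Column-convex polygons (MP_f6626d_co): INSC, length and crossings of the new word
-/

set_option autoImplicit false

namespace Pool.Agent.XM

open Finset Pool.Agent.Lib27 Pool.Agent.OC

namespace INSC

/-- crossings of a segment -/
def ci (a : ℕ) (k : ℤ) : ℕ :=
  (if k = 0 then 1 else 0) + (if k = 1 then a else 0) + (if k = 2 then 1 else 0) +
    (if k = 3 then 1 else 0)

theorem ep_rep (n : ℕ) : (ep 0 (List.replicate n 3 : Wd)).1 = 0 := by
  induction n with
  | zero => rfl
  | succ n ih =>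
    have h1 := fst_ep_app [3] (List.replicate n 3 : Wd)
    rw [List.singleton_append] at h1
    rw [List.replicate_succ, h1, ih]
    rfl

theorem cr_rep (n : ℕ) (k : ℤ) : cr (List.replicate n 3 : Wd) k = 0 := by
  induction n generalizing k with
  | zero => rfl
  | succ n ih =>
    rw [List.replicate_succ, cr_cons, ih]
    simp [xs]

theorem ep_blk : (ep 0 ([1, 2, 1, 0] : Wd)).1 = 0 := rfl

theorem cr_blk (k : ℤ) : cr ([1, 2, 1, 0] : Wd) k = if k = -1 then 2 else 0 := by
  rw [cr_cons, cr_cons, cr_cons, cr_cons, cr_nil]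
  have e1 : (dv 1).1 = 0 := rfl
  have e2 : (dv 2).1 = -1 := rfl
  rw [e1, e2]
  simp only [xs_iff]
  simp only [Prod.fst_zero]
  norm_num
  split_ifs <;> omega

theorem ep_flat (j : ℕ) : (ep 0 (List.replicate j ([1, 2, 1, 0] : Wd)).flatten).1 = 0 := by
  induction j with
  | zero => rfl
  | succ j ih =>
    rw [List.replicate_succ, List.flatten_cons, fst_ep_app, ih, ep_blk, add_zero]

theorem cr_flat (j : ℕ) (k : ℤ) : cr (List.replicate j ([1, 2, 1, 0] : Wd)).flatten k =
    if k = -1 then 2 * j else 0 := by
  induction j with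
  | zero => simp
  | succ j ih =>
    rw [List.replicate_succ, List.flatten_cons, cr_append, ep_blk, sub_zero, ih, cr_blk]
    split_ifs <;> omega

theorem cr_one (k : ℤ) : cr ([0] : Wd) k = if k = 0 then 1 else 0 := by
  rw [cr_cons, cr_nil]
  simp only [xs_iff]
  simp only [Prod.fst_zero]
  norm_num
  split_ifs <;> omega

theorem comb_ep (j : ℕ) : (ep 0 (comb j)).1 = 4 := by
  unfold comb
  rw [fst_ep_app, fst_ep_app, fst_ep_app, fst_ep_app, ep_flat, ep_rep]
  rfl

theorem comb_cr (j : ℕ) (k : ℤ) : cr (comb j) k = ci (1 + 2 * j) k := by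
  unfold comb
  have e1 : ([0, 0] : Wd) = [0] ++ [0] := rfl
  have e2 : (ep 0 ([0] : Wd)).1 = 1 := rfl
  rw [cr_append, cr_append, cr_append, cr_append, e1, cr_append]
  simp only [fst_ep_app, ep_flat, ep_rep, e2, cr_one, cr_flat, cr_rep]
  unfold ci
  split_ifs <;> omega

theorem comb_len (j : ℕ) : (comb j).length = 4 + 6 * j := by
  unfold comb
  simp only [List.length_append, List.length_flatten, List.map_replicate, List.sum_replicate,
    List.length_replicate, List.length_cons, List.length_nil, smul_eq_mul]
  omega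

theorem comb_zero : comb 0 = [0, 0, 0, 0] := rfl

variable {h : ℤ} {seg : ℤ → Wd} {a : ℤ → ℕ}

theorem ins_cons (p : ℤ × ℤ) (s : Fin 4) (t : Wd) : ins h seg p (s :: t) =
    (if xs h (p, s) then (if s = 0 then seg p.2 else rv (seg p.2)) else [s]) ++
      ins h seg (p + dv s) t := rfl

theorem ins_no {p : ℤ × ℤ} {s : Fin 4} (t : Wd) (hx : xs h (p, s) = false) :
    ins h seg p (s :: t) = s :: ins h seg (p + dv s) t := by
  rw [ins_cons, hx]
  rfl

theorem ins_east {p : ℤ × ℤ} (t : Wd) (hp : p.1 = h) :
    ins h seg p (0 :: t) = seg p.2 ++ ins h seg (p + dv 0) t := by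
  have hx : xs h (p, 0) = true := xs_iff.2 (Or.inl ⟨rfl, hp⟩)
  rw [ins_cons, hx]
  rfl

theorem ins_west {p : ℤ × ℤ} (t : Wd) (hp : p.1 = h + 1) :
    ins h seg p (2 :: t) = rv (seg p.2) ++ ins h seg (p + dv 2) t := by
  have hx : xs h (p, 2) = true := xs_iff.2 (Or.inr ⟨rfl, hp⟩)
  rw [ins_cons, hx]
  rfl

theorem flt_no {p : ℤ × ℤ} {s : Fin 4} (t : Wd) (hx : xs h (p, s) = false) :
    (stp p (s :: t)).filter (xs h) = (stp (p + dv s) t).filter (xs h) := by
  rw [stp_cons, List.filter_cons, hx]
  rfl

theorem flt_yes {p : ℤ × ℤ} {s : Fin 4} (t : Wd) (hx : xs h (p, s) = true) :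
    (stp p (s :: t)).filter (xs h) = (p, s) :: (stp (p + dv s) t).filter (xs h) := by
  rw [stp_cons, List.filter_cons, hx]
  rfl

theorem main (hep : ∀ y, (ep 0 (seg y)).1 = 4) (hcr : ∀ y k, cr (seg y) k = ci (a y) k)
    (w : Wd) : ∀ (p : ℤ × ℤ) (σ : ℤ), ((p.1 ≤ h ∧ σ = 0) ∨ (h < p.1 ∧ σ = 3)) →
    (∀ k, k ≤ h → cr (ins h seg p w) (k - p.1 - σ) = cr w (k - p.1)) ∧
    (∀ k, h ≤ k → cr (ins h seg p w) (k + 3 - p.1 - σ) = cr w (k - p.1)) ∧
    cr (ins h seg p w) (h + 1 - p.1 - σ) =
      (((stp p w).filter (xs h)).map (fun q => a q.1.2)).sum ∧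
    cr (ins h seg p w) (h + 2 - p.1 - σ) = ((stp p w).filter (xs h)).length := by
  induction w with
  | nil =>
    intro p σ _
    exact ⟨fun k _ => rfl, fun k _ => rfl, rfl, rfl⟩
  | cons s t ih =>
    intro p σ hp
    cases hx : xs h (p, s) with
    | false =>
      have hd := dv_fst_cases s
      have hx' : ¬ ((s = 0 ∧ p.1 = h) ∨ (s = 2 ∧ p.1 = h + 1)) := by
        have := xs_iff (h := h) (q := (p, s))
        rw [hx] at this
        intro h1
        exact absurd (this.2 h1) (by simp)
      have hp' : ((p + dv s).1 ≤ h ∧ σ = 0) ∨ (h < (p + dv s).1 ∧ σ = 3) := by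
        rw [Prod.fst_add]
        rcases hd with h1 | h1 | h1 <;> omega
      obtain ⟨i1, i2, i3, i4⟩ := ih (p + dv s) σ hp'
      rw [Prod.fst_add] at i1 i2 i3 i4 hp'
      rw [ins_no t hx, flt_no t hx]
      have key : ∀ k : ℤ, (if xs k (0, s) then 1 else 0 : ℕ) =
          if (s = 0 ∧ 0 = k) ∨ (s = 2 ∧ 0 = k + 1) then 1 else 0 := by
        intro k
        simp only [xs_iff, Prod.fst_zero]
      refine ⟨fun k hk => ?_, fun k hk => ?_, ?_, ?_⟩
      · rw [cr_cons, cr_cons, key, key]
        have e1 := i1 k hk
        rw [show k - (p.1 + (dv s).1) - σ = k - p.1 - σ - (dv s).1 by ring,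
          show k - (p.1 + (dv s).1) = k - p.1 - (dv s).1 by ring] at e1
        rw [e1]
        congr 1
        rcases hd with h1 | h1 | h1 <;> split_ifs <;> omega
      · rw [cr_cons, cr_cons, key, key]
        have e1 := i2 k hk
        rw [show k + 3 - (p.1 + (dv s).1) - σ = k + 3 - p.1 - σ - (dv s).1 by ring,
          show k - (p.1 + (dv s).1) = k - p.1 - (dv s).1 by ring] at e1
        rw [e1]
        congr 1
        rcases hd with h1 | h1 | h1 <;> split_ifs <;> omega
      · rw [cr_cons, key]
        rw [show h + 1 - (p.1 + (dv s).1) - σ = h + 1 - p.1 - σ - (dv s).1 by ring] at i3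
        rw [i3, if_neg, zero_add]
        rcases hd with h1 | h1 | h1 <;> omega
      · rw [cr_cons, key]
        rw [show h + 2 - (p.1 + (dv s).1) - σ = h + 2 - p.1 - σ - (dv s).1 by ring] at i4
        rw [i4, if_neg, zero_add]
        rcases hd with h1 | h1 | h1 <;> omega
    | true =>
      rw [flt_yes t hx, List.map_cons, List.sum_cons, List.length_cons]
      rcases xs_iff.1 hx with ⟨h1, h2⟩ | ⟨h1, h2⟩
      · simp only at h1 h2
        subst h1
        have e0 : (dv 0).1 = 1 := rfl
        have hσ : σ = 0 := by omega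
        subst hσ
        obtain ⟨i1, i2, i3, i4⟩ := ih (p + dv 0) 3 (Or.inr ⟨by rw [Prod.fst_add, e0]; omega, rfl⟩)
        rw [Prod.fst_add, e0] at i1 i2 i3 i4
        rw [ins_east t h2]
        have key : ∀ k : ℤ, (if xs k (0, (0 : Fin 4)) then 1 else 0 : ℕ) =
            if k = 0 then 1 else 0 := by
          intro k
          simp only [xs_iff, Prod.fst_zero]
          norm_num
          split_ifs <;> omega
        refine ⟨fun k hk => ?_, fun k hk => ?_, ?_, ?_⟩
        · rw [cr_append, hep, hcr, cr_cons, key, e0]
          have e1 := i1 k hk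
          rw [show k - (p.1 + 1) - 3 = k - p.1 - 0 - 4 by ring,
            show k - (p.1 + 1) = k - p.1 - 1 by ring] at e1
          rw [e1]
          unfold ci
          split_ifs <;> omega
        · rw [cr_append, hep, hcr, cr_cons, key, e0]
          have e1 := i2 k hk
          rw [show k + 3 - (p.1 + 1) - 3 = k + 3 - p.1 - 0 - 4 by ring,
            show k - (p.1 + 1) = k - p.1 - 1 by ring] at e1
          rw [e1]
          unfold ci
          split_ifs <;> omega
        · rw [cr_append, hep, hcr]
          rw [show h + 1 - (p.1 + 1) - 3 = h + 1 - p.1 - 0 - 4 by ring] at i3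
          rw [i3]
          unfold ci
          simp only
          split_ifs <;> omega
        · rw [cr_append, hep, hcr]
          rw [show h + 2 - (p.1 + 1) - 3 = h + 2 - p.1 - 0 - 4 by ring] at i4
          rw [i4]
          unfold ci
          split_ifs <;> omega
      · simp only at h1 h2
        subst h1
        have e0 : (dv 2).1 = -1 := rfl
        have hσ : σ = 3 := by omega
        subst hσ
        obtain ⟨i1, i2, i3, i4⟩ := ih (p + dv 2) 0 (Or.inl ⟨by rw [Prod.fst_add, e0]; omega, rfl⟩)
        rw [Prod.fst_add, e0] at i1 i2 i3 i4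
        rw [ins_west t h2]
        have hrv : (ep 0 (rv (seg p.2))).1 = -4 := by
          rw [ep_rv0, Prod.fst_neg, hep]
        have key : ∀ k : ℤ, (if xs k (0, (2 : Fin 4)) then 1 else 0 : ℕ) =
            if k = -1 then 1 else 0 := by
          intro k
          simp only [xs_iff, Prod.fst_zero]
          norm_num
          split_ifs <;> omega
        refine ⟨fun k hk => ?_, fun k hk => ?_, ?_, ?_⟩
        · rw [cr_append, hrv, cr_rv, hep, hcr, cr_cons, key, e0]
          have e1 := i1 k hk
          rw [show k - (p.1 + -1) - 0 = k - p.1 - 3 - -4 by ring,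
            show k - (p.1 + -1) = k - p.1 - -1 by ring] at e1
          rw [e1]
          unfold ci
          split_ifs <;> omega
        · rw [cr_append, hrv, cr_rv, hep, hcr, cr_cons, key, e0]
          have e1 := i2 k hk
          rw [show k + 3 - (p.1 + -1) - 0 = k + 3 - p.1 - 3 - -4 by ring,
            show k - (p.1 + -1) = k - p.1 - -1 by ring] at e1
          rw [e1]
          unfold ci
          split_ifs <;> omega
        · rw [cr_append, hrv, cr_rv, hep, hcr]
          rw [show h + 1 - (p.1 + -1) - 0 = h + 1 - p.1 - 3 - -4 by ring] at i3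
          rw [i3]
          unfold ci
          simp only
          split_ifs <;> omega
        · rw [cr_append, hrv, cr_rv, hep, hcr]
          rw [show h + 2 - (p.1 + -1) - 0 = h + 2 - p.1 - 3 - -4 by ring] at i4
          rw [i4]
          unfold ci
          split_ifs <;> omega

theorem len (w : Wd) : ∀ p : ℤ × ℤ,
    (ins h seg p w).length + ((stp p w).filter (xs h)).length = w.length +
      (((stp p w).filter (xs h)).map (fun q => (seg q.1.2).length)).sum := by
  induction w with
  | nil => exact fun p => rfl
  | cons s t ih =>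
    intro p
    have i := ih (p + dv s)
    cases hx : xs h (p, s) with
    | false =>
      rw [ins_no t hx, flt_no t hx, List.length_cons, List.length_cons]
      omega
    | true =>
      rw [flt_yes t hx, List.map_cons, List.sum_cons, List.length_cons, ins_cons, hx,
        List.length_append, List.length_cons]
      have e1 : (if true = true then (if s = 0 then seg p.2 else rv (seg p.2)) else [s]).length =
          (seg p.2).length := by
        rw [if_pos rfl]
        split_ifs
        · rfl
        · exact rv_length _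
      rw [e1]
      simp only
      omega

/-- a self-avoiding word has at most one crossing of a line at a given height -/
theorem once (yy : ℤ) (w : Wd) : ∀ p : ℤ × ℤ, (vt p w).Nodup →
    (((stp p w).filter (xs h)).filter (fun q => decide (q.1.2 = yy))).length ≤ 1 := by
  induction w with
  | nil => exact fun p _ => Nat.zero_le _
  | cons s t ih =>
    intro p hp
    rw [vt_cons, List.nodup_cons] at hp
    have i := ih (p + dv s) hp.2
    cases hx : xs h (p, s) with
    | false => rwa [flt_no t hx]
    | true =>
      rw [flt_yes t hx, List.filter_cons]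
      split_ifs with hy
      · have hy' : p.2 = yy := by simpa using hy
        rw [List.length_cons]
        have h0 : ((stp (p + dv s) t).filter (xs h)).filter (fun q => decide (q.1.2 = yy)) =
            [] := by
          rw [List.filter_eq_nil_iff]
          intro q hq hqy
          have hqy' : q.1.2 = yy := by simpa using hqy
          obtain ⟨h1, h2⟩ := List.mem_filter.1 hq
          obtain ⟨c1, c2⟩ := xs_cols hx
          obtain ⟨d1, d2⟩ := xs_cols h2
          obtain ⟨m1, m2⟩ := mem_stp_vt h1
          simp only at c1 c2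
          have h3 : p = q.1 ∨ p = q.1 + dv q.2 := by
            rcases c2 with ⟨c2, c3⟩ | ⟨c2, c3⟩ <;> rcases d2 with ⟨d2, d3⟩ | ⟨d2, d3⟩
            · left; exact Prod.ext (by omega) (by omega)
            · right; exact Prod.ext (by omega) (by omega)
            · right; exact Prod.ext (by omega) (by omega)
            · left; exact Prod.ext (by omega) (by omega)
          rcases h3 with h3 | h3
          · exact hp.1 (h3.symm ▸ m1)
          · exact hp.1 (h3.symm ▸ m2)
        rw [h0]
        simp
      · exact i

theorem sum_ite (yy : ℤ) (c v : ℕ) (l : List ((ℤ × ℤ) × Fin 4)) :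
    (l.map (fun q => c + if q.1.2 = yy then v else 0)).sum =
      c * l.length + (l.filter (fun q => decide (q.1.2 = yy))).length * v := by
  induction l with
  | nil => simp
  | cons q l ih =>
    rw [List.map_cons, List.sum_cons, ih, List.length_cons, List.filter_cons]
    by_cases hq : q.1.2 = yy
    · rw [if_pos hq, if_pos (by simpa using hq), List.length_cons]
      ring
    · rw [if_neg hq, if_neg (by simpa using hq)]
      ring

end INSC

open INSC in
/-- **INSC** : length and crossings of the new word. -/
theorem insc_thm : INSC_Stmt := by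
  intro m h yy j A h0 hm hA
  have hep : ∀ y, (ep 0 (sg yy j y)).1 = 4 := by
    intro y
    unfold sg
    split_ifs
    · exact comb_ep j
    · rw [← comb_zero]; exact comb_ep 0
  have hcr : ∀ y k, cr (sg yy j y) k = ci (1 + if y = yy then 2 * j else 0) k := by
    intro y k
    unfold sg
    split_ifs
    · exact comb_cr j k
    · rw [← comb_zero]; exact comb_cr 0 k
  have hln : ∀ y, (sg yy j y).length = 4 + if y = yy then 6 * j else 0 := by
    intro y
    unfold sg
    split_ifs
    · exact comb_len j
    · rfl
  obtain ⟨a1, a2, a3, a4⟩ := main (h := h) hep hcr A 0 0 (Or.inl ⟨h0, rfl⟩)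
  have a5 := len (h := h) (seg := sg yy j) A 0
  simp only [Prod.fst_zero, sub_zero] at a1 a2 a3 a4
  have e1 : (stp 0 A).filter (xs h) = crs h A := rfl
  rw [e1] at a3 a4 a5
  simp only [hln] at a5
  rw [sum_ite] at a3 a5
  rw [← cr_def] at a3 a4 a5
  refine ⟨((crs h A).filter (fun q => decide (q.1.2 = yy))).length, once yy A 0 hA.1, ?_, ?_,
    a1, a2, ?_, a4⟩
  · rintro ⟨q, hq, hq'⟩
    have h1 := once (h := h) yy A 0 hA.1
    have h2 : 0 < ((crs h A).filter (fun q => decide (q.1.2 = yy))).length :=
      List.length_pos_of_mem (List.mem_filter.2 ⟨hq, by simpa using hq'⟩)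
    exact le_antisymm h1 h2
  · have h1 : ((crs h A).filter (fun q => decide (q.1.2 = yy))).length * (6 * j) =
        6 * (((crs h A).filter (fun q => decide (q.1.2 = yy))).length * j) := by ring
    omega
  · rw [a3]
    ring

end Pool.Agent.XM
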