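import Pool.Agent.XM.Lib

/-!
# Column-convex polygons (MP_f6626d_co): module INSP, insertion for pairs of bridges
-/

set_option autoImplicit false

namespace Pool.Agent.XM

namespace INSP

open Finset Pool.Agent.Lib27 Pool.Agent.OC
open scoped ENNReal

theorem sg_zero (yy yy' : ℤ) : sg yy 0 = sg yy' 0 := by
  have h1 : ∀ yy : ℤ, sg yy 0 = fun _ => ([0, 0, 0, 0] : Wd) := by
    intro yy
    funext y
    unfold sg comb
    simp
  rw [h1, h1]

/-- a nonempty list of steps has a highest step -/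
theorem exists_top (l : List ((ℤ × ℤ) × Fin 4)) (hl : l ≠ []) :
    ∃ y : ℤ, (∃ q ∈ l, q.1.2 = y) ∧ ∀ q ∈ l, q.1.2 ≤ y := by
  induction l with
  | nil => exact absurd rfl hl
  | cons a l ih =>
    by_cases h0 : l = []
    · subst h0
      refine ⟨a.1.2, ⟨a, by simp, rfl⟩, fun q hq => ?_⟩
      rw [List.mem_singleton] at hq
      rw [hq]
    · obtain ⟨y, ⟨q, hq, hy⟩, h2⟩ := ih h0
      by_cases h3 : a.1.2 ≤ y
      · refine ⟨y, ⟨q, List.mem_cons_of_mem _ hq, hy⟩, fun q' hq' => ?_⟩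
        rcases List.mem_cons.1 hq' with rfl | h4
        · exact h3
        · exact h2 q' h4
      · refine ⟨a.1.2, ⟨a, List.mem_cons_self, rfl⟩, fun q' hq' => ?_⟩
        rcases List.mem_cons.1 hq' with rfl | h4
        · exact le_rfl
        · exact (h2 q' h4).trans (not_le.1 h3).le

open Classical in
/-- the height of the highest crossing of the line `h` -/
noncomputable def top (h : ℤ) (A : Wd) : ℤ :=
  if hl : crs h A ≠ [] then (exists_top _ hl).choose else 0

theorem top_spec {h : ℤ} {A : Wd} (hl : crs h A ≠ []) :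
    (∃ q ∈ crs h A, q.1.2 = top h A) ∧ ∀ q ∈ crs h A, q.1.2 ≤ top h A := by
  unfold top
  rw [dif_pos hl]
  exact (exists_top _ hl).choose_spec

/-- number of teeth of the comb -/
def nt (c : ℕ) (h : ℤ) (p : Wd × Wd) : ℕ := (c + 2 - (cr p.1 h + cr p.2 h)) / 2

/-- the insertion -/
noncomputable def fi (c : ℕ) (h : ℕ) (p : Wd × Wd) : Wd × Wd :=
  (ins h (sg (top h p.1) (nt c h p)) 0 p.1, ins h (sg 0 0) 0 p.2)

end INSP

open INSP in
theorem insp_thm (h1 : INSA_Stmt) (h2 : INSB_Stmt) (h3 : INSC_Stmt) : INSP_Stmt := by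
  intro c
  refine ⟨fi c, ?_, ?_⟩
  · intro m h p hp h0 hm hN
    obtain ⟨hA, hB, hc⟩ := hp
    have h0' : (0 : ℤ) ≤ (h : ℤ) := by omega
    have hm' : (h : ℤ) < m := by omega
    have hA1 : crs (h : ℤ) p.1 ≠ [] := by
      have h4 := cr_Bri_pos hA h0' hm'
      rw [cr_def] at h4
      intro h5
      rw [h5, List.length_nil] at h4
      omega
    have hB1 : crs (h : ℤ) p.2 ≠ [] := by
      have h4 := cr_Bri_pos hB h0' hm'
      rw [cr_def] at h4
      intro h5
      rw [h5, List.length_nil] at h4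
      omega
    obtain ⟨tA1, tA2⟩ := top_spec hA1
    obtain ⟨tB1, tB2⟩ := top_spec hB1
    set j := nt c h p with hj
    have hj2 : 2 * j ≤ c + 2 - (cr p.1 h + cr p.2 h) ∧ c + 2 - (cr p.1 h + cr p.2 h) < 2 * j + 2 := by
      rw [hj]
      unfold nt
      omega
    have e1 : (fi c h p).1 = ins h (sg (top h p.1) j) 0 p.1 := rfl
    have e2 : (fi c h p).2 = ins h (sg (top h p.2) 0) 0 p.2 := by
      show ins h (sg 0 0) 0 p.2 = _
      rw [sg_zero 0 (top h p.2)]
    obtain ⟨a, ha, ha1, ha2, ha3, ha4, ha5, ha6⟩ := h3 m h (top h p.1) j p.1 h0' hm' hA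
    obtain ⟨b, hb, -, hb2, hb3, hb4, hb5, hb6⟩ := h3 m h (top h p.2) 0 p.2 h0' hm' hB
    have ha7 : a = 1 := ha1 tA1
    rw [← e1] at ha2 ha3 ha4 ha5 ha6
    rw [← e2] at hb2 hb3 hb4 hb5 hb6
    rw [ha7] at ha2 ha5
    rw [mul_zero, mul_zero, add_zero] at hb2 hb5
    rw [one_mul] at ha2 ha5
    have k1 : ∀ k : ℤ, k ≤ h → cr (fi c h p).1 k + cr (fi c h p).2 k = cr p.1 k + cr p.2 k :=
      fun k hk => by rw [ha3 k hk, hb3 k hk]
    have k2 : ∀ k : ℤ, (h : ℤ) ≤ k →
        cr (fi c h p).1 (k + 3) + cr (fi c h p).2 (k + 3) = cr p.1 k + cr p.2 k :=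
      fun k hk => by rw [ha4 k hk, hb4 k hk]
    refine ⟨⟨?_, ?_, ?_⟩, ?_, k1, k2, ?_⟩
    · rw [e1]
      exact h2 m h _ j p.1 h0' hm' hA tA2
    · rw [e2]
      exact h2 m h _ 0 p.2 h0' hm' hB tB2
    · intro k
      by_cases c1 : k ≤ h
      · rw [k1 k c1]
        exact hc k
      · by_cases c2 : k = h + 1
        · rw [c2, ha5, hb5]
          omega
        · by_cases c3 : k = h + 2
          · rw [c3, ha6, hb6]
            omega
          · have c4 : k = (k - 3) + 3 := by ring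
            rw [c4, k2 (k - 3) (by omega)]
            exact hc _
    · unfold lg
      omega
    · rw [ha5, hb5]
      omega
  · intro m h h0 _ p _ p' _ he
    have h0' : (0 : ℤ) ≤ (h : ℤ) := by omega
    have e1 : (fi c h p).1 = (fi c h p').1 := by rw [he]
    have e2 : (fi c h p).2 = (fi c h p').2 := by rw [he]
    have f1 := congrArg (del h 0) e1
    have f2 := congrArg (del h 0) e2
    unfold fi at f1 f2
    simp only at f1 f2
    rw [h1 h _ _ _ h0', h1 h _ _ _ h0'] at f1 f2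
    exact Prod.ext f1 f2

end Pool.Agent.XM
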