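import Pool.Agent.XM.Lib

/-!
# Column-convex polygons (MP_f6626d_co): IRR, pairs of bridges without cut
-/

set_option autoImplicit false

namespace Pool.Agent.XM

open Finset Pool.Agent.Lib27 Pool.Agent.OC
open scoped NNReal ENNReal

namespace IRR

theorem mem_vs_app_right (u : Wd) {v : Wd} {p : ℤ × ℤ} (h : p ∈ vs 0 v) :
    p + ep 0 u ∈ vs 0 (u ++ v) := by
  rw [← stp_fst, stp_append, List.map_append, List.mem_append]
  right
  rw [stp_eq (ep 0 u), List.map_map]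
  rw [← stp_fst, List.mem_map] at h
  obtain ⟨q, hq, rfl⟩ := h
  exact List.mem_map.2 ⟨q, hq, rfl⟩

/-- a first passage word is cut at the first visit of the column `H` -/
theorem Fp_cut {H M : ℕ} {w : Wd} (hw : w ∈ Fp (H + M)) :
    ∃ v s, v ∈ Fp H ∧ s ∈ Fp M ∧ w = v ++ s := by
  have hw2 := hw.2.1
  obtain ⟨v, s, rfl, h1, h2⟩ := first_col (w := w) (h := H) (by positivity)
    ⟨ep 0 w, ep_mem_vt _ _, by rw [hw2]; push_cast; omega⟩
  refine ⟨v, s, ⟨SAWs_left hw.1, h1, h2⟩, ⟨SAWs_right hw.1, ?_, ?_⟩, rfl⟩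
  · rw [fst_ep_app, h1] at hw2
    push_cast at hw2
    omega
  · intro p hp
    have h3 := hw.2.2 _ (mem_vs_app_right v hp)
    rw [Prod.fst_add, h1] at h3
    push_cast at h3
    omega

theorem Tc_cut {c a : ℕ} {v v' s s' : Wd} (hv : (ep 0 v).1 = a) (hv' : (ep 0 v').1 = a)
    (h : Tc c (v ++ s, v' ++ s')) : Tc c (v, v') ∧ Tc c (s, s') := by
  constructor
  · intro l
    have h1 := h l
    simp only [cr_append] at h1 ⊢
    refine le_trans ?_ h1
    omega
  · intro l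
    have h1 := h (l + a)
    simp only [cr_append, hv, hv', add_sub_cancel_right] at h1 ⊢
    by_cases hl : l < 0
    · rw [if_pos hl]
      by_cases hl2 : l + a < 0
      · rw [if_pos hl2] at h1
        omega
      · rw [if_neg hl2] at h1
        have h2 := cr_pos_of_lt (w := v) (h := l + a) (by omega) (by omega)
        have h3 := cr_pos_of_lt (w := v') (h := l + a) (by omega) (by omega)
        omega
    · rw [if_neg hl]
      rw [if_neg (by omega)] at h1
      omega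

theorem dip_le {w : Wd} {p : ℤ × ℤ} (hp : p ∈ vt 0 w) : -(dip w : ℤ) ≤ p.1 := by
  have h1 : (-p.1).toNat ≤ dip w :=
    Finset.le_sup (f := fun p : ℤ × ℤ => (-p.1).toNat) (List.mem_toFinset.2 hp)
  omega

theorem dip_lt_cc {K : ℕ} (hK : 0 < K) (w : Wd) : dip w + 2 * K < 3 * K * cc K w + 3 * K := by
  unfold cc
  have h1 := Nat.div_add_mod (dip w + 2 * K) (3 * K)
  have h2 := Nat.mod_lt (dip w + 2 * K) (show 0 < 3 * K by omega)
  omega

theorem cr_cut {a : ℕ} {v s : Wd} (hv : (ep 0 v).1 = a) {l : ℤ} (hl : l + dip s < a) :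
    cr (v ++ s) l = cr v l := by
  rw [cr_append, hv, cr_eq_zero_of_gt (w := s), add_zero]
  intro p hp
  have := dip_le hp
  omega

/-- the lower part of a pair without cuts in the middle thirds -/
theorem bad_of_cut {c K k : ℕ} (hK : 0 < K) {v v' s s' : Wd} (hv : v ∈ Fp (k * (3 * K)))
    (hv' : v' ∈ Fp (k * (3 * K))) (hT : Tc c (v, v'))
    (h : ∀ j : ℕ, j < k → ∀ l : ℤ, ((j * (3 * K) + K : ℕ) : ℤ) ≤ l →
      l < ((j * (3 * K) + 2 * K : ℕ) : ℤ) → ¬ CC (v ++ s, v' ++ s') l) :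
    (v, v') ∈ Bad c K k (max (cc K s) (cc K s')) := by
  refine ⟨⟨hv, hv', hT⟩, ?_⟩
  intro j hj l hl1 hl2 hcc
  have hc1 : j + cc K s < k := lt_of_le_of_lt (by
    gcongr; exact le_max_left _ _) hj
  have hc2 : j + cc K s' < k := lt_of_le_of_lt (by
    gcongr; exact le_max_right _ _) hj
  have key : ∀ w : Wd, j + cc K w < k → l + dip w < ((k * (3 * K) : ℕ) : ℤ) := by
    intro w hw
    have h1 := dip_lt_cc hK w
    have h2 : (j + cc K w + 1) * (3 * K) ≤ k * (3 * K) := Nat.mul_le_mul_right _ hw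
    have h3 : (j + cc K w + 1) * (3 * K) = j * (3 * K) + 3 * K * cc K w + 3 * K := by ring
    have h4 : ((j * (3 * K) + 2 * K : ℕ) : ℤ) + dip w < ((k * (3 * K) : ℕ) : ℤ) := by
      have : j * (3 * K) + 2 * K + dip w < k * (3 * K) := by omega
      exact_mod_cast this
    omega
  refine h j (by omega) l hl1 hl2 ?_
  unfold CC at hcc ⊢
  simp only at hcc ⊢
  rw [cr_cut hv.2.1 (key s hc1), cr_cut hv'.2.1 (key s' hc2)]
  exact hcc

/-- the mirror image of a pair -/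
def mr (p : Wd × Wd) : Wd × Wd := (rx (rv p.1), rx (rv p.2))

theorem mr_mr (p : Wd × Wd) : mr (mr p) = p := by
  unfold mr
  simp only [rxrv_rxrv]

theorem lg_mr (p : Wd × Wd) : lg (mr p) = lg p := by
  unfold mr lg
  simp only [rx_length, rv_length]

/-- the mirror image of an irreducible pair is cut -/
theorem Irr_cut (hM : MIR_Stmt) {c K k m : ℕ} (hK : 0 < K) {p : Wd × Wd}
    (hp : p ∈ Irr (c + 2) (k * (3 * K) + m)) :
    ∃ q v : Wd × Wd, q ∈ Fpp c m ∧ v ∈ Bad c K k (max (cc K q.1) (cc K q.2)) ∧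
      p = mr (cat v q) := by
  obtain ⟨hb, hno⟩ := hp
  obtain ⟨f1, -, -, c1⟩ := hM _ _ hb.1
  obtain ⟨f2, -, -, c2⟩ := hM _ _ hb.2.1
  have hT : Tc c (rx (rv p.1), rx (rv p.2)) := by
    intro h
    simp only [c1, c2]
    split_ifs with hh
    · have h1 := Brp_out hb (h := ((k * (3 * K) + m : ℕ) : ℤ) - 1 - h) (Or.inr (by omega))
      omega
    · exact hb.2.2 _
  have hC : ∀ h : ℤ, 0 ≤ h → h < ((k * (3 * K) + m : ℕ) : ℤ) - 1 →
      ¬ CC (rx (rv p.1), rx (rv p.2)) h := by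
    intro h h0 h1 hcc
    unfold CC at hcc
    simp only [c1, c2] at hcc
    exact hno _ (by push_cast at h1 ⊢; omega) (by push_cast at h1 ⊢; omega) hcc
  obtain ⟨v, s, hv, hs, e1⟩ := Fp_cut f1
  obtain ⟨v', s', hv', hs', e2⟩ := Fp_cut f2
  rw [e1, e2] at hT hC
  obtain ⟨hT1, hT2⟩ := Tc_cut hv.2.1 hv'.2.1 hT
  refine ⟨(s, s'), (v, v'), ⟨hs, hs', hT2⟩, ?_, ?_⟩
  · refine bad_of_cut hK hv hv' hT1 ?_
    intro j hj l hl1 hl2
    have h3 : (j + 1) * (3 * K) ≤ k * (3 * K) := Nat.mul_le_mul_right _ (by omega)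
    have h4 : (j + 1) * (3 * K) = j * (3 * K) + 3 * K := by ring
    refine hC l (by omega) ?_
    have h5 : ((j * (3 * K) + 2 * K + 1 : ℕ) : ℤ) ≤ ((k * (3 * K) + m : ℕ) : ℤ) := by
      have : j * (3 * K) + 2 * K + 1 ≤ k * (3 * K) + m := by omega
      exact_mod_cast this
    push_cast at h5 hl2 ⊢
    omega
  · have h6 : mr p = cat (v, v') (s, s') := Prod.ext e1 e2
    rw [← h6, mr_mr]

end IRR

theorem irr_thm (h1 : BLK_Stmt) (h2 : MIR_Stmt) : IRR_Stmt := by
  intro c z R K hR hRt hK k m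
  have h3 : ww (c + 2) z (k * (3 * K) + m) ≤
      gs (fun q => Wz z q * gs (Wz z) (Bad c K k (max (cc K q.1) (cc K q.2)))) (Fpp c m) := by
    unfold ww
    refine gs_dep (fun (q v : Wd × Wd) => IRR.mr (cat v q))
      (fun q => Bad c K k (max (cc K q.1) (cc K q.2))) ?_
    intro p hp
    obtain ⟨q, v, hq, hv, he⟩ := IRR.Irr_cut h2 hK hp
    refine ⟨q, v, hq, hv, he, ?_⟩
    rw [he, mul_comm, ← Wz_cat]
    unfold Wz
    rw [IRR.lg_mr]
  refine h3.trans ?_
  rw [← gs_mul_right]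
  refine gs_le _ _ subset_rfl fun q _ => ?_
  rw [mul_assoc]
  refine mul_le_mul_right ((h1 c z R K hR hRt hK k _).trans ?_) _
  refine mul_le_mul_left (pow_le_pow_right₀ hR ?_) _
  omega

end Pool.Agent.XM
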