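import Pool.Agent.XM.Stmts

/-!
# Column-convex polygons (MP_f6626d_co), module LOOP
-/

set_option autoImplicit false

namespace Pool.Agent.XM

open Finset Pool.Agent.Lib27 Pool.Agent.OC
open scoped NNReal ENNReal

theorem loop_thm (h1 : LOOPX_Stmt) (h2 : ARC_Stmt) (h3 : MONO_Stmt) (h4 : RUN_Stmt)
    (h5 : ZST_Stmt) : LOOP_Stmt := by
  intro c
  obtain ⟨eta0, C, r0, heta0, hr0, hM⟩ := h3 c
  obtain ⟨C1, hC1, hrun⟩ := h4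
  obtain ⟨hz8, hz2, -, -⟩ := h5 c
  obtain ⟨r, hr1, hr2⟩ : ∃ r : ℝ≥0, r0 < r ∧ r < 1 := exists_between hr0
  obtain ⟨ρ, hρ1, hρ2⟩ : ∃ ρ : ℝ≥0, r < ρ ∧ ρ < 1 := exists_between hr2
  have hr : 0 < r := bot_le.trans_lt hr1
  have hρ : 0 < ρ := hr.trans hρ1
  set s : ℝ≥0 := ρ⁻¹ with hs
  have hs1 : 1 < s := (one_lt_inv₀ hρ).2 hρ2
  have hsr : s * r < 1 := by
    rw [hs, mul_comm, ← div_eq_mul_inv, div_lt_one hρ]
    exact hρ1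
  set eta : ℝ≥0 := min eta0 2⁻¹ with heta
  have heta1 : 0 < eta := lt_min heta0 (by positivity)
  set z : ℝ≥0∞ := (1 + (eta : ℝ≥0∞)) * zst c with hz
  have hz1 : z ≤ (1 + (eta0 : ℝ≥0∞)) * zst c := by
    rw [hz]
    gcongr
    exact min_le_left _ _
  have hz34 : z ≤ 3 / 4 := by
    have e4 : (1 + (eta : ℝ≥0∞)) * 2⁻¹ ≤ 3 / 4 := by
      have e5 : (1 + eta) * 2⁻¹ ≤ (3 / 4 : ℝ≥0) := by
        have e6 : eta ≤ 2⁻¹ := min_le_right _ _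
        have e7 : (eta : ℝ) ≤ 2⁻¹ := by exact_mod_cast e6
        rw [← NNReal.coe_le_coe]
        push_cast
        linarith
      have e8 : (((1 + eta) * 2⁻¹ : ℝ≥0) : ℝ≥0∞) ≤ ((3 / 4 : ℝ≥0) : ℝ≥0∞) := by exact_mod_cast e5
      rw [ENNReal.coe_mul, ENNReal.coe_add, ENNReal.coe_one, ENNReal.coe_inv two_ne_zero,
        ENNReal.coe_div (by norm_num)] at e8
      push_cast at e8
      exact e8
    exact (mul_le_mul' le_rfl hz2).trans e4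
  have hmono : ∀ {x y : ℝ≥0∞} (S : Set Wd), x ≤ y → gs (wz x) S ≤ gs (wz y) S :=
    fun S hxy => gs_le _ _ subset_rfl fun _ _ => pow_le_pow_left' hxy _
  -- vertical words
  have hV : gs (wz z) Ve ≤ (C1 : ℝ≥0∞) := by
    have e1 : Ve ⊆ {w : Wd | SAWs w ∧ XM.hz w ≤ 0} := fun w hw => ⟨hw.1, hw.2.le⟩
    refine ((gs_mono _ e1).trans (hmono _ hz34)).trans ((hrun 0).trans (le_of_eq ?_))
    rw [zero_add, pow_one]
  -- arcs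
  have hA : ∑' d : ℕ, (s : ℝ≥0∞) ^ (d + 1) * gs (wz z) (Ar c (d + 1)) ≤
      ((C * (1 - s * r)⁻¹ : ℝ≥0) : ℝ≥0∞) := by
    have e1 : ∀ d : ℕ, (s : ℝ≥0∞) ^ (d + 1) * gs (wz z) (Ar c (d + 1)) ≤
        (C : ℝ≥0∞) * ((s * r : ℝ≥0) : ℝ≥0∞) ^ d := by
      intro d
      have e2 : gs (wz z) (Ar c (d + 1)) ≤ (C : ℝ≥0∞) * (r : ℝ≥0∞) ^ (d + 1) := by
        refine (h2 c (d + 1) z (by omega)).trans ((hM z hz1 (d + 1)).trans ?_)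
        gcongr
      calc (s : ℝ≥0∞) ^ (d + 1) * gs (wz z) (Ar c (d + 1))
          ≤ (s : ℝ≥0∞) ^ (d + 1) * ((C : ℝ≥0∞) * (r : ℝ≥0∞) ^ (d + 1)) :=
            mul_le_mul' le_rfl e2
        _ = (C : ℝ≥0∞) * ((s * r : ℝ≥0) : ℝ≥0∞) ^ d * ((s * r : ℝ≥0) : ℝ≥0∞) := by
            push_cast
            ring
        _ ≤ (C : ℝ≥0∞) * ((s * r : ℝ≥0) : ℝ≥0∞) ^ d * 1 :=
            mul_le_mul' le_rfl (by exact_mod_cast hsr.le)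
        _ = _ := mul_one _
    refine (ENNReal.tsum_le_tsum e1).trans ?_
    rw [ENNReal.tsum_mul_left, ENNReal.tsum_geometric]
    have hsub : 0 < 1 - s * r := tsub_pos_of_lt hsr
    rw [ENNReal.coe_mul C, ENNReal.coe_inv hsub.ne', ENNReal.coe_sub, ENNReal.coe_one]
  set Mx : ℝ≥0 := ∑ j ∈ range (c + 1), C1 * (2 * (C * (1 - s * r)⁻¹) * C1) ^ j with hMx
  have hL : gs (fun l => wz z l * (s : ℝ≥0∞) ^ ext l) (Lp c) ≤ Mx := by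
    refine (h1 c z s (by exact_mod_cast hs1.le)).trans ?_
    rw [hMx, ENNReal.coe_finsetSum]
    refine Finset.sum_le_sum fun j _ => ?_
    rw [ENNReal.coe_mul, ENNReal.coe_pow, ENNReal.coe_mul, ENNReal.coe_mul, ENNReal.coe_ofNat]
    gcongr
  refine ⟨eta, s, Mx, heta1, hs1, hL, fun z' hz' d => ?_⟩
  have hs0 : (s : ℝ≥0∞) ≠ 0 := by
    have : s ≠ 0 := (zero_lt_one.trans hs1).ne'
    exact_mod_cast this
  have hst : (s : ℝ≥0∞) ≠ ∞ := ENNReal.coe_ne_top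
  have e3 : ((s⁻¹ : ℝ≥0) : ℝ≥0∞) = (s : ℝ≥0∞)⁻¹ := ENNReal.coe_inv (zero_lt_one.trans hs1).ne'
  rw [e3]
  calc gs (wz z') {l | l ∈ Lp c ∧ d ≤ ext l}
      ≤ gs (fun l => (wz z l * (s : ℝ≥0∞) ^ ext l) * ((s : ℝ≥0∞)⁻¹) ^ d) (Lp c) := by
        refine gs_le _ _ (fun l hl => hl.1) fun l hl => ?_
        have e5 : (1 : ℝ≥0∞) ≤ (s : ℝ≥0∞) ^ ext l * ((s : ℝ≥0∞)⁻¹) ^ d := by
          calc (1 : ℝ≥0∞) = (s : ℝ≥0∞) ^ d * ((s : ℝ≥0∞)⁻¹) ^ d := by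
                rw [← mul_pow, ENNReal.mul_inv_cancel hs0 hst, one_pow]
            _ ≤ _ := mul_le_mul' (pow_le_pow_right₀ (by exact_mod_cast hs1.le) hl.2) le_rfl
        calc wz z' l ≤ wz z l := pow_le_pow_left' hz' _
          _ = wz z l * 1 := (mul_one _).symm
          _ ≤ wz z l * ((s : ℝ≥0∞) ^ ext l * ((s : ℝ≥0∞)⁻¹) ^ d) := mul_le_mul' le_rfl e5
          _ = _ := by rw [mul_assoc]
    _ = gs (fun l => wz z l * (s : ℝ≥0∞) ^ ext l) (Lp c) * ((s : ℝ≥0∞)⁻¹) ^ d :=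
        gs_mul_right _ _ _
    _ ≤ Mx * ((s : ℝ≥0∞)⁻¹) ^ d := mul_le_mul' hL le_rfl

end Pool.Agent.XM
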