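import Pool.Agent.XM.Lib

/-!
# Column-convex polygons (MP_f6626d_co): loops are vertical runs and arcs (module XM_LOOPX)
-/

set_option autoImplicit false

namespace Pool.Agent.XM

open Finset Pool.Agent.Lib27 Pool.Agent.OC
open scoped NNReal ENNReal

namespace LOOPX

theorem cr_le_hz (w : Wd) (h : ℤ) : cr w h ≤ hz w := by
  rw [hz_eq_countP 0]
  unfold cr
  refine List.countP_mono_left fun q _ hq => ?_
  rw [xs_iff] at hq
  simp only [decide_eq_true_eq]
  tauto

theorem vert {v : Wd} (h : hz v = 0) : ∀ p ∈ vt 0 v, p.1 = 0 := by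
  intro p hp
  have h1 : ∀ k, cr v k = 0 := fun k => Nat.le_zero.1 (h ▸ cr_le_hz v k)
  have h2 := stay_left le_rfl (h1 0) p hp
  have h3 := stay_right (show (-1 : ℤ) < 0 by norm_num) (h1 (-1)) p hp
  omega

theorem vert_ep {v : Wd} (h : hz v = 0) : (ep 0 v).1 = 0 := vert h _ (ep_mem_vt _ _)

theorem ext_vert {v : Wd} (h : hz v = 0) : ext v = 0 := by
  rw [← Nat.le_zero, ext_le_iff]
  intro p hp
  rw [vert h p hp]
  rfl

theorem hz_zero {w : Wd} (h0 : cr w 0 = 0) (h1 : cr w (-1) = 0) : hz w = 0 := by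
  have h2 : ∀ p ∈ vt 0 w, p.1 = 0 := by
    intro p hp
    have h2 := stay_left le_rfl h0 p hp
    have h3 := stay_right (show (-1 : ℤ) < 0 by norm_num) h1 p hp
    omega
  rw [hz_eq_sum w ∅]
  · rfl
  · intro h hh
    exfalso
    have : cr w h = 0 := by
      rcases le_or_gt 0 h with h3 | h3
      · exact cr_eq_zero_of_le fun p hp => by rw [h2 p hp]; exact h3
      · exact cr_eq_zero_of_gt fun p hp => by rw [h2 p hp]; exact h3
    omega

theorem hz_rx (w : Wd) : hz (rx w) = hz w := by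
  unfold hz rx
  rw [List.countP_map]
  congr 1
  funext s
  fin_cases s <;> rfl

/-- the last horizontal step -/
theorem last_hz (l : Wd) (h : hz l ≠ 0) :
    ∃ u s v, l = u ++ s :: v ∧ (s = 0 ∨ s = 2) ∧ hz v = 0 := by
  induction l with
  | nil => exact absurd rfl h
  | cons t l ih =>
    by_cases h1 : hz l = 0
    · refine ⟨[], t, l, rfl, ?_, h1⟩
      by_contra h2
      apply h
      unfold hz at h1 ⊢
      rw [List.countP_cons, h1, if_neg]
      simpa using h2
    · obtain ⟨u, s, v, h2, h3, h4⟩ := ih h1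
      exact ⟨t :: u, s, v, by rw [h2]; rfl, h3, h4⟩

/-- right arcs -/
def GA (a : Wd) : Prop :=
  (ep 0 a).1 = 0 ∧ (∀ p ∈ (vs 0 a).tail, 0 < p.1) ∧ cr a 0 = 2 ∧ cr a (-1) = 0 ∧ 1 ≤ ext a

theorem split_r {u v : Wd} (he : (ep 0 (u ++ 2 :: v)).1 = 0) (hv : hz v = 0) :
    ∃ l' a, u ++ 2 :: v = l' ++ a ++ v ∧ (ep 0 l').1 = 0 ∧ GA a := by
  have h1 : (ep 0 u).1 = 1 := by
    rw [fst_ep_app, ep_cons, zero_add, ep_eq (dv 2), Prod.fst_add, vert_ep hv] at he
    have : (dv 2).1 = -1 := rfl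
    omega
  obtain ⟨l', b, rfl, h2, h3⟩ := last_cross (w := u) (h := 0) ⟨0, mem_vt_self 0 u, le_rfl⟩
    (by rw [h1]; norm_num)
  have hb : (ep 0 (0 :: b)).1 = 1 := by
    rw [fst_ep_app, h2, zero_add] at h1
    exact h1
  have hvb : ∀ p ∈ vt 0 b, -1 < p.1 := by
    intro p hp
    have h4 := h3 (p + dv 0) (by
      rw [vt_cons, List.tail_cons, zero_add, vt_eq]
      exact List.mem_map_of_mem hp)
    rw [Prod.fst_add] at h4
    have : (dv 0).1 = 1 := rfl
    omega
  have hvs : vs 0 ((0 :: b : Wd) ++ [2]) = vt 0 (0 :: b) := by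
    rw [vs_append]
    rfl
  have e0 : (ep 0 ((0 :: b : Wd) ++ [2])).1 = 0 := by
    rw [fst_ep_app, hb]
    rfl
  have hge : ∀ p ∈ vt 0 ((0 :: b : Wd) ++ [2]), -1 < p.1 := by
    intro p hp
    unfold vt at hp
    rw [List.mem_append, hvs, List.mem_singleton] at hp
    rcases hp with hp | hp
    · rw [vt_head, List.mem_cons] at hp
      rcases hp with hp | hp
      · rw [hp]; norm_num
      · have := h3 p hp
        omega
    · rw [hp, e0]; norm_num
  refine ⟨l', (0 :: b : Wd) ++ [2], by simp, h2, e0, ?_, ?_, ?_, ?_⟩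
  · intro p hp
    rw [hvs] at hp
    exact h3 p hp
  · rw [cr_append, hb, cr_cons]
    have e1 : cr b (0 - (dv 0).1) = 0 := cr_eq_zero_of_gt (h := 0 - (dv 0).1) hvb
    rw [e1]
    rfl
  · exact cr_eq_zero_of_gt hge
  · have h4 : dv 0 ∈ vt 0 ((0 :: b : Wd) ++ [2]) := by
      refine mem_vt_left _ ?_
      rw [vt_cons, zero_add]
      exact List.mem_cons_of_mem _ (mem_vt_self _ _)
    exact natAbs_le_ext h4

theorem exists_split {l : Wd} (he : (ep 0 l).1 = 0) (h : hz l ≠ 0) :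
    ∃ l' a v, l = l' ++ a ++ v ∧ (ep 0 l').1 = 0 ∧ hz v = 0 ∧ (GA a ∨ GA (rx a)) := by
  obtain ⟨u, s, v, rfl, hs, hv⟩ := last_hz l h
  rcases hs with rfl | rfl
  · have h1 : rx (u ++ 0 :: v) = rx u ++ 2 :: rx v := by
      rw [rx_append, rx_cons]
      rfl
    obtain ⟨l', a, h2, h3, h4⟩ := split_r (u := rx u) (v := rx v)
      (by rw [← h1, ep_rx0]; simp only [rxv]; rw [he]; rfl) (by rw [hz_rx]; exact hv)
    refine ⟨rx l', rx a, v, ?_, ?_, hv, Or.inr (by rw [rx_rx]; exact h4)⟩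
    · have h5 := congrArg rx (h1.trans h2)
      rw [rx_rx, rx_append, rx_append, rx_rx] at h5
      exact h5
    · rw [ep_rx0]
      simp only [rxv]
      rw [h3]
      rfl
  · obtain ⟨l', a, h2, h3, h4⟩ := split_r he hv
    exact ⟨l', a, v, h2, h3, hv, Or.inl h4⟩

/-- loops with `2 r` crossings of the lines next to the column `0` -/
def L (c r : ℕ) : Set Wd := {l | l ∈ Lp c ∧ cr l 0 + cr l (-1) = 2 * r}

/-- right arcs of all depths -/
def AA (c : ℕ) : Set Wd := ⋃ d : ℕ, Ar c (d + 1)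

theorem L_cover (c : ℕ) : Lp c ⊆ ⋃ r ∈ range (c + 1), L c r := by
  intro l hl
  obtain ⟨h1, h2, h3⟩ := hl
  have e0 : Even (cr l 0) := by
    rw [← Nat.not_odd_iff_even, cr_odd le_rfl, h2]
    exact lt_irrefl 0
  have e1 : Even (cr l (-1)) := by
    rw [← Nat.not_odd_iff_even, (cr_parity l (-1)).2 (by norm_num), h2]
    norm_num
  obtain ⟨a, ha⟩ := e0
  obtain ⟨b, hb⟩ := e1
  have h4 := h3 0
  have h5 := h3 (-1)
  simp only [Set.mem_iUnion]
  refine ⟨a + b, Finset.mem_range.2 (by omega), ⟨h1, h2, h3⟩, by omega⟩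

theorem L_zero (c : ℕ) : L c 0 ⊆ Ve := by
  intro l hl
  obtain ⟨h1, h2⟩ := hl
  exact ⟨h1.1, hz_zero (by omega) (by omega)⟩

theorem ga_mem {c : ℕ} {a : Wd} (hs : SAWs a) (h : GA a) (hc : ∀ h : ℤ, cr a h ≤ c) :
    a ∈ AA c := by
  obtain ⟨h1, h2, h3, h4, h5⟩ := h
  exact Set.mem_iUnion.2 ⟨ext a - 1, hs, h1, h2, hc, by omega⟩

theorem step {c r : ℕ} {l : Wd} (hl : l ∈ L c (r + 1)) :
    ∃ l' a v, l' ∈ L c r ∧ (a ∈ AA c ∨ rx a ∈ AA c) ∧ v ∈ Ve ∧ l = l' ++ a ++ v ∧
      ext l ≤ ext l' + ext a := by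
  obtain ⟨⟨h1, h2, h3⟩, h4⟩ := hl
  have hne : hz l ≠ 0 := by
    intro h0
    have := cr_le_hz l 0
    have := cr_le_hz l (-1)
    omega
  obtain ⟨l', a, v, rfl, h5, h6, h7⟩ := exists_split h2 hne
  have ha : (ep 0 a).1 = 0 := by
    rcases h7 with h7 | h7
    · exact h7.1
    · have := h7.1
      rw [ep_rx0] at this
      simp only [rxv] at this
      omega
  have hs1 := SAWs_left h1
  have hs2 := SAWs_right h1
  have hs3 := SAWs_left hs1
  have hs4 := SAWs_right hs1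
  have hla : (ep 0 (l' ++ a)).1 = 0 := by rw [fst_ep_app, h5, ha]; rfl
  have hcr : ∀ h : ℤ, cr (l' ++ a ++ v) h = cr l' h + cr a h := by
    intro h
    have h8 : cr v h = 0 := Nat.le_zero.1 (h6 ▸ cr_le_hz v h)
    rw [cr_append, cr_append, h5, hla, sub_zero, h8, add_zero]
  have hN : cr a 0 + cr a (-1) = 2 := by
    rcases h7 with h7 | h7
    · rw [h7.2.2.1, h7.2.2.2.1]
    · have e1 := h7.2.2.1
      have e2 := h7.2.2.2.1
      rw [cr_rx] at e1 e2
      norm_num at e1 e2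
      omega
  refine ⟨l', a, v, ⟨⟨hs3, h5, fun h => ?_⟩, ?_⟩, ?_, ⟨hs2, h6⟩, rfl, ?_⟩
  · have := h3 h
    rw [hcr] at this
    omega
  · have e1 := hcr 0
    have e2 := hcr (-1)
    omega
  · rcases h7 with h7 | h7
    · refine Or.inl (ga_mem hs4 h7 fun h => ?_)
      have := h3 h
      rw [hcr] at this
      omega
    · refine Or.inr (ga_mem (SAWs_rx hs4) h7 fun h => ?_)
      have := h3 (-h - 1)
      rw [hcr] at this
      rw [cr_rx]
      omega
  · have e1 := ext_append_le (l' ++ a) v hla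
    have e2 := ext_append_le l' a h5
    have e3 := ext_vert h6
    omega

theorem arc_sum (c : ℕ) (z s : ℝ≥0∞) :
    gs (fun a => wz z a * s ^ ext a) {a | a ∈ AA c ∨ rx a ∈ AA c} ≤
      2 * ∑' d : ℕ, s ^ (d + 1) * gs (wz z) (Ar c (d + 1)) := by
  have h1 : gs (fun a => wz z a * s ^ ext a) (AA c) ≤
      ∑' d : ℕ, s ^ (d + 1) * gs (wz z) (Ar c (d + 1)) := by
    refine (gs_iUnion _ _).trans (ENNReal.tsum_le_tsum fun d => ?_)
    rw [← gs_mul_left]
    refine (gs_congr fun a ha => ?_).le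
    rw [ha.2.2.2.2, mul_comm]
  have h2 : gs (fun a => wz z a * s ^ ext a) {a | rx a ∈ AA c} ≤
      gs (fun a => wz z a * s ^ ext a) (AA c) := by
    refine gs_le_of_inj _ _ rx (fun a ha => ha) (fun a _ b _ h => rx_injective h) fun a _ => ?_
    rw [ext_rx]
    unfold wz
    rw [rx_length]
  calc gs (fun a => wz z a * s ^ ext a) {a | a ∈ AA c ∨ rx a ∈ AA c}
      ≤ gs (fun a => wz z a * s ^ ext a) (AA c) +
        gs (fun a => wz z a * s ^ ext a) {a | rx a ∈ AA c} := gs_union _ (AA c) {a | rx a ∈ AA c}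
    _ ≤ _ := by
        rw [two_mul]
        exact add_le_add h1 (h2.trans h1)

theorem L_le (c : ℕ) (z s : ℝ≥0∞) (hs : 1 ≤ s) (r : ℕ) :
    gs (fun l => wz z l * s ^ ext l) (L c r) ≤
      gs (wz z) Ve * (2 * (∑' d : ℕ, s ^ (d + 1) * gs (wz z) (Ar c (d + 1))) * gs (wz z) Ve) ^ r := by
  induction r with
  | zero =>
    rw [pow_zero, mul_one]
    refine gs_le _ _ (L_zero c) fun l hl => ?_
    rw [ext_vert (L_zero c hl).2, pow_zero, mul_one]
  | succ r ih =>
    have h1 : gs (fun l => wz z l * s ^ ext l) (L c (r + 1)) ≤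
        gs (fun l => wz z l * s ^ ext l) (L c r) *
          gs (fun a => wz z a * s ^ ext a) {a | a ∈ AA c ∨ rx a ∈ AA c} * gs (wz z) Ve := by
      refine gs_split3 (fun l' a v => l' ++ a ++ v) fun l hl => ?_
      obtain ⟨l', a, v, h2, h3, h4, rfl, h6⟩ := step hl
      refine ⟨l', a, v, h2, h3, h4, rfl, ?_⟩
      calc wz z (l' ++ a ++ v) * s ^ ext (l' ++ a ++ v)
          ≤ wz z (l' ++ a ++ v) * s ^ (ext l' + ext a) :=
            mul_le_mul_right (pow_le_pow_right₀ hs h6) _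
        _ = _ := by
            rw [wz_append, wz_append, pow_add]
            ring
    refine h1.trans ?_
    rw [pow_succ, ← mul_assoc, mul_assoc (gs (fun l => wz z l * s ^ ext l) (L c r))]
    exact mul_le_mul' ih (mul_le_mul' (arc_sum c z s) le_rfl)

end LOOPX

open LOOPX in
/-- LOOPX -/
theorem loopx_thm : LOOPX_Stmt := by
  intro c z s hs
  refine (gs_mono _ (L_cover c)).trans ?_
  refine le_trans ?_ (Finset.sum_le_sum fun r _ => L_le c z s hs r)
  have h1 : ∀ F : Finset ℕ, gs (fun l => wz z l * s ^ ext l) (⋃ r ∈ F, L c r) ≤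
      ∑ r ∈ F, gs (fun l => wz z l * s ^ ext l) (L c r) := by
    classical
    intro F
    induction F using Finset.induction_on with
    | empty =>
      simp [gs_empty]
    | insert a F ha ih =>
      rw [Finset.set_biUnion_insert, Finset.sum_insert ha]
      exact (gs_union _ _ _).trans (add_le_add le_rfl ih)
  exact h1 _

end Pool.Agent.XM
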