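import Pool.Agent.XM.Stmts

/-!
# Column-convex polygons (MP_f6626d_co): lower bound at the critical point
-/

set_option autoImplicit false

namespace Pool.Agent.XM

open Finset Pool.Agent.Lib27 Pool.Agent.OC
open scoped NNReal ENNReal

namespace LOW

theorem Bri_zero {w : Wd} (h : w ∈ Bri 0) : w = [] := by
  cases w with
  | nil => rfl
  | cons d w =>
    exfalso
    have h1 := h.2.2 (ep (0 + dv d) w) (by
      rw [vt_cons, List.tail_cons]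
      unfold vt
      exact List.mem_append_right _ (List.mem_singleton.2 rfl))
    have h2 := h1.1
    have h3 := h1.2
    push_cast at h3
    omega

theorem nil_mem_Bri : ([] : Wd) ∈ Bri 0 := by
  refine ⟨?_, rfl, ?_⟩
  · show (vt 0 []).Nodup
    simp
  · intro p hp
    simp at hp

theorem nil_mem_Brp (c : ℕ) : (([], []) : Wd × Wd) ∈ Brp c 0 :=
  ⟨nil_mem_Bri, nil_mem_Bri, fun _ => Nat.zero_le _⟩

theorem Brp_zero (c : ℕ) : Brp c 0 = {(([], []) : Wd × Wd)} := by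
  ext p
  constructor
  · intro hp
    exact Prod.ext (Bri_zero hp.1) (Bri_zero hp.2.1)
  · intro hp
    rw [Set.mem_singleton_iff] at hp
    rw [hp]
    exact nil_mem_Brp c

theorem Y_zero (c : ℕ) (z : ℝ≥0∞) : Y c z 0 = 1 := by
  unfold Y
  rw [Brp_zero, gs_singleton]
  show z ^ 0 = 1
  exact pow_zero z

theorem Y_mono (c : ℕ) {z z' : ℝ≥0∞} (h : z ≤ z') (m : ℕ) : Y c z m ≤ Y c z' m :=
  gs_le _ _ subset_rfl fun _ _ => pow_le_pow_left₀ bot_le h _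

theorem pow_le (h2 : NSM_Stmt) (c : ℕ) (z : ℝ≥0∞) (m k : ℕ) :
    Y (c + 2) z m ^ k ≤ Y (c + 2) z (k * m) := by
  induction k with
  | zero => rw [pow_zero, zero_mul, Y_zero]
  | succ k ih =>
    rw [pow_succ, add_mul, one_mul]
    exact (mul_le_mul' ih le_rfl).trans (h2 c z (k * m) m).1

theorem le_pow (h2 : NSM_Stmt) (c : ℕ) (z L : ℝ≥0∞)
    (hL : gs (wz z) (Lp c) ≤ L) (m k : ℕ) :
    L ^ 2 * Y (c + 2) z ((k + 1) * m) ≤ (L ^ 2 * Y (c + 2) z m) ^ (k + 1) := by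
  induction k with
  | zero => rw [zero_add, one_mul, pow_one]
  | succ k ih =>
    have h3 := (h2 c z ((k + 1) * m) m).2
    rw [show (k + 1 + 1) * m = (k + 1) * m + m by ring]
    calc L ^ 2 * Y (c + 2) z ((k + 1) * m + m)
        ≤ L ^ 2 * (Y (c + 2) z ((k + 1) * m) * gs (wz z) (Lp c) ^ 2 * Y (c + 2) z m) :=
          mul_le_mul' le_rfl h3
      _ ≤ L ^ 2 * (Y (c + 2) z ((k + 1) * m) * L ^ 2 * Y (c + 2) z m) := by gcongr
      _ = (L ^ 2 * Y (c + 2) z ((k + 1) * m)) * (L ^ 2 * Y (c + 2) z m) := by ring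
      _ ≤ (L ^ 2 * Y (c + 2) z m) ^ (k + 1) * (L ^ 2 * Y (c + 2) z m) := mul_le_mul' ih le_rfl
      _ = _ := (pow_succ _ _).symm

theorem Y_eq (c : ℕ) (z : ℝ≥0∞) (m : ℕ) :
    Y c z m = ∑' p : (Brp c m : Set (Wd × Wd)), (1 : ℝ≥0∞) * z ^ lg (p : Wd × Wd) := by
  unfold Y gs
  refine tsum_congr fun p => ?_
  rw [one_mul]
  rfl

end LOW

theorem low_thm (h1 : LOOP_Stmt) (h2 : NSM_Stmt) (h3 : YFIN_Stmt) (h4 : ZST_Stmt) :
    LOW_Stmt := by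
  intro c
  obtain ⟨eta, s, M, heta, hs, -, hloop⟩ := h1 c
  obtain ⟨hzl, hzu, -, hgt⟩ := h4 c
  obtain ⟨C, hC1, hC, -⟩ := h3 c
  set L : ℝ≥0 := max 1 M with hLdef
  have hL1 : 1 ≤ L := le_max_left _ _
  have hLpos : 0 < L := lt_of_lt_of_le one_pos hL1
  refine ⟨(L ^ 2)⁻¹, inv_pos.2 (pow_pos hLpos 2), ?_⟩
  intro m
  by_contra hcon
  rw [not_le] at hcon
  have hL1' : (1 : ℝ≥0∞) ≤ L := by exact_mod_cast hL1
  have hL2 : (1 : ℝ≥0∞) ≤ (L : ℝ≥0∞) ^ 2 := one_le_pow₀ hL1'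
  have hL2top : (L : ℝ≥0∞) ^ 2 ≠ ∞ := ENNReal.pow_ne_top ENNReal.coe_ne_top
  have hL20 : (L : ℝ≥0∞) ^ 2 ≠ 0 := (lt_of_lt_of_le one_pos hL2).ne'
  have hc0 : (((L ^ 2)⁻¹ : ℝ≥0) : ℝ≥0∞) = ((L : ℝ≥0∞) ^ 2)⁻¹ := by
    rw [ENNReal.coe_inv (pow_pos hLpos 2).ne', ENNReal.coe_pow]
  rw [hc0] at hcon
  have hz0 : zst c ≠ 0 := by
    have h5 : (0 : ℝ≥0∞) < (8 : ℝ≥0∞)⁻¹ := ENNReal.inv_pos.2 (by norm_num)
    exact (h5.trans_le hzl).ne'
  have hztop : zst c ≠ ∞ := ne_top_of_le_ne_top (by norm_num) hzu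
  have hlt1 : zst c < (1 + (eta : ℝ≥0∞)) * zst c := by
    rw [add_mul, one_mul]
    refine ENNReal.lt_add_right hztop ?_
    exact mul_ne_zero (by exact_mod_cast heta.ne') hz0
  have hlt2 : zst c < 3 / 4 := by
    refine hzu.trans_lt ?_
    have h5 : ((2⁻¹ : ℝ≥0) : ℝ≥0∞) < ((3 / 4 : ℝ≥0) : ℝ≥0∞) := by
      rw [ENNReal.coe_lt_coe, ← NNReal.coe_lt_coe]
      push_cast
      norm_num
    have h6 : ((2⁻¹ : ℝ≥0) : ℝ≥0∞) = 2⁻¹ := by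
      rw [ENNReal.coe_inv (by norm_num)]
      norm_num
    have h7 : ((3 / 4 : ℝ≥0) : ℝ≥0∞) = 3 / 4 := by
      rw [ENNReal.coe_div (by norm_num)]
      norm_num
    rw [h6, h7] at h5
    exact h5
  have hlt : zst c < min ((1 + (eta : ℝ≥0∞)) * zst c) (3 / 4) := lt_min hlt1 hlt2
  have hfin : Y (c + 2) (min ((1 + (eta : ℝ≥0∞)) * zst c) (3 / 4)) m ≠ ∞ :=
    ne_top_of_le_ne_top (ENNReal.pow_ne_top ENNReal.coe_ne_top)
      ((LOW.Y_mono _ (min_le_right _ _) m).trans (hC m))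
  obtain ⟨z, hz1, hz2, hz3⟩ := MG.tsum_pow_right _ _ hlt (by rw [← LOW.Y_eq]; exact hfin)
    (by rw [← LOW.Y_eq]; exact hcon)
  rw [← LOW.Y_eq] at hz3
  have hloop0 : gs (wz z) (Lp c) ≤ L := by
    have h5 := hloop z (hz2.trans (min_le_left _ _)) 0
    rw [pow_zero, mul_one] at h5
    refine (gs_mono _ ?_).trans (h5.trans ?_)
    · intro l hl
      exact ⟨hl, Nat.zero_le _⟩
    · exact_mod_cast le_max_right 1 M
  have hm : m ≠ 0 := by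
    rintro rfl
    rw [LOW.Y_zero] at hcon
    exact absurd hcon (not_lt.2 (ENNReal.inv_le_one.2 hL2))
  obtain ⟨m1, hm1⟩ := hgt z hz1
  have hm10 : m1 ≠ 0 := by
    rintro rfl
    rw [LOW.Y_zero] at hm1
    exact lt_irrefl _ hm1
  have h5 : 1 < Y (c + 2) z (m * m1) :=
    (one_lt_pow₀ hm1 hm).trans_le (LOW.pow_le h2 c z m1 m)
  have h6 : (L : ℝ≥0∞) ^ 2 * Y (c + 2) z m ≤ 1 := by
    calc (L : ℝ≥0∞) ^ 2 * Y (c + 2) z m ≤ (L : ℝ≥0∞) ^ 2 * ((L : ℝ≥0∞) ^ 2)⁻¹ :=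
          mul_le_mul' le_rfl hz3.le
      _ = 1 := ENNReal.mul_inv_cancel hL20 hL2top
  obtain ⟨k, rfl⟩ := Nat.exists_eq_succ_of_ne_zero hm10
  have h7 := LOW.le_pow h2 c z L hloop0 m k
  have h8 : Y (c + 2) z ((k + 1) * m) ≤ 1 := by
    calc Y (c + 2) z ((k + 1) * m) = 1 * Y (c + 2) z ((k + 1) * m) := (one_mul _).symm
      _ ≤ (L : ℝ≥0∞) ^ 2 * Y (c + 2) z ((k + 1) * m) := mul_le_mul' hL2 le_rfl
      _ ≤ _ := h7
      _ ≤ 1 := pow_le_one' h6 _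
  rw [mul_comm] at h8
  exact absurd h8 (not_le.2 h5)

end Pool.Agent.XM
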