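import Pool.Agent.XM.Lib

/-!
# Column-convex polygons (MP_f6626d_co), module MIR: mirror images
-/

set_option autoImplicit false

namespace Pool.Agent.XM

open Finset Pool.Agent.Lib27 Pool.Agent.OC
open scoped NNReal ENNReal

namespace MIR

theorem vt_mir (w : Wd) :
    vt 0 (rx (rv w)) = ((vt 0 w).map (fun q => rxv (q - ep 0 w))).reverse := by
  rw [vt_rx0, vt_rv, List.map_reverse, List.map_map]
  rfl

theorem vs_eq_dropLast (w : Wd) : vs 0 w = (vt 0 w).dropLast := by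
  unfold vt
  rw [List.dropLast_concat]

theorem fst_rxv_sub (q a : ℤ × ℤ) : (rxv (q - a)).1 = a.1 - q.1 := by
  unfold rxv
  simp

theorem fst_ep_mir (w : Wd) : (ep 0 (rx (rv w))).1 = (ep 0 w).1 := by
  rw [ep_rx0, ep_rv0]
  unfold rxv
  simp

theorem cr_mir (w : Wd) (h : ℤ) : cr (rx (rv w)) h = cr w ((ep 0 w).1 - 1 - h) := by
  rw [cr_rx, cr_rv]
  congr 1
  ring

theorem vs_mir {w : Wd} {p : ℤ × ℤ} (hp : p ∈ vs 0 (rx (rv w))) :
    ∃ q ∈ (vt 0 w).tail, p = rxv (q - ep 0 w) := by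
  rw [vs_eq_dropLast, vt_mir, List.dropLast_reverse, List.mem_reverse, ← List.map_tail,
    List.mem_map] at hp
  obtain ⟨q, hq, rfl⟩ := hp
  exact ⟨q, hq, rfl⟩

theorem tail_mir {w : Wd} {p : ℤ × ℤ} (hp : p ∈ (vt 0 (rx (rv w))).tail) :
    ∃ q ∈ vs 0 w, p = rxv (q - ep 0 w) := by
  rw [vt_mir, List.tail_reverse, List.mem_reverse, ← List.map_dropLast, ← vs_eq_dropLast,
    List.mem_map] at hp
  obtain ⟨q, hq, rfl⟩ := hp
  exact ⟨q, hq, rfl⟩

theorem mem_vt_mir {w : Wd} {p : ℤ × ℤ} (hp : p ∈ vt 0 (rx (rv w))) :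
    ∃ q ∈ vt 0 w, p = rxv (q - ep 0 w) := by
  rw [vt_mir, List.mem_reverse, List.mem_map] at hp
  obtain ⟨q, hq, rfl⟩ := hp
  exact ⟨q, hq, rfl⟩

theorem mem_cases {w : Wd} {q : ℤ × ℤ} (hq : q ∈ vt 0 w) : q = 0 ∨ q ∈ (vt 0 w).tail := by
  have h1 : vt 0 w = 0 :: (vt 0 w).tail := by
    cases w with
    | nil => rfl
    | cons s w => rfl
  rw [h1] at hq
  rcases List.mem_cons.1 hq with h | h
  · exact Or.inl h
  · exact Or.inr h

end MIR

open MIR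

theorem mir_thm : MIR_Stmt := by
  intro l w hw
  obtain ⟨h1, h2, h3⟩ := hw
  refine ⟨⟨SAWs_rx (SAWs_rv h1), (fst_ep_mir w).trans h2, ?_⟩, ?_, ?_, ?_⟩
  · intro p hp
    obtain ⟨q, hq, rfl⟩ := vs_mir hp
    rw [fst_rxv_sub, h2]
    have := (h3 q hq).1
    omega
  · intro p hp
    obtain ⟨q, hq, rfl⟩ := mem_vt_mir hp
    rw [fst_rxv_sub, h2]
    rcases mem_cases hq with rfl | hq
    · simp
    · have := (h3 q hq).2
      omega
  · rw [rx_length, rv_length]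
  · intro h
    rw [cr_mir, h2]

theorem mir2_thm : MIR2_Stmt := by
  intro l w hw hpos
  obtain ⟨h1, h2, h3⟩ := hw
  refine ⟨⟨SAWs_rx (SAWs_rv h1), (fst_ep_mir w).trans h2, ?_⟩, ?_, ?_⟩
  · intro p hp
    obtain ⟨q, hq, rfl⟩ := tail_mir hp
    rw [fst_rxv_sub, h2]
    have h4 := h3 q hq
    have h5 := hpos q (List.mem_append_left _ hq)
    constructor <;> omega
  · rw [rx_rv w, rv_rv, rx_rx]
  · intro h
    rw [cr_mir, h2]

end Pool.Agent.XM
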