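import Pool.Agent.XM.Stmts
import Pool.Agent.OC.AbsX
import Pool.Agent.OC.Mono0

/-!
# Column-convex polygons (MP_f6626d_co): MONO0, strict monotonicity at the critical point
-/

set_option autoImplicit false

namespace Pool.Agent.XM

open Finset Pool.Agent.Lib27 Pool.Agent.OC
open scoped NNReal ENNReal

namespace MONO0

/-- the lines with at least `c + 1` crossings -/
def Hx (c : ℕ) (p : Wd × Wd) : Finset ℕ :=
  (Ioo 0 (ep 0 p.1).1.toNat).filter fun h => c + 1 ≤ cr p.1 h + cr p.2 h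

theorem width {c m : ℕ} {p : Wd × Wd} (hp : p ∈ Brp c m) : (ep 0 p.1).1.toNat = m := by
  have h1 : p.1 ∈ Bri m := hp.1
  rw [h1.2.1]
  exact Int.toNat_natCast m

theorem mem_Hx {c d m : ℕ} {p : Wd × Wd} (hp : p ∈ Brp d m) (k : ℕ) :
    k ∈ Hx c p ↔ (0 < k ∧ k < m) ∧ c + 1 ≤ cr p.1 k + cr p.2 k := by
  unfold Hx
  rw [Finset.mem_filter, Finset.mem_Ioo, width hp]

theorem Hx_empty {c m : ℕ} {p : Wd × Wd} (hp : p ∈ Brp c m) : Hx c p = ∅ := by
  rw [Finset.eq_empty_iff_forall_notMem]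
  intro k hk
  have h1 := ((mem_Hx hp k).1 hk).2
  have h2 := hp.2.2 k
  omega

theorem Brp_mono {c m : ℕ} {p : Wd × Wd} (hp : p ∈ Brp c m) : p ∈ Brp (c + 2) m :=
  ⟨hp.1, hp.2.1, fun h => (hp.2.2 h).trans (by omega)⟩

theorem Wz_le {c : ℕ} {z : ℝ≥0∞} (h8 : (8 : ℝ≥0∞)⁻¹ ≤ z) (h2 : z ≤ 2⁻¹) {p q : Wd × Wd}
    (h : lg q ≤ lg p + 3 * (c + 2)) :
    Wz z p ≤ (((8 : ℝ≥0) ^ (3 * (c + 2)) : ℝ≥0) : ℝ≥0∞) * Wz z q := by
  have h1 : (1 : ℝ≥0∞) ≤ 8 * z := by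
    calc (1 : ℝ≥0∞) = 8 * 8⁻¹ := (ENNReal.mul_inv_cancel (by norm_num) (by norm_num)).symm
      _ ≤ 8 * z := by gcongr
  have hz1 : z ≤ 1 := h2.trans (by norm_num)
  unfold Wz
  push_cast
  calc z ^ lg p = 1 * z ^ lg p := (one_mul _).symm
    _ ≤ (8 * z) ^ (3 * (c + 2)) * z ^ lg p := by
        gcongr
        exact one_le_pow₀ h1
    _ = 8 ^ (3 * (c + 2)) * z ^ (lg p + 3 * (c + 2)) := by
        rw [mul_pow, pow_add]
        ring
    _ ≤ 8 ^ (3 * (c + 2)) * z ^ lg q := by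
        gcongr 8 ^ (3 * (c + 2)) * ?_
        exact pow_le_pow_of_le_one bot_le hz1 h

theorem card_le {c m h : ℕ} (hM : h < m) {p q : Wd × Wd} (hp : p ∈ Brp (c + 2) m) (hq : q ∈ Brp (c + 2) (m + 3))
    (hh : cr p.1 h + cr p.2 h ≤ c)
    (h1 : ∀ k : ℤ, k ≤ h → cr q.1 k + cr q.2 k = cr p.1 k + cr p.2 k)
    (h2 : ∀ k : ℤ, h ≤ k → cr q.1 (k + 3) + cr q.2 (k + 3) = cr p.1 k + cr p.2 k) :
    (Hx c q).card ≤ (Hx c p).card + 3 := by
  classical
  have hsub : Hx c q ⊆ ((Hx c p).image fun k => if k < h then k else k + 3)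
      ∪ {h + 1, h + 2, h + 3} := by
    intro k hk
    obtain ⟨⟨k0, km⟩, kc⟩ := (mem_Hx hq k).1 hk
    rw [Finset.mem_union]
    rcases Nat.lt_or_ge k h with hlt | hge
    · left
      rw [Finset.mem_image]
      refine ⟨k, (mem_Hx hp k).2 ⟨⟨k0, by omega⟩, ?_⟩, if_pos hlt⟩
      rw [← h1 k (by exact_mod_cast hlt.le)]
      exact kc
    · rcases Nat.lt_or_ge (h + 3) k with hgt | hle
      · left
        rw [Finset.mem_image]
        obtain ⟨j, rfl⟩ : ∃ j, k = j + 3 := ⟨k - 3, by omega⟩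
        refine ⟨j, (mem_Hx hp j).2 ⟨⟨by omega, by omega⟩, ?_⟩, if_neg (by omega)⟩
        rw [← h2 j (by omega)]
        exact_mod_cast kc
      · right
        rcases Nat.eq_or_lt_of_le hge with rfl | hlt
        · exfalso
          have := h1 h le_rfl
          omega
        · simp only [Finset.mem_insert, Finset.mem_singleton]
          omega
  refine (Finset.card_le_card hsub).trans ((Finset.card_union_le _ _).trans ?_)
  refine add_le_add Finset.card_image_le ?_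
  exact (Finset.card_insert_le _ _).trans (by
    refine Nat.succ_le_succ ((Finset.card_insert_le _ _).trans ?_)
    simp)

end MONO0

open MONO0 in
/-- MONO0: strict monotonicity at the critical point -/
theorem mono0_thm (h1 : INSP_Stmt) (h2 : ZST_Stmt) : MONO0_Stmt := by
  intro c
  obtain ⟨f, hf1, hf2⟩ := h1 c
  obtain ⟨z8, z2, zY, -⟩ := h2 c
  obtain ⟨A, lam, hA0, hA1, hlam, hqA, hcond⟩ := OC.MONO0.exists_lam 0 zero_lt_one
    ((8 : ℝ≥0) ^ (3 * (c + 2))) 3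
  obtain ⟨δ, hδ, hδ2⟩ := OC.MONO0.exists_delta lam hlam
  set C : ℝ≥0 := max 1 (δ⁻¹ * (1 + lam)) with hC
  refine ⟨C, (1 + δ)⁻¹, inv_lt_one_of_one_lt₀ (lt_add_of_pos_right 1 hδ), fun m => ?_⟩
  have hY1 : Y c (zst c) m ≤ 1 := (gs_mono _ fun p hp => Brp_mono hp).trans (zY m)
  rcases Nat.eq_zero_or_pos m with rfl | hm
  · rw [pow_zero, mul_one]
    exact hY1.trans (by exact_mod_cast le_max_left _ _)
  have key := OC.abs_thm' (Wd × Wd) (fun M => Brp (c + 2) M) (Hx c) (Wz (zst c)) f 3 1 A lam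
    ((8 : ℝ≥0) ^ (3 * (c + 2))) (by norm_num) (by norm_num) hA0 hA1 hcond
    (fun M x hx k hk => ((mem_Hx hx k).1 hk).1) (by
      intro M h x hx h0 hM hnot
      have hc : cr x.1 h + cr x.2 h ≤ c := by
        by_contra hcon
        exact hnot ((mem_Hx hx h).2 ⟨⟨h0, hM⟩, by omega⟩)
      obtain ⟨g1, g2, g3, g4, g5⟩ := hf1 M h x hx h0 hM hc
      refine ⟨g1, Wz_le z8 z2 g2, card_le hM hx g1 hc g3 g4, ?_, ?_, ?_⟩
      · refine (mem_Hx g1 _).2 ⟨⟨by omega, by omega⟩, ?_⟩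
        exact_mod_cast g5
      · intro k hk
        rw [mem_Hx g1, mem_Hx hx, g3 k (by exact_mod_cast hk.le)]
        constructor
        · rintro ⟨⟨a1, a2⟩, a3⟩
          exact ⟨⟨a1, by omega⟩, a3⟩
        · rintro ⟨⟨a1, a2⟩, a3⟩
          exact ⟨⟨a1, by omega⟩, a3⟩
      · intro k hk hhk
        obtain ⟨⟨a1, a2⟩, a3⟩ := (mem_Hx hx k).1 hk
        refine (mem_Hx g1 _).2 ⟨⟨by omega, by omega⟩, ?_⟩
        have := g4 k (by exact_mod_cast hhk.le)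
        push_cast
        rw [this]
        exact a3) (by
      intro M h h0 hM
      refine (hf2 M h h0 hM).mono ?_
      intro x hx
      refine ⟨hx.1, ?_⟩
      by_contra hcon
      exact hx.2 ((mem_Hx hx.1 h).2 ⟨⟨h0, hM⟩, by omega⟩)) m hm
  have h3 : ∑ n ∈ range m, gs (Wz (zst c)) (Brp (c + 2) (m + 3 * n)) ≤ m := by
    calc ∑ n ∈ range m, gs (Wz (zst c)) (Brp (c + 2) (m + 3 * n)) ≤ ∑ n ∈ range m, (1 : ℝ≥0∞) :=
          Finset.sum_le_sum fun n _ => zY _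
      _ = m := by rw [Finset.sum_const, Finset.card_range, nsmul_eq_mul, mul_one]
  have h4 : Y c (zst c) m ≤
      gs (fun x => Wz (zst c) x * ((A : ℝ≥0∞) / (1 + lam)) ^ (Hx c x).card) (Brp (c + 2) m) := by
    refine gs_le _ _ (fun p hp => Brp_mono hp) fun p hp => ?_
    rw [Hx_empty hp, Finset.card_empty, pow_zero, mul_one]
  have h6 : (1 + (lam : ℝ≥0∞)) ^ (m - 1) * Y c (zst c) m ≤ m :=
    (mul_le_mul_right h4 _).trans (key.trans h3)
  obtain ⟨y, hy⟩ : ∃ y : ℝ≥0, (y : ℝ≥0∞) = Y c (zst c) m :=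
    ⟨_, ENNReal.coe_toNNReal (hY1.trans_lt ENNReal.one_lt_top).ne⟩
  rw [← hy] at h6 ⊢
  have h7 : (1 + lam) ^ (m - 1) * y ≤ m := by exact_mod_cast h6
  have h8 := OC.MONO0.bound lam δ y hδ hδ2 m hm h7
  have h9 : y ≤ C * ((1 + δ)⁻¹) ^ m := by
    refine h8.trans ?_
    gcongr
    exact le_max_right _ _
  calc (y : ℝ≥0∞) ≤ ((C * ((1 + δ)⁻¹) ^ m : ℝ≥0) : ℝ≥0∞) := ENNReal.coe_le_coe.2 h9
    _ = _ := by push_cast; rfl

end Pool.Agent.XM
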