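import Pool.Agent.XM.Yeps

/-!
# Column-convex polygons (MP_f6626d_co), module MONO

Strict monotonicity beyond the critical point, by Hölder's inequality.
-/

set_option autoImplicit false

namespace Pool.Agent.XM

open Finset Pool.Agent.Lib27 Pool.Agent.OC
open scoped NNReal ENNReal

namespace MONOB

theorem exists_t {r C : ℝ≥0} (hr0 : 0 < r) (hr : r < 1) (hC : 1 ≤ C) :
    ∃ t : ℝ, 0 < t ∧ t < 1 ∧ r ^ (1 - t) * C ^ t < 1 := by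
  have hr0' : (r : ℝ) ≠ 0 := by exact_mod_cast hr0.ne'
  have hC0' : (C : ℝ) ≠ 0 := by exact_mod_cast (zero_lt_one.trans_le hC).ne'
  have hc : Continuous fun t : ℝ => (r : ℝ) ^ (1 - t) * (C : ℝ) ^ t :=
    ((Real.continuous_const_rpow hr0').comp (by fun_prop)).mul (Real.continuous_const_rpow hC0')
  have h0 : (fun t : ℝ => (r : ℝ) ^ (1 - t) * (C : ℝ) ^ t) 0 < 1 := by
    simp only [sub_zero, Real.rpow_one, Real.rpow_zero, mul_one]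
    exact_mod_cast hr
  have h1 : ∀ᶠ t in nhds (0 : ℝ), (r : ℝ) ^ (1 - t) * (C : ℝ) ^ t < 1 :=
    hc.continuousAt.eventually_lt continuousAt_const h0
  obtain ⟨ε, hε, h2⟩ := Metric.eventually_nhds_iff.1 h1
  refine ⟨min (ε / 2) (1 / 2), by positivity, (min_le_right _ _).trans_lt (by norm_num), ?_⟩
  have h3 := h2 (y := min (ε / 2) (1 / 2)) (by
    rw [Real.dist_eq, sub_zero, abs_of_pos (by positivity)]
    exact (min_le_left _ _).trans_lt (by linarith))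
  rw [← NNReal.coe_lt_coe]
  push_cast
  exact h3

theorem Y_le (c : ℕ) (z : ℝ≥0∞) (m : ℕ) : Y c z m ≤ Y (c + 2) z m :=
  gs_mono _ fun _ hp => ⟨hp.1, hp.2.1, fun k => (hp.2.2 k).trans (by omega)⟩

end MONOB

theorem mono_thm (h1 : MONO0_Stmt) (h2 : YFIN_Stmt) (h3 : ZST_Stmt) : MONO_Stmt := by
  intro c
  obtain ⟨C0, r0, hr0, hM⟩ := h1 c
  obtain ⟨C, hC1, hC, -⟩ := h2 c
  obtain ⟨hz8, hz2, -, -⟩ := h3 c
  obtain ⟨r, hrpos, hr1, hr0r⟩ : ∃ r : ℝ≥0, 0 < r ∧ r < 1 ∧ r0 ≤ r :=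
    ⟨max r0 2⁻¹, lt_max_of_lt_right (by positivity),
      max_lt hr0 (inv_lt_one_of_one_lt₀ one_lt_two), le_max_left _ _⟩
  obtain ⟨t, ht0, ht1, ht⟩ := MONOB.exists_t hrpos hr1 hC1
  have hA1 : (1 : ℝ≥0) < (3 / 2 : ℝ≥0) ^ t := NNReal.one_lt_rpow (by
    rw [← NNReal.coe_lt_coe]; push_cast; norm_num) ht0
  have hz0 : zst c ≠ 0 := by
    intro h
    rw [h] at hz8
    simp at hz8
  have hzt : zst c ≠ ∞ := (hz2.trans_lt (by simp)).ne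
  have h34 : (3 / 4 : ℝ≥0∞) ≠ ∞ := ENNReal.div_ne_top (by simp) (by simp)
  refine ⟨(3 / 2 : ℝ≥0) ^ t - 1, C0 ^ (1 - t) * C ^ t, r ^ (1 - t) * C ^ t,
    tsub_pos_of_lt hA1, ht, ?_⟩
  intro z hz m
  have e1 : (1 + (((3 / 2 : ℝ≥0) ^ t - 1 : ℝ≥0) : ℝ≥0∞)) = (((3 / 2 : ℝ≥0) ^ t : ℝ≥0) : ℝ≥0∞) := by
    have e2 : (1 : ℝ≥0) + ((3 / 2 : ℝ≥0) ^ t - 1) = (3 / 2 : ℝ≥0) ^ t :=
      add_tsub_cancel_of_le hA1.le
    calc (1 + (((3 / 2 : ℝ≥0) ^ t - 1 : ℝ≥0) : ℝ≥0∞))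
        = (((1 : ℝ≥0) + ((3 / 2 : ℝ≥0) ^ t - 1) : ℝ≥0) : ℝ≥0∞) := by
          rw [ENNReal.coe_add, ENNReal.coe_one]
      _ = _ := by rw [e2]
  rw [e1] at hz
  have k0 : Y c (zst c) m ≤ ((C0 * r ^ m : ℝ≥0) : ℝ≥0∞) := by
    refine (hM m).trans ?_
    push_cast
    exact mul_le_mul' le_rfl (pow_le_pow_left' (by exact_mod_cast hr0r) m)
  have k1 : Y c (3 / 4) m ≤ ((C * C ^ m : ℝ≥0) : ℝ≥0∞) := by
    refine (MONOB.Y_le c _ m).trans ((hC m).trans (le_of_eq ?_))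
    push_cast
    rw [pow_succ, mul_comm]
  calc Y c z m ≤ Y c (zst c ^ (1 - t) * (3 / 4 : ℝ≥0∞) ^ t) m :=
        YEPS.Y_mono c (hz.trans (YEPS.le_mid ht0 hz0 hz2)) m
    _ ≤ Y c (zst c) m ^ (1 - t) * Y c (3 / 4) m ^ t :=
        YEPS.Y_hold c ht0 ht1 hzt h34 m
    _ ≤ ((C0 * r ^ m : ℝ≥0) : ℝ≥0∞) ^ (1 - t) * ((C * C ^ m : ℝ≥0) : ℝ≥0∞) ^ t :=
        mul_le_mul' (ENNReal.rpow_le_rpow k0 (by linarith)) (ENNReal.rpow_le_rpow k1 ht0.le)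
    _ = ((C0 ^ (1 - t) * C ^ t : ℝ≥0) : ℝ≥0∞) * ((r ^ (1 - t) * C ^ t : ℝ≥0) : ℝ≥0∞) ^ m := by
        rw [← ENNReal.coe_rpow_of_nonneg _ (by linarith : 0 ≤ 1 - t),
          ← ENNReal.coe_rpow_of_nonneg _ ht0.le, ← ENNReal.coe_mul, ← ENNReal.coe_pow,
          ← ENNReal.coe_mul, ENNReal.coe_inj, NNReal.mul_rpow, NNReal.mul_rpow, mul_pow,
          ← NNReal.rpow_natCast, ← NNReal.rpow_natCast, ← NNReal.rpow_natCast,
          ← NNReal.rpow_natCast, ← NNReal.rpow_mul, ← NNReal.rpow_mul, ← NNReal.rpow_mul,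
          ← NNReal.rpow_mul, mul_comm (m : ℝ) (1 - t), mul_comm (m : ℝ) t]
        ring

end Pool.Agent.XM
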