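import Pool.Agent.XM.Stmts

/-!
# NBB: pairs without cut of parity `b` between two lines
-/

set_option autoImplicit false

namespace Pool.Agent.XM

open Finset Pool.Agent.Lib27 Pool.Agent.OC
open scoped NNReal ENNReal

namespace NBB

lemma succ_le_pow {δ : ℝ≥0} (hδ : 0 < δ) :
    ∃ K : ℝ≥0, 1 ≤ K ∧ ∀ n : ℕ, (n : ℝ≥0) + 1 ≤ K * (1 + δ) ^ n := by
  refine ⟨max 1 δ⁻¹, le_max_left _ _, fun n => ?_⟩
  have h1 : 1 ≤ max 1 δ⁻¹ * δ := by
    calc (1 : ℝ≥0) = δ⁻¹ * δ := (inv_mul_cancel₀ hδ.ne').symm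
      _ ≤ max 1 δ⁻¹ * δ := by gcongr; exact le_max_right _ _
  induction n with
  | zero => simp
  | succ n ih =>
    have h2 : (1 : ℝ≥0) ≤ (1 + δ) ^ n := one_le_pow₀ (by simp)
    have h3 : (1 : ℝ≥0) ≤ max 1 δ⁻¹ * δ * (1 + δ) ^ n := one_le_mul h1 h2
    calc ((n + 1 : ℕ) : ℝ≥0) + 1 = ((n : ℝ≥0) + 1) + 1 := by push_cast; ring
      _ ≤ max 1 δ⁻¹ * (1 + δ) ^ n + max 1 δ⁻¹ * δ * (1 + δ) ^ n := add_le_add ih h3
      _ = max 1 δ⁻¹ * (1 + δ) ^ (n + 1) := by ring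

/-- a rate between `r0` and `1` -/
lemma rate (r0 : ℝ≥0) (h : r0 < 1) :
    ∃ δ : ℝ≥0, 0 < δ ∧ (1 + δ) * (1 + δ) * r0 < 1 := by
  refine ⟨(1 - r0) / 4, ?_, ?_⟩
  · exact div_pos (tsub_pos_of_lt h) (by norm_num)
  · obtain ⟨t, ht, ht1⟩ : ∃ t : ℝ≥0, 0 < t ∧ r0 + t = 1 :=
      ⟨1 - r0, tsub_pos_of_lt h, add_tsub_cancel_of_le h.le⟩
    have h1 : 1 - r0 = t := by rw [← ht1]; exact add_tsub_cancel_left r0 t
    rw [h1]
    have hr : (r0 : ℝ) = 1 - t := by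
      have : ((r0 + t : ℝ≥0) : ℝ) = 1 := by rw [ht1]; rfl
      push_cast at this
      linarith
    have htr : (0 : ℝ) < t := by exact_mod_cast ht
    have hr0 : (0 : ℝ) ≤ r0 := r0.2
    rw [← NNReal.coe_lt_coe]
    push_cast
    rw [hr]
    nlinarith [mul_pos htr htr, mul_pos (mul_pos htr htr) htr]

lemma card_le (e B : ℕ) :
    ((Ioo e B ×ˢ Ioo e B).filter (fun i => i.1 ≤ i.2)).card ≤ (B - e + 1) * (B - e + 1) := by
  calc ((Ioo e B ×ˢ Ioo e B).filter (fun i => i.1 ≤ i.2)).card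
      ≤ (Ioo e B ×ˢ Ioo e B).card := card_filter_le _ _
    _ = (B - e - 1) * (B - e - 1) := by rw [card_product, Nat.card_Ioo]
    _ ≤ _ := Nat.mul_le_mul (by omega) (by omega)

end NBB

theorem nbb_thm (h1 : NBD_Stmt) (h2 : NCB_Stmt) (h3 : EVN_Stmt) (h4 : YEPS_Stmt) : NBB_Stmt := by
  intro c
  obtain ⟨r1, hr1, hN⟩ := h2 c
  obtain ⟨etae, re, hee, hre, hE⟩ := h3 c
  set r0 : ℝ≥0 := max r1 re with hr0
  have hr01 : r0 < 1 := max_lt hr1 hre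
  obtain ⟨δ, hδ, hδ1⟩ := NBB.rate r0 hr01
  obtain ⟨K, hK1, hK⟩ := NBB.succ_le_pow hδ
  refine ⟨(1 + δ) * (1 + δ) * r0, hδ1, fun A hA => ?_⟩
  obtain ⟨eta1, C, he1, hC⟩ := hN A hA
  obtain ⟨eta2, CY, he2, hY⟩ := h4 c A hA
  set r : ℝ≥0 := (1 + δ) * (1 + δ) * r0 with hr
  have hr0r : r0 ≤ r := by
    rw [hr]
    exact le_mul_of_one_le_left (zero_le) (one_le_mul (by simp) (by simp))
  have hA1 : (1 : ℝ≥0∞) ≤ A := by exact_mod_cast hA.le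
  have hKE : ∀ n : ℕ, (n : ℝ≥0∞) + 1 ≤ K * ((1 + δ : ℝ≥0) : ℝ≥0∞) ^ n := by
    intro n
    have := hK n
    exact_mod_cast this
  have hrE : (r : ℝ≥0∞) = ((1 + δ : ℝ≥0) : ℝ≥0∞) * ((1 + δ : ℝ≥0) : ℝ≥0∞) * r0 := by
    rw [hr]; push_cast; rfl
  have hr1E : (r1 : ℝ≥0∞) ≤ r0 := by exact_mod_cast le_max_left _ _
  have hreE : (re : ℝ≥0∞) ≤ r0 := by exact_mod_cast le_max_right _ _
  have hr0E : (r0 : ℝ≥0∞) ≤ r := by exact_mod_cast hr0r
  refine ⟨min (min eta1 eta2) etae, C + K * K * (C * C) + CY, lt_min (lt_min he1 he2) hee, ?_⟩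
  intro z hz b e d H
  have hz1 : z ≤ (1 + eta1) * zst c := by
    refine hz.trans ?_
    gcongr
    exact (min_le_left _ _).trans (min_le_left _ _)
  have hz2 : z ≤ (1 + eta2) * zst c := by
    refine hz.trans ?_
    gcongr
    exact (min_le_left _ _).trans (min_le_right _ _)
  have hz3 : z ≤ (1 + etae) * zst c := by
    refine hz.trans ?_
    gcongr
    exact min_le_right _ _
  have hN' := hC z hz1
  have hY' := hY z hz2
  have hE' := hE z hz3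
  rcases lt_or_ge e (H - d) with h | h
  · set B := H - d with hB
    set n := B - e with hn
    have hn' : H - (e + d) = n := by omega
    set s := (Ioo e B ×ˢ Ioo e B).filter (fun i => i.1 ≤ i.2) with hs
    have hcard : (s.card : ℝ≥0∞) ≤
        (K * ((1 + δ : ℝ≥0) : ℝ≥0∞) ^ n) * (K * ((1 + δ : ℝ≥0) : ℝ≥0∞) ^ n) := by
      calc (s.card : ℝ≥0∞) ≤ (((n + 1) * (n + 1) : ℕ) : ℝ≥0∞) := by
            exact_mod_cast NBB.card_le e B
        _ = ((n : ℝ≥0∞) + 1) * ((n : ℝ≥0∞) + 1) := by push_cast; rfl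
        _ ≤ _ := mul_le_mul' (hKE n) (hKE n)
    have hterm : ∀ i ∈ s,
        gs (Wz z) (Nc (c + 2) e i.1 i.1) * gs (Wz z) (Evp (c + 2) (i.2 - i.1)) *
          gs (Wz z) (Nc (c + 2) 0 (B - i.2) (H - i.2)) ≤
        (C * C) * ((A : ℝ≥0∞) ^ (e + d) * (r0 : ℝ≥0∞) ^ n) := by
      intro i hi
      simp only [hs, mem_filter, mem_product, mem_Ioo] at hi
      have b1 : gs (Wz z) (Nc (c + 2) e i.1 i.1) ≤
          C * (A : ℝ≥0∞) ^ e * (r0 : ℝ≥0∞) ^ (i.1 - e) := by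
        have := hN' e 0 i.1
        simp only [Nat.sub_zero, add_zero] at this
        refine this.trans ?_
        gcongr
      have b2 : gs (Wz z) (Evp (c + 2) (i.2 - i.1)) ≤ (r0 : ℝ≥0∞) ^ (i.2 - i.1) := by
        refine (hE' _).trans ?_
        gcongr
      have b3 : gs (Wz z) (Nc (c + 2) 0 (B - i.2) (H - i.2)) ≤
          C * (A : ℝ≥0∞) ^ d * (r0 : ℝ≥0∞) ^ (B - i.2) := by
        have := hN' 0 d (H - i.2)
        rw [show H - i.2 - d = B - i.2 by omega, zero_add,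
          show H - i.2 - d = B - i.2 by omega] at this
        refine this.trans ?_
        gcongr
      have e3 : (r0 : ℝ≥0∞) ^ (i.1 - e) * (r0 : ℝ≥0∞) ^ (i.2 - i.1) * (r0 : ℝ≥0∞) ^ (B - i.2) =
          (r0 : ℝ≥0∞) ^ n := by
        rw [← pow_add, ← pow_add]
        congr 1
        omega
      calc gs (Wz z) (Nc (c + 2) e i.1 i.1) * gs (Wz z) (Evp (c + 2) (i.2 - i.1)) *
            gs (Wz z) (Nc (c + 2) 0 (B - i.2) (H - i.2))
          ≤ (C * (A : ℝ≥0∞) ^ e * (r0 : ℝ≥0∞) ^ (i.1 - e)) * ((r0 : ℝ≥0∞) ^ (i.2 - i.1)) *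
            (C * (A : ℝ≥0∞) ^ d * (r0 : ℝ≥0∞) ^ (B - i.2)) :=
            mul_le_mul' (mul_le_mul' b1 b2) b3
        _ = (C * C) * ((A : ℝ≥0∞) ^ (e + d) * ((r0 : ℝ≥0∞) ^ (i.1 - e) *
            (r0 : ℝ≥0∞) ^ (i.2 - i.1) * (r0 : ℝ≥0∞) ^ (B - i.2))) := by
            rw [pow_add]; ring
        _ = _ := by rw [e3]
    have hsum : ∑ i ∈ s, gs (Wz z) (Nc (c + 2) e i.1 i.1) *
          gs (Wz z) (Evp (c + 2) (i.2 - i.1)) *
          gs (Wz z) (Nc (c + 2) 0 (B - i.2) (H - i.2)) ≤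
        (K * K * (C * C)) * (A : ℝ≥0∞) ^ (e + d) * (r : ℝ≥0∞) ^ n := by
      calc _ ≤ ∑ _i ∈ s, (C * C) * ((A : ℝ≥0∞) ^ (e + d) * (r0 : ℝ≥0∞) ^ n) :=
            sum_le_sum hterm
        _ = (s.card : ℝ≥0∞) * ((C * C) * ((A : ℝ≥0∞) ^ (e + d) * (r0 : ℝ≥0∞) ^ n)) := by
            rw [sum_const, nsmul_eq_mul]
        _ ≤ ((K * ((1 + δ : ℝ≥0) : ℝ≥0∞) ^ n) * (K * ((1 + δ : ℝ≥0) : ℝ≥0∞) ^ n)) *
            ((C * C) * ((A : ℝ≥0∞) ^ (e + d) * (r0 : ℝ≥0∞) ^ n)) := by gcongr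
        _ = _ := by
            rw [hrE, mul_pow, mul_pow]
            ring
    calc gs (Wz z) (Nb b (c + 2) e B H)
        ≤ gs (Wz z) (Nc (c + 2) e B H) + ∑ i ∈ s, gs (Wz z) (Nc (c + 2) e i.1 i.1) *
          gs (Wz z) (Evp (c + 2) (i.2 - i.1)) *
          gs (Wz z) (Nc (c + 2) 0 (B - i.2) (H - i.2)) :=
          h1 c z b e B H h (Nat.sub_le _ _)
      _ ≤ C * (A : ℝ≥0∞) ^ (e + d) * (r : ℝ≥0∞) ^ n +
          (K * K * (C * C)) * (A : ℝ≥0∞) ^ (e + d) * (r : ℝ≥0∞) ^ n := by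
          refine add_le_add ?_ hsum
          have := hN' e d H
          rw [hn'] at this
          refine this.trans ?_
          gcongr
          exact (le_max_left _ _).trans hr0r
      _ = (C + K * K * (C * C)) * (A : ℝ≥0∞) ^ (e + d) * (r : ℝ≥0∞) ^ n := by ring
      _ ≤ ((C + K * K * (C * C) + CY : ℝ≥0) : ℝ≥0∞) * (A : ℝ≥0∞) ^ (e + d) *
          (r : ℝ≥0∞) ^ n := by
          gcongr
          push_cast
          exact le_self_add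
      _ = _ := by rw [hn']
  · have hH : H ≤ e + d := by omega
    have h0 : H - (e + d) = 0 := by omega
    calc gs (Wz z) (Nb b (c + 2) e (H - d) H) ≤ Y (c + 2) z H := gs_mono _ (fun p hp => hp.1)
      _ ≤ CY * (A : ℝ≥0∞) ^ H := hY' H
      _ ≤ CY * (A : ℝ≥0∞) ^ (e + d) := by
          refine mul_le_mul' le_rfl ?_
          exact pow_le_pow_right₀ hA1 hH
      _ ≤ ((C + K * K * (C * C) + CY : ℝ≥0) : ℝ≥0∞) * (A : ℝ≥0∞) ^ (e + d) := by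
          gcongr
          exact le_add_self
      _ = _ := by rw [h0, pow_zero, mul_one]

end Pool.Agent.XM
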