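import Pool.Agent.XM.Stmts
import Pool.Agent.XM.Lib

/-!
# Column-convex polygons (MP_f6626d_co): NBD, pairs without cut of a given parity
-/

set_option autoImplicit false

namespace Pool.Agent.XM

open Finset Pool.Agent.Lib27 Pool.Agent.OC
open scoped NNReal ENNReal

namespace NBD

/-- the splitting of a pair at its first and its last cut -/
theorem key {c : ℕ} {b : ℤ} {A B L : ℕ} (hBL : B ≤ L) {p : Wd × Wd}
    (hp : p ∈ Nb b (c + 2) A B L) {h1 h2 : ℕ} (hA1 : A < h1) (h12 : h1 ≤ h2) (h2B : h2 < B)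
    (hc1 : CC p h1) (hc2 : CC p h2) (hfst : ∀ h : ℤ, (A : ℤ) < h → h < h1 → ¬ CC p h)
    (hlst : ∀ h : ℤ, (h2 : ℤ) < h → h < B → ¬ CC p h) :
    ∃ q m t : Wd × Wd, q ∈ Nc (c + 2) A h1 h1 ∧ m ∈ Evp (c + 2) (h2 - h1) ∧
      t ∈ Nc (c + 2) 0 (B - h2) (L - h2) ∧ p = cat q (cat m t) := by
  obtain ⟨hpB, hno⟩ := hp
  obtain ⟨q, r, hqr, hq, hr⟩ := Brp_split hpB (h := h1) (by omega) (Or.inr (Or.inr hc1))
  have hsub : ((h2 - h1 : ℕ) : ℤ) = (h2 : ℤ) - h1 := by omega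
  have hcr : CC r ((h2 - h1 : ℕ) : ℤ) := by
    rw [hsub, ← CC_cat_ge r hq (k := (h2 : ℤ)) (by omega), ← hqr]
    exact hc2
  obtain ⟨m, t, hmt, hm, ht⟩ := Brp_split hr (h := h2 - h1) (by omega) (Or.inr (Or.inr hcr))
  have hL : L - h1 - (h2 - h1) = L - h2 := by omega
  rw [hL] at ht
  have e1 : ¬ Even ((lg q : ℤ) + b) := by
    intro he
    have h3 := (PC_junction hq hr (by omega) b).2 he
    rw [← hqr] at h3
    exact hno h1 (by omega) (by omega) h3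
  refine ⟨q, m, t, ⟨hq, ?_⟩, ⟨hm, ?_, ?_⟩, ⟨ht, ?_⟩, ?_⟩
  · intro h hh1 hh2 hcc
    apply hfst h hh1 hh2
    rw [hqr, CC_cat_lt hq hr hh2]
    exact hcc
  · have h3 : ¬ PC b p h2 := hno h2 (by omega) (by omega)
    rw [hqr, PC_cat_ge r hq (by omega), ← hsub, hmt, PC_junction hm ht (by omega)] at h3
    rw [Int.not_even_iff_odd] at e1 h3
    obtain ⟨i, hi⟩ := e1
    obtain ⟨j, hj⟩ := h3
    have h4 : Even ((lg m : ℕ) : ℤ) := ⟨j - i, by omega⟩
    exact_mod_cast h4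
  · intro h hh1 hh2 hcc
    have hh2' : h < ((h2 - h1 : ℕ) : ℤ) := hh2
    have h3 : ¬ PC b p (h + h1) := hno _ (by omega) (by omega)
    rw [hqr, PC_cat_ge r hq (by omega), add_sub_cancel_right, hmt,
      PC_cat_lt hm ht hh2'] at h3
    refine ⟨hcc, ?_⟩
    have h4 : ¬ Even (crh m.1 h + crh m.2 h + ((lg q : ℤ) + b)) := fun h5 => h3 ⟨hcc, h5⟩
    rw [Int.not_even_iff_odd] at e1 h4
    obtain ⟨i, hi⟩ := e1
    obtain ⟨j, hj⟩ := h4
    exact ⟨j - i, by omega⟩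
  · intro h hh1 hh2 hcc
    have hB : ((B - h2 : ℕ) : ℤ) = (B : ℤ) - h2 := by omega
    rw [hB] at hh2
    have hh1' : (0 : ℤ) < h := by exact_mod_cast hh1
    apply hlst (h + h2) (by omega) (by omega)
    rw [hqr, CC_cat_ge r hq (by omega), hmt, CC_cat_ge t hm (by rw [hsub]; omega), hsub]
    rw [show h + (h2 : ℤ) - h1 - (h2 - h1) = h by ring]
    exact hcc
  · rw [hqr, hmt]

end NBD

open NBD in
/-- NBD -/
theorem nbd_thm : NBD_Stmt := by
  classical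
  intro c z b A B L hAB hBL
  let S : ℕ × ℕ → Set (Wd × Wd) := fun i => {p | ∃ q m t : Wd × Wd, q ∈ Nc (c + 2) A i.1 i.1 ∧
    m ∈ Evp (c + 2) (i.2 - i.1) ∧ t ∈ Nc (c + 2) 0 (B - i.2) (L - i.2) ∧ p = cat q (cat m t)}
  have hsub : Nb b (c + 2) A B L ⊆ Nc (c + 2) A B L ∪
      {p | p ∈ Nb b (c + 2) A B L ∧ p ∉ Nc (c + 2) A B L} := by
    intro p hp
    by_cases h : p ∈ Nc (c + 2) A B L
    · exact Or.inl h
    · exact Or.inr ⟨hp, h⟩
  refine (gs_mono _ hsub).trans ((gs_union _ _ _).trans (add_le_add le_rfl ?_))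
  have h1 : gs (Wz z) {p | p ∈ Nb b (c + 2) A B L ∧ p ∉ Nc (c + 2) A B L} ≤
      ∑ i ∈ (Ioo A B ×ˢ Ioo A B).filter (fun i => i.1 ≤ i.2), gs (Wz z) (S i) := by
    apply gs_le_sum
    rintro p ⟨hp, hnc⟩
    have hex : ∃ k : ℕ, A < k ∧ k < B ∧ CC p k := by
      by_contra hcon
      push Not at hcon
      apply hnc
      refine ⟨hp.1, fun h hh1 hh2 hcc => ?_⟩
      obtain ⟨n, rfl⟩ : ∃ n : ℕ, h = n := ⟨h.toNat, by omega⟩
      exact hcon n (by omega) (by omega) hcc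
    set h1 := Nat.find hex with hh1
    obtain ⟨ha1, hb1, hc1⟩ := Nat.find_spec hex
    have hfst : ∀ h : ℤ, (A : ℤ) < h → h < h1 → ¬ CC p h := by
      intro h ha hb hcc
      obtain ⟨n, rfl⟩ : ∃ n : ℕ, h = n := ⟨h.toNat, by omega⟩
      have hb' : n < h1 := by exact_mod_cast hb
      exact Nat.find_min hex hb' ⟨by omega, by omega, hcc⟩
    set h2 := Nat.findGreatest (fun k => CC p (k : ℤ)) (B - 1) with hh2
    have hc2 : CC p (h2 : ℤ) := Nat.findGreatest_spec (P := fun k => CC p (k : ℤ))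
      (show h1 ≤ B - 1 by omega) hc1
    have h12 : h1 ≤ h2 := Nat.le_findGreatest (P := fun k => CC p (k : ℤ)) (by omega) hc1
    have h2B : h2 ≤ B - 1 := Nat.findGreatest_le (B - 1)
    have hlst : ∀ h : ℤ, (h2 : ℤ) < h → h < B → ¬ CC p h := by
      intro h ha hb hcc
      obtain ⟨n, rfl⟩ : ∃ n : ℕ, h = n := ⟨h.toNat, by omega⟩
      exact Nat.findGreatest_is_greatest (P := fun k => CC p (k : ℤ))
        (show h2 < n by exact_mod_cast ha) (by omega) hcc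
    refine ⟨(h1, h2), ?_, ?_⟩
    · simp only [Finset.mem_filter, Finset.mem_product, Finset.mem_Ioo]
      omega
    · exact key hBL hp (by omega) h12 (by omega) hc1 hc2 hfst hlst
  refine h1.trans (Finset.sum_le_sum ?_)
  rintro ⟨i, j⟩ _
  refine gs_split3 (fun q m t : Wd × Wd => cat q (cat m t)) ?_
  rintro p ⟨q, m, t, hq, hm, ht, rfl⟩
  refine ⟨q, m, t, hq, hm, ht, rfl, ?_⟩
  rw [Wz_cat, Wz_cat, mul_assoc]

end Pool.Agent.XM
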