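import Pool.Agent.XM.Stmts

/-!
# NCB: pairs without cut between two lines
-/

set_option autoImplicit false

namespace Pool.Agent.XM

open Finset Pool.Agent.Lib27 Pool.Agent.OC
open scoped NNReal ENNReal

namespace NCB

lemma succ_le_pow {δ : ℝ≥0} (hδ : 0 < δ) :
    ∃ K : ℝ≥0, 1 ≤ K ∧ ∀ n : ℕ, (n : ℝ≥0) + 1 ≤ K * (1 + δ) ^ n := by
  refine ⟨max 1 δ⁻¹, le_max_left _ _, fun n => ?_⟩
  have h1 : 1 ≤ max 1 δ⁻¹ * δ := by
    calc (1 : ℝ≥0) = δ⁻¹ * δ := (inv_mul_cancel₀ hδ.ne').symm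
      _ ≤ max 1 δ⁻¹ * δ := by gcongr; exact le_max_right _ _
  induction n with
  | zero => simp
  | succ n ih =>
    have h2 : (1 : ℝ≥0) ≤ (1 + δ) ^ n := one_le_pow₀ (by simp)
    have h3 : (1 : ℝ≥0) ≤ max 1 δ⁻¹ * δ * (1 + δ) ^ n := one_le_mul h1 h2
    calc ((n + 1 : ℕ) : ℝ≥0) + 1 = ((n : ℝ≥0) + 1) + 1 := by push_cast; ring
      _ ≤ max 1 δ⁻¹ * (1 + δ) ^ n + max 1 δ⁻¹ * δ * (1 + δ) ^ n := add_le_add ih h3
      _ = max 1 δ⁻¹ * (1 + δ) ^ (n + 1) := by ring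

lemma card_le (e d H : ℕ) (h : d ≤ H) :
    ((range (e + 1) ×ˢ range (H + 1)).filter
      (fun i => H - d ≤ i.1 + i.2 ∧ i.1 + i.2 ≤ H)).card ≤ (e + 1) * (d + 1) := by
  rw [← card_range (e + 1), ← card_range (d + 1), ← card_product]
  simp only [card_range]
  refine card_le_card_of_injOn (fun i => (i.1, H - (i.1 + i.2))) ?_ ?_
  · intro i hi
    simp only [coe_filter, mem_product, mem_range, Set.mem_setOf_eq] at hi
    simp only [coe_product, coe_range, Set.mem_prod, Set.mem_Iio]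
    omega
  · intro i hi j hj hij
    simp only [coe_filter, mem_product, mem_range, Set.mem_setOf_eq] at hi hj
    simp only [Prod.mk.injEq] at hij
    ext
    · exact hij.1
    · omega

end NCB

theorem ncb_thm (h1 : RENU_Stmt) (h2 : GAP_Stmt) (h3 : YEPS_Stmt) : NCB_Stmt := by
  intro c
  obtain ⟨eta1, Cg, r, he1, hr, hg⟩ := h2 c
  refine ⟨r, hr, fun A hA => ?_⟩
  obtain ⟨A', hA', hAA⟩ : ∃ A' : ℝ≥0, 1 < A' ∧ A' * A' = A :=
    ⟨NNReal.sqrt A, by rw [← NNReal.sqrt_one]; exact NNReal.sqrt_lt_sqrt.2 hA,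
      NNReal.mul_self_sqrt A⟩
  obtain ⟨eta2, CY, he2, hY⟩ := h3 c A' hA'
  obtain ⟨δ, hδ, hδA⟩ : ∃ δ : ℝ≥0, 0 < δ ∧ 1 + δ = A' :=
    ⟨A' - 1, tsub_pos_of_lt hA', add_tsub_cancel_of_le hA'.le⟩
  obtain ⟨K, hK1, hK⟩ := NCB.succ_le_pow hδ
  rw [hδA] at hK
  have hr1 : (r : ℝ≥0∞) ≤ 1 := by exact_mod_cast hr.le
  have hA1 : (1 : ℝ≥0∞) ≤ A' := by exact_mod_cast hA'.le
  have hKE : ∀ n : ℕ, (n : ℝ≥0∞) + 1 ≤ K * (A' : ℝ≥0∞) ^ n := by
    intro n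
    have := hK n
    exact_mod_cast this
  have hAAE : (A : ℝ≥0∞) = A' * A' := by rw [← hAA]; push_cast; rfl
  refine ⟨min eta1 eta2, K * K * (CY * Cg * CY) + CY, lt_min he1 he2, ?_⟩
  intro z hz e d H
  have hz1 : z ≤ (1 + eta1) * zst c := by
    refine hz.trans ?_
    gcongr
    exact min_le_left _ _
  have hz2 : z ≤ (1 + eta2) * zst c := by
    refine hz.trans ?_
    gcongr
    exact min_le_right _ _
  have hY' := hY z hz2
  have hg' := hg z hz1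
  rcases lt_or_ge e (H - d) with h | h
  · have hdH : d ≤ H := by omega
    set s := (range (e + 1) ×ˢ range (H + 1)).filter
      (fun i => H - d ≤ i.1 + i.2 ∧ i.1 + i.2 ≤ H) with hs
    have hcard : (s.card : ℝ≥0∞) ≤ (K * (A' : ℝ≥0∞) ^ e) * (K * (A' : ℝ≥0∞) ^ d) := by
      calc (s.card : ℝ≥0∞) ≤ (((e + 1) * (d + 1) : ℕ) : ℝ≥0∞) := by
            exact_mod_cast NCB.card_le e d H hdH
        _ = ((e : ℝ≥0∞) + 1) * ((d : ℝ≥0∞) + 1) := by push_cast; rfl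
        _ ≤ _ := mul_le_mul' (hKE e) (hKE d)
    have hterm : ∀ i ∈ s,
        Y (c + 2) z i.1 * ww (c + 2) z i.2 * Y (c + 2) z (H - (i.1 + i.2)) ≤
        (CY * Cg * CY) * ((A' : ℝ≥0∞) ^ (e + d) * (r : ℝ≥0∞) ^ (H - (e + d))) := by
      intro i hi
      simp only [hs, mem_filter, mem_product, mem_range] at hi
      have a1 : (A' : ℝ≥0∞) ^ i.1 * (A' : ℝ≥0∞) ^ (H - (i.1 + i.2)) ≤ (A' : ℝ≥0∞) ^ (e + d) := by
        rw [← pow_add]
        exact pow_le_pow_right₀ hA1 (by omega)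
      have a2 : (r : ℝ≥0∞) ^ i.2 ≤ (r : ℝ≥0∞) ^ (H - (e + d)) :=
        pow_le_pow_of_le_one (zero_le) hr1 (by omega)
      calc Y (c + 2) z i.1 * ww (c + 2) z i.2 * Y (c + 2) z (H - (i.1 + i.2))
          ≤ (CY * (A' : ℝ≥0∞) ^ i.1) * (Cg * (r : ℝ≥0∞) ^ i.2) *
            (CY * (A' : ℝ≥0∞) ^ (H - (i.1 + i.2))) :=
            mul_le_mul' (mul_le_mul' (hY' _) (hg' _)) (hY' _)
        _ = (CY * Cg * CY) * (((A' : ℝ≥0∞) ^ i.1 * (A' : ℝ≥0∞) ^ (H - (i.1 + i.2))) *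
            (r : ℝ≥0∞) ^ i.2) := by ring
        _ ≤ _ := by gcongr
    calc gs (Wz z) (Nc (c + 2) e (H - d) H)
        ≤ ∑ i ∈ s, Y (c + 2) z i.1 * ww (c + 2) z i.2 * Y (c + 2) z (H - (i.1 + i.2)) :=
          h1 c z e (H - d) H h (Nat.sub_le _ _)
      _ ≤ ∑ _i ∈ s, (CY * Cg * CY) * ((A' : ℝ≥0∞) ^ (e + d) * (r : ℝ≥0∞) ^ (H - (e + d))) :=
          sum_le_sum hterm
      _ = (s.card : ℝ≥0∞) *
          ((CY * Cg * CY) * ((A' : ℝ≥0∞) ^ (e + d) * (r : ℝ≥0∞) ^ (H - (e + d)))) := by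
          rw [sum_const, nsmul_eq_mul]
      _ ≤ ((K * (A' : ℝ≥0∞) ^ e) * (K * (A' : ℝ≥0∞) ^ d)) *
          ((CY * Cg * CY) * ((A' : ℝ≥0∞) ^ (e + d) * (r : ℝ≥0∞) ^ (H - (e + d)))) := by
          gcongr
      _ = (K * K * (CY * Cg * CY)) * (A : ℝ≥0∞) ^ (e + d) * (r : ℝ≥0∞) ^ (H - (e + d)) := by
          rw [hAAE, mul_pow, pow_add]
          ring
      _ ≤ (K * K * (CY * Cg * CY) + CY : ℝ≥0) * (A : ℝ≥0∞) ^ (e + d) *
          (r : ℝ≥0∞) ^ (H - (e + d)) := by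
          gcongr
          push_cast
          exact le_self_add
      _ = _ := by push_cast; rfl
  · have hH : H ≤ e + d := by omega
    have h0 : H - (e + d) = 0 := by omega
    calc gs (Wz z) (Nc (c + 2) e (H - d) H) ≤ Y (c + 2) z H := gs_mono _ (fun p hp => hp.1)
      _ ≤ CY * (A' : ℝ≥0∞) ^ H := hY' H
      _ ≤ CY * (A : ℝ≥0∞) ^ (e + d) := by
          refine mul_le_mul' le_rfl ?_
          calc (A' : ℝ≥0∞) ^ H ≤ (A' : ℝ≥0∞) ^ (e + d) := pow_le_pow_right₀ hA1 hH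
            _ ≤ (A : ℝ≥0∞) ^ (e + d) := by
                gcongr
                rw [← hAA]
                exact le_mul_of_one_le_left (zero_le) hA'.le
      _ ≤ (K * K * (CY * Cg * CY) + CY : ℝ≥0) * (A : ℝ≥0∞) ^ (e + d) := by
          gcongr
          push_cast
          exact le_add_self
      _ = _ := by rw [h0, pow_zero, mul_one]

end Pool.Agent.XM
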