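import Pool.Agent.XM.Lib

/-!
# Column-convex polygons (MP_f6626d_co): super- and submultiplicativity (module XM_NSM)
-/

set_option autoImplicit false

namespace Pool.Agent.XM

open Finset Pool.Agent.Lib27 Pool.Agent.OC
open scoped NNReal ENNReal

namespace NSM

/-- a bridge is cut at the first and at the last crossing of the line `m` -/
theorem split {m m' : ℕ} {A : Wd} (hA : A ∈ Bri (m + m')) :
    ∃ u l v, A = u ++ (l ++ v) ∧ u ∈ Bri m ∧ SAWs l ∧ (ep 0 l).1 = 0 ∧ v ∈ Bri m' := by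
  rcases Nat.eq_zero_or_pos m' with rfl | hm'
  · exact ⟨A, [], [], by simp, hA, by simp [SAWs], rfl, Bri_zero.2 rfl⟩
  have hend := hA.2.1
  obtain ⟨u, x, rfl, h1, h2⟩ := first_cross (w := A) (h := m) (by positivity)
    ⟨ep 0 A, ep_mem_vt _ _, by rw [hend]; push_cast; omega⟩
  have hx : (ep 0 (0 :: x : Wd)).1 = m' := by
    rw [fst_ep_app, h1] at hend
    push_cast at hend
    omega
  obtain ⟨l, y, h3, h4, h5⟩ := last_cross (w := 0 :: x) (h := 0)
    ⟨0, mem_vt_self _ _, le_rfl⟩ (by rw [hx]; omega)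
  have hs := SAWs_right hA.1
  rw [h3] at hs
  refine ⟨u, l, 0 :: y, by rw [h3], ⟨SAWs_left hA.1, h1, fun p hp =>
    ⟨?_, h2 p (List.mem_of_mem_tail hp)⟩⟩, SAWs_left hs, h4, ⟨SAWs_right hs, ?_, fun p hp =>
    ⟨h5 p hp, ?_⟩⟩⟩
  · have hune : u ≠ [] := by
      rintro rfl
      simp at hp
    exact (hA.2.2 p ((mem_vt_tail_app hune).2 (Or.inl hp))).1
  · rw [h3, fst_ep_app, h4] at hx
    omega
  · have h6 : p + ep 0 (u ++ l) ∈ vt 0 (u ++ 0 :: x) := by
      rw [h3, ← List.append_assoc]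
      exact mem_vt_right (u ++ l) (List.mem_of_mem_tail hp)
    have h7 := (Bri_col hA h6).2
    rw [Prod.fst_add, fst_ep_app, h1, h4] at h7
    push_cast at h7
    omega

theorem cr3 {m : ℕ} {u l : Wd} (v : Wd) (hu : u ∈ Bri m) (hl : (ep 0 l).1 = 0) (h : ℤ) :
    cr (u ++ (l ++ v)) h = cr u h + (cr l (h - m) + cr v (h - m)) := by
  rw [cr_append, cr_append, hu.2.1, hl, sub_zero]

theorem loop {c m m' : ℕ} {u l v B : Wd} (hu : u ∈ Bri m) (hl : (ep 0 l).1 = 0)
    (hv : v ∈ Bri m') (hA : u ++ (l ++ v) ∈ Bri (m + m')) (hB : B ∈ Bri (m + m'))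
    (hc : ∀ h : ℤ, cr (u ++ (l ++ v)) h + cr B h ≤ c + 2) (k : ℤ) : cr l k ≤ c := by
  have h1 := hc (k + m)
  have h2 := cr3 v hu hl (k + m)
  rw [add_sub_cancel_right] at h2
  by_cases hout : k + m < 0 ∨ ((m + m' : ℕ) : ℤ) ≤ k + m
  · have h3 := cr_Bri_out hA hout
    omega
  · push Not at hout
    have h3 := cr_Bri_pos hB hout.1 hout.2
    rcases lt_or_ge k 0 with hk | hk
    · have h4 := cr_Bri_pos hu hout.1 (by omega)
      omega
    · have h4 := cr_Bri_pos hv hk (by have := hout.2; push_cast at this; omega)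
      omega

end NSM

theorem nsm_thm : NSM_Stmt := by
  intro c z m m'
  constructor
  · unfold Y
    refine gs_concat2 cat ?_ ?_ ?_
    · intro p hp q hq
      exact cat_mem hp hq
    · intro p hp q hq p' hp' q' hq' he
      exact cat_inj hp hq hp' hq' he
    · intro p _ q _
      exact (Wz_cat z p q).ge
  · unfold Y
    rw [pow_two, ← mul_assoc]
    refine gs_split4 (fun (p : Wd × Wd) (l l' : Wd) (q : Wd × Wd) =>
      (p.1 ++ (l ++ q.1), p.2 ++ (l' ++ q.2))) ?_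
    rintro ⟨A, B⟩ ⟨hA, hB, hc⟩
    simp only at hA hB hc
    obtain ⟨u, l, v, rfl, hu, hl, hl0, hv⟩ := NSM.split hA
    obtain ⟨u', l', v', rfl, hu', hl', hl0', hv'⟩ := NSM.split hB
    refine ⟨(u, u'), l, l', (v, v'), ⟨hu, hu', fun h => ?_⟩, ⟨hl, hl0, ?_⟩, ⟨hl', hl0', ?_⟩,
      ⟨hv, hv', fun h => ?_⟩, rfl, ?_⟩
    · have h1 := hc h
      rw [NSM.cr3 v hu hl0, NSM.cr3 v' hu' hl0'] at h1
      simp only
      omega
    · exact NSM.loop hu hl0 hv hA hB hc
    · refine NSM.loop hu' hl0' hv' hB hA fun h => ?_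
      rw [add_comm]
      exact hc h
    · have h1 := hc (h + m)
      rw [NSM.cr3 v hu hl0, NSM.cr3 v' hu' hl0', add_sub_cancel_right] at h1
      simp only
      omega
    · refine le_of_eq ?_
      rw [Wz_eq, Wz_eq, Wz_eq]
      simp only [wz_append]
      ring

end Pool.Agent.XM
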