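import Pool.Agent.XM.Lib

/-!
# Column-convex polygons (MP_f6626d_co): POLYR

Polygons without even cut, rotated: two bridges and two loops.
-/

set_option autoImplicit false

namespace Pool.Agent.XM.POLYR

open Finset Pool.Agent.Lib27 Pool.Agent.OC Pool.Agent.XM
open scoped NNReal ENNReal

/-- the starting point of a nonempty word -/
theorem head_mem (p : ℤ × ℤ) {s : Wd} (hs : s ≠ []) : p ∈ vs p s := by
  cases s with
  | nil => exact absurd rfl hs
  | cons d s => simp

/-- a proper initial part of a closed self-avoiding word is self-avoiding -/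
theorem saws_init {A X : Wd} (hX : X ≠ []) (h : (vs 0 (A ++ X)).Nodup) : SAWs A := by
  rw [vs_append] at h
  unfold SAWs vt
  rw [List.nodup_append] at h ⊢
  refine ⟨h.1, List.nodup_singleton _, ?_⟩
  intro a ha b hb
  rw [List.mem_singleton] at hb
  rw [hb]
  exact h.2.2 a ha _ (head_mem _ hX)

theorem ep_neg {l₁ l₂ : Wd} (h : ep 0 (l₁ ++ l₂) = 0) : ep 0 l₂ = -ep 0 l₁ := by
  rw [ep_app] at h
  exact eq_neg_of_add_eq_zero_left h

/-- vertices of a rotated closed word -/
theorem mem_rot (l₁ l₂ : Wd) (h : ep 0 (l₁ ++ l₂) = 0) (v : ℤ × ℤ) :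
    v ∈ vs 0 (l₂ ++ l₁) ↔ v + ep 0 l₁ ∈ vs 0 (l₁ ++ l₂) := by
  have e1 := ep_neg h
  rw [vs_append, vs_append, List.mem_append, List.mem_append, vs_eq (ep 0 l₂) l₁,
    vs_eq (ep 0 l₁) l₂, List.mem_map, List.mem_map, e1]
  constructor
  · rintro (h1 | ⟨q, hq, rfl⟩)
    · exact Or.inr ⟨v, h1, rfl⟩
    · left
      rw [neg_add_cancel_right]
      exact hq
  · rintro (h1 | ⟨q, hq, h2⟩)
    · exact Or.inr ⟨_, h1, by simp⟩
    · left
      rw [← add_right_cancel h2]
      exact hq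

/-- crossings of a rotated closed word -/
theorem cr_rot (l₁ l₂ : Wd) (h : ep 0 (l₁ ++ l₂) = 0) (k : ℤ) :
    cr (l₂ ++ l₁) k = cr (l₁ ++ l₂) (k + (ep 0 l₁).1) := by
  rw [cr_append, cr_append, ep_neg h, Prod.fst_neg, sub_neg_eq_add, add_sub_cancel_right, add_comm]

/-- heights of the crossings of a rotated closed word -/
theorem crh_rot (l₁ l₂ : Wd) (h : ep 0 (l₁ ++ l₂) = 0) (k : ℤ) :
    crh (l₁ ++ l₂) (k + (ep 0 l₁).1) = crh (l₂ ++ l₁) k + cr (l₂ ++ l₁) k * (ep 0 l₁).2 := by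
  rw [crh_append, crh_append, cr_append, ep_neg h, Prod.fst_neg, Prod.snd_neg, sub_neg_eq_add,
    add_sub_cancel_right]
  push_cast
  ring

theorem ECut_rot (l₁ l₂ : Wd) (h : ep 0 (l₁ ++ l₂) = 0) {k : ℤ} (hk : ECut (l₂ ++ l₁) k) :
    ECut (l₁ ++ l₂) (k + (ep 0 l₁).1) := by
  obtain ⟨h1, h2⟩ := hk
  refine ⟨by rw [← cr_rot l₁ l₂ h]; exact h1, ?_⟩
  rw [crh_rot l₁ l₂ h, h1]
  obtain ⟨t, ht⟩ := h2
  exact ⟨t + (ep 0 l₁).2, by rw [ht]; push_cast; ring⟩

/-- vertical self-avoiding words are straight -/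
theorem straight {w : Wd} : ∀ {s : Fin 4}, SAWs (s :: w) → (∀ v ∈ vt 0 (s :: w), v.1 = 0) →
    w = List.replicate w.length s := by
  induction w with
  | nil => intro s _ _; rfl
  | cons r w ih =>
    intro s h1 h2
    have h3 : SAWs (r :: w) := SAWs_right (u := [s]) h1
    have hs : (dv s).1 = 0 := by
      apply h2
      rw [vt_cons, zero_add, vt_cons]
      exact List.mem_cons_of_mem _ List.mem_cons_self
    have h4 : ∀ v ∈ vt 0 (r :: w), v.1 = 0 := by
      intro v hv
      have h5 := h2 (v + dv s) (by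
        rw [vt_cons, zero_add, vt_eq (dv s)]
        exact List.mem_cons_of_mem _ (List.mem_map_of_mem hv))
      rw [Prod.fst_add, hs, add_zero] at h5
      exact h5
    have hr : (dv r).1 = 0 := by
      apply h4
      rw [vt_cons, zero_add]
      exact List.mem_cons_of_mem _ (mem_vt_self _ _)
    have h6 : dv s + dv r ≠ 0 := by
      intro h7
      have h8 : (vt 0 (s :: r :: w)).Nodup := h1
      rw [vt_cons, vt_cons, zero_add, h7, List.nodup_cons] at h8
      exact h8.1 (List.mem_cons_of_mem _ (mem_vt_self _ _))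
    have h7 : r = s := by
      revert hs hr h6
      fin_cases s <;> fin_cases r <;> simp [dv]
    subst h7
    rw [List.length_cons, List.replicate_succ, ← ih h3 h4]

theorem ep_replicate (s : Fin 4) (k : ℕ) (p : ℤ × ℤ) :
    (ep p (List.replicate k s)).1 = p.1 + k * (dv s).1 ∧
      (ep p (List.replicate k s)).2 = p.2 + k * (dv s).2 := by
  induction k generalizing p with
  | zero => simp
  | succ k ih =>
    rw [List.replicate_succ, ep_cons, (ih _).1, (ih _).2, Prod.fst_add, Prod.snd_add]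
    push_cast
    constructor <;> ring

/-- a closed self-avoiding word of length at least four is not vertical -/
theorem not_vert {w : Wd} {n : ℕ} (hn : 2 ≤ n) (hlen : w.length = 2 * n) (hS : SAPw w) :
    ∃ v ∈ vs 0 w, v.1 ≠ 0 := by
  by_contra hcon
  push Not at hcon
  rcases List.eq_nil_or_concat w with rfl | ⟨u, s, rfl⟩
  · simp at hlen
    omega
  · simp only [List.concat_eq_append] at *
    rw [List.length_append, List.length_singleton] at hlen
    cases u with
    | nil => simp at hlen; omega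
    | cons r u =>
      rw [List.length_cons] at hlen
      have h1 : vs 0 ((r :: u) ++ [s]) = vt 0 (r :: u) := by
        rw [vs_append]; rfl
      have h2 : SAWs (r :: u) := by
        have := hS.2
        rw [h1] at this
        exact this
      have h3 := straight h2 (by rw [← h1]; exact hcon)
      have h4 : r :: u = List.replicate (u.length + 1) r := by
        rw [List.replicate_succ, ← h3]
      have h5 := hS.1
      rw [h4, ep_append, ep_cons, ep_nil] at h5
      have h6 := congrArg Prod.snd h5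
      have h7 := congrArg Prod.fst h5
      rw [Prod.snd_add, (ep_replicate r _ 0).2] at h6
      rw [Prod.fst_add, (ep_replicate r _ 0).1] at h7
      have h8 : ((u.length + 1 : ℕ) : ℤ) = 2 * n - 1 := by omega
      rw [h8, Prod.snd_zero] at h6
      rw [h8, Prod.fst_zero] at h7
      revert h6 h7
      fin_cases s <;> fin_cases r <;> simp [dv] <;> omega

/-- first step: the rotation -/
theorem step1 {u : Wd} {H : ℕ} (hH : 1 ≤ H) (hS : SAPw u)
    (hex : ∃ v ∈ vs 0 u, v.1 = H) :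
    ∃ a A Q : Wd, u = a ++ (A ++ Q) ∧ A ∈ Bri H ∧ (ep 0 a).1 = 0 ∧ Q ≠ [] := by
  obtain ⟨v, hv, hvH⟩ := hex
  obtain ⟨P, Q, rfl, h1, h2⟩ := first_col (w := u) (h := H) (by positivity)
    ⟨v, List.mem_append_left _ hv, hvH.ge⟩
  have hQ : Q ≠ [] := by
    rintro rfl
    have := hS.1
    rw [List.append_nil] at this
    rw [this, Prod.fst_zero] at h1
    omega
  have hP : SAWs P := saws_init hQ hS.2
  obtain ⟨a, A, rfl, h3, h4⟩ := last_col (w := P) (h := 0) ⟨0, mem_vt_self _ _, le_rfl⟩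
    (by rw [h1]; positivity)
  refine ⟨a, A, Q, by simp, ⟨SAWs_right hP, ?_, fun p hp => ⟨h4 p hp, ?_⟩⟩, h3, hQ⟩
  · rw [fst_ep_app, h3, zero_add] at h1
    exact h1
  · have h5 : p + ep 0 a ∈ vt 0 (a ++ A) := mem_vt_right a (List.mem_of_mem_tail hp)
    have h6 : (p + ep 0 a).1 ≤ H := by
      unfold vt at h5
      rw [List.mem_append, List.mem_singleton] at h5
      rcases h5 with h5 | h5
      · exact (h2 _ h5).le
      · rw [h5, h1]
    rw [Prod.fst_add, h3, add_zero] at h6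
    exact h6

/-- second step: the decomposition of the second half -/
theorem step2 {c : ℕ} {A X : Wd} {H : ℕ} (hH : 1 ≤ H) (hA : A ∈ Bri H) (hS : SAPw (A ++ X))
    (hl : ∀ v ∈ vs 0 (A ++ X), 0 ≤ v.1 ∧ v.1 ≤ H) (hc : ∀ k, cr (A ++ X) k ≤ c + 2)
    (hcut : ∀ k, ¬ ECut (A ++ X) k) :
    ∃ B l0 lt : Wd, X = rv (l0 ++ B ++ lt) ∧ l0 ∈ Lp c ∧ lt ∈ Lp c ∧
      (A, B) ∈ Nb (ep 0 l0).2 (c + 2) (ext l0) (H - ext lt) H := by
  have heA := hA.2.1
  have hAne : A ≠ [] := Bri_ne_nil hA hH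
  have hXne : X ≠ [] := by
    rintro rfl
    have := hS.1
    rw [List.append_nil] at this
    rw [this, Prod.fst_zero] at heA
    omega
  obtain ⟨R, rfl⟩ : ∃ R, X = rv R := ⟨rv X, (rv_rv X).symm⟩
  have heR : ep 0 R = ep 0 A := by
    have h1 := ep_neg hS.1
    rw [ep_rv0] at h1
    exact neg_injective h1
  have hend : ep (ep 0 A) (rv R) = 0 := by
    rw [← ep_append]
    exact hS.1
  have hrev : vs (ep 0 A) (rv R) ++ [0] = (vt 0 R).reverse := by
    have h1 : vt (ep 0 R) (rv R) = (vt 0 R).reverse := by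
      unfold vt
      rw [ep_rv]
      exact vs_rv 0 R
    rw [heR] at h1
    unfold vt at h1 ⊢
    rw [hend] at h1
    exact h1
  have hnd : SAWs R := by
    have h1 : (vt 0 R).reverse.Nodup := by
      rw [← hrev]
      have h2 := hS.2
      rw [vs_append] at h2
      rw [List.nodup_append] at h2 ⊢
      refine ⟨h2.2.1, List.nodup_singleton _, ?_⟩
      intro a ha b hb
      rw [List.mem_singleton] at hb
      rw [hb]
      exact fun h => h2.2.2 0 (head_mem _ hAne) a ha h.symm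
    exact List.nodup_reverse.1 h1
  have hlR : ∀ v ∈ vt 0 R, 0 ≤ v.1 ∧ v.1 ≤ H := by
    intro v hv
    rw [← List.mem_reverse, ← hrev, List.mem_append, List.mem_singleton] at hv
    rcases hv with hv | rfl
    · exact hl v (by rw [vs_append]; exact List.mem_append_right _ hv)
    · exact ⟨le_rfl, by simp⟩
  have hcount : ∀ k : ℤ, cr (A ++ rv R) k = cr A k + cr R k := by
    intro k
    rw [cr_append, cr_rv, heR, sub_add_cancel]
  have hheight : ∀ k : ℤ, crh (A ++ rv R) k = crh A k + crh R k := by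
    intro k
    rw [crh_append, cr_rv, crh_rv, heR, sub_add_cancel]
    ring_nf
  -- the last visit of the column 0
  obtain ⟨l0, Y, rfl, h1, h2⟩ := last_col (w := R) (h := 0)
    ⟨0, mem_vt_self _ _, le_rfl⟩ (by rw [heR, heA]; positivity)
  have hY : (ep 0 Y).1 = H := by
    have := fst_ep_app l0 Y
    rw [heR, heA, h1] at this
    omega
  obtain ⟨B, lt, rfl, h4, h5⟩ := first_col (w := Y) (h := H) (by positivity)
    ⟨ep 0 Y, ep_mem_vt _ _, hY.ge⟩
  have hBne : B ≠ [] := by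
    rintro rfl
    rw [ep_nil, Prod.fst_zero] at h4
    omega
  have hBle : ∀ p ∈ vt 0 B, p.1 ≤ H := by
    intro p hp
    unfold vt at hp
    rw [List.mem_append, List.mem_singleton] at hp
    rcases hp with hp | rfl
    · exact (h5 p hp).le
    · exact h4.le
  have hB : B ∈ Bri H := by
    refine ⟨SAWs_left (SAWs_right hnd), h4, fun p hp => ⟨?_, ?_⟩⟩
    · exact h2 p ((mem_vt_tail_app hBne).2 (Or.inl hp))
    · exact hBle p (List.mem_of_mem_tail hp)
  have hel : (ep 0 lt).1 = 0 := by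
    rw [fst_ep_app, h4] at hY
    omega
  have hcr : ∀ k : ℤ, cr (A ++ rv (l0 ++ (B ++ lt))) k =
      cr A k + (cr l0 k + (cr B k + cr lt (k - H))) := by
    intro k
    rw [hcount, cr_append l0, h1, sub_zero, cr_append B, h4]
  have hlow : ∀ k : ℤ, (∀ p ∈ vt 0 lt, 0 ≤ p.1 + H ∧ p.1 ≤ 0) := by
    intro k p hp
    have h6 := hlR _ (mem_vt_right l0 (mem_vt_right B hp))
    rw [Prod.fst_add, Prod.fst_add, h1, h4] at h6
    omega
  have hl0 : ∀ p ∈ vt 0 l0, 0 ≤ p.1 ∧ p.1 ≤ H := fun p hp => hlR p (mem_vt_left _ hp)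
  -- crossings of the two loops
  have hloop : ∀ k : ℤ, cr l0 k + cr lt (k - H) ≤ c := by
    intro k
    rcases lt_or_ge k 0 with hk | hk
    · have e1 : cr l0 k = 0 := cr_eq_zero_of_gt fun p hp => lt_of_lt_of_le hk (hl0 p hp).1
      have e2 : cr lt (k - H) = 0 := cr_eq_zero_of_gt fun p hp => by
        have := (hlow 0 p hp).1
        omega
      omega
    · rcases lt_or_ge k H with hk' | hk'
      · have e1 := cr_Bri_pos hA hk hk'
        have e2 := cr_Bri_pos hB hk hk'
        have e3 := hc k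
        rw [hcr] at e3
        omega
      · have e1 : cr l0 k = 0 := cr_eq_zero_of_le fun p hp => (hl0 p hp).2.trans hk'
        have e2 : cr lt (k - H) = 0 := cr_eq_zero_of_le fun p hp => by
          have := (hlow 0 p hp).2
          omega
        omega
  refine ⟨B, l0, lt, by rw [List.append_assoc], ⟨SAWs_left hnd, h1, fun k => ?_⟩,
    ⟨SAWs_right (SAWs_right hnd), hel, fun k => ?_⟩, ⟨hA, hB, fun k => ?_⟩, ?_⟩
  · have := hloop k
    omega
  · have := hloop (k + H)
    rw [add_sub_cancel_right] at this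
    omega
  · have e3 := hc k
    rw [hcr] at e3
    simp only
    omega
  · rintro k hk hk' ⟨⟨h6, h7⟩, h8⟩
    simp only at h6 h7 h8
    have e1 : cr l0 k = 0 := cr_out (Or.inl hk.le)
    have e2 : cr lt (k - H) = 0 := by
      refine cr_out (Or.inr ?_)
      omega
    refine hcut k ⟨?_, ?_⟩
    · rw [hcr, h6, h7, e1, e2]
    · rw [hheight, crh_append l0, h1, sub_zero, crh_append B, h4, cr_append B, h4,
        crh_eq_zero e1, crh_eq_zero e2, e2, h7]
      have e3 : crh A k + (0 + (crh B k + (0 + ((0 : ℕ) : ℤ) * (ep 0 B).2) +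
          ((1 + 0 : ℕ) : ℤ) * (ep 0 l0).2)) = crh A k + crh B k + (ep 0 l0).2 := by
        push_cast
        ring
      rw [e3]
      exact h8

end Pool.Agent.XM.POLYR

namespace Pool.Agent.XM

open Finset Pool.Agent.Lib27 Pool.Agent.OC Pool.Agent.XM.POLYR

/-- POLYR -/
theorem polyr_thm : POLYR_Stmt := by
  classical
  intro c n w hn hw
  unfold NoE at hw
  rw [Finset.mem_filter, mem_W] at hw
  obtain ⟨⟨hlen, hS⟩, hcw, hcut⟩ := hw
  have hwne : w ≠ [] := by
    rintro rfl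
    simp at hlen
    omega
  have h0 : (0 : ℤ × ℤ) ∈ vs 0 w := head_mem 0 hwne
  have hne : (vs 0 w).toFinset.Nonempty := ⟨0, List.mem_toFinset.2 h0⟩
  obtain ⟨q0, hq0, hmin⟩ := Finset.exists_min_image (vs 0 w).toFinset (fun v => v.1) hne
  obtain ⟨p0, hp0, hmax⟩ := Finset.exists_max_image (vs 0 w).toFinset (fun v => v.1) hne
  rw [List.mem_toFinset] at hq0 hp0
  have hmin' : ∀ v ∈ vs 0 w, q0.1 ≤ v.1 := fun v hv => hmin v (List.mem_toFinset.2 hv)
  have hmax' : ∀ v ∈ vs 0 w, v.1 ≤ p0.1 := fun v hv => hmax v (List.mem_toFinset.2 hv)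
  obtain ⟨H, hHe⟩ : ∃ H : ℕ, (H : ℤ) = p0.1 - q0.1 := by
    have := hmin' p0 hp0
    exact ⟨(p0.1 - q0.1).toNat, by omega⟩
  have hH : 1 ≤ H := by
    obtain ⟨v, hv, hv0⟩ := not_vert hn hlen hS
    have h1 := hmin' _ h0
    have h2 := hmax' _ h0
    have h3 := hmin' _ hv
    have h4 := hmax' _ hv
    rw [Prod.fst_zero] at h1 h2
    omega
  obtain ⟨l₁, l₂, h12, hq⟩ : ∃ l₁ l₂, w = l₁ ++ l₂ ∧ ep 0 l₁ = q0 := by
    rw [← stp_fst, List.mem_map] at hq0
    obtain ⟨q, hq, h1⟩ := hq0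
    obtain ⟨u, v, h2, h3⟩ := mem_stp hq
    exact ⟨u, _, h2, by rw [← h3, h1]⟩
  subst h12
  -- the word `u = l₂ ++ l₁` starts in the leftmost column
  have hSu : SAPw (l₂ ++ l₁) := SAPw_rotate _ _ hS
  have hlu : ∀ v ∈ vs 0 (l₂ ++ l₁), 0 ≤ v.1 ∧ v.1 ≤ H := by
    intro v hv
    have h1 := (mem_rot l₁ l₂ hS.1 v).1 hv
    rw [hq] at h1
    have h2 := hmin' _ h1
    have h3 := hmax' _ h1
    rw [Prod.fst_add] at h2 h3
    omega
  have hexu : ∃ v ∈ vs 0 (l₂ ++ l₁), v.1 = H := by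
    refine ⟨p0 - q0, (mem_rot l₁ l₂ hS.1 _).2 (by rw [hq, sub_add_cancel]; exact hp0), ?_⟩
    rw [Prod.fst_sub, hHe]
  obtain ⟨a, A, Q, hu, hA, ha, hQ⟩ := step1 hH hSu hexu
  -- the word `A ++ Q ++ a`
  have hSu' : SAPw (a ++ (A ++ Q)) := by rw [← hu]; exact hSu
  have hSw : SAPw (A ++ Q ++ a) := SAPw_rotate _ _ hSu'
  have hlw : ∀ v ∈ vs 0 (A ++ (Q ++ a)), 0 ≤ v.1 ∧ v.1 ≤ H := by
    intro v hv
    rw [← List.append_assoc] at hv
    have h1 := (mem_rot a (A ++ Q) hSu'.1 v).1 hv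
    rw [← hu] at h1
    have h2 := hlu _ h1
    rw [Prod.fst_add, ha, add_zero] at h2
    exact h2
  have hcc : ∀ k, cr (A ++ (Q ++ a)) k ≤ c + 2 := by
    intro k
    rw [← List.append_assoc, cr_rot a (A ++ Q) hSu'.1, ← hu, cr_rot l₁ l₂ hS.1]
    exact hcw _
  have hnc : ∀ k, ¬ ECut (A ++ (Q ++ a)) k := by
    intro k hk
    rw [← List.append_assoc] at hk
    have h1 := ECut_rot a (A ++ Q) hSu'.1 hk
    rw [← hu] at h1
    exact hcut _ (ECut_rot l₁ l₂ hS.1 h1)
  have hSw' : SAPw (A ++ (Q ++ a)) := by rw [← List.append_assoc]; exact hSw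
  obtain ⟨B, l0, lt, hX, hl0, hlt, hNb⟩ := step2 hH hA hSw' hlw hcc hnc
  have hrot : (l₁ ++ l₂).rotate ((l₁.length + a.length) % (2 * n)) = A ++ (Q ++ a) := by
    rw [← hlen, List.rotate_mod, ← List.rotate_rotate, List.rotate_append_length_eq, hu,
      List.rotate_append_length_eq, List.append_assoc]
  refine ⟨(l₁.length + a.length) % (2 * n), H, A, B, l0, lt, Nat.mod_lt _ (by omega), hH, ?_,
    hl0, hlt, hNb⟩
  rw [hrot, hX]

end Pool.Agent.XM
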