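import Pool.Agent.XM.Stmts
import Pool.Agent.XM.Lib

/-!
# Column-convex polygons (MP_f6626d_co): lower renewal inequality
-/

set_option autoImplicit false

namespace Pool.Agent.XM

open Finset Pool.Agent.Lib27 Pool.Agent.OC
open scoped NNReal ENNReal

namespace RENL

/-- pairs of bridges of width `M` whose last cut below and first cut above are prescribed -/
def S (c M : ℕ) (i : ℕ × ℕ) : Set (Wd × Wd) :=
  {p | p ∈ Brp c M ∧ CC p i.1 ∧ (i.1 + i.2 = M ∨ CC p ((i.1 + i.2 : ℕ) : ℤ)) ∧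
    ∀ k : ℤ, (i.1 : ℤ) < k → k < ((i.1 + i.2 : ℕ) : ℤ) → ¬ CC p k}

/-- one term of the sum -/
theorem term (c : ℕ) (z : ℝ≥0∞) {M i l : ℕ} (hl : 1 ≤ l) (h3 : i + l ≤ M) :
    Y c z i * ww c z l * Y c z (M - (i + l)) ≤ gs (Wz z) (S c M (i, l)) := by
  unfold Y ww
  refine gs_concat3 (fun a b d : Wd × Wd => cat (cat a b) d) ?_ ?_ ?_
  · intro a ha b hb d hd
    have hab : cat a b ∈ Brp c (i + l) := cat_mem ha hb.1
    have habd : cat (cat a b) d ∈ Brp c M := by
      have := cat_mem hab hd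
      rwa [Nat.add_sub_cancel' h3] at this
    refine ⟨habd, ?_, ?_, ?_⟩
    · exact (CC_cat_lt hab hd (k := (i : ℤ)) (by push_cast; omega)).2 (CC_junction ha hb.1 hl)
    · rcases Nat.eq_or_lt_of_le h3 with h | h
      · exact Or.inl h
      · exact Or.inr (CC_junction hab hd (by omega))
    · intro k hk hk' hcc
      simp only at hk hk'
      have h1 := (CC_cat_lt hab hd (k := k) hk').1 hcc
      have h2 := (CC_cat_ge b ha (k := k) hk.le).1 h1
      exact hb.2 (k - i) (by push_cast; omega) (by push_cast at hk'; omega) h2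
  · intro a ha b hb d hd a' ha' b' hb' d' hd' heq
    have h1 := cat_inj (cat_mem ha hb.1) hd (cat_mem ha' hb'.1) hd' heq
    have h2 := cat_inj ha hb.1 ha' hb'.1 h1.1
    exact ⟨h2.1, h2.2, h1.2⟩
  · intro a ha b hb d hd
    rw [Wz_cat, Wz_cat]

end RENL

/-- RENL -/
theorem renl_thm : RENL_Stmt := by
  intro c z t M s hs
  have h1 : ∀ i ∈ s, Y (c + 2) z i.1 * ww (c + 2) z i.2 * Y (c + 2) z (M - (i.1 + i.2)) ≤
      gs (Wz z) (RENL.S (c + 2) M i) := fun i hi => by
    obtain ⟨h1, h2, h3⟩ := hs i hi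
    exact RENL.term (c + 2) z (by omega) h3
  refine (Finset.sum_le_sum h1).trans
    (sum_gs_le (Wz z) s (RENL.S (c + 2) M) _ (fun i _ p hp => hp.1) ?_)
  rintro ⟨i, l⟩ hi ⟨i', l'⟩ hi' p hp hp'
  obtain ⟨h1, h2, h3⟩ := hs _ hi
  obtain ⟨h1', h2', h3'⟩ := hs _ hi'
  obtain ⟨-, c1, c2, c3⟩ := hp
  obtain ⟨-, c1', c2', c3'⟩ := hp'
  simp only at h1 h2 h3 h1' h2' h3' c1 c2 c3 c1' c2' c3'
  have e1 : i = i' := by
    rcases lt_trichotomy i i' with h | h | h
    · exact absurd c1' (c3 i' (by omega) (by push_cast; omega))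
    · exact h
    · exact absurd c1 (c3' i (by omega) (by push_cast; omega))
  subst e1
  have e2 : l = l' := by
    rcases lt_trichotomy l l' with h | h | h
    · rcases c2 with c2 | c2
      · omega
      · exact absurd c2 (c3' _ (by push_cast; omega) (by push_cast; omega))
    · exact h
    · rcases c2' with c2' | c2'
      · omega
      · exact absurd c2' (c3 _ (by push_cast; omega) (by push_cast; omega))
  subst e2
  rfl

end Pool.Agent.XM
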