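import Pool.Agent.XM.Lib
import Pool.Agent.XM.Stmts

/-!
# Column-convex polygons (MP_f6626d_co): RENU, the upper renewal inequality

`gs (Wz z) (Nc (c+2) A B L) ≤ ∑ Y_i ww_l Y_{L - i - l}`, by cutting at the last cut `i ≤ A` (the line
`0` counts as a cut) and the first cut `i + l ≥ B` (the line `L` counts as a cut).
-/

set_option autoImplicit false

namespace Pool.Agent.XM

open Finset Pool.Agent.Lib27 Pool.Agent.OC
open scoped NNReal ENNReal

namespace RENU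

/-- pairs cut at two lines -/
theorem key {c i l L : ℕ} (hl : 1 ≤ l) (hiL : i + l ≤ L) {p : Wd × Wd} (hp : p ∈ Brp c L)
    (h2 : i = 0 ∨ CC p (i : ℤ)) (h3 : i + l = L ∨ CC p ((i + l : ℕ) : ℤ)) :
    ∃ u v t, u ∈ Brp c i ∧ v ∈ Brp c l ∧ t ∈ Brp c (L - (i + l)) ∧ p = cat (cat u v) t ∧
      ∀ k : ℤ, 0 < k → k < l → (CC v k ↔ CC p (k + i)) := by
  obtain ⟨q, t, rfl, hq, ht⟩ := Brp_split hp hiL (Or.inr h3)
  have h4 : ∀ k : ℤ, k < ((i + l : ℕ) : ℤ) → (CC (cat q t) k ↔ CC q k) :=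
    fun k hk => CC_cat_lt hq ht hk
  have h5 : i = 0 ∨ CC q (i : ℤ) := h2.imp_right fun h => (h4 i (by push_cast; omega)).1 h
  obtain ⟨u, v, rfl, hu, hv⟩ := Brp_split hq (h := i) (by omega)
    (h5.imp_right Or.inr)
  rw [Nat.add_sub_cancel_left] at hv
  refine ⟨u, v, t, hu, hv, ht, rfl, ?_⟩
  intro k hk hk'
  rw [h4 (k + i) (by push_cast; omega), CC_cat_ge v hu (by omega), add_sub_cancel_right]

end RENU

open RENU in
/-- RENU -/
theorem renu_thm : RENU_Stmt := by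
  classical
  intro c z A B L hAB hBL
  let S : ℕ × ℕ → Set (Wd × Wd) := fun i => {p | p ∈ Brp (c + 2) L ∧ (i.1 = 0 ∨ CC p (i.1 : ℤ)) ∧
    (i.1 + i.2 = L ∨ CC p ((i.1 + i.2 : ℕ) : ℤ)) ∧
      ∀ k : ℤ, (i.1 : ℤ) < k → k < ((i.1 + i.2 : ℕ) : ℤ) → ¬ CC p k}
  have h1 : gs (Wz z) (Nc (c + 2) A B L) ≤
      ∑ i ∈ (Finset.range (A + 1) ×ˢ Finset.range (L + 1)).filter
        (fun i => B ≤ i.1 + i.2 ∧ i.1 + i.2 ≤ L), gs (Wz z) (S i) := by
    apply gs_le_sum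
    rintro p ⟨hp, hno⟩
    set i := Nat.findGreatest (fun k => k = 0 ∨ CC p (k : ℤ)) A with hi
    have hi1 : i ≤ A := Nat.findGreatest_le A
    have hi2 : i = 0 ∨ CC p (i : ℤ) :=
      Nat.findGreatest_spec (P := fun k => k = 0 ∨ CC p (k : ℤ)) (Nat.zero_le A) (Or.inl rfl)
    have hi3 : ∀ k, i < k → k ≤ A → ¬ CC p (k : ℤ) := fun k hk hk' hcc =>
      Nat.findGreatest_is_greatest (P := fun k => k = 0 ∨ CC p (k : ℤ)) hk hk' (Or.inr hcc)
    have hex : ∃ j, B ≤ j ∧ (j = L ∨ CC p (j : ℤ)) := ⟨L, hBL, Or.inl rfl⟩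
    set j := Nat.find hex with hj
    have hj1 : B ≤ j := (Nat.find_spec hex).1
    have hj2 : j = L ∨ CC p (j : ℤ) := (Nat.find_spec hex).2
    have hj3 : j ≤ L := Nat.find_min' hex ⟨hBL, Or.inl rfl⟩
    have hj4 : ∀ k, B ≤ k → k < j → ¬ CC p (k : ℤ) := fun k hk hk' hcc =>
      Nat.find_min hex hk' ⟨hk, Or.inr hcc⟩
    have hij : i + (j - i) = j := by omega
    refine ⟨(i, j - i), ?_, ?_⟩
    · simp only [Finset.mem_filter, Finset.mem_product, Finset.mem_range]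
      omega
    · refine ⟨hp, hi2, by simp only [hij]; exact hj2, ?_⟩
      simp only [hij]
      intro k hk hk'
      obtain ⟨m, rfl⟩ : ∃ m : ℕ, k = m := ⟨k.toNat, by omega⟩
      rcases Nat.lt_or_ge A m with hm | hm
      · rcases Nat.lt_or_ge m B with hm' | hm'
        · exact hno m (by exact_mod_cast hm) (by exact_mod_cast hm')
        · exact hj4 m hm' (by exact_mod_cast hk')
      · exact hi3 m (by exact_mod_cast hk) hm
  refine h1.trans (Finset.sum_le_sum ?_)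
  rintro ⟨i, l⟩ hi
  simp only [Finset.mem_filter, Finset.mem_product, Finset.mem_range] at hi
  unfold Y ww
  refine gs_split3 (fun a b c : Wd × Wd => cat (cat a b) c) ?_
  rintro p ⟨hp, c1, c2, c3⟩
  simp only at c1 c2 c3 ⊢
  obtain ⟨u, v, t, hu, hv, ht, he, hc⟩ := key (by omega) hi.2.2 hp c1 c2
  refine ⟨u, v, t, hu, ⟨hv, ?_⟩, ht, he, ?_⟩
  · intro k hk hk' hcc
    have hk0 : (0 : ℤ) < k := by exact_mod_cast hk
    exact c3 (k + i) (by omega) (by push_cast; omega) ((hc k hk0 hk').1 hcc)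
  · rw [he, Wz_cat, Wz_cat]

end Pool.Agent.XM
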