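import Pool.Agent.XM.Stmts

/-!
# Column-convex polygons (MP_f6626d_co): a good scale (module XM_SCALE)
-/

set_option autoImplicit false

namespace Pool.Agent.XM

open Finset Pool.Agent.Lib27 Pool.Agent.OC
open scoped NNReal ENNReal

namespace SCALE

/-- the sum over the pairs of indices of the upper renewal inequality -/
theorem block (h1 : RENU_Stmt) (h3 : ZST_Stmt) (c : ℕ) {K : ℕ} (hK : 1 ≤ K) :
    gs (Wz (zst c)) (Nc (c + 2) K (2 * K) (3 * K)) ≤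
      2 * ∑ l ∈ Icc K (3 * K), (l : ℝ≥0∞) * ww (c + 2) (zst c) l := by
  obtain ⟨-, -, hY, -⟩ := h3 c
  refine (h1 c (zst c) K (2 * K) (3 * K) (by omega) (by omega)).trans ?_
  have e1 : ∑ i ∈ (range (K + 1) ×ˢ range (3 * K + 1)).filter
      (fun i => 2 * K ≤ i.1 + i.2 ∧ i.1 + i.2 ≤ 3 * K),
        Y (c + 2) (zst c) i.1 * ww (c + 2) (zst c) i.2 *
          Y (c + 2) (zst c) (3 * K - (i.1 + i.2)) ≤
      ∑ i ∈ range (K + 1) ×ˢ Icc K (3 * K), ww (c + 2) (zst c) i.2 := by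
    refine (Finset.sum_le_sum (g := fun i => ww (c + 2) (zst c) i.2) fun i _ => ?_).trans
      (Finset.sum_le_sum_of_subset fun i hi => ?_)
    · calc Y (c + 2) (zst c) i.1 * ww (c + 2) (zst c) i.2 *
            Y (c + 2) (zst c) (3 * K - (i.1 + i.2))
          ≤ 1 * ww (c + 2) (zst c) i.2 * 1 :=
            mul_le_mul' (mul_le_mul' (hY _) le_rfl) (hY _)
        _ = ww (c + 2) (zst c) i.2 := by rw [one_mul, mul_one]
    · rw [mem_filter, mem_product, mem_range, mem_range] at hi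
      rw [mem_product, mem_range, mem_Icc]
      omega
  refine e1.trans ?_
  rw [Finset.sum_product]
  show ∑ x ∈ range (K + 1), ∑ y ∈ Icc K (3 * K), ww (c + 2) (zst c) y ≤ _
  rw [Finset.sum_const, card_range, nsmul_eq_mul, Finset.mul_sum, Finset.mul_sum]
  refine Finset.sum_le_sum fun l hl => ?_
  rw [← mul_assoc]
  refine mul_le_mul' ?_ le_rfl
  rw [mem_Icc] at hl
  have h2 : K + 1 ≤ 2 * l := by omega
  calc ((K + 1 : ℕ) : ℝ≥0∞) ≤ ((2 * l : ℕ) : ℝ≥0∞) := Nat.cast_le.2 h2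
    _ = 2 * (l : ℝ≥0∞) := by push_cast; rfl

/-- the ranges of the scales are disjoint -/
theorem scales (g : ℕ → ℝ≥0∞) {k : ℕ} (hk : 1 ≤ k) (n : ℕ) :
    ∑ i ∈ range n, ∑ l ∈ Icc (k * 4 ^ i) (3 * (k * 4 ^ i)), g l ≤
      ∑ l ∈ range (k * 4 ^ n), g l := by
  induction n with
  | zero => simp
  | succ n ih =>
    have hp : 1 ≤ k * 4 ^ n := Nat.mul_pos hk (by positivity)
    rw [Finset.sum_range_succ]
    have e : k * 4 ^ (n + 1) = 4 * (k * 4 ^ n) := by ring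
    rw [e, ← Finset.sum_range_add_sum_Ico g (show k * 4 ^ n ≤ 4 * (k * 4 ^ n) by omega)]
    refine add_le_add ih (Finset.sum_le_sum_of_subset fun l hl => ?_)
    rw [mem_Icc] at hl
    rw [mem_Ico]
    omega

end SCALE

open SCALE in
theorem scale_thm (h1 : RENU_Stmt) (h2 : MEAN_Stmt) (h3 : ZST_Stmt) : SCALE_Stmt := by
  intro c eps K0 heps
  obtain ⟨M, -, hM⟩ := h2 c
  obtain ⟨n, hn⟩ := exists_nat_gt (2 * M / eps)
  have hn' : 2 * M < n * eps := by rwa [div_lt_iff₀ heps] at hn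
  by_contra hcon
  push Not at hcon
  have hlt : ∀ i ∈ range n, (eps : ℝ≥0∞) ≤ gs (Wz (zst c))
      (Nc (c + 2) ((K0 + 1) * 4 ^ i) (2 * ((K0 + 1) * 4 ^ i)) (3 * ((K0 + 1) * 4 ^ i))) := by
    intro i _
    have h4 : 1 ≤ 4 ^ i := Nat.one_le_pow _ _ (by norm_num)
    refine (hcon ((K0 + 1) * 4 ^ i) ?_ ?_).le
    · nlinarith
    · exact Nat.mul_pos (Nat.succ_pos K0) (by positivity)
  have hsum : (n : ℝ≥0∞) * eps ≤ 2 * M := by
    calc (n : ℝ≥0∞) * eps = ∑ i ∈ range n, (eps : ℝ≥0∞) := by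
          rw [Finset.sum_const, card_range, nsmul_eq_mul]
      _ ≤ ∑ i ∈ range n, gs (Wz (zst c))
          (Nc (c + 2) ((K0 + 1) * 4 ^ i) (2 * ((K0 + 1) * 4 ^ i)) (3 * ((K0 + 1) * 4 ^ i))) :=
          Finset.sum_le_sum hlt
      _ ≤ ∑ i ∈ range n, 2 * ∑ l ∈ Icc ((K0 + 1) * 4 ^ i) (3 * ((K0 + 1) * 4 ^ i)),
          (l : ℝ≥0∞) * ww (c + 2) (zst c) l :=
          Finset.sum_le_sum fun i _ =>
            block h1 h3 c (Nat.mul_pos (Nat.succ_pos K0) (by positivity))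
      _ = 2 * ∑ i ∈ range n, ∑ l ∈ Icc ((K0 + 1) * 4 ^ i) (3 * ((K0 + 1) * 4 ^ i)),
          (l : ℝ≥0∞) * ww (c + 2) (zst c) l := by rw [Finset.mul_sum]
      _ ≤ 2 * ∑' l : ℕ, (l : ℝ≥0∞) * ww (c + 2) (zst c) l :=
          mul_le_mul' le_rfl ((scales _ (Nat.succ_pos K0) n).trans (ENNReal.sum_le_tsum _))
      _ ≤ 2 * M := mul_le_mul' le_rfl hM
  have h5 : ((n * eps : ℝ≥0) : ℝ≥0∞) ≤ ((2 * M : ℝ≥0) : ℝ≥0∞) := by
    push_cast
    exact hsum
  exact absurd (ENNReal.coe_le_coe.1 h5) (not_le.2 hn')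

end Pool.Agent.XM
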