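import Pool.Agent.XM.Theta

/-!
# Column-convex polygons (MP_f6626d_co): THFIN, blocks beyond the critical point
-/

set_option autoImplicit false

namespace Pool.Agent.XM

open Finset Pool.Agent.Lib27 Pool.Agent.OC
open scoped NNReal ENNReal

theorem THFIN.Y_mono {c : ℕ} {z z' : ℝ≥0∞} (h : z ≤ z') (m : ℕ) : Y c z m ≤ Y c z' m :=
  gs_le _ _ subset_rfl fun _ _ => pow_le_pow_left₀ bot_le h _

theorem THFIN.le34 {eta : ℝ≥0} (h : eta ≤ 1 / 2) {x : ℝ≥0∞} (hx : x ≤ 2⁻¹) :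
    (1 + (eta : ℝ≥0∞)) * x ≤ 3 / 4 := by
  have h1 : (1 + eta) * 2⁻¹ ≤ 3 / 4 := by
    calc (1 + eta) * 2⁻¹ ≤ (1 + 1 / 2) * 2⁻¹ := by gcongr
      _ = 3 / 4 := by
        apply NNReal.coe_injective
        push_cast
        norm_num
  have e1 : ((2⁻¹ : ℝ≥0) : ℝ≥0∞) = 2⁻¹ := by
    rw [ENNReal.coe_inv (by norm_num), ENNReal.coe_ofNat]
  have e2 : ((3 / 4 : ℝ≥0) : ℝ≥0∞) = 3 / 4 := by
    rw [ENNReal.coe_div (by norm_num), ENNReal.coe_ofNat, ENNReal.coe_ofNat]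
  calc (1 + (eta : ℝ≥0∞)) * x ≤ (1 + (eta : ℝ≥0∞)) * 2⁻¹ := mul_le_mul_right hx _
    _ = (((1 + eta) * 2⁻¹ : ℝ≥0) : ℝ≥0∞) := by
      rw [ENNReal.coe_mul, e1, ENNReal.coe_add, ENNReal.coe_one]
    _ ≤ ((3 / 4 : ℝ≥0) : ℝ≥0∞) := ENNReal.coe_le_coe.2 h1
    _ = 3 / 4 := e2

theorem thfin_thm (h1 : LOOP_Stmt) (h2 : FPS_Stmt) (h3 : YFIN_Stmt) (h4 : ZST_Stmt) :
    THFIN_Stmt := by
  classical
  intro c R hR
  obtain ⟨eta0, s, C, heta0, hs, -, hloop⟩ := h1 c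
  have hr : s⁻¹ < 1 := inv_lt_one_of_one_lt₀ hs
  obtain ⟨ρ, hρ0, hρ1, hrρ⟩ := THETA.exists_cube hr
  have hR0 : 0 < R := zero_lt_one.trans_le hR
  obtain ⟨K0, hK0⟩ := NNReal.exists_pow_lt_of_lt_one (a := R⁻¹) (by positivity) hρ1
  obtain ⟨CY, hCY1, hCY, -⟩ := h3 c
  set eta : ℝ≥0 := min eta0 (1 / 2) with heta
  refine ⟨K0, eta, lt_min heta0 (by norm_num), ?_⟩
  intro K1
  have hsub : 0 < 1 - ρ := tsub_pos_of_lt hρ1
  set M : ℝ≥0 := (C * R * (1 - ρ)⁻¹) * (C * R * (1 - ρ)⁻¹) * CY ^ (3 * K1 + 1) with hM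
  refine ⟨M, fun K hK hK' => ?_⟩
  set z : ℝ≥0∞ := (1 + eta) * zst c with hz
  have hze : z ≤ (1 + eta0) * zst c := by
    refine mul_le_mul_left ?_ _
    gcongr
    exact min_le_left _ _
  have hz34 : z ≤ 3 / 4 := THFIN.le34 (min_le_right _ _) (h4 c).2.1
  have hloop' : ∀ d, gs (wz z) {l | l ∈ Lp c ∧ d ≤ ext l} ≤ (C : ℝ≥0∞) * (ρ : ℝ≥0∞) ^ (3 * d) := by
    intro d
    refine (hloop z hze d).trans ?_
    have e2 : ((s⁻¹ : ℝ≥0) : ℝ≥0∞) ^ d ≤ (ρ : ℝ≥0∞) ^ (3 * d) := by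
      rw [pow_mul]
      refine pow_le_pow_left₀ bot_le ?_ d
      exact_mod_cast hrρ
    exact mul_le_mul_right e2 _
  have hRK : (R : ℝ≥0∞) * (ρ : ℝ≥0∞) ^ K ≤ 1 := by
    have h5 : R * ρ ^ K ≤ 1 := by
      calc R * ρ ^ K ≤ R * R⁻¹ := by
            gcongr
            exact (pow_le_pow_right_of_le_one' hρ1.le hK).trans hK0.le
        _ = 1 := mul_inv_cancel₀ hR0.ne'
    exact_mod_cast h5
  have hsube : (1 - (ρ : ℝ≥0∞))⁻¹ = (((1 - ρ)⁻¹ : ℝ≥0) : ℝ≥0∞) := by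
    rw [ENNReal.coe_inv hsub.ne', ENNReal.coe_sub, ENNReal.coe_one]
  have hall : gs (fun l => wz z l * (fun d => (R : ℝ≥0∞) ^ ((d + 2 * K) / (3 * K))) (dip l))
      (Lp c) ≤ ((C * R * (1 - ρ)⁻¹ : ℝ≥0) : ℝ≥0∞) := by
    refine (THETA.all_sum hloop' (by exact_mod_cast hR) hRK (by exact_mod_cast hρ1.le)).trans
      (le_of_eq ?_)
    rw [hsube]
    push_cast
    rfl
  have hC1 : (1 : ℝ≥0∞) ≤ CY := by exact_mod_cast hCY1
  have hY : ∀ m ≤ 3 * K1, Y (c + 2) z m ≤ ((CY ^ (3 * K1 + 1) : ℝ≥0) : ℝ≥0∞) := by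
    intro m hm
    refine (THFIN.Y_mono hz34 m).trans ((hCY m).trans ?_)
    rw [ENNReal.coe_pow]
    exact pow_le_pow_right₀ hC1 (by omega)
  have key : ∀ m ≤ 3 * K1, gs (fun p => Wz z p * (R : ℝ≥0∞) ^ (cc K p.1 + cc K p.2))
      (Fpp c m) ≤ M := by
    intro m hm
    have h5 : gs (fun p => Wz z p * (R : ℝ≥0∞) ^ (cc K p.1 + cc K p.2)) (Fpp c m) ≤
        gs (fun p => Wz z p * ((fun d => (R : ℝ≥0∞) ^ ((d + 2 * K) / (3 * K))) (dip p.1) *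
          (fun d => (R : ℝ≥0∞) ^ ((d + 2 * K) / (3 * K))) (dip p.2))) (Fpp c m) := by
      refine gs_le _ _ subset_rfl fun p _ => mul_le_mul_right (le_of_eq ?_) _
      rw [pow_add]
      rfl
    refine (h5.trans (h2 c z m (fun d => (R : ℝ≥0∞) ^ ((d + 2 * K) / (3 * K)))
      (fun d => (R : ℝ≥0∞) ^ ((d + 2 * K) / (3 * K))))).trans ?_
    rw [hM, ENNReal.coe_mul, ENNReal.coe_mul (C * R * (1 - ρ)⁻¹)]
    exact mul_le_mul' (mul_le_mul' hall hall) (hY m hm)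
  refine ⟨?_, key⟩
  refine le_trans ?_ (key (3 * K) (by omega))
  unfold theta
  refine gs_le _ _ subset_rfl fun p _ => mul_le_mul_right ?_ _
  calc (R : ℝ≥0∞) ^ (cc K p.1 + cc K p.2) * (if SB K p then (1 : ℝ≥0∞) else (R : ℝ≥0∞)⁻¹)
      ≤ (R : ℝ≥0∞) ^ (cc K p.1 + cc K p.2) * 1 := by
        refine mul_le_mul_right ?_ _
        split_ifs
        · exact le_rfl
        · exact ENNReal.inv_le_one.2 (by exact_mod_cast hR)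
    _ = _ := mul_one _

end Pool.Agent.XM
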