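import Pool.Agent.XM.Stmts

/-!
# Column-convex polygons (MP_f6626d_co): THETA, a block size at the critical point
-/

set_option autoImplicit false

namespace Pool.Agent.XM.THETA

open Finset Pool.Agent.Lib27 Pool.Agent.OC
open scoped NNReal ENNReal

theorem exists_cube {r : ℝ≥0} (hr : r < 1) : ∃ ρ : ℝ≥0, 0 < ρ ∧ ρ < 1 ∧ r ≤ ρ ^ 3 := by
  refine ⟨(2 + r) / 3, by positivity, ?_, ?_⟩
  · rw [div_lt_one (by norm_num)]
    calc 2 + r < 2 + 1 := by gcongr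
      _ = 3 := by norm_num
  · have h0 : (0 : ℝ) ≤ r := r.2
    have h1 : (r : ℝ) ≤ (((2 + r) / 3 : ℝ≥0) : ℝ) ^ 3 := by
      push_cast
      nlinarith [mul_nonneg (sq_nonneg ((r : ℝ) - 1)) (show (0 : ℝ) ≤ r + 8 by linarith)]
    exact_mod_cast h1

variable {c : ℕ}

theorem dip_le_ext (l : Wd) : dip l ≤ ext l := by
  unfold dip ext
  refine Finset.sup_mono_fun fun p _ => ?_
  omega

theorem cc_pos_dip {K : ℕ} {w : Wd} (h : 0 < cc K w) : K ≤ dip w := by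
  unfold cc at h
  rw [Nat.div_pos_iff] at h
  omega

/-- sums over the loops by depth -/
theorem gs_loop_le {z L ρ : ℝ≥0∞}
    (hL : ∀ d, gs (wz z) {l | l ∈ Lp c ∧ d ≤ ext l} ≤ L * ρ ^ (3 * d)) (f : ℕ → ℝ≥0∞) :
    gs (fun l => wz z l * f (dip l)) (Lp c) ≤ ∑' i, L * ρ ^ (3 * i) * f i := by
  refine (gs_fiber _ (Lp c) dip).trans (ENNReal.tsum_le_tsum fun i => ?_)
  calc gs (fun l => wz z l * f (dip l)) {l | l ∈ Lp c ∧ dip l = i}
      ≤ gs (fun l => wz z l * f i) {l | l ∈ Lp c ∧ i ≤ ext l} := by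
        refine gs_le _ _ ?_ ?_
        · rintro l ⟨hl, rfl⟩
          exact ⟨hl, dip_le_ext l⟩
        · rintro l ⟨hl, rfl⟩
          exact le_rfl
    _ = gs (wz z) {l | l ∈ Lp c ∧ i ≤ ext l} * f i := gs_mul_right _ _ _
    _ ≤ _ := mul_le_mul_left (hL i) _

theorem cost_far {R ρ : ℝ≥0∞} {K : ℕ} (h1 : R * ρ ^ K ≤ 1) (hρ : ρ ≤ 1) {i : ℕ} (hi : K ≤ i) :
    R ^ ((i + 2 * K) / (3 * K)) * ρ ^ i ≤ 1 := by
  set n := (i + 2 * K) / (3 * K) with hn
  have h2 : 3 * K * n ≤ i + 2 * K := Nat.mul_div_le _ _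
  have h3 : K * n ≤ i := by
    have : 3 * K * n = 3 * (K * n) := by ring
    omega
  calc R ^ n * ρ ^ i ≤ R ^ n * ρ ^ (K * n) :=
        mul_le_mul_right (pow_le_pow_right_of_le_one' hρ h3) _
    _ = (R * ρ ^ K) ^ n := by rw [mul_pow, pow_mul]
    _ ≤ 1 := pow_le_one₀ bot_le h1

theorem cost_all {R ρ : ℝ≥0∞} {K : ℕ} (hR : 1 ≤ R) (h1 : R * ρ ^ K ≤ 1) (hρ : ρ ≤ 1) (i : ℕ) :
    R ^ ((i + 2 * K) / (3 * K)) * ρ ^ i ≤ R := by
  set n := (i + 2 * K) / (3 * K) with hn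
  have h2 : 3 * K * n ≤ i + 2 * K := Nat.mul_div_le _ _
  rcases Nat.eq_zero_or_pos n with h0 | h0
  · rw [h0, pow_zero, one_mul]
    exact (pow_le_one₀ bot_le hρ).trans hR
  · obtain ⟨m, hm⟩ : ∃ m, n = m + 1 := ⟨n - 1, by omega⟩
    have h3 : K * m ≤ i := by
      have : 3 * K * n = 3 * (K * m) + 3 * K := by rw [hm]; ring
      omega
    rw [hm]
    calc R ^ (m + 1) * ρ ^ i ≤ R ^ (m + 1) * ρ ^ (K * m) :=
          mul_le_mul_right (pow_le_pow_right_of_le_one' hρ h3) _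
      _ = R * (R * ρ ^ K) ^ m := by rw [mul_pow, pow_mul, pow_succ]; ring
      _ ≤ R * 1 := mul_le_mul_right (pow_le_one₀ bot_le h1) _
      _ = R := mul_one _

/-- deep loops -/
theorem far_sum {z L R ρ : ℝ≥0∞} {K : ℕ}
    (hL : ∀ d, gs (wz z) {l | l ∈ Lp c ∧ d ≤ ext l} ≤ L * ρ ^ (3 * d))
    (h1 : R * ρ ^ K ≤ 1) (hρ : ρ ≤ 1) :
    gs (fun l => wz z l * (fun d => if K ≤ d then R ^ ((d + 2 * K) / (3 * K)) else 0) (dip l))
      (Lp c) ≤ L * ρ ^ K * (1 - ρ)⁻¹ := by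
  refine (gs_loop_le hL (fun d => if K ≤ d then R ^ ((d + 2 * K) / (3 * K)) else 0)).trans ?_
  calc ∑' i, L * ρ ^ (3 * i) * (if K ≤ i then R ^ ((i + 2 * K) / (3 * K)) else 0)
      ≤ ∑' i : ℕ, L * ρ ^ K * ρ ^ i := by
        refine ENNReal.tsum_le_tsum fun i => ?_
        split_ifs with hi
        · calc L * ρ ^ (3 * i) * R ^ ((i + 2 * K) / (3 * K))
              = L * ρ ^ i * ρ ^ i * (R ^ ((i + 2 * K) / (3 * K)) * ρ ^ i) := by
                rw [show 3 * i = i + i + i by ring, pow_add, pow_add]; ring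
            _ ≤ L * ρ ^ i * ρ ^ i * 1 := mul_le_mul_right (cost_far h1 hρ hi) _
            _ = L * ρ ^ i * ρ ^ i := mul_one _
            _ ≤ L * ρ ^ K * ρ ^ i :=
                mul_le_mul_left (mul_le_mul_right (pow_le_pow_right_of_le_one' hρ hi) _) _
        · rw [mul_zero]
          exact bot_le
    _ = _ := by rw [ENNReal.tsum_mul_left, ENNReal.tsum_geometric]

/-- all loops -/
theorem all_sum {z L R ρ : ℝ≥0∞} {K : ℕ}
    (hL : ∀ d, gs (wz z) {l | l ∈ Lp c ∧ d ≤ ext l} ≤ L * ρ ^ (3 * d)) (hR : 1 ≤ R)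
    (h1 : R * ρ ^ K ≤ 1) (hρ : ρ ≤ 1) :
    gs (fun l => wz z l * (fun d => R ^ ((d + 2 * K) / (3 * K))) (dip l)) (Lp c) ≤
      L * R * (1 - ρ)⁻¹ := by
  refine (gs_loop_le hL (fun d => R ^ ((d + 2 * K) / (3 * K)))).trans ?_
  calc ∑' i, L * ρ ^ (3 * i) * R ^ ((i + 2 * K) / (3 * K))
      ≤ ∑' i : ℕ, L * R * ρ ^ i := by
        refine ENNReal.tsum_le_tsum fun i => ?_
        calc L * ρ ^ (3 * i) * R ^ ((i + 2 * K) / (3 * K))
              = L * ρ ^ i * ρ ^ i * (R ^ ((i + 2 * K) / (3 * K)) * ρ ^ i) := by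
                rw [show 3 * i = i + i + i by ring, pow_add, pow_add]; ring
            _ ≤ L * ρ ^ i * 1 * R :=
                mul_le_mul' (mul_le_mul_right (pow_le_one₀ bot_le hρ) _) (cost_all hR h1 hρ i)
            _ = L * R * ρ ^ i := by ring
    _ = _ := by rw [ENNReal.tsum_mul_left, ENNReal.tsum_geometric]

/-- the weight of a block is the sum of four parts -/
theorem theta_le (h3 : FPS_Stmt) (h4 : FPL_Stmt) {z L R ρ e : ℝ≥0∞} {K : ℕ}
    (hK : 0 < K) (hL : ∀ d, gs (wz z) {l | l ∈ Lp c ∧ d ≤ ext l} ≤ L * ρ ^ (3 * d))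
    (hL1 : 1 ≤ L) (h1 : R * ρ ^ K ≤ 1) (hρ : ρ ≤ 1) (hρ1 : L * ρ ^ K * (1 - ρ)⁻¹ ≤ 1)
    (hY : Y (c + 2) z (3 * K) ≤ 1) (he : gs (Wz z) (Nc (c + 2) K (2 * K) (3 * K)) ≤ e) :
    theta c z R K ≤ 2 * (L * ρ ^ K * (1 - ρ)⁻¹) * (2 * L) + 2 * (L * ρ ^ K) * L + L ^ 2 * e +
      L ^ 2 * R⁻¹ := by
  classical
  have hS : gs (wz z) (Lp c) ≤ L := by
    have h5 := hL 0
    rw [mul_zero, pow_zero, mul_one] at h5
    refine (gs_mono _ ?_).trans h5
    intro l hl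
    exact ⟨hl, Nat.zero_le _⟩
  set a : ℝ≥0∞ := L * ρ ^ K * (1 - ρ)⁻¹ with ha
  set f : ℕ → ℝ≥0∞ := fun d => if K ≤ d then R ^ ((d + 2 * K) / (3 * K)) else 0 with hf
  set g : ℕ → ℝ≥0∞ := fun d => R ^ ((d + 2 * K) / (3 * K)) with hg
  have hfs : gs (fun l => wz z l * f (dip l)) (Lp c) ≤ a := far_sum hL h1 hρ
  have hcc0 : ∀ w : Wd, dip w < K → cc K w = 0 := by
    intro w hw
    by_contra hc
    have := cc_pos_dip (Nat.pos_of_ne_zero hc)
    omega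
  have hgs : gs (fun l => wz z l * g (dip l)) (Lp c) ≤ 2 * L := by
    have h5 : gs (fun l => wz z l * g (dip l)) (Lp c) ≤
        gs (fun l => wz z l * f (dip l) + wz z l) (Lp c) := by
      refine gs_le _ _ subset_rfl fun l _ => ?_
      rcases le_or_gt K (dip l) with hd | hd
      · refine le_trans (le_of_eq ?_) le_self_add
        simp only [hf, hg]
        rw [if_pos hd]
      · refine le_trans (le_of_eq ?_) le_add_self
        have h6 : g (dip l) = 1 := by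
          have h7 : (dip l + 2 * K) / (3 * K) = 0 := hcc0 l hd
          simp only [hg]
          rw [h7, pow_zero]
        rw [h6, mul_one]
    rw [gs_add] at h5
    calc _ ≤ a + L := h5.trans (add_le_add hfs hS)
      _ ≤ L + L := add_le_add (hρ1.trans hL1) le_rfl
      _ = 2 * L := by ring
  -- the four parts
  set F : Wd × Wd → ℝ≥0∞ := fun p => Wz z p * (R ^ (cc K p.1 + cc K p.2) *
    (if SB K p then 1 else R⁻¹)) with hF
  have hR1 : ∀ p, (if SB K p then (1 : ℝ≥0∞) else R⁻¹) ≤ 1 ∨ R < 1 := by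
    intro p
    rcases le_or_gt 1 R with h | h
    · left
      split_ifs
      · exact le_rfl
      · exact ENNReal.inv_le_one.2 h
    · exact Or.inr h
  by_cases hR : 1 ≤ R
  swap
  · -- trivial case
    have hRi : 1 ≤ R⁻¹ := ENNReal.one_le_inv.2 (not_le.1 hR).le
    have h5 : theta c z R K ≤ gs (Wz z) (Fpp c (3 * K)) * R⁻¹ := by
      unfold theta
      rw [← gs_mul_right]
      refine gs_le _ _ subset_rfl fun p _ => mul_le_mul_right ?_ _
      calc R ^ (cc K p.1 + cc K p.2) * (if SB K p then (1 : ℝ≥0∞) else R⁻¹)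
          ≤ 1 * R⁻¹ := by
            refine mul_le_mul' (pow_le_one₀ bot_le (not_le.1 hR).le) ?_
            split_ifs
            · exact hRi
            · exact le_rfl
        _ = _ := one_mul _
    have h6 := h3 c z (3 * K) (fun _ => 1) (fun _ => 1)
    simp only [mul_one] at h6
    have h7 : gs (Wz z) (Fpp c (3 * K)) ≤ L ^ 2 := by
      refine h6.trans ?_
      calc _ ≤ L * L * 1 := mul_le_mul' (mul_le_mul' hS hS) hY
        _ = _ := by ring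
    exact (h5.trans (mul_le_mul_left h7 _)).trans le_add_self
  have hif : ∀ p, (if SB K p then (1 : ℝ≥0∞) else R⁻¹) ≤ 1 := by
    intro p
    split_ifs
    · exact le_rfl
    · exact ENNReal.inv_le_one.2 hR
  have p1 : gs F {p | p ∈ Fpp c (3 * K) ∧ K ≤ dip p.1} ≤ a * (2 * L) := by
    calc gs F {p | p ∈ Fpp c (3 * K) ∧ K ≤ dip p.1}
        ≤ gs (fun p => Wz z p * (f (dip p.1) * g (dip p.2))) (Fpp c (3 * K)) := by
          refine gs_le _ _ (fun p hp => hp.1) fun p hp => mul_le_mul_right ?_ _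
          calc R ^ (cc K p.1 + cc K p.2) * (if SB K p then (1 : ℝ≥0∞) else R⁻¹)
              ≤ R ^ (cc K p.1 + cc K p.2) * 1 := mul_le_mul_right (hif p) _
            _ = f (dip p.1) * g (dip p.2) := by
                simp only [hf, hg]
                rw [if_pos hp.2, mul_one, pow_add]
                rfl
      _ ≤ _ := h3 c z (3 * K) f g
      _ ≤ a * (2 * L) * 1 := mul_le_mul' (mul_le_mul' hfs hgs) hY
      _ = _ := mul_one _
  have p2 : gs F {p | p ∈ Fpp c (3 * K) ∧ K ≤ dip p.2} ≤ 2 * L * a := by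
    calc gs F {p | p ∈ Fpp c (3 * K) ∧ K ≤ dip p.2}
        ≤ gs (fun p => Wz z p * (g (dip p.1) * f (dip p.2))) (Fpp c (3 * K)) := by
          refine gs_le _ _ (fun p hp => hp.1) fun p hp => mul_le_mul_right ?_ _
          calc R ^ (cc K p.1 + cc K p.2) * (if SB K p then (1 : ℝ≥0∞) else R⁻¹)
              ≤ R ^ (cc K p.1 + cc K p.2) * 1 := mul_le_mul_right (hif p) _
            _ = g (dip p.1) * f (dip p.2) := by
                simp only [hf, hg]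
                rw [if_pos hp.2, mul_one, pow_add]
                rfl
      _ ≤ _ := h3 c z (3 * K) g f
      _ ≤ 2 * L * a * 1 := mul_le_mul' (mul_le_mul' hgs hfs) hY
      _ = _ := mul_one _
  have p3 : gs F {p | p ∈ Fpp c (3 * K) ∧ SB K p ∧ dip p.1 < K ∧ dip p.2 < K} ≤
      2 * (L * ρ ^ K) * L + L ^ 2 * e := by
    calc gs F {p | p ∈ Fpp c (3 * K) ∧ SB K p ∧ dip p.1 < K ∧ dip p.2 < K}
        ≤ gs (Wz z) {p | p ∈ Fpp c (3 * K) ∧ SB K p} := by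
          refine gs_le _ _ (fun p hp => ⟨hp.1, hp.2.1⟩) fun p hp => ?_
          simp only [hF]
          rw [if_pos hp.2.1, hcc0 _ hp.2.2.1, hcc0 _ hp.2.2.2, add_zero, pow_zero, one_mul, mul_one]
      _ ≤ _ := h4 c z K hK
      _ ≤ 2 * (L * ρ ^ (3 * K)) * L * 1 + L ^ 2 * e := by
          refine add_le_add ?_ ?_
          · refine mul_le_mul' (mul_le_mul' (mul_le_mul_right (hL K) _) hS) hY
          · exact mul_le_mul' (pow_le_pow_left₀ bot_le hS 2) he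
      _ ≤ _ := by
          rw [mul_one]
          refine add_le_add (mul_le_mul_left (mul_le_mul_right (mul_le_mul_right
            (pow_le_pow_right_of_le_one' hρ (by omega)) _) _) _) le_rfl
  have p4 : gs F {p | p ∈ Fpp c (3 * K) ∧ ¬ SB K p ∧ dip p.1 < K ∧ dip p.2 < K} ≤
      L ^ 2 * R⁻¹ := by
    have h6 := h3 c z (3 * K) (fun _ => 1) (fun _ => 1)
    simp only [mul_one] at h6
    calc gs F {p | p ∈ Fpp c (3 * K) ∧ ¬ SB K p ∧ dip p.1 < K ∧ dip p.2 < K}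
        ≤ gs (fun p => Wz z p * R⁻¹) (Fpp c (3 * K)) := by
          refine gs_le _ _ (fun p hp => hp.1) fun p hp => ?_
          simp only [hF]
          rw [if_neg hp.2.1, hcc0 _ hp.2.2.1, hcc0 _ hp.2.2.2, add_zero, pow_zero, one_mul]
      _ = gs (Wz z) (Fpp c (3 * K)) * R⁻¹ := gs_mul_right _ _ _
      _ ≤ L * L * 1 * R⁻¹ := mul_le_mul_left (h6.trans (mul_le_mul' (mul_le_mul' hS hS) hY)) _
      _ = _ := by ring
  have hcov : (Fpp c (3 * K) : Set (Wd × Wd)) ⊆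
      ({p | p ∈ Fpp c (3 * K) ∧ K ≤ dip p.1} ∪ {p | p ∈ Fpp c (3 * K) ∧ K ≤ dip p.2}) ∪
      ({p | p ∈ Fpp c (3 * K) ∧ SB K p ∧ dip p.1 < K ∧ dip p.2 < K} ∪
        {p | p ∈ Fpp c (3 * K) ∧ ¬ SB K p ∧ dip p.1 < K ∧ dip p.2 < K}) := by
    intro p hp
    rcases le_or_gt K (dip p.1) with h5 | h5
    · exact Or.inl (Or.inl ⟨hp, h5⟩)
    rcases le_or_gt K (dip p.2) with h6 | h6
    · exact Or.inl (Or.inr ⟨hp, h6⟩)
    by_cases h7 : SB K p
    · exact Or.inr (Or.inl ⟨hp, h7, h5, h6⟩)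
    · exact Or.inr (Or.inr ⟨hp, h7, h5, h6⟩)
  have h5 : theta c z R K = gs F (Fpp c (3 * K)) := rfl
  rw [h5]
  refine ((gs_mono F hcov).trans (gs_union _ _ _)).trans ?_
  refine (add_le_add ((gs_union _ _ _).trans (add_le_add p1 p2))
    ((gs_union _ _ _).trans (add_le_add p3 p4))).trans (le_of_eq ?_)
  ring

end Pool.Agent.XM.THETA

namespace Pool.Agent.XM

open Finset Pool.Agent.Lib27 Pool.Agent.OC
open scoped NNReal ENNReal

theorem theta_thm (h1 : LOOP_Stmt) (h2 : SCALE_Stmt) (h3 : FPS_Stmt) (h4 : FPL_Stmt)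
    (h5 : ZST_Stmt) : THETA_Stmt := by
  intro c
  obtain ⟨eta, s, C, heta, hs, -, hloop⟩ := h1 c
  have hr : s⁻¹ < 1 := inv_lt_one_of_one_lt₀ hs
  obtain ⟨ρ, hρ0, hρ1, hrρ⟩ := THETA.exists_cube hr
  set L : ℝ≥0 := max 1 C with hLdef
  have hL1 : 1 ≤ L := le_max_left _ _
  have hL0 : 0 < L := zero_lt_one.trans_le hL1
  have hR1 : (1 : ℝ≥0) ≤ 8 * L ^ 2 := by
    calc (1 : ℝ≥0) ≤ 8 * 1 ^ 2 := by norm_num
      _ ≤ 8 * L ^ 2 := by gcongr
  refine ⟨8 * L ^ 2, hR1, ?_⟩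
  intro K0
  have hsub : 0 < 1 - ρ := tsub_pos_of_lt hρ1
  obtain ⟨n, hn⟩ := NNReal.exists_pow_lt_of_lt_one (a := (1 - ρ) / (32 * L ^ 2)) (by positivity) hρ1
  obtain ⟨K, hK, -, hNc⟩ := h2 c (8 * L ^ 2)⁻¹ (max (max 1 K0) n) (by positivity)
  have hKa : 1 ≤ K := (le_max_left _ _).trans ((le_max_left _ _).trans hK)
  have hKb : K0 ≤ K := (le_max_right _ _).trans ((le_max_left _ _).trans hK)
  have hKc : n ≤ K := (le_max_right _ _).trans hK
  refine ⟨K, hKa, hKb, ?_⟩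
  have hz : zst c ≤ (1 + eta) * zst c := by
    calc zst c = 1 * zst c := (one_mul _).symm
      _ ≤ (1 + eta) * zst c := mul_le_mul_left le_self_add _
  have hloop' : ∀ d, gs (wz (zst c)) {l | l ∈ Lp c ∧ d ≤ ext l} ≤
      (L : ℝ≥0∞) * (ρ : ℝ≥0∞) ^ (3 * d) := by
    intro d
    refine (hloop (zst c) hz d).trans ?_
    have e1 : (C : ℝ≥0∞) ≤ L := by exact_mod_cast le_max_right _ _
    have e2 : ((s⁻¹ : ℝ≥0) : ℝ≥0∞) ^ d ≤ (ρ : ℝ≥0∞) ^ (3 * d) := by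
      rw [pow_mul]
      refine pow_le_pow_left₀ bot_le ?_ d
      exact_mod_cast hrρ
    exact mul_le_mul' e1 e2
  have hρK : ρ ^ K ≤ (1 - ρ) / (32 * L ^ 2) :=
    (pow_le_pow_right_of_le_one' hρ1.le hKc).trans hn.le
  -- the numbers
  have n1 : 8 * L ^ 2 * ρ ^ K ≤ 1 := by
    calc 8 * L ^ 2 * ρ ^ K ≤ 8 * L ^ 2 * (1 / (32 * L ^ 2)) := by
          gcongr
          refine hρK.trans ?_
          gcongr
          exact tsub_le_self
      _ = 1 / 4 := by field_simp; norm_num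
      _ ≤ 1 := by
          rw [← NNReal.coe_le_coe]
          push_cast
          norm_num
  have n2 : L * ρ ^ K * (1 - ρ)⁻¹ ≤ (32 * L)⁻¹ := by
    calc L * ρ ^ K * (1 - ρ)⁻¹ ≤ L * ((1 - ρ) / (32 * L ^ 2)) * (1 - ρ)⁻¹ := by gcongr
      _ = (32 * L)⁻¹ := by field_simp
  have n3 : L * ρ ^ K ≤ (32 * L)⁻¹ := by
    refine le_trans ?_ n2
    calc L * ρ ^ K = L * ρ ^ K * 1 := (mul_one _).symm
      _ ≤ L * ρ ^ K * (1 - ρ)⁻¹ := by
          gcongr
          rw [one_le_inv₀ hsub]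
          exact tsub_le_self
  have hsube : (1 - (ρ : ℝ≥0∞))⁻¹ = (((1 - ρ)⁻¹ : ℝ≥0) : ℝ≥0∞) := by
    rw [ENNReal.coe_inv hsub.ne', ENNReal.coe_sub, ENNReal.coe_one]
  have n4 : (32 * L)⁻¹ ≤ 1 := by
    rw [inv_le_one₀ (by positivity)]
    calc (1 : ℝ≥0) ≤ 32 * 1 := by norm_num
      _ ≤ 32 * L := by gcongr
  have key := THETA.theta_le h3 h4 (z := zst c) (L := L) (R := ((8 * L ^ 2 : ℝ≥0) : ℝ≥0∞))
    (ρ := ρ) (e := (((8 * L ^ 2)⁻¹ : ℝ≥0) : ℝ≥0∞)) (K := K) hKa hloop' (by exact_mod_cast hL1)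
    (by exact_mod_cast n1) (by exact_mod_cast hρ1.le)
    (by rw [hsube]; exact_mod_cast n2.trans n4) ((h5 c).2.2.1 _) hNc
  refine key.trans ?_
  rw [hsube, ← ENNReal.coe_inv (by positivity : (8 * L ^ 2 : ℝ≥0) ≠ 0)]
  have fin : 2 * (L * ρ ^ K * (1 - ρ)⁻¹) * (2 * L) + 2 * (L * ρ ^ K) * L +
      L ^ 2 * (8 * L ^ 2)⁻¹ + L ^ 2 * (8 * L ^ 2)⁻¹ ≤ (2⁻¹ : ℝ≥0) := by
    calc 2 * (L * ρ ^ K * (1 - ρ)⁻¹) * (2 * L) + 2 * (L * ρ ^ K) * L +
          L ^ 2 * (8 * L ^ 2)⁻¹ + L ^ 2 * (8 * L ^ 2)⁻¹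
        ≤ 2 * (32 * L)⁻¹ * (2 * L) + 2 * (32 * L)⁻¹ * L + L ^ 2 * (8 * L ^ 2)⁻¹ +
          L ^ 2 * (8 * L ^ 2)⁻¹ := by gcongr
      _ = 7 / 16 := by
          field_simp
          norm_num
      _ ≤ 2⁻¹ := by
          rw [← NNReal.coe_le_coe]
          push_cast
          norm_num
  have fin' := ENNReal.coe_le_coe.2 fin
  push_cast at fin' ⊢
  exact fin'

end Pool.Agent.XM
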