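import Pool.Agent.XM.Stmts
import Pool.Agent.XM.Lib
import Pool.Agent.XM.Evn

/-!
# YEL: lower bound for the even pairs of bridges at the critical point
-/

set_option autoImplicit false

namespace Pool.Agent.XM

open Finset Pool.Agent.Lib27 Pool.Agent.OC
open scoped NNReal ENNReal

namespace YEL

theorem m1 (c : ℕ) : (([0], [0, 1]) : Wd × Wd) ∈ Brp (c + 2) 1 := (EVN.mem_irr c).1

theorem m0 (c : ℕ) : (([0], [0]) : Wd × Wd) ∈ Brp (c + 2) 1 := by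
  refine ⟨(m1 c).1, (m1 c).1, ?_⟩
  intro h
  have h1 : cr [0] h ≤ 1 := le_trans List.countP_le_length (by simp [stp])
  show cr [0] h + cr [0] h ≤ c + 2
  omega

/-- a pair of width one in front of a pair -/
theorem step (c : ℕ) (z : ℝ≥0∞) (m : ℕ) (e : Wd × Wd) (he : e ∈ Brp (c + 2) 1)
    (S : Set (Wd × Wd)) (hS : S ⊆ Brp (c + 2) m) (hpar : ∀ p ∈ S, Even (lg e + lg p)) :
    Wz z e * gs (Wz z) S ≤ Ye (c + 2) z (m + 1) := by
  rw [← gs_mul_left]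
  unfold Ye
  refine gs_le_of_inj _ _ (fun p => cat e p) (fun p hp => ⟨?_, ?_⟩) ?_ (fun p _ => ?_)
  · have := cat_mem he (hS hp)
    rwa [Nat.add_comm 1 m] at this
  · rw [lg_cat]
    exact hpar p hp
  · intro p hp q hq h
    exact (cat_inj he (hS hp) he (hS hq) h).2
  · rw [Wz_cat]

theorem main (c : ℕ) (z : ℝ≥0∞) (hz : z ≤ 1) (m : ℕ) :
    z ^ 3 * Y (c + 2) z m ≤ 2 * Ye (c + 2) z (m + 1) := by
  have hsplit : Y (c + 2) z m ≤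
      gs (Wz z) (Bre (c + 2) m) + gs (Wz z) {p | p ∈ Brp (c + 2) m ∧ ¬ Even (lg p)} := by
    unfold Y
    refine le_trans (gs_mono _ ?_) (gs_union _ _ _)
    intro p hp
    by_cases h : Even (lg p)
    · exact Or.inl ⟨hp, h⟩
    · exact Or.inr ⟨hp, h⟩
  have h0 := step c z m ([0], [0]) (m0 c) (Bre (c + 2) m) (fun p hp => hp.1)
    (fun p hp => by
      have h2 : lg (([0], [0]) : Wd × Wd) = 2 := rfl
      rw [h2]
      exact even_two.add hp.2)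
  have h1 := step c z m ([0], [0, 1]) (m1 c) {p | p ∈ Brp (c + 2) m ∧ ¬ Even (lg p)}
    (fun p hp => hp.1)
    (fun p hp => by
      have h2 : lg (([0], [0, 1]) : Wd × Wd) = 3 := rfl
      rw [h2]
      have h3 : Odd (lg p) := Nat.not_even_iff_odd.1 hp.2
      exact Odd.add_odd (by decide) h3)
  have w0 : Wz z (([0], [0]) : Wd × Wd) = z ^ 2 := rfl
  have w1 : Wz z (([0], [0, 1]) : Wd × Wd) = z ^ 3 := rfl
  rw [w0] at h0
  rw [w1] at h1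
  have h32 : z ^ 3 ≤ z ^ 2 := pow_le_pow_right_of_le_one' hz (by norm_num)
  calc z ^ 3 * Y (c + 2) z m
      ≤ z ^ 3 * (gs (Wz z) (Bre (c + 2) m) +
          gs (Wz z) {p | p ∈ Brp (c + 2) m ∧ ¬ Even (lg p)}) := by gcongr
    _ = z ^ 3 * gs (Wz z) (Bre (c + 2) m) +
          z ^ 3 * gs (Wz z) {p | p ∈ Brp (c + 2) m ∧ ¬ Even (lg p)} := mul_add _ _ _
    _ ≤ z ^ 2 * gs (Wz z) (Bre (c + 2) m) +
          z ^ 3 * gs (Wz z) {p | p ∈ Brp (c + 2) m ∧ ¬ Even (lg p)} := by gcongr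
    _ ≤ Ye (c + 2) z (m + 1) + Ye (c + 2) z (m + 1) := add_le_add h0 h1
    _ = 2 * Ye (c + 2) z (m + 1) := (two_mul _).symm

end YEL

theorem yel_thm (h1 : LOW_Stmt) (h2 : ZST_Stmt) : YEL_Stmt := by
  intro c
  obtain ⟨c0, hc0, hlow⟩ := h1 c
  obtain ⟨hz8, hz2, -, -⟩ := h2 c
  set z := zst c with hzdef
  have hz1 : z ≤ 1 := hz2.trans (by rw [ENNReal.inv_le_one]; norm_num)
  refine ⟨min 1 (c0 / 1024), lt_min one_pos (div_pos hc0 (by norm_num)), fun m => ?_⟩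
  cases m with
  | zero =>
    have hmem : (([], []) : Wd × Wd) ∈ Bre (c + 2) 0 := ⟨Brp_zero.2 rfl, ⟨0, rfl⟩⟩
    have h3 := le_gs (Wz z) hmem
    have h4 : Wz z (([], []) : Wd × Wd) = 1 := by simp [Wz, lg]
    rw [h4] at h3
    refine le_trans ?_ h3
    exact_mod_cast min_le_left _ _
  | succ m =>
    have h3 := YEL.main c z hz1 m
    have h4 : ((8 : ℝ≥0∞)⁻¹) ^ 3 * (c0 : ℝ≥0∞) ≤ 2 * Ye (c + 2) z (m + 1) :=
      le_trans (mul_le_mul' (pow_le_pow_left' hz8 3) (hlow m)) h3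
    have h5 : (2 : ℝ≥0∞)⁻¹ * (((8 : ℝ≥0∞)⁻¹) ^ 3 * (c0 : ℝ≥0∞)) ≤ Ye (c + 2) z (m + 1) := by
      calc (2 : ℝ≥0∞)⁻¹ * (((8 : ℝ≥0∞)⁻¹) ^ 3 * (c0 : ℝ≥0∞))
          ≤ (2 : ℝ≥0∞)⁻¹ * (2 * Ye (c + 2) z (m + 1)) := by gcongr
        _ = Ye (c + 2) z (m + 1) := by
          rw [← mul_assoc, ENNReal.inv_mul_cancel (by norm_num) (by norm_num), one_mul]
    refine le_trans ?_ h5
    have h6 : ((min 1 (c0 / 1024) : ℝ≥0) : ℝ≥0∞) ≤ ((c0 / 1024 : ℝ≥0) : ℝ≥0∞) := by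
      exact_mod_cast min_le_right _ _
    refine le_trans h6 (le_of_eq ?_)
    have h7 : (c0 / 1024 : ℝ≥0) = 2⁻¹ * ((8⁻¹) ^ 3 * c0) := by
      ext
      push_cast
      ring
    have e8 : ((8⁻¹ : ℝ≥0) : ℝ≥0∞) = (8 : ℝ≥0∞)⁻¹ := by
      rw [ENNReal.coe_inv (by norm_num)]
      rfl
    have e2 : ((2⁻¹ : ℝ≥0) : ℝ≥0∞) = (2 : ℝ≥0∞)⁻¹ := by
      rw [ENNReal.coe_inv (by norm_num)]
      rfl
    rw [h7, ENNReal.coe_mul, ENNReal.coe_mul, ENNReal.coe_pow, e8, e2]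

end Pool.Agent.XM
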