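import Pool.Agent.XM.Stmts
import Pool.Agent.OC.Hold

/-!
# Column-convex polygons (MP_f6626d_co), module YEPS

The generating functions of the pairs of bridges beyond the critical point, by Hölder's inequality.
-/

set_option autoImplicit false

namespace Pool.Agent.XM

open Finset Pool.Agent.Lib27 Pool.Agent.OC
open scoped NNReal ENNReal

namespace YEPS

theorem Y_hold (c : ℕ) {x y : ℝ≥0∞} {t : ℝ}
    (ht0 : 0 < t) (ht1 : t < 1) (hx : x ≠ ∞) (hy : y ≠ ∞) (m : ℕ) :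
    Y c (x ^ (1 - t) * y ^ t) m ≤ Y c x m ^ (1 - t) * Y c y m ^ t := by
  have e : ∀ z : ℝ≥0∞, Y c z m = ∑' a : (Brp c m : Set (Wd × Wd)), 1 * z ^ (lg a.1) := by
    intro z
    unfold Y gs Wz
    congr 1
    funext a
    ring
  rw [e, e, e]
  exact OC.hold_thm _ (fun _ => 1) (fun a : (Brp c m : Set (Wd × Wd)) => lg a.1) x y t ht0 ht1 hx hy

theorem Y_mono (c : ℕ) {z z' : ℝ≥0∞} (h : z ≤ z') (m : ℕ) : Y c z m ≤ Y c z' m := by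
  unfold Y gs Wz
  exact ENNReal.tsum_le_tsum fun a => pow_le_pow_left' h _

theorem exists_t {A C : ℝ≥0} (hA : 1 < A) (hC : 1 ≤ C) :
    ∃ t : ℝ, 0 < t ∧ t < 1 ∧ C ^ t ≤ A := by
  have hC0' : (C : ℝ) ≠ 0 := by exact_mod_cast (zero_lt_one.trans_le hC).ne'
  have hc : Continuous fun t : ℝ => (C : ℝ) ^ t := Real.continuous_const_rpow hC0'
  have h0 : (fun t : ℝ => (C : ℝ) ^ t) 0 < (A : ℝ) := by
    simp only [Real.rpow_zero]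
    exact_mod_cast hA
  have h1 : ∀ᶠ t in nhds (0 : ℝ), (C : ℝ) ^ t < (A : ℝ) :=
    hc.continuousAt.eventually_lt continuousAt_const h0
  obtain ⟨ε, hε, h2⟩ := Metric.eventually_nhds_iff.1 h1
  refine ⟨min (ε / 2) (1 / 2), by positivity, (min_le_right _ _).trans_lt (by norm_num), ?_⟩
  have h3 := h2 (y := min (ε / 2) (1 / 2)) (by
    rw [Real.dist_eq, sub_zero, abs_of_pos (by positivity)]
    exact (min_le_left _ _).trans_lt (by linarith))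
  rw [← NNReal.coe_le_coe]
  push_cast
  exact h3.le

/-- The intermediate point lies beyond the critical point. -/
theorem le_mid {z : ℝ≥0∞} {t : ℝ} (ht0 : 0 < t) (hz0 : z ≠ 0) (hz2 : z ≤ 2⁻¹) :
    ((((3 / 2 : ℝ≥0) ^ t : ℝ≥0)) : ℝ≥0∞) * z ≤ z ^ (1 - t) * (3 / 4 : ℝ≥0∞) ^ t := by
  have hzt : z ≠ ∞ := (hz2.trans_lt (by simp)).ne
  have e1 : z = z ^ (1 - t) * z ^ t := by
    rw [← ENNReal.rpow_add _ _ hz0 hzt, sub_add_cancel, ENNReal.rpow_one]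
  have e2 : (((3 / 2 : ℝ≥0) ^ t : ℝ≥0) : ℝ≥0∞) = ((3 / 2 : ℝ≥0) : ℝ≥0∞) ^ t :=
    ENNReal.coe_rpow_of_nonneg _ ht0.le
  have e3 : ((3 / 2 : ℝ≥0) : ℝ≥0∞) * z ≤ 3 / 4 := by
    have e4 : ((3 / 2 : ℝ≥0) : ℝ≥0∞) * 2⁻¹ = 3 / 4 := by
      rw [ENNReal.coe_div (by norm_num)]
      push_cast
      rw [div_eq_mul_inv, div_eq_mul_inv, mul_assoc, ← ENNReal.mul_inv (by simp) (by simp)]
      norm_num
    rw [← e4]
    exact mul_le_mul' le_rfl hz2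
  calc (((3 / 2 : ℝ≥0) ^ t : ℝ≥0) : ℝ≥0∞) * z
      = ((3 / 2 : ℝ≥0) : ℝ≥0∞) ^ t * (z ^ (1 - t) * z ^ t) := by rw [← e1, e2]
    _ = z ^ (1 - t) * (((3 / 2 : ℝ≥0) : ℝ≥0∞) * z) ^ t := by
        rw [ENNReal.mul_rpow_of_nonneg _ _ ht0.le]
        ring
    _ ≤ z ^ (1 - t) * (3 / 4 : ℝ≥0∞) ^ t :=
        mul_le_mul' le_rfl (ENNReal.rpow_le_rpow e3 ht0.le)

end YEPS

open YEPS

theorem yeps_thm (h1 : YFIN_Stmt) (h2 : ZST_Stmt) : YEPS_Stmt := by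
  intro c A hA
  obtain ⟨C, hC1, hC, -⟩ := h1 c
  obtain ⟨hz8, hz2, hY1, -⟩ := h2 c
  obtain ⟨t, ht0, ht1, ht⟩ := exists_t hA hC1
  have hA1 : (1 : ℝ≥0) < (3 / 2 : ℝ≥0) ^ t := NNReal.one_lt_rpow (by
    rw [← NNReal.coe_lt_coe]; push_cast; norm_num) ht0
  have hz0 : zst c ≠ 0 := by
    intro h
    rw [h] at hz8
    simp at hz8
  have hzt : zst c ≠ ∞ := (hz2.trans_lt (by simp)).ne
  have h34 : (3 / 4 : ℝ≥0∞) ≠ ∞ := ENNReal.div_ne_top (by simp) (by simp)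
  refine ⟨(3 / 2 : ℝ≥0) ^ t - 1, C ^ t, tsub_pos_of_lt hA1, ?_⟩
  intro z hz m
  have e1 : (1 + (((3 / 2 : ℝ≥0) ^ t - 1 : ℝ≥0) : ℝ≥0∞)) = (((3 / 2 : ℝ≥0) ^ t : ℝ≥0) : ℝ≥0∞) := by
    have e2 : (1 : ℝ≥0) + ((3 / 2 : ℝ≥0) ^ t - 1) = (3 / 2 : ℝ≥0) ^ t :=
      add_tsub_cancel_of_le hA1.le
    calc (1 + (((3 / 2 : ℝ≥0) ^ t - 1 : ℝ≥0) : ℝ≥0∞))
        = (((1 : ℝ≥0) + ((3 / 2 : ℝ≥0) ^ t - 1) : ℝ≥0) : ℝ≥0∞) := by
          rw [ENNReal.coe_add, ENNReal.coe_one]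
      _ = _ := by rw [e2]
  rw [e1] at hz
  calc Y (c + 2) z m ≤ Y (c + 2) (zst c ^ (1 - t) * (3 / 4 : ℝ≥0∞) ^ t) m :=
        YEPS.Y_mono (c + 2) (hz.trans (le_mid ht0 hz0 hz2)) m
    _ ≤ Y (c + 2) (zst c) m ^ (1 - t) * Y (c + 2) (3 / 4) m ^ t :=
        Y_hold (c + 2) ht0 ht1 hzt h34 m
    _ ≤ 1 ^ (1 - t) * ((C : ℝ≥0∞) ^ (m + 1)) ^ t :=
        mul_le_mul' (ENNReal.rpow_le_rpow (hY1 m) (by linarith)) (ENNReal.rpow_le_rpow (hC m) ht0.le)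
    _ = ((C ^ t : ℝ≥0) : ℝ≥0∞) * ((C ^ t : ℝ≥0) : ℝ≥0∞) ^ m := by
        rw [ENNReal.one_rpow, one_mul, ← ENNReal.coe_pow, ← ENNReal.coe_pow,
          ← ENNReal.coe_rpow_of_nonneg _ ht0.le, ← ENNReal.coe_mul, ENNReal.coe_inj,
          ← pow_succ', ← NNReal.rpow_natCast, ← NNReal.rpow_natCast, ← NNReal.rpow_mul,
          ← NNReal.rpow_mul, mul_comm]
    _ ≤ ((C ^ t : ℝ≥0) : ℝ≥0∞) * (A : ℝ≥0∞) ^ m :=
        mul_le_mul' le_rfl (pow_le_pow_left' (by exact_mod_cast ht) m)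

end Pool.Agent.XM
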