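import Pool.Agent.XM.Stmts
import Pool.Agent.XM.Lib

/-!
# Column-convex polygons (MP_f6626d_co): YFIN, finiteness beyond the critical point
-/

set_option autoImplicit false

namespace Pool.Agent.XM.YFIN

open Finset Pool.Agent.Lib27 Pool.Agent.OC
open scoped NNReal ENNReal

theorem hz_Brp {c m : ℕ} {p : Wd × Wd} (hp : p ∈ Brp c m) : hz p.1 + hz p.2 ≤ c * m := by
  have h : ∀ w : Wd, w ∈ Bri m → hz w = ∑ h ∈ Ico (0 : ℤ) m, cr w h := by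
    intro w hw
    refine hz_eq_sum w _ fun h hh => ?_
    rw [mem_Ico]
    by_contra hcon
    have h1 : h < 0 ∨ (m : ℤ) ≤ h := by omega
    rw [cr_Bri_out hw h1] at hh
    exact lt_irrefl _ hh
  rw [h _ hp.1, h _ hp.2.1, ← sum_add_distrib]
  refine (sum_le_card_nsmul _ _ c fun h _ => hp.2.2 h).trans (le_of_eq ?_)
  rw [Int.card_Ico, sub_zero, Int.toNat_natCast, smul_eq_mul, mul_comm]

theorem hz_Lp {c d : ℕ} {l : Wd} (hl : l ∈ Lp c) (hd : ext l ≤ d) : hz l ≤ c * (2 * d) := by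
  have h : hz l = ∑ h ∈ Ico (-(d : ℤ)) d, cr l h := by
    refine hz_eq_sum l _ fun h hh => ?_
    rw [mem_Ico]
    by_contra hcon
    have h0 : (ext l : ℤ) ≤ d := by exact_mod_cast hd
    have h1 : (ext l : ℤ) ≤ h ∨ h < -(ext l : ℤ) := by omega
    rw [cr_out h1] at hh
    exact lt_irrefl _ hh
  rw [h]
  refine (sum_le_card_nsmul _ _ c fun h _ => hl.2.2 h).trans (le_of_eq ?_)
  rw [Int.card_Ico, smul_eq_mul, mul_comm]
  congr 1
  omega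

end Pool.Agent.XM.YFIN

namespace Pool.Agent.XM

open Finset Pool.Agent.Lib27 Pool.Agent.OC
open scoped NNReal ENNReal

/-- Module YFIN. -/
theorem yfin_thm (h1 : RUN_Stmt) : YFIN_Stmt := by
  obtain ⟨C0, hC0, hrun⟩ := h1
  intro c
  have hC0' : (1 : ℝ≥0∞) ≤ (C0 : ℝ≥0∞) := by exact_mod_cast hC0
  have hpow : ∀ m : ℕ, (((C0 ^ (2 * (c + 2)) : ℝ≥0) : ℝ≥0∞)) ^ (m + 1) =
      (C0 : ℝ≥0∞) ^ (2 * (c + 2) * (m + 1)) := by
    intro m
    rw [ENNReal.coe_pow, ← pow_mul]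
  refine ⟨C0 ^ (2 * (c + 2)), one_le_pow₀ hC0, fun m => ?_, fun d => ?_⟩
  · have h2 : Y (c + 2) (3 / 4) m ≤
        gs (fun p : Wd × Wd => wz (3 / 4) p.1 * wz (3 / 4) p.2)
          ({w : Wd | SAWs w ∧ hz w ≤ (c + 2) * m} ×ˢ {w : Wd | SAWs w ∧ hz w ≤ (c + 2) * m}) := by
      unfold Y
      refine gs_le _ _ (fun p hp => ?_) fun p _ => ?_
      · have h3 := YFIN.hz_Brp hp
        exact ⟨⟨hp.1.1, by omega⟩, ⟨hp.2.1.1, by omega⟩⟩
      · unfold Wz wz lg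
        rw [pow_add]
    rw [gs_prod] at h2
    rw [hpow]
    calc Y (c + 2) (3 / 4) m ≤ _ := h2
      _ ≤ (C0 : ℝ≥0∞) ^ ((c + 2) * m + 1) * (C0 : ℝ≥0∞) ^ ((c + 2) * m + 1) :=
          mul_le_mul' (hrun _) (hrun _)
      _ = (C0 : ℝ≥0∞) ^ (((c + 2) * m + 1) + ((c + 2) * m + 1)) := (pow_add _ _ _).symm
      _ ≤ (C0 : ℝ≥0∞) ^ (2 * (c + 2) * (m + 1)) := by
          refine pow_le_pow_right₀ hC0' ?_
          nlinarith
  · have h2 : gs (wz (3 / 4)) {l | l ∈ Lp c ∧ ext l ≤ d} ≤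
        gs (wz (3 / 4)) {w : Wd | SAWs w ∧ hz w ≤ c * (2 * d)} :=
      gs_mono _ fun l hl => ⟨hl.1.1, YFIN.hz_Lp hl.1 hl.2⟩
    rw [hpow]
    refine h2.trans ((hrun _).trans (pow_le_pow_right₀ hC0' ?_))
    nlinarith

end Pool.Agent.XM
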