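import Pool.Agent.XM.Stmts

/-!
# Column-convex polygons (MP_f6626d_co): ZST, the critical point
-/

set_option autoImplicit false

namespace Pool.Agent.XM

open Finset Pool.Agent.Lib27 Pool.Agent.OC
open scoped NNReal ENNReal

namespace ZST

theorem Y_mono {c : ℕ} {z z' : ℝ≥0∞} (h : z ≤ z') (m : ℕ) : Y c z m ≤ Y c z' m :=
  gs_le _ _ subset_rfl fun _ _ => pow_le_pow_left' h _

/-- words of a given length -/
theorem gs_len (z : ℝ≥0∞) (i : ℕ) : gs (wz z) {w : Wd | w.length = i} ≤ (4 * z) ^ i := by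
  classical
  refine gs_const_le fun F hF => ?_
  have hF' : ∀ w ∈ F, w.length = i := fun w hw => hF hw
  have h1 : F ⊆ (Finset.univ : Finset (Fin i → Fin 4)).image List.ofFn := by
    intro w hw
    have hl := hF' w hw
    subst hl
    exact Finset.mem_image.2 ⟨w.get, Finset.mem_univ _, List.ofFn_get w⟩
  have h2 : F.card ≤ 4 ^ i := by
    refine (Finset.card_le_card h1).trans (Finset.card_image_le.trans ?_)
    simp
  have h3 : ((F.card : ℕ) : ℝ≥0∞) ≤ 4 ^ i := by exact_mod_cast h2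
  calc ∑ w ∈ F, wz z w = ∑ w ∈ F, z ^ i := Finset.sum_congr rfl fun w hw => by
        unfold wz
        rw [hF' w hw]
    _ = F.card * z ^ i := by rw [Finset.sum_const, nsmul_eq_mul]
    _ ≤ (4 ^ i : ℝ≥0∞) * z ^ i := mul_le_mul_left h3 _
    _ = (4 * z) ^ i := (mul_pow _ _ _).symm

theorem four_eighth : (4 : ℝ≥0∞) * 8⁻¹ = 2⁻¹ := by
  rw [show (8 : ℝ≥0∞) = 4 * 2 by norm_num, ENNReal.mul_inv (Or.inl (by norm_num))
    (Or.inl (by norm_num)), ← mul_assoc, ENNReal.mul_inv_cancel (by norm_num) (by norm_num),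
    one_mul]

theorem gs_ne {S : Set Wd} (h : [] ∉ S) : gs (wz 8⁻¹) S ≤ 1 := by
  refine (gs_fiber (wz 8⁻¹) S List.length).trans ?_
  rw [tsum_eq_zero_add' ENNReal.summable]
  have h0 : gs (wz 8⁻¹) {a | a ∈ S ∧ a.length = 0} = 0 := by
    have : {a : Wd | a ∈ S ∧ a.length = 0} = ∅ := by
      ext a
      simp only [Set.mem_ofPred_eq, Set.mem_empty_iff_false, iff_false, not_and]
      intro ha hl
      rw [List.length_eq_zero_iff] at hl
      subst hl
      exact h ha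
    rw [this, gs_empty]
  rw [h0, zero_add]
  calc ∑' n : ℕ, gs (wz 8⁻¹) {a | a ∈ S ∧ a.length = n + 1}
      ≤ ∑' n : ℕ, (2⁻¹ : ℝ≥0∞) ^ (n + 1) := by
        refine ENNReal.tsum_le_tsum fun n => ?_
        rw [← four_eighth]
        exact (gs_mono _ fun a ha => ha.2).trans (gs_len _ _)
    _ = 2⁻¹ * (1 - 2⁻¹)⁻¹ := ENNReal.tsum_geometric_add_one _
    _ = 1 := by
        rw [ENNReal.one_sub_inv_two, inv_inv, ENNReal.inv_mul_cancel (by norm_num) (by norm_num)]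
    _ ≤ 1 := le_rfl

theorem Bri_zero {w : Wd} (hw : w ∈ Bri 0) : w = [] := by
  rcases w with _ | ⟨a, s⟩
  · rfl
  · exfalso
    have h1 : ∃ p, p ∈ (vt 0 (a :: s)).tail := by
      rw [vt_cons, List.tail_cons]
      rcases s with _ | ⟨b, s⟩
      · exact ⟨_, by rw [vt_nil]; exact List.mem_singleton_self _⟩
      · exact ⟨_, by rw [vt_cons]; exact List.mem_cons_self⟩
    obtain ⟨p, hp⟩ := h1
    have h2 := hw.2.2 p hp
    have h3 : p.1 ≤ 0 := by exact_mod_cast h2.2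
    exact absurd h2.1 (not_lt.2 h3)

theorem Y_eighth (c m : ℕ) : Y c 8⁻¹ m ≤ 1 := by
  rcases Nat.eq_zero_or_pos m with rfl | hm
  · unfold Y
    have h1 : gs (Wz 8⁻¹) (Brp c 0) ≤ gs (Wz 8⁻¹) {(([] : Wd), ([] : Wd))} := by
      refine gs_mono _ ?_
      rintro ⟨u, v⟩ ⟨hu, hv, -⟩
      have e1 : u = [] := Bri_zero hu
      have e2 : v = [] := Bri_zero hv
      rw [e1, e2]
      exact Set.mem_singleton _
    refine h1.trans ?_
    rw [gs_singleton]
    unfold Wz lg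
    simp
  · have hne : ([] : Wd) ∉ Bri m := by
      intro h
      have h1 : (0 : ℤ) = m := h.2.1
      omega
    have h1 : Y c 8⁻¹ m ≤ gs (wz 8⁻¹) (Bri m) * gs (wz 8⁻¹) (Bri m) := by
      rw [← gs_prod]
      unfold Y
      refine gs_le _ _ (fun p hp => ⟨hp.1, hp.2.1⟩) fun p _ => ?_
      unfold Wz lg wz
      rw [pow_add]
    calc Y c 8⁻¹ m ≤ _ := h1
      _ ≤ 1 * 1 := mul_le_mul' (gs_ne hne) (gs_ne hne)
      _ = 1 := one_mul 1

/-- the three words -/
def E3 : Finset Wd := {[0], [0, 1], [0, 3]}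

theorem E3_mem {w : Wd} (hw : w ∈ E3) : w ∈ Bri 1 ∧ ∀ h : ℤ, cr w h ≤ 1 := by
  unfold E3 at hw
  simp only [mem_insert, mem_singleton] at hw
  have hcr : ∀ (h : ℤ), (if (0 : ℤ) = h then 1 else 0) ≤ 1 := by
    intro h
    split_ifs <;> omega
  rcases hw with rfl | rfl | rfl
  · refine ⟨⟨?_, ?_, ?_⟩, fun h => ?_⟩
    · show (vt 0 ([0] : Wd)).Nodup
      decide
    · decide
    · decide
    · unfold cr stp stp xs
      simp only [List.countP_cons, List.countP_nil]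
      split_ifs <;> omega
  · refine ⟨⟨?_, ?_, ?_⟩, fun h => ?_⟩
    · show (vt 0 ([0, 1] : Wd)).Nodup
      decide
    · decide
    · decide
    · unfold cr stp stp stp xs
      simp only [List.countP_cons, List.countP_nil]
      have : ((1 : Fin 4) = 0) = False := by decide
      have : ((1 : Fin 4) = 2) = False := by decide
      simp [*]
  · refine ⟨⟨?_, ?_, ?_⟩, fun h => ?_⟩
    · show (vt 0 ([0, 3] : Wd)).Nodup
      decide
    · decide
    · decide
    · unfold cr stp stp stp xs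
      simp only [List.countP_cons, List.countP_nil]
      have : ((3 : Fin 4) = 0) = False := by decide
      have : ((3 : Fin 4) = 2) = False := by decide
      simp [*]

theorem le_Y (c : ℕ) (z : ℝ≥0∞) : (z + (z ^ 2 + z ^ 2)) ^ 2 ≤ Y (c + 2) z 1 := by
  have h1 := sum_le_gs (Wz z) (S := Brp (c + 2) 1) (E3 ×ˢ E3) (by
    rintro ⟨u, v⟩ huv
    have huv' := Finset.mem_product.1 (Finset.mem_coe.1 huv)
    obtain ⟨hu, hv⟩ := huv'
    have hu' := E3_mem hu
    have hv' := E3_mem hv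
    refine ⟨hu'.1, hv'.1, fun h => ?_⟩
    have e1 : cr u h ≤ 1 := hu'.2 h
    have e2 : cr v h ≤ 1 := hv'.2 h
    show cr u h + cr v h ≤ c + 2
    omega)
  refine le_trans (le_of_eq ?_) h1
  have h2 : ∑ w ∈ E3, wz z w = z + (z ^ 2 + z ^ 2) := by
    unfold E3
    rw [Finset.sum_insert (by decide), Finset.sum_insert (by decide), Finset.sum_singleton]
    unfold wz
    simp
  rw [Finset.sum_product]
  have h3 : ∀ u ∈ E3, ∑ v ∈ E3, Wz z (u, v) = wz z u * (z + (z ^ 2 + z ^ 2)) := by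
    intro u _
    rw [← h2, Finset.mul_sum]
    refine Finset.sum_congr rfl fun v _ => ?_
    unfold Wz lg wz
    rw [pow_add]
  rw [Finset.sum_congr rfl h3, ← Finset.sum_mul, h2, pow_two]

theorem le_half {c : ℕ} {z : ℝ≥0∞} (hz : Y (c + 2) z 1 ≤ 1) : z ≤ 2⁻¹ := by
  by_contra hcon
  push Not at hcon
  have h1 : (1 : ℝ≥0∞) < z + (z ^ 2 + z ^ 2) := by
    have h2 : (2⁻¹ : ℝ≥0∞) ^ 2 ≤ z ^ 2 := pow_le_pow_left' hcon.le 2
    have h3 : (1 : ℝ≥0∞) = 2⁻¹ + ((2⁻¹) ^ 2 + (2⁻¹) ^ 2) := by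
      have h4 : ((2⁻¹ : ℝ≥0∞)) ^ 2 + (2⁻¹) ^ 2 = 2⁻¹ := by
        rw [pow_two, ← add_mul, ENNReal.inv_two_add_inv_two, one_mul]
      rw [h4, ENNReal.inv_two_add_inv_two]
    rw [h3]
    exact ENNReal.add_lt_add_of_lt_of_le (by simp) hcon (add_le_add h2 h2)
  have h5 : (1 : ℝ≥0∞) < (z + (z ^ 2 + z ^ 2)) ^ 2 := one_lt_pow₀ h1 (by norm_num)
  exact absurd ((le_Y c z).trans hz) (not_le.2 h5)

theorem Y_eq (c : ℕ) (z : ℝ≥0∞) (m : ℕ) :
    Y c z m = ∑' p : Brp c m, 1 * z ^ lg (p : Wd × Wd) := by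
  unfold Y gs Wz
  refine tsum_congr fun p => ?_
  rw [one_mul]

end ZST

open ZST in
/-- ZST : elementary properties of the critical point -/
theorem zst_thm : ZST_Stmt := by
  intro c
  have hle : (8 : ℝ≥0∞)⁻¹ ≤ zst c := le_sSup fun m => Y_eighth (c + 2) m
  have hpos : zst c ≠ 0 := by
    intro h
    rw [h] at hle
    have h8 : (8 : ℝ≥0∞)⁻¹ ≠ 0 := by simp
    exact h8 (le_antisymm hle bot_le)
  refine ⟨hle, ?_, ?_, ?_⟩
  · exact sSup_le fun z hz => le_half (hz 1)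
  · intro m
    rw [Y_eq]
    refine MG.tsum_pow_left _ _ hpos ?_
    intro y hy
    rw [← Y_eq (c + 2) y m]
    obtain ⟨z, hz, hyz⟩ := lt_sSup_iff.1 hy
    exact (Y_mono hyz.le m).trans (hz m)
  · intro z hz
    by_contra hcon
    push Not at hcon
    exact absurd (le_sSup (show z ∈ {z | ∀ m, Y (c + 2) z m ≤ 1} from hcon)) (not_le.2 hz)

end Pool.Agent.XM
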