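import Pool.Agent.XM.Run
import Pool.Agent.XM.Yfin
import Pool.Agent.XM.Zst
import Pool.Agent.XM.InsA
import Pool.Agent.XM.InsB
import Pool.Agent.XM.InsC
import Pool.Agent.XM.InsP
import Pool.Agent.XM.Mono0
import Pool.Agent.XM.MonoB
import Pool.Agent.XM.Arc1
import Pool.Agent.XM.Arc
import Pool.Agent.XM.LoopX
import Pool.Agent.XM.LoopB
import Pool.Agent.XM.Nsm
import Pool.Agent.XM.Low
import Pool.Agent.XM.Yeps
import Pool.Agent.XM.RenL
import Pool.Agent.XM.RenU
import Pool.Agent.XM.Mean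
import Pool.Agent.XM.Scale
import Pool.Agent.XM.Blk
import Pool.Agent.XM.Mir
import Pool.Agent.XM.Irr
import Pool.Agent.XM.Fps
import Pool.Agent.XM.Fpl
import Pool.Agent.XM.Theta
import Pool.Agent.XM.ThFin
import Pool.Agent.XM.Gap
import Pool.Agent.XM.Ncb
import Pool.Agent.XM.Evr
import Pool.Agent.XM.Evn
import Pool.Agent.XM.Nbd
import Pool.Agent.XM.Nbb
import Pool.Agent.XM.Ere
import Pool.Agent.XM.Yel
import Pool.Agent.XM.Eone
import Pool.Agent.XM.PolyR
import Pool.Agent.XM.PolyC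
import Pool.Agent.XM.BeyB

/-!
# Column-convex polygons (MP_f6626d_co): the mass gap, assembly
-/

set_option autoImplicit false

namespace Pool.Agent.XM

theorem MIR_all : MIR_Stmt := mir_thm

theorem MIR2_all : MIR2_Stmt := mir2_thm

theorem ZST_all : ZST_Stmt := zst_thm

theorem YFIN_all : YFIN_Stmt := yfin_thm run_thm

theorem MONO_all : MONO_Stmt :=
  mono_thm (mono0_thm (insp_thm insa_thm insb_thm insc_thm) ZST_all) YFIN_all ZST_all

theorem LOOP_all : LOOP_Stmt :=
  loop_thm loopx_thm (arc_thm arc1_thm) MONO_all run_thm ZST_all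

theorem LOW_all : LOW_Stmt := low_thm LOOP_all nsm_thm YFIN_all ZST_all

theorem YEPS_all : YEPS_Stmt := yeps_thm YFIN_all ZST_all

theorem MEAN_all : MEAN_Stmt := mean_thm renl_thm renu_thm LOW_all ZST_all

theorem FPS_all : FPS_Stmt := fps_thm MIR2_all

theorem FPL_all : FPL_Stmt := fpl_thm MIR2_all

theorem SCALE_all : SCALE_Stmt := scale_thm renu_thm MEAN_all ZST_all

theorem GAP_all : GAP_Stmt :=
  gap_thm (theta_thm LOOP_all SCALE_all FPS_all FPL_all ZST_all)
    (thfin_thm LOOP_all FPS_all YFIN_all ZST_all) (irr_thm blk_thm MIR_all) ZST_all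

theorem NBB_all : NBB_Stmt :=
  nbb_thm nbd_thm (ncb_thm renu_thm GAP_all YEPS_all)
    (evn_thm evr_thm GAP_all MEAN_all ZST_all) YEPS_all

theorem EONE_all : EONE_Stmt := eone_thm ere_thm (yel_thm LOW_all ZST_all) ZST_all

/-- the mass gap of the pairs without even cut -/
theorem BEY_all : BEY_Stmt :=
  bey_thm NBB_all EONE_all (capc_thm arc1_thm) (polyc_thm polyr_thm) LOOP_all ZST_all


theorem bey_main : BEY_Stmt := BEY_all

end Pool.Agent.XM
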