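import Pool.Agent.XM.Stmts
import Pool.Agent.OC.Bey

/-!
# Column-convex polygons (MP_f6626d_co): BEY, sums beyond the critical point
-/

set_option autoImplicit false

namespace Pool.Agent.XM

open Finset Pool.Agent.Lib27 Pool.Agent.OC
open scoped NNReal ENNReal

namespace BEY

theorem wz_mono {z z' : ℝ≥0∞} (h : z ≤ z') (w : Wd) : wz z w ≤ wz z' w :=
  pow_le_pow_left' h _

theorem eir_sub (c l : ℕ) : Eir c l ⊆ Nb 0 c 0 l l := fun _ hp => hp.1

theorem noe_card (c : ℕ) : (NoE c 1).card ≤ 16 := by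
  classical
  have h : NoE c 1 ⊆ words 2 := by
    intro w hw
    unfold NoE at hw
    have h1 := (mem_filter.1 hw).1
    unfold W at h1
    exact (mem_filter.1 h1).1
  refine (card_le_card h).trans ?_
  rw [card_words]
  norm_num

end BEY

open Pool.Agent.OC.BEY in
open BEY in
/-- BEY : sums beyond the critical point -/
theorem bey_thm (h1 : NBB_Stmt) (h2 : EONE_Stmt) (h3 : CAPC_Stmt) (h4 : POLYC_Stmt)
    (h5 : LOOP_Stmt) (h6 : ZST_Stmt) : BEY_Stmt := by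
  intro c
  obtain ⟨hz8, hz2, -, -⟩ := h6 c
  refine ⟨hz8, hz2, h2 c, ?_⟩
  obtain ⟨el, s, M, hel, hs, hL, -⟩ := h5 c
  obtain ⟨r, hr, hn⟩ := h1 c
  have hs0 : 0 < s := lt_trans one_pos hs
  have hsi : s⁻¹ < 1 := inv_lt_one_of_one_lt₀ hs
  obtain ⟨A, hA1, hAr⟩ := exists_A hsi
  obtain ⟨en, Cn, hen, hn⟩ := hn A hA1
  obtain ⟨t, ht1, ht⟩ := exists_t hr hAr
  set eta := min el en with heta
  have hle1 : eta ≤ el := min_le_left _ _
  have hle2 : eta ≤ en := min_le_right _ _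
  -- the constants
  set G : ℝ≥0∞ := (1 - (t : ℝ≥0∞))⁻¹ with hG
  have hGt : G ≠ ∞ := geo_ne_top ht1
  set K1 : ℝ≥0∞ := Cn * G with hK1
  set K2 : ℝ≥0∞ := 2 * (Cn * (M * M) * G) with hK2
  set K3 : ℝ≥0∞ := 16 * (1 + (eta : ℝ≥0∞)) ^ 2 with hK3
  have hK1t : K1 ≠ ∞ := ENNReal.mul_ne_top ENNReal.coe_ne_top hGt
  have hK2t : K2 ≠ ∞ := ENNReal.mul_ne_top (by simp) (ENNReal.mul_ne_top (ENNReal.mul_ne_top
    ENNReal.coe_ne_top (ENNReal.mul_ne_top ENNReal.coe_ne_top ENNReal.coe_ne_top)) hGt)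
  have hK3t : K3 ≠ ∞ := ENNReal.mul_ne_top (by simp) (ENNReal.pow_ne_top
    (ENNReal.add_ne_top.2 ⟨by simp, ENNReal.coe_ne_top⟩))
  have hKt : K1 + K2 + K3 ≠ ∞ := ENNReal.add_ne_top.2 ⟨ENNReal.add_ne_top.2 ⟨hK1t, hK2t⟩, hK3t⟩
  refine ⟨eta, (K1 + K2 + K3).toNNReal, lt_min hel hen, ?_⟩
  rw [ENNReal.coe_toNNReal hKt]
  have hz1 := mono_z hle1 (zst c)
  have hz3 := mono_z hle2 (zst c)
  have hzu : (1 + (eta : ℝ≥0∞)) * zst c ≤ 1 + (eta : ℝ≥0∞) := by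
    calc (1 + (eta : ℝ≥0∞)) * zst c ≤ (1 + (eta : ℝ≥0∞)) * 1 := by
          refine mul_le_mul' le_rfl (hz2.trans ?_)
          rw [ENNReal.inv_le_one]
          norm_num
      _ = _ := mul_one _
  set z : ℝ≥0∞ := (1 + (eta : ℝ≥0∞)) * zst c with hz
  have hhn : ∀ (b : ℤ) (e d H : ℕ), gs (Wz z) (Nb b (c + 2) e (H - d) H) ≤
      Cn * (A : ℝ≥0∞) ^ (e + d) * (r : ℝ≥0∞) ^ (H - (e + d)) := fun b e d H =>
    hn z hz3 b e d H
  have hht : ∀ k H : ℕ, (A : ℝ≥0∞) ^ k * (r : ℝ≥0∞) ^ (H - k) ≤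
      (s : ℝ≥0∞) ^ k * (t : ℝ≥0∞) ^ H := by
    intro k H
    have h8 := ht k H
    have h9 : A ^ k * r ^ (H - k) ≤ s ^ k * t ^ H := by
      have e1 : A ^ k = s ^ k * (A * s⁻¹) ^ k := by
        rw [mul_pow, inv_pow]
        field_simp
      calc A ^ k * r ^ (H - k) = s ^ k * ((A * s⁻¹) ^ k * r ^ (H - k)) := by rw [e1]; ring
        _ ≤ s ^ k * (t ^ k * t ^ H) := mul_le_mul' le_rfl h8
        _ ≤ s ^ k * (1 * t ^ H) :=
            mul_le_mul' le_rfl (mul_le_mul' (pow_le_one' ht1.le k) le_rfl)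
        _ = s ^ k * t ^ H := by rw [one_mul]
    exact_mod_cast h9
  have hgeo : ∑' n : ℕ, (t : ℝ≥0∞) ^ n = G := ENNReal.tsum_geometric _
  have hLz : gs (fun l => wz z l * (s : ℝ≥0∞) ^ ext l) (Lp c) ≤ M := by
    refine le_trans (gs_le _ _ subset_rfl fun l _ => ?_) hL
    exact mul_le_mul' (wz_mono hz1 l) le_rfl
  have h0 : ∀ H : ℕ, gs (Wz z) (Nb 0 (c + 2) 0 H H) ≤ Cn * (t : ℝ≥0∞) ^ H := by
    intro H
    have h9 := hhn 0 0 0 H
    have h10 := hht 0 H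
    simp only [add_zero, Nat.sub_zero, pow_zero, one_mul, mul_one] at h9 h10
    exact h9.trans (mul_le_mul' le_rfl h10)
  refine ⟨?_, ?_, ?_⟩
  · have h8 : ∑' l : ℕ, we (c + 2) z l ≤ K1 := by
      calc ∑' l : ℕ, we (c + 2) z l ≤ ∑' l : ℕ, (Cn : ℝ≥0∞) * (t : ℝ≥0∞) ^ l :=
            ENNReal.tsum_le_tsum fun l => (gs_mono _ (eir_sub (c + 2) l)).trans (h0 l)
        _ = K1 := by rw [ENNReal.tsum_mul_left, hgeo]
    exact h8.trans (le_add_right (le_add_right le_rfl))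
  · refine (h3 c z).trans ?_
    have h8 : ∑' H : ℕ, gs (Wz z) (Nb 0 (c + 2) 0 H H) ≤ K1 := by
      calc ∑' H : ℕ, gs (Wz z) (Nb 0 (c + 2) 0 H H) ≤ ∑' H : ℕ, (Cn : ℝ≥0∞) * (t : ℝ≥0∞) ^ H :=
            ENNReal.tsum_le_tsum fun H => h0 H
        _ = K1 := by rw [ENNReal.tsum_mul_left, hgeo]
    exact h8.trans (le_add_right (le_add_right le_rfl))
  · intro n hn1
    rcases Nat.lt_or_ge n 2 with hn2 | hn2
    · obtain rfl : n = 1 := by omega
      have h8 : ((NoE (c + 2) 1).card : ℝ≥0∞) ≤ 16 := by exact_mod_cast noe_card (c + 2)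
      calc ((NoE (c + 2) 1).card : ℝ≥0∞) * z ^ (2 * 1) ≤ 16 * (1 + (eta : ℝ≥0∞)) ^ 2 :=
            mul_le_mul' h8 (pow_le_pow_left' hzu _)
        _ ≤ (K1 + K2 + K3) * (1 : ℕ) := by
            rw [Nat.cast_one, mul_one]
            exact le_add_self
    · refine (h4 c z n hn2).trans ?_
      have h8 : ∀ H : ℕ, gs (fun q : Wd × Wd => wz z q.1 * wz z q.2 *
          gs (Wz z) (Nb (ep 0 q.1).2 (c + 2) (ext q.1) (H - ext q.2) H)) (Lp c ×ˢ Lp c) ≤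
          Cn * (M * M) * (t : ℝ≥0∞) ^ H := by
        intro H
        calc gs (fun q : Wd × Wd => wz z q.1 * wz z q.2 *
              gs (Wz z) (Nb (ep 0 q.1).2 (c + 2) (ext q.1) (H - ext q.2) H)) (Lp c ×ˢ Lp c) ≤
              gs (fun q : Wd × Wd => (Cn * (t : ℝ≥0∞) ^ H) *
                ((wz z q.1 * (s : ℝ≥0∞) ^ ext q.1) * (wz z q.2 * (s : ℝ≥0∞) ^ ext q.2)))
                (Lp c ×ˢ Lp c) := by
              refine gs_le _ _ subset_rfl fun q _ => ?_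
              calc wz z q.1 * wz z q.2 *
                    gs (Wz z) (Nb (ep 0 q.1).2 (c + 2) (ext q.1) (H - ext q.2) H) ≤
                    wz z q.1 * wz z q.2 * (Cn * (A : ℝ≥0∞) ^ (ext q.1 + ext q.2) *
                      (r : ℝ≥0∞) ^ (H - (ext q.1 + ext q.2))) :=
                    mul_le_mul' le_rfl (hhn _ _ _ _)
                _ = wz z q.1 * wz z q.2 * (Cn * ((A : ℝ≥0∞) ^ (ext q.1 + ext q.2) *
                      (r : ℝ≥0∞) ^ (H - (ext q.1 + ext q.2)))) := by ring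
                _ ≤ wz z q.1 * wz z q.2 * (Cn * ((s : ℝ≥0∞) ^ (ext q.1 + ext q.2) *
                      (t : ℝ≥0∞) ^ H)) :=
                    mul_le_mul' le_rfl (mul_le_mul' le_rfl (hht _ _))
                _ = _ := by
                    rw [pow_add]
                    ring
          _ = (Cn * (t : ℝ≥0∞) ^ H) * (gs (fun l => wz z l * (s : ℝ≥0∞) ^ ext l) (Lp c) *
                gs (fun l => wz z l * (s : ℝ≥0∞) ^ ext l) (Lp c)) := by
              rw [gs_mul_left, gs_prod (fun l => wz z l * (s : ℝ≥0∞) ^ ext l)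
                (fun l => wz z l * (s : ℝ≥0∞) ^ ext l)]
          _ ≤ (Cn * (t : ℝ≥0∞) ^ H) * (M * M) := mul_le_mul' le_rfl (mul_le_mul' hLz hLz)
          _ = _ := by ring
      calc ((2 * n : ℕ) : ℝ≥0∞) * ∑' H : ℕ, gs (fun q : Wd × Wd => wz z q.1 * wz z q.2 *
            gs (Wz z) (Nb (ep 0 q.1).2 (c + 2) (ext q.1) (H - ext q.2) H)) (Lp c ×ˢ Lp c) ≤
            ((2 * n : ℕ) : ℝ≥0∞) * ∑' H : ℕ, Cn * (M * M) * (t : ℝ≥0∞) ^ H :=
            mul_le_mul' le_rfl (ENNReal.tsum_le_tsum fun H => h8 H)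
        _ = K2 * n := by
            rw [ENNReal.tsum_mul_left, hgeo, hK2]
            push_cast
            ring
        _ ≤ (K1 + K2 + K3) * n :=
            mul_le_mul' (le_add_right le_add_self) le_rfl

end Pool.Agent.XM
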