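import Pool.Agent.OC.Gs
import Pool.Agent.Lib_helper74.MG.Walks

/-!
# Column-convex polygons (MP_f6626d_co): definitions of the mass gap part

Words are lists over `Fin 4` (East, North, West, South); `dv` (step), `ep`, `vs`, `vt`, `rv` (reversed
path), `SAWs` (self-avoiding), `W n` (closed self-avoiding words of length `2n`) are those of
`Lib_helper27`. A vertex `p` is in the column `p.1`. The line `h` is the vertical line between the
columns `h` and `h + 1`.
-/

set_option autoImplicit false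

namespace Pool.Agent.XM

open Finset Pool.Agent.Lib27 Pool.Agent.OC
open scoped ENNReal

/-- words -/
abbrev Wd : Type := List (Fin 4)

/-! ### crossings of vertical lines -/

/-- the steps of a word together with their starting points -/
def stp : ℤ × ℤ → Wd → List ((ℤ × ℤ) × Fin 4)
  | _, [] => []
  | p, s :: t => (p, s) :: stp (p + dv s) t

/-- the step `q.2` from the vertex `q.1` crosses the line `h` (between the columns `h`, `h + 1`) -/
def xs (h : ℤ) (q : (ℤ × ℤ) × Fin 4) : Bool :=
  decide ((q.2 = 0 ∧ q.1.1 = h) ∨ (q.2 = 2 ∧ q.1.1 = h + 1))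

/-- number of crossings of the line `h` by the word `w` -/
def cr (w : Wd) (h : ℤ) : ℕ := (stp 0 w).countP (xs h)

/-- sum of the heights (second coordinates) of the crossings of the line `h` -/
def crh (w : Wd) (h : ℤ) : ℤ := (((stp 0 w).filter (xs h)).map (fun q => q.1.2)).sum

/-- number of horizontal steps -/
def hz (w : Wd) : ℕ := w.countP (fun s => decide (s = 0 ∨ s = 2))

/-- largest distance of a vertex from the column `0` -/
def ext (w : Wd) : ℕ := (vt 0 w).toFinset.sup (fun p => p.1.natAbs)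

/-- reflection `(x, y) ↦ (-x, y)` on words -/
def rx (w : Wd) : Wd := w.map (fun s => 2 - s)

/-! ### pairs of bridges -/

/-- bridges of width `l`: from the column `0` to the column `l`, all vertices after the first in the
columns `1..l`. (For `l ≥ 1` the first step is East.) -/
def Bri (l : ℕ) : Set Wd :=
  {w | SAWs w ∧ (ep 0 w).1 = l ∧ ∀ p ∈ (vt 0 w).tail, 0 < p.1 ∧ p.1 ≤ l}

/-- pairs of bridges of width `l` with at most `c` crossings of every line. (The two words are not
required to be disjoint.) -/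
def Brp (c l : ℕ) : Set (Wd × Wd) :=
  {p | p.1 ∈ Bri l ∧ p.2 ∈ Bri l ∧ ∀ h : ℤ, cr p.1 h + cr p.2 h ≤ c}

/-- total length of a pair -/
def lg (p : Wd × Wd) : ℕ := p.1.length + p.2.length

/-- weight of a word -/
noncomputable def wz (z : ℝ≥0∞) (w : Wd) : ℝ≥0∞ := z ^ w.length

/-- weight of a pair -/
noncomputable def Wz (z : ℝ≥0∞) (p : Wd × Wd) : ℝ≥0∞ := z ^ lg p

/-- generating function of the pairs of bridges of width `m` -/
noncomputable def Y (c : ℕ) (z : ℝ≥0∞) (m : ℕ) : ℝ≥0∞ := gs (Wz z) (Brp c m)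

/-- the critical point of the class `c + 2` -/
noncomputable def zst (c : ℕ) : ℝ≥0∞ := sSup {z | ∀ m, Y (c + 2) z m ≤ 1}

/-- the line `h` is a cut of the pair `p` -/
def CC (p : Wd × Wd) (h : ℤ) : Prop := cr p.1 h = 1 ∧ cr p.2 h = 1

/-- the line `h` is a cut of the pair `p`, and the number of steps before this line plus `b` is even
(the sum of the heights of the two crossings plus `b` is even) -/
def PC (b : ℤ) (p : Wd × Wd) (h : ℤ) : Prop := CC p h ∧ Even (crh p.1 h + crh p.2 h + b)

/-- pairs of bridges of width `L` without cut `h`, `A < h < B` -/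
def Nc (c A B L : ℕ) : Set (Wd × Wd) :=
  {p | p ∈ Brp c L ∧ ∀ h : ℤ, (A : ℤ) < h → h < B → ¬ CC p h}

/-- pairs of bridges of width `L` without cut `h`, `A < h < B`, of parity `b` -/
def Nb (b : ℤ) (c A B L : ℕ) : Set (Wd × Wd) :=
  {p | p ∈ Brp c L ∧ ∀ h : ℤ, (A : ℤ) < h → h < B → ¬ PC b p h}

/-- irreducible pairs: no cut strictly between `0` and `l` -/
def Irr (c l : ℕ) : Set (Wd × Wd) := Nc c 0 l l

/-- irreducible pairs of even total length -/
def Irv (c l : ℕ) : Set (Wd × Wd) := {p | p ∈ Irr c l ∧ Even (lg p)}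

/-- pairs of bridges of even total length all of whose cuts are even -/
def Evp (c l : ℕ) : Set (Wd × Wd) :=
  {p | p ∈ Brp c l ∧ Even (lg p) ∧ ∀ h : ℤ, 0 < h → h < l → CC p h → PC 0 p h}

/-- pairs of bridges of even total length -/
def Bre (c l : ℕ) : Set (Wd × Wd) := {p | p ∈ Brp c l ∧ Even (lg p)}

/-- e-irreducible pairs: even total length, no even cut -/
def Eir (c l : ℕ) : Set (Wd × Wd) := {p | p ∈ Nb 0 c 0 l l ∧ Even (lg p)}

/-- generating functions -/
noncomputable def ww (c : ℕ) (z : ℝ≥0∞) (l : ℕ) : ℝ≥0∞ := gs (Wz z) (Irr c l)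

/-- even pairs of bridges -/
noncomputable def Ye (c : ℕ) (z : ℝ≥0∞) (l : ℕ) : ℝ≥0∞ := gs (Wz z) (Bre c l)

/-- e-irreducible pairs -/
noncomputable def we (c : ℕ) (z : ℝ≥0∞) (l : ℕ) : ℝ≥0∞ := gs (Wz z) (Eir c l)

/-! ### insertion of three columns -/

/-- the comb: East, East, `j` times (North, West, North, East), East, `2j` times South, East -/
def comb (j : ℕ) : Wd :=
  [0, 0] ++ (List.replicate j [1, 2, 1, 0]).flatten ++ [0] ++ List.replicate (2 * j) 3 ++ [0]

/-- every crossing of the line `h` is replaced by `seg y` (West: by the reversed path), `y` is its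
height -/
def ins (h : ℤ) (seg : ℤ → Wd) : ℤ × ℤ → Wd → Wd
  | _, [] => []
  | p, s :: t =>
    (if xs h (p, s) then (if s = 0 then seg p.2 else rv (seg p.2)) else [s]) ++
      ins h seg (p + dv s) t

/-- deletion of the three columns `h + 1, h + 2, h + 3` -/
def del (h : ℤ) : ℤ → Wd → Wd
  | _, [] => []
  | x, s :: t =>
    if h + 1 ≤ x ∧ h + 1 ≤ x + (dv s).1 ∧ (x ≤ h + 3 ∨ x + (dv s).1 ≤ h + 3) then
      del h (x + (dv s).1) t
    else s :: del h (x + (dv s).1) t

/-- the crossings of the line `h` -/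
def crs (h : ℤ) (w : Wd) : List ((ℤ × ℤ) × Fin 4) := (stp 0 w).filter (xs h)

/-! ### arcs and loops -/

/-- arcs of depth `d ≥ 1`: from the column `0` to the column `0`, all interior vertices in the
columns `1..d` -/
def Ar (c d : ℕ) : Set Wd :=
  {w | SAWs w ∧ (ep 0 w).1 = 0 ∧ (∀ p ∈ (vs 0 w).tail, 0 < p.1) ∧ (∀ h : ℤ, cr w h ≤ c) ∧ ext w = d}

/-- loops: self-avoiding words from the column `0` to the column `0` with at most `c` crossings of
every line -/
def Lp (c : ℕ) : Set Wd := {w | SAWs w ∧ (ep 0 w).1 = 0 ∧ ∀ h : ℤ, cr w h ≤ c}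

/-- vertical self-avoiding words -/
def Ve : Set Wd := {w | SAWs w ∧ hz w = 0}

/-! ### blocks -/

/-- first passage words: the end point is in the column `H`, all other vertices are in columns
`< H` -/
def Fp (H : ℕ) : Set Wd := {w | SAWs w ∧ (ep 0 w).1 = H ∧ ∀ p ∈ vs 0 w, p.1 < (H : ℤ)}

/-- at most `c + 2` crossings of the lines `h ≥ 0`, at most `c` crossings of the lines `h < 0` -/
def Tc (c : ℕ) (p : Wd × Wd) : Prop :=
  ∀ h : ℤ, cr p.1 h + cr p.2 h ≤ if h < 0 then c else c + 2

/-- pairs of first passage words -/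
def Fpp (c H : ℕ) : Set (Wd × Wd) := {p | p.1 ∈ Fp H ∧ p.2 ∈ Fp H ∧ Tc c p}

/-- depth: the word reaches the column `-dip w` -/
def dip (w : Wd) : ℕ := (vt 0 w).toFinset.sup (fun p => (-p.1).toNat)

/-- number of blocks which may be reached by a dip -/
def cc (K : ℕ) (w : Wd) : ℕ := (dip w + 2 * K) / (3 * K)

/-- no cut in the middle third of the blocks of the pair, except for the top `r` blocks -/
def Bad (c K k r : ℕ) : Set (Wd × Wd) :=
  {p | p ∈ Fpp c (k * (3 * K)) ∧
    ∀ j : ℕ, j + r < k → ∀ h : ℤ, ((j * (3 * K) + K : ℕ) : ℤ) ≤ h →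
      h < ((j * (3 * K) + 2 * K : ℕ) : ℤ) → ¬ CC p h}

/-- no cut in the middle third of a block -/
def SB (K : ℕ) (p : Wd × Wd) : Prop :=
  ∀ h : ℤ, (K : ℤ) ≤ h → h < ((2 * K : ℕ) : ℤ) → ¬ CC p h

open Classical in
/-- total weight of a block -/
noncomputable def theta (c : ℕ) (z R : ℝ≥0∞) (K : ℕ) : ℝ≥0∞ :=
  gs (fun p => Wz z p * (R ^ (cc K p.1 + cc K p.2) * (if SB K p then 1 else R⁻¹))) (Fpp c (3 * K))

/-! ### caps and polygons -/

/-- even cut of an arch or of a closed word: the line is crossed exactly twice, at heights whose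
difference is even -/
def ECut (w : Wd) (h : ℤ) : Prop := cr w h = 2 ∧ Even (crh w h)

/-- right caps: from the column `0` to the column `0` at an even distance, interior vertices in the
columns `≥ 1`, without even cut `h ≥ 1`, at most `c` crossings of every line -/
def Cap (c : ℕ) : Set Wd :=
  {w | SAWs w ∧ (ep 0 w).1 = 0 ∧ (∀ p ∈ (vs 0 w).tail, 0 < p.1) ∧ (vs 0 w).tail ≠ [] ∧
    Even (ep 0 w).2 ∧ (∀ h : ℤ, cr w h ≤ c) ∧ ∀ h : ℤ, 1 ≤ h → ¬ ECut w h}

open Classical in
/-- closed words of length `2n` with at most `c` crossings of every line, without even cut -/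
noncomputable def NoE (c n : ℕ) : Finset Wd :=
  (W n).filter (fun w => (∀ h : ℤ, cr w h ≤ c) ∧ ∀ h : ℤ, ¬ ECut w h)

end Pool.Agent.XM
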