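import Pool.Agent.XM.Stmts
import Pool.Agent.Lib_helper74.MG.Renew

/-!
# Column-convex polygons (MP_f6626d_co): the renewal equation at the critical point
-/

set_option autoImplicit false

namespace Pool.Agent.XM.MEAN

open Finset Pool.Agent.Lib27 Pool.Agent.OC
open scoped NNReal ENNReal

theorem Brp_zero (c : ℕ) : Brp c 0 = {(([], []) : Wd × Wd)} := by
  have key : ∀ w ∈ Bri 0, w = [] := by
    rintro w ⟨-, -, h3⟩
    cases w with
    | nil => rfl
    | cons d w =>
      exfalso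
      rw [vt_cons, List.tail_cons] at h3
      have h4 : ∃ q, q ∈ vt (0 + dv d) w := by
        cases w with
        | nil => exact ⟨_, by rw [vt_nil]; exact List.mem_singleton_self _⟩
        | cons e w => exact ⟨_, by rw [vt_cons]; exact List.mem_cons_self ..⟩
      obtain ⟨q, hq⟩ := h4
      have := h3 q hq
      simp only [Nat.cast_zero] at this
      omega
  have hnil : ([] : Wd) ∈ Bri 0 := by
    refine ⟨by simp [SAWs], by simp, ?_⟩
    intro p hp
    simp at hp
  ext ⟨u, v⟩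
  simp only [Set.mem_singleton_iff, Prod.mk.injEq]
  constructor
  · rintro ⟨h1, h2, -⟩
    exact ⟨key u h1, key v h2⟩
  · rintro ⟨rfl, rfl⟩
    refine ⟨hnil, hnil, fun h => ?_⟩
    simp [cr, stp]

theorem Y_zero (c : ℕ) (z : ℝ≥0∞) : Y c z 0 = 1 := by
  unfold Y
  rw [Brp_zero, gs_singleton]
  simp [Wz, lg]

theorem Y_succ (h1 : RENL_Stmt) (h2 : RENU_Stmt) (c : ℕ) (z : ℝ≥0∞) (H : ℕ) :
    Y (c + 2) z (H + 1) = ∑ j ∈ range (H + 1), ww (c + 2) z (j + 1) * Y (c + 2) z (H - j) := by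
  classical
  apply le_antisymm
  · have h1 := h2 c z 0 1 (H + 1) (by omega) (by omega)
    have h2 : Nc (c + 2) 0 1 (H + 1) = Brp (c + 2) (H + 1) := by
      ext p
      constructor
      · exact fun h => h.1
      · intro h
        refine ⟨h, fun k h3 h4 => ?_⟩
        push_cast at h3 h4
        omega
    rw [h2] at h1
    refine h1.trans ?_
    have h3 : (range (0 + 1) ×ˢ range (H + 1 + 1)).filter
        (fun i : ℕ × ℕ => 1 ≤ i.1 + i.2 ∧ i.1 + i.2 ≤ H + 1) =
        (range (H + 1)).map ⟨fun j => (0, j + 1), fun a b h => by simpa using h⟩ := by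
      ext ⟨a, b⟩
      simp only [mem_filter, mem_product, mem_range, mem_map, Function.Embedding.coeFn_mk,
        Prod.mk.injEq]
      constructor
      · rintro ⟨⟨h1, h2⟩, h3, h4⟩
        exact ⟨b - 1, by omega, by omega, by omega⟩
      · rintro ⟨j, hj, rfl, rfl⟩
        omega
    rw [h3, Finset.sum_map]
    refine Finset.sum_le_sum fun j hj => ?_
    simp only [Function.Embedding.coeFn_mk]
    rw [Y_zero, one_mul]
    have : H + 1 - (0 + (j + 1)) = H - j := by omega
    rw [this]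
  · have h1 := h1 c z 0 (H + 1)
      ((range (H + 1)).map ⟨fun j => (0, j + 1), fun a b h => by simpa using h⟩) (by
        rintro ⟨a, b⟩ hi
        simp only [mem_map, mem_range, Function.Embedding.coeFn_mk, Prod.mk.injEq] at hi
        obtain ⟨j, hj, rfl, rfl⟩ := hi
        simp only
        omega)
    refine le_trans ?_ h1
    rw [Finset.sum_map]
    refine Finset.sum_le_sum fun j hj => ?_
    simp only [Function.Embedding.coeFn_mk]
    rw [Y_zero, one_mul]
    have : H + 1 - (0 + (j + 1)) = H - j := by omega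
    rw [this]

theorem mean_le (h1 : RENL_Stmt) {c : ℕ} {z d : ℝ≥0∞}
    (hlow : ∀ m, d ≤ Y (c + 2) z m) (hup : ∀ m, Y (c + 2) z m ≤ 1) (K : ℕ) :
    d ^ 2 * ∑ l ∈ Finset.range (K + 1), (l : ℝ≥0∞) * ww (c + 2) z l ≤ 1 := by
  classical
  set s : Finset (ℕ × ℕ) := (Finset.range (K + 1) ×ˢ Finset.range (K + 1)).filter
    (fun i => K < i.1 + i.2) with hs
  have h2 := h1 c z K (2 * K) s (by
    intro i hi
    rw [hs, Finset.mem_filter, Finset.mem_product, Finset.mem_range, Finset.mem_range] at hi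
    omega)
  have h3 : d ^ 2 * ∑ i ∈ s, ww (c + 2) z i.2 ≤ 1 := by
    calc d ^ 2 * ∑ i ∈ s, ww (c + 2) z i.2 = ∑ i ∈ s, d * ww (c + 2) z i.2 * d := by
          rw [Finset.mul_sum]
          exact Finset.sum_congr rfl fun i _ => by ring
      _ ≤ ∑ i ∈ s, Y (c + 2) z i.1 * ww (c + 2) z i.2 *
            Y (c + 2) z (2 * K - (i.1 + i.2)) := by
          refine Finset.sum_le_sum fun i _ => ?_
          gcongr
          · exact hlow _
          · exact hlow _
      _ ≤ Y (c + 2) z (2 * K) := h2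
      _ ≤ 1 := hup _
  refine le_trans (le_of_eq ?_) h3
  congr 1
  rw [hs, Finset.sum_filter, Finset.sum_product_right]
  refine Finset.sum_congr rfl fun l hl => ?_
  rw [← Finset.sum_filter]
  show (l : ℝ≥0∞) * ww (c + 2) z l =
    ∑ _i ∈ (Finset.range (K + 1)).filter (fun i => K < i + l), ww (c + 2) z l
  rw [Finset.sum_const, MG.card_mean K l (by rw [Finset.mem_range] at hl; omega), nsmul_eq_mul]

end Pool.Agent.XM.MEAN

namespace Pool.Agent.XM

open Finset Pool.Agent.Lib27 Pool.Agent.OC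
open scoped NNReal ENNReal

theorem mean_thm (h1 : RENL_Stmt) (h2 : RENU_Stmt) (h3 : LOW_Stmt) (h4 : ZST_Stmt) :
    MEAN_Stmt := by
  intro c
  obtain ⟨c0, hc0, hlow⟩ := h3 c
  have hup : ∀ m, Y (c + 2) (zst c) m ≤ 1 := (h4 c).2.2.1
  refine ⟨(c0 ^ 2)⁻¹, ?_, ?_⟩
  · refine MG.renewal_one (fun m => Y (c + 2) (zst c) m)
      (fun j => ww (c + 2) (zst c) (j + 1)) (MEAN.Y_zero _ _)
      (fun H => MEAN.Y_succ h1 h2 c _ H) (c := (c0 : ℝ≥0∞)) ?_ hlow hup
    exact_mod_cast hc0.ne'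
  · have hM : (((c0 ^ 2)⁻¹ : ℝ≥0) : ℝ≥0∞) = ((c0 : ℝ≥0∞) ^ 2)⁻¹ := by
      rw [ENNReal.coe_inv (pow_ne_zero _ hc0.ne'), ENNReal.coe_pow]
    rw [hM]
    refine ENNReal.tsum_le_of_sum_range_le fun n => ?_
    have h5 := MEAN.mean_le h1 hlow hup n
    have h6 : ∑ l ∈ Finset.range (n + 1), (l : ℝ≥0∞) * ww (c + 2) (zst c) l ≤
        ((c0 : ℝ≥0∞) ^ 2)⁻¹ := by
      rw [ENNReal.le_inv_iff_mul_le, mul_comm]
      exact h5
    exact (Finset.sum_le_sum_of_subset (Finset.range_mono (Nat.le_succ n))).trans h6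

end Pool.Agent.XM
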