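import Pool.Agent.XM.Stmts
import Pool.Agent.XM.Lib

/-!
# Column-convex polygons (MP_f6626d_co): POLYC

Polygons without even cut are pairs of bridges and two loops.
-/

set_option autoImplicit false

namespace Pool.Agent.XM

open Finset Pool.Agent.Lib27 Pool.Agent.OC
open scoped NNReal ENNReal

theorem polyc_thm (h1 : POLYR_Stmt) : POLYC_Stmt := by
  classical
  intro c z n hn
  set f : Wd → ℝ≥0∞ := fun _ => z ^ (2 * n) with hf
  -- the classes
  let P : ℕ → ℕ → Set Wd := fun j H => {w | w ∈ NoE (c + 2) n ∧ j < 2 * n ∧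
    ∃ A B l0 lt : Wd, w.rotate j = A ++ rv (l0 ++ B ++ lt) ∧ l0 ∈ Lp c ∧ lt ∈ Lp c ∧
      (A, B) ∈ Nb (ep 0 l0).2 (c + 2) (ext l0) (H - ext lt) H}
  have key : ∀ j H : ℕ, gs f (P j H) ≤ gs (fun q : Wd × Wd => wz z q.1 * wz z q.2 *
      gs (Wz z) (Nb (ep 0 q.1).2 (c + 2) (ext q.1) (H - ext q.2) H)) (Lp c ×ˢ Lp c) := by
    intro j H
    refine gs_dep (fun (q p : Wd × Wd) => (p.1 ++ rv (q.1 ++ p.2 ++ q.2)).rotate (2 * n - j))
      (fun q : Wd × Wd => Nb (ep 0 q.1).2 (c + 2) (ext q.1) (H - ext q.2) H) ?_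
    rintro w ⟨hw, hj, A, B, l0, lt, hrot, hl0, hlt, hN⟩
    have hlen : w.length = 2 * n := ((mem_W n w).1 (Finset.mem_filter.1 hw).1).1
    refine ⟨(l0, lt), (A, B), ⟨hl0, hlt⟩, hN, ?_, ?_⟩
    · simp only
      rw [← hrot, List.rotate_rotate, Nat.add_sub_cancel' hj.le, ← hlen, List.rotate_length]
    · have hlen2 : 2 * n = l0.length + lt.length + (A.length + B.length) := by
        have := congrArg List.length hrot
        rw [List.length_rotate, hlen, List.length_append, MG.rv_length, List.length_append,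
          List.length_append] at this
        omega
      rw [hf]
      simp only [wz, Wz, lg]
      rw [hlen2, pow_add, pow_add z l0.length]
  have hsum : ((NoE (c + 2) n).card : ℝ≥0∞) * z ^ (2 * n) = gs f (NoE (c + 2) n : Set Wd) := by
    rw [gs_finset, hf, sum_const, nsmul_eq_mul]
  rw [hsum]
  calc gs f (NoE (c + 2) n : Set Wd)
      ≤ ∑ j ∈ range (2 * n), gs f (⋃ H, P j H) := by
        refine gs_le_sum f _ _ _ ?_
        intro w hw
        obtain ⟨j, H, A, B, l0, lt, hj, hH, hrot, hl0, hlt, hN⟩ := h1 c n w hn hw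
        refine ⟨j, mem_range.2 hj, ?_⟩
        exact Set.mem_iUnion.2 ⟨H, hw, hj, A, B, l0, lt, hrot, hl0, hlt, hN⟩
    _ ≤ ∑ _j ∈ range (2 * n), ∑' H : ℕ, gs (fun q : Wd × Wd => wz z q.1 * wz z q.2 *
          gs (Wz z) (Nb (ep 0 q.1).2 (c + 2) (ext q.1) (H - ext q.2) H)) (Lp c ×ˢ Lp c) := by
        refine Finset.sum_le_sum fun j _ => ?_
        exact (gs_iUnion f _).trans (ENNReal.tsum_le_tsum fun H => key j H)
    _ = _ := by
        rw [sum_const, card_range, nsmul_eq_mul]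

end Pool.Agent.XM
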