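import Pool.Agent.XM.Stmts

/-!
# Column-convex polygons (MP_f6626d_co): words with few horizontal steps
-/

set_option autoImplicit false

namespace Pool.Agent.XM

open Finset Pool.Agent.Lib27 Pool.Agent.OC
open scoped NNReal ENNReal

namespace RUN

/-- self-avoiding words with exactly `j` horizontal steps -/
def Sj (j : ℕ) : Set Wd := {w | SAWs w ∧ hz w = j}

theorem hz_nil : hz [] = 0 := rfl

theorem hz_cons (a : Fin 4) (w : Wd) : hz (a :: w) = hz w + if a = 0 ∨ a = 2 then 1 else 0 := by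
  unfold hz
  rw [List.countP_cons]
  simp

theorem no_turn (a : Fin 4) (t : Wd) : ¬ SAWs (a :: (a + 2) :: t) := by
  intro h
  unfold SAWs at h
  rw [vt_cons, vt_cons, vt_head] at h
  rw [dv_add_two] at h
  rw [List.nodup_cons] at h
  apply h.1
  simp

/-- vertical words -/
theorem vert (w : Wd) (h : SAWs w) (h0 : hz w = 0) :
    w = List.replicate w.length 1 ∨ w = List.replicate w.length 3 := by
  induction w with
  | nil => exact Or.inl rfl
  | cons a t ih =>
    rw [hz_cons] at h0
    have ha : ¬ (a = 0 ∨ a = 2) := by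
      intro h1
      rw [if_pos h1] at h0
      omega
    have ht : hz t = 0 := by omega
    have hs : SAWs t := (SAWs_append [a] t (by simpa using h)).2
    have ha' : a = 1 ∨ a = 3 := by
      clear h h0 ih hs ht
      revert ha
      revert a
      decide
    cases t with
    | nil =>
      rcases ha' with rfl | rfl
      · exact Or.inl rfl
      · exact Or.inr rfl
    | cons c t' =>
      have hn : c ≠ a + 2 := by
        rintro rfl
        exact no_turn a t' h
      rcases ih hs ht with h1 | h1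
      · have hc : c = 1 := by
          rw [List.length_cons, List.replicate_succ] at h1
          exact (List.cons.inj h1).1
        subst hc
        have : a = 1 := by
          rcases ha' with rfl | rfl
          · rfl
          · exact absurd rfl hn
        subst this
        left
        rw [List.length_cons, List.replicate_succ, ← h1]
      · have hc : c = 3 := by
          rw [List.length_cons, List.replicate_succ] at h1
          exact (List.cons.inj h1).1
        subst hc
        have : a = 3 := by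
          rcases ha' with rfl | rfl
          · exact absurd rfl hn
          · rfl
        subst this
        right
        rw [List.length_cons, List.replicate_succ, ← h1]

/-- a word with a horizontal step is split at the first one -/
theorem split_first (w : Wd) (j : ℕ) (h : hz w = j + 1) :
    ∃ (v : Wd) (s : Fin 4) (w' : Wd), w = v ++ s :: w' ∧ hz v = 0 ∧ (s = 0 ∨ s = 2) ∧ hz w' = j := by
  induction w with
  | nil => rw [hz_nil] at h; omega
  | cons a t ih =>
    rw [hz_cons] at h
    by_cases ha : a = 0 ∨ a = 2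
    · rw [if_pos ha] at h
      exact ⟨[], a, t, rfl, rfl, ha, by omega⟩
    · rw [if_neg ha] at h
      obtain ⟨v, s, w', h1, h2, h3, h4⟩ := ih (by omega)
      refine ⟨a :: v, s, w', by rw [h1]; rfl, ?_, h3, h4⟩
      rw [hz_cons, if_neg ha, h2]

theorem geo : ∑' a : ℕ, (3 / 4 : ℝ≥0∞) ^ a = 4 := by
  rw [ENNReal.tsum_geometric]
  have h : (1 : ℝ≥0∞) - 3 / 4 = 4⁻¹ := by
    have h1 : (1 : ℝ≥0∞) = 4⁻¹ + 3 / 4 := by
      rw [ENNReal.div_eq_inv_mul, ← mul_one_add, ← ENNReal.div_eq_inv_mul]
      rw [show (1 + 3 : ℝ≥0∞) = 4 by norm_num]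
      exact (ENNReal.div_self (by norm_num) (by norm_num)).symm
    conv_lhs => rw [h1]
    refine ENNReal.add_sub_cancel_right ?_
    exact (ENNReal.div_lt_top (by norm_num) (by norm_num)).ne
  rw [h, inv_inv]

theorem run_one (s : Fin 4) :
    gs (wz (3 / 4)) (Set.range fun a : ℕ => List.replicate a s) ≤ 4 := by
  have h : gs (wz (3 / 4)) (Set.range fun a : ℕ => List.replicate a s) ≤
      gs (fun a : ℕ => (3 / 4 : ℝ≥0∞) ^ a) Set.univ := by
    refine gs_le_of_inj _ _ List.length (fun _ _ => Set.mem_univ _) ?_ ?_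
    · rintro _ ⟨a, rfl⟩ _ ⟨b, rfl⟩ hab
      simp only [List.length_replicate] at hab
      subst hab
      rfl
    · intro w _
      exact le_rfl
  rw [gs_univ, geo] at h
  exact h

theorem g0 : gs (wz (3 / 4)) (Sj 0) ≤ 8 := by
  have h : gs (wz (3 / 4)) (Sj 0) ≤ gs (wz (3 / 4))
      ((Set.range fun a : ℕ => List.replicate a (1 : Fin 4)) ∪
        (Set.range fun a : ℕ => List.replicate a (3 : Fin 4))) := by
    refine gs_mono _ ?_
    rintro w ⟨h1, h2⟩
    rcases vert w h1 h2 with h3 | h3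
    · exact Or.inl ⟨_, h3.symm⟩
    · exact Or.inr ⟨_, h3.symm⟩
  refine h.trans ((gs_union _ _ _).trans ((add_le_add (run_one 1) (run_one 3)).trans ?_))
  norm_num

theorem hs : gs (fun _ : Fin 4 => (3 / 4 : ℝ≥0∞)) {s : Fin 4 | s = 0 ∨ s = 2} ≤ 3 / 2 := by
  have h : {s : Fin 4 | s = 0 ∨ s = 2} = (({0, 2} : Finset (Fin 4)) : Set (Fin 4)) := by
    ext s
    simp
  rw [h, gs_finset]
  rw [Finset.sum_pair (by decide)]
  rw [← two_mul, ENNReal.div_eq_inv_mul, ENNReal.div_eq_inv_mul, ← mul_assoc]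
  refine mul_le_mul' ?_ le_rfl
  rw [show (4 : ℝ≥0∞) = 2 * 2 by norm_num]
  rw [ENNReal.mul_inv (by norm_num) (by norm_num), ← mul_assoc,
    ENNReal.mul_inv_cancel (by norm_num) (by norm_num), one_mul]

theorem step (j : ℕ) : gs (wz (3 / 4)) (Sj (j + 1)) ≤ 12 * gs (wz (3 / 4)) (Sj j) := by
  have h : gs (wz (3 / 4)) (Sj (j + 1)) ≤ gs (wz (3 / 4)) (Sj 0) *
      gs (fun _ : Fin 4 => (3 / 4 : ℝ≥0∞)) {s : Fin 4 | s = 0 ∨ s = 2} *
      gs (wz (3 / 4)) (Sj j) := by
    refine gs_split3 (fun (v : Wd) (s : Fin 4) (w' : Wd) => v ++ s :: w') ?_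
    rintro w ⟨h1, h2⟩
    obtain ⟨v, s, w', e, h3, h4, h5⟩ := split_first w j h2
    have h6 := SAWs_append v (s :: w') (by rw [← e]; exact h1)
    have h7 := SAWs_append [s] w' (by simpa using h6.2)
    refine ⟨v, s, w', ⟨h6.1, h3⟩, h4, ⟨h7.2, h5⟩, e, ?_⟩
    unfold wz
    rw [e, List.length_append, List.length_cons, pow_add, pow_succ]
    refine le_of_eq ?_
    ring
  refine h.trans (mul_le_mul' ?_ le_rfl)
  refine (mul_le_mul' g0 hs).trans (le_of_eq ?_)
  rw [show (8 : ℝ≥0∞) = 4 * 2 by norm_num, mul_assoc, ENNReal.mul_div_cancel (by norm_num)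
    (by norm_num)]
  norm_num

theorem gj (j : ℕ) : gs (wz (3 / 4)) (Sj j) ≤ 12 ^ (j + 1) := by
  induction j with
  | zero => exact g0.trans (by norm_num)
  | succ j ih =>
    refine (step j).trans ?_
    rw [pow_succ (12 : ℝ≥0∞) (j + 1), mul_comm]
    exact mul_le_mul' ih le_rfl

theorem sumj (N : ℕ) : ∑ j ∈ range (N + 1), (12 : ℝ≥0∞) ^ (j + 1) ≤ 24 ^ (N + 1) := by
  induction N with
  | zero => norm_num
  | succ N ih =>
    rw [Finset.sum_range_succ]
    refine (add_le_add ih (le_refl _)).trans ?_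
    have h1 : (12 : ℝ≥0∞) ^ (N + 1 + 1) ≤ 12 * 24 ^ (N + 1) := by
      rw [pow_succ, mul_comm]
      refine mul_le_mul' le_rfl ?_
      exact pow_le_pow_left' (by norm_num) _
    refine (add_le_add (le_refl _) h1).trans ?_
    rw [pow_succ (24 : ℝ≥0∞) (N + 1)]
    calc (24 : ℝ≥0∞) ^ (N + 1) + 12 * 24 ^ (N + 1) = 13 * 24 ^ (N + 1) := by ring
      _ ≤ 24 ^ (N + 1) * 24 := by
        rw [mul_comm]
        exact mul_le_mul' le_rfl (by norm_num)

end RUN

theorem run_thm : RUN_Stmt := by
  refine ⟨24, by norm_num, fun N => ?_⟩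
  have h : gs (wz (3 / 4)) {w : Wd | SAWs w ∧ hz w ≤ N} ≤
      ∑ j ∈ range (N + 1), gs (wz (3 / 4)) (RUN.Sj j) := by
    refine gs_le_sum _ _ _ _ ?_
    rintro w ⟨h1, h2⟩
    exact ⟨hz w, Finset.mem_range.2 (Nat.lt_succ_of_le h2), h1, rfl⟩
  refine h.trans ((Finset.sum_le_sum fun j _ => RUN.gj j).trans ?_)
  exact RUN.sumj N

end Pool.Agent.XM
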