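import Pool.Agent.XM.Lib
import Pool.Agent.KCC.Stmts

/-!
# Column-convex polygons (MP_f6626d_co): from the mass gap (BEY) to the tail bounds of KCC
-/

set_option autoImplicit false

namespace Pool.Agent.XM.TAIL

open Finset Pool.Agent.Lib27 Pool.Agent.OC Pool.Agent.XM
open scoped NNReal ENNReal

/-! ### the two descriptions of the crossings -/

theorem cx_eq (h : ℤ) (w : Wd) : ∀ p : ℤ × ℤ,
    KCC.cx h p w = ((stp p w).filter (xs h)).map (fun q => q.1.2) := by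
  induction w with
  | nil => intro p; rfl
  | cons s w ih =>
    intro p
    rw [stp_cons, List.filter_cons]
    show (if (s = 0 ∧ p.1 = h) ∨ (s = 2 ∧ p.1 = h + 1) then [p.2] else []) ++
      KCC.cx h (p + dv s) w = _
    rw [ih]
    by_cases hx : xs h (p, s) = true
    · have h1 : (s = 0 ∧ p.1 = h) ∨ (s = 2 ∧ p.1 = h + 1) := xs_iff.1 hx
      rw [if_pos h1, if_pos hx]
      rfl
    · have h1 : ¬ ((s = 0 ∧ p.1 = h) ∨ (s = 2 ∧ p.1 = h + 1)) := fun h2 => hx (xs_iff.2 h2)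
      rw [if_neg h1, if_neg hx]
      rfl

theorem kcr_eq (w : Wd) (h : ℤ) : KCC.cr w h = cr w h := by
  unfold KCC.cr
  rw [cx_eq, List.length_map, cr_def]
  rfl

theorem kec_iff (w : Wd) (h : ℤ) : KCC.EC w h ↔ ECut w h := by
  unfold KCC.EC ECut
  rw [cx_eq, cr_def, crh_def]
  show (∃ y y' : ℤ, (crs h w).map (fun q => q.1.2) = [y, y'] ∧ Even (y - y')) ↔ _
  constructor
  · rintro ⟨y, y', h1, h2⟩
    have h3 := congrArg List.length h1
    rw [List.length_map] at h3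
    refine ⟨h3, ?_⟩
    rw [h1]
    obtain ⟨t, ht⟩ := h2
    exact ⟨t + y', by simp only [List.sum_cons, List.sum_nil]; omega⟩
  · rintro ⟨h1, h2⟩
    obtain ⟨a, b, h3⟩ := List.length_eq_two.1 h1
    rw [h3] at h2 ⊢
    refine ⟨a.1.2, b.1.2, rfl, ?_⟩
    simp only [List.map_cons, List.map_nil, List.sum_cons, List.sum_nil] at h2
    obtain ⟨t, ht⟩ := h2
    exact ⟨t - b.1.2, by omega⟩

theorem nar_iff (k : ℕ) (w : Wd) : KCC.Nar k w ↔ ∀ h : ℤ, cr w h ≤ 2 * k := by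
  unfold KCC.Nar
  simp only [kcr_eq]

/-! ### pieces -/

/-- the reversed second strand -/
def fr (p : Wd × Wd) : Wd × Wd := (p.1, rv p.2)

theorem fr_fr (p : Wd × Wd) : fr (fr p) = p := by
  unfold fr
  rw [rv_rv]

theorem fr_injective : Function.Injective fr := fun a b h => by rw [← fr_fr a, h, fr_fr]

theorem lg_fr (p : Wd × Wd) : lg (fr p) = p.1.length + p.2.length := by
  unfold lg fr
  rw [rv_length]

/-- the conditions on the second strand -/
theorem rv_Bri {l : ℕ} {D : Wd} : (D ∈ {D : Wd | (ep 0 D).1 = -(l : ℤ) ∧ (vt 0 D).Nodup ∧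
    ∀ p ∈ vs 0 D, (ep 0 D).1 < p.1 ∧ p.1 ≤ 0}) ↔ rv D ∈ Bri l := by
  have h0 : (vt 0 (rv D)).tail = ((vs 0 D).map (· - ep 0 D)).reverse := by
    rw [vt_rv]
    unfold vt
    rw [List.map_append, List.reverse_append]
    simp
  constructor
  · rintro ⟨h1, h2, h3⟩
    refine ⟨SAWs_rv h2, ?_, ?_⟩
    · rw [ep_rv0, Prod.fst_neg, h1, neg_neg]
    · intro p hp
      rw [h0, List.mem_reverse, List.mem_map] at hp
      obtain ⟨q, hq, rfl⟩ := hp
      have := h3 q hq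
      rw [Prod.fst_sub, h1]
      rw [h1] at this
      omega
  · intro h
    have h1 : (ep 0 D).1 = -(l : ℤ) := by
      have := h.2.1
      rw [ep_rv0, Prod.fst_neg] at this
      omega
    refine ⟨h1, ?_, ?_⟩
    · have := SAWs_rv h.1
      rwa [rv_rv] at this
    · intro p hp
      have := h.2.2 (p - ep 0 D) (by
        rw [h0, List.mem_reverse]
        exact List.mem_map_of_mem hp)
      rw [Prod.fst_sub, h1] at this
      rw [h1]
      omega

theorem cr_app_rv {l : ℕ} {U D : Wd} (hU : (ep 0 U).1 = l) (hD : (ep 0 D).1 = -(l : ℤ)) (h : ℤ) :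
    cr (U ++ D) h = cr U h + cr (rv D) h := by
  rw [cr_append, cr_rv, hU, hD, sub_eq_add_neg]

theorem crh_app_rv {l : ℕ} {U D : Wd} (hU : (ep 0 U).1 = l) (hD : (ep 0 D).1 = -(l : ℤ)) (h : ℤ) :
    crh (U ++ D) h = crh U h + crh (rv D) h + cr (rv D) h * ((ep 0 U).2 + (ep 0 D).2) := by
  rw [crh_append, cr_rv, crh_rv, hU, hD, sub_eq_add_neg]
  ring

/-- free pieces are e-irreducible pairs -/
theorem free_iff {k l : ℕ} (hl : 1 ≤ l) {U D : Wd} (hw : (ep 0 U).1 = l) :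
    KCC.FreePiece k U D ↔ fr (U, D) ∈ Eir (2 * k) l := by
  have e1 : ((U : Wd) ∈ {U : Wd | (vt 0 U).Nodup ∧ ∀ p ∈ (vt 0 U).tail, 0 < p.1 ∧
      p.1 ≤ (ep 0 U).1}) ↔ U ∈ Bri l := by
    constructor
    · rintro ⟨h1, h2⟩
      exact ⟨h1, hw, by rwa [hw] at h2⟩
    · intro h
      exact ⟨h.1, by rw [hw]; exact h.2.2⟩
  constructor
  · rintro ⟨⟨_, h2, h3, h4, h5, h6⟩, h7, h8, h9⟩
    rw [hw] at h2
    have hU : U ∈ Bri l := e1.1 ⟨h3, h5⟩
    have hD : rv D ∈ Bri l := rv_Bri.1 ⟨h2, h4, h6⟩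
    have hB : fr (U, D) ∈ Brp (2 * k) l := by
      refine ⟨hU, hD, fun h => ?_⟩
      show cr U h + cr (rv D) h ≤ 2 * k
      rw [← cr_app_rv hw h2]
      exact (nar_iff k _).1 h8 h
    refine ⟨⟨hB, fun h h10 h11 hpc => ?_⟩, ?_⟩
    · have h12 := h9 h (by exact_mod_cast h10) (by rw [hw]; exact h11)
      rw [kec_iff] at h12
      apply h12
      obtain ⟨⟨c1, c2⟩, c3⟩ := hpc
      simp only [fr] at c1 c2 c3
      refine ⟨by rw [cr_app_rv hw h2, c1, c2], ?_⟩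
      rw [crh_app_rv hw h2, c2]
      obtain ⟨i, hi⟩ := c3
      obtain ⟨a, ha⟩ := length_parity U
      obtain ⟨b, hb⟩ := length_parity D
      obtain ⟨t, ht⟩ := h7
      refine ⟨i + a + b - t, ?_⟩
      push_cast
      rw [hw] at ha
      rw [h2] at hb
      omega
    · rw [lg_fr]
      exact h7
  · rintro ⟨⟨hB, h9⟩, h7⟩
    have hU : U ∈ Bri l := hB.1
    have hD : rv D ∈ Bri l := hB.2.1
    obtain ⟨h2, h4, h6⟩ := rv_Bri.2 hD
    rw [lg_fr] at h7
    refine ⟨⟨by rw [hw]; exact_mod_cast hl, by rw [h2, hw], hU.1, h4, ?_, h6⟩, h7, ?_, ?_⟩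
    · rw [hw]
      exact hU.2.2
    · rw [nar_iff]
      intro h
      rw [cr_app_rv hw h2]
      exact hB.2.2 h
    · intro h h10 h11 hec
      rw [hw] at h11
      rw [kec_iff] at hec
      obtain ⟨c1, c3⟩ := hec
      rw [cr_app_rv hw h2] at c1
      have c4 : 1 ≤ cr U h ∧ 1 ≤ cr (rv D) h := Brp_pos hB (h := h) h10.le h11
      have c5 : CC (fr (U, D)) h :=
        ⟨show cr U h = 1 by omega, show cr (rv D) h = 1 by omega⟩
      refine h9 h (by exact_mod_cast h10) h11 ⟨c5, ?_⟩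
      have c6 := c5.2
      simp only [fr] at c6
      rw [crh_app_rv hw h2, c6] at c3
      simp only [fr]
      obtain ⟨i, hi⟩ := c3
      obtain ⟨a, ha⟩ := length_parity U
      obtain ⟨b, hb⟩ := length_parity D
      simp only at h7
      obtain ⟨t, ht⟩ := h7
      refine ⟨i - a - b + t, ?_⟩
      push_cast at hi
      rw [hw] at ha
      rw [h2] at hb
      omega

theorem mem_Pc {k n : ℕ} {p : Wd × Wd} : p ∈ KCC.Pc k n ↔
    KCC.FreePiece k p.1 p.2 ∧ p.1.length + p.2.length ≤ 2 * n := by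
  classical
  unfold KCC.Pc
  rw [mem_filter, mem_product]
  have h1 : ∀ w : Wd, w ∈ SapR.wordsUpTo (2 * n) ↔ w.length ≤ 2 * n := by
    intro w
    unfold SapR.wordsUpTo
    simp only [mem_biUnion, mem_range, mem_words]
    constructor
    · rintro ⟨a, h1, h2⟩; omega
    · intro h2; exact ⟨_, by omega, rfl⟩
  rw [h1, h1]
  constructor
  · exact fun h => h.2
  · exact fun h => ⟨⟨by omega, by omega⟩, h⟩

/-- all e-irreducible pairs of positive width -/
def AllE (c : ℕ) : Set (Wd × Wd) := {p | ∃ l : ℕ, 1 ≤ l ∧ p ∈ Eir c l}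

theorem gs_AllE_le (c : ℕ) (z : ℝ≥0∞) : gs (Wz z) (AllE c) ≤ ∑' l : ℕ, we c z (l + 1) := by
  have h1 : AllE c ⊆ ⋃ l : ℕ, Eir c (l + 1) := by
    rintro p ⟨l, hl, hp⟩
    rw [Set.mem_iUnion]
    exact ⟨l - 1, by rwa [Nat.sub_add_cancel hl]⟩
  exact (gs_mono _ h1).trans (gs_iUnion _ _)

theorem le_gs_AllE (c : ℕ) (z : ℝ≥0∞) : ∑' l : ℕ, we c z (l + 1) ≤ gs (Wz z) (AllE c) := by
  rw [gs_indicator]
  have h1 : ∀ l : ℕ, we c z (l + 1) = ∑' p, (Eir c (l + 1)).indicator (Wz z) p := fun l => by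
    unfold we
    rw [gs_indicator]
  simp only [h1]
  rw [ENNReal.tsum_comm]
  refine ENNReal.tsum_le_tsum fun p => ?_
  by_cases hp : p ∈ AllE c
  · rw [Set.indicator_of_mem hp]
    obtain ⟨l, hl, hpl⟩ := hp
    rw [tsum_eq_single (l - 1)]
    · exact Set.indicator_le_self' (fun _ _ => zero_le) p
    · intro l' hl'
      rw [Set.indicator_of_notMem]
      intro h2
      have h3 := h2.1.1.1.2.1
      rw [hpl.1.1.1.2.1] at h3
      apply hl'
      push_cast at h3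
      omega
  · rw [Set.indicator_of_notMem hp]
    refine le_of_eq (ENNReal.tsum_eq_zero.2 fun l => ?_)
    rw [Set.indicator_of_notMem]
    exact fun h => hp ⟨l + 1, by omega, h⟩

theorem fr_mem {k n : ℕ} {p : Wd × Wd} (hp : p ∈ KCC.Pc k n) : fr p ∈ AllE (2 * k) := by
  rw [mem_Pc] at hp
  have h1 := hp.1.1.1
  have h2 : (ep 0 p.1).1 = (((ep 0 p.1).1.toNat : ℕ) : ℤ) := by omega
  exact ⟨(ep 0 p.1).1.toNat, by omega, (free_iff (by omega) h2).1 hp.1⟩

theorem mem_of_fr {k n : ℕ} {p : Wd × Wd} (hp : p ∈ AllE (2 * k)) (hl : lg p ≤ 2 * n) :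
    fr p ∈ KCC.Pc k n := by
  obtain ⟨l, h1, h2⟩ := hp
  rw [mem_Pc]
  refine ⟨?_, ?_⟩
  · have h3 : (p.1, rv p.2) = fr p := rfl
    refine (free_iff (l := l) h1 (U := p.1) (D := rv p.2) h2.1.1.1.2.1).2 ?_
    show fr (fr p) ∈ _
    rw [fr_fr]
    exact h2
  · have := lg_fr (fr p)
    rw [fr_fr] at this
    omega

theorem hl_eq {k n : ℕ} {p : Wd × Wd} (hp : p ∈ KCC.Pc k n) : lg (fr p) = 2 * KCC.hl p := by
  rw [mem_Pc] at hp
  obtain ⟨t, ht⟩ := hp.1.2.1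
  rw [lg_fr]
  unfold KCC.hl
  omega

theorem hl_pos {k n : ℕ} {p : Wd × Wd} (hp : p ∈ KCC.Pc k n) : 1 ≤ KCC.hl p := by
  have h1 := hl_eq hp
  have h2 := KCC.piece_pos k n p hp
  rw [lg_fr] at h1
  omega

/-! ### real and extended sums -/

theorem real_sum_le {α : Type*} (s : Finset α) (f : α → ℝ) (g : α → ℝ≥0∞)
    (hf : ∀ a ∈ s, 0 ≤ f a) (hfg : ∀ a ∈ s, ENNReal.ofReal (f a) ≤ g a) {B : ℝ≥0}
    (h : ∑ a ∈ s, g a ≤ (B : ℝ≥0∞)) : ∑ a ∈ s, f a ≤ (B : ℝ) := by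
  have h1 : ENNReal.ofReal (∑ a ∈ s, f a) ≤ ∑ a ∈ s, g a := by
    rw [ENNReal.ofReal_sum_of_nonneg hf]
    exact Finset.sum_le_sum hfg
  have h2 := ENNReal.ofReal_le_iff_le_toReal (ENNReal.coe_ne_top (r := B)) |>.1 (h1.trans h)
  simpa using h2

theorem ofReal_sq_pow {x : ℝ} {Z : ℝ≥0∞} (hx : 0 ≤ x) (hZ : ENNReal.ofReal x = Z) (j : ℕ) :
    ENNReal.ofReal ((x ^ 2) ^ j) = Z ^ (2 * j) := by
  rw [← pow_mul, ENNReal.ofReal_pow hx, hZ]

/-- sums over pieces -/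
theorem sum_Pc_le {k : ℕ} {x : ℝ} {Z : ℝ≥0∞} (hx : 0 ≤ x) (hZ : ENNReal.ofReal x = Z) {B : ℝ≥0}
    (h : gs (Wz Z) (AllE (2 * k)) ≤ B) (n : ℕ) :
    ∑ p ∈ KCC.Pc k n, (x ^ 2) ^ KCC.hl p ≤ B := by
  refine real_sum_le _ _ (fun p => Wz Z (fr p)) (fun p _ => by positivity) (fun p hp => ?_) ?_
  · rw [ofReal_sq_pow hx hZ]
    show _ ≤ Z ^ lg (fr p)
    rw [hl_eq hp]
  · rw [← gs_finset]
    refine le_trans ?_ h
    exact gs_le_of_inj (fun p => Wz Z (fr p)) (Wz Z) fr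
      (fun p hp => fr_mem (Finset.mem_coe.1 hp)) (fr_injective.injOn) (fun p _ => le_rfl)

/-- finitely many pieces with large weight -/
theorem exists_sum_gt {k : ℕ} {x r : ℝ} {Z : ℝ≥0∞} (hx : 0 < x) (hZ : ENNReal.ofReal x = Z)
    (h : 1 ≤ gs (Wz Z) (AllE (2 * k))) (hr : x ^ 2 < r) :
    ∃ n : ℕ, 1 < ∑ p ∈ KCC.Pc k n, r ^ KCC.hl p := by
  classical
  have hr0 : 0 < r := (pow_pos hx 2).trans hr
  have h1 : ENNReal.ofReal (x ^ 2 / r) < gs (Wz Z) (AllE (2 * k)) := by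
    refine lt_of_lt_of_le ?_ h
    rw [ENNReal.ofReal_lt_one]
    rw [div_lt_one hr0]
    exact hr
  unfold gs at h1
  rw [ENNReal.tsum_eq_iSup_sum, lt_iSup_iff] at h1
  obtain ⟨F, hF⟩ := h1
  set G : Finset (Wd × Wd) := F.image (fun a : AllE (2 * k) => fr a.1) with hG
  obtain ⟨n, hn⟩ : ∃ n : ℕ, ∀ a ∈ F, lg (a : Wd × Wd) ≤ 2 * n := by
    refine ⟨F.sup (fun a : AllE (2 * k) => lg a.1), fun a ha => ?_⟩
    have := Finset.le_sup (f := fun a : AllE (2 * k) => lg a.1) ha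
    omega
  have hsub : G ⊆ KCC.Pc k n := by
    intro p hp
    rw [hG, mem_image] at hp
    obtain ⟨a, ha, rfl⟩ := hp
    exact mem_of_fr a.2 (hn a ha)
  refine ⟨n, ?_⟩
  have h2 : x ^ 2 / r < ∑ p ∈ G, (x ^ 2) ^ KCC.hl p := by
    have h3 : ENNReal.ofReal (∑ p ∈ G, (x ^ 2) ^ KCC.hl p) = ∑ a ∈ F, Wz Z (a : Wd × Wd) := by
      rw [ENNReal.ofReal_sum_of_nonneg (fun _ _ => by positivity), hG, sum_image]
      · refine Finset.sum_congr rfl fun a ha => ?_
        rw [ofReal_sq_pow hx.le hZ]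
        have h4 := hl_eq (mem_of_fr a.2 (hn a ha))
        rw [fr_fr] at h4
        rw [← h4]
        rfl
      · intro a _ b _ hab
        exact Subtype.ext (fr_injective hab)
    rw [← h3] at hF
    exact (ENNReal.ofReal_lt_ofReal_iff_of_nonneg (by positivity)).1 hF
  have h5 : r / x ^ 2 * ∑ p ∈ G, (x ^ 2) ^ KCC.hl p ≤ ∑ p ∈ G, r ^ KCC.hl p := by
    rw [Finset.mul_sum]
    refine Finset.sum_le_sum fun p hp => ?_
    have h6 := hl_pos (hsub hp)
    have h7 : 1 ≤ r / x ^ 2 := by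
      rw [one_le_div (pow_pos hx 2)]
      exact hr.le
    calc r / x ^ 2 * (x ^ 2) ^ KCC.hl p ≤ (r / x ^ 2) ^ KCC.hl p * (x ^ 2) ^ KCC.hl p := by
          refine mul_le_mul_of_nonneg_right ?_ (by positivity)
          exact le_self_pow₀ h7 (by omega)
      _ = r ^ KCC.hl p := by
          rw [← mul_pow, div_mul_cancel₀ _ (pow_pos hx 2).ne']
  calc (1 : ℝ) = r / x ^ 2 * (x ^ 2 / r) := by
        field_simp
    _ < r / x ^ 2 * ∑ p ∈ G, (x ^ 2) ^ KCC.hl p :=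
        mul_lt_mul_of_pos_left h2 (div_pos hr0 (pow_pos hx 2))
    _ ≤ _ := h5
    _ ≤ _ := Finset.sum_le_sum_of_subset_of_nonneg hsub fun _ _ _ => by positivity

/-! ### caps -/

theorem mem_CapSet {k : ℕ} {g : ℤ} {N : ℕ} {w : Wd} : w ∈ KCC.CapSet k g N ↔
    w.length = N ∧ KCC.Arch g w ∧ KCC.Nar k w ∧ ∀ h : ℤ, 1 ≤ h → ¬ KCC.EC w h := by
  classical
  unfold KCC.CapSet
  rw [mem_filter, mem_words]

theorem cap_mem {k : ℕ} {g : ℤ} {N : ℕ} {w : Wd} (hg : 1 ≤ g) (hw : w ∈ KCC.CapSet k g N) :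
    w ∈ Cap (2 * k) := by
  obtain ⟨_, ⟨h1, h2, h3, h4⟩, h5, h6⟩ := mem_CapSet.1 hw
  refine ⟨h3, by rw [h2], h4, ?_, by rw [h2]; exact even_two_mul g, (nar_iff k w).1 h5, ?_⟩
  · intro h7
    have h8 := congrArg List.length h7
    rw [List.length_tail, vs_length, List.length_nil] at h8
    match w, h1, h2, h8 with
    | [s], _, h2, _ =>
      rw [ep_cons, ep_nil, zero_add] at h2
      have h9 := congrArg Prod.snd h2
      have h10 : (dv s).2 ≤ 1 := by fin_cases s <;> simp [dv]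
      simp only at h9
      omega
    | s :: t :: w, _, _, h8 =>
      simp only [List.length_cons] at h8
      omega
  · intro h h7
    rw [← kec_iff]
    exact h6 h h7

theorem sum_cap_le {k : ℕ} {x : ℝ} {Z : ℝ≥0∞} (hx : 0 < x) (hZ : ENNReal.ofReal x = Z) {B : ℝ≥0}
    (h : gs (wz Z) (Cap (2 * k)) ≤ B) (M : ℕ) :
    ∑ m ∈ range (M + 1), ∑ g ∈ Icc (1 : ℤ) m,
      ((KCC.CapSet k g (2 * m + 2)).card : ℝ) * (x ^ 2) ^ m ≤ B * (x ^ 2)⁻¹ := by
  classical
  set S : Finset ((_ : ℕ) × (_ : ℤ) × Wd) :=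
    (range (M + 1)).sigma fun m => (Icc (1 : ℤ) m).sigma fun g => KCC.CapSet k g (2 * m + 2)
    with hS
  have h1 : ∑ m ∈ range (M + 1), ∑ g ∈ Icc (1 : ℤ) m,
      ((KCC.CapSet k g (2 * m + 2)).card : ℝ) * (x ^ 2) ^ m =
      (∑ q ∈ S, x ^ (q.2.2.length)) * (x ^ 2)⁻¹ := by
    rw [hS, Finset.sum_sigma, Finset.sum_mul]
    refine Finset.sum_congr rfl fun m _ => ?_
    rw [Finset.sum_sigma, Finset.sum_mul]
    refine Finset.sum_congr rfl fun g _ => ?_
    rw [Finset.sum_mul, ← nsmul_eq_mul, ← Finset.sum_const]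
    refine Finset.sum_congr rfl fun w hw => ?_
    rw [(mem_CapSet.1 hw).1]
    rw [pow_add, ← pow_mul, mul_assoc, mul_inv_cancel₀ (pow_pos hx 2).ne', mul_one]
  rw [h1]
  refine mul_le_mul_of_nonneg_right ?_ (by positivity)
  have hmem : ∀ q ∈ S, 1 ≤ q.2.1 ∧ q.2.2 ∈ KCC.CapSet k q.2.1 (2 * q.1 + 2) := by
    intro q hq
    rw [hS, mem_sigma, mem_sigma, mem_Icc] at hq
    exact ⟨hq.2.1.1, hq.2.2⟩
  refine real_sum_le S _ (fun q => wz Z q.2.2) (fun q _ => by positivity) (fun q _ => ?_) ?_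
  · rw [ENNReal.ofReal_pow hx.le, hZ]
    exact le_rfl
  · rw [← gs_finset]
    refine le_trans ?_ h
    refine gs_le_of_inj (fun q : (_ : ℕ) × (_ : ℤ) × Wd => wz Z q.2.2) (wz Z) (fun q => q.2.2)
      (fun q hq => ?_) ?_ (fun q _ => le_rfl)
    · have := hmem q (Finset.mem_coe.1 hq)
      exact cap_mem this.1 this.2
    · rintro ⟨m, g, w⟩ hq ⟨m', g', w'⟩ hq' heq
      simp only at heq
      subst heq
      have h2 := mem_CapSet.1 (hmem _ (Finset.mem_coe.1 hq)).2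
      have h3 := mem_CapSet.1 (hmem _ (Finset.mem_coe.1 hq')).2
      simp only at h2 h3
      have e1 : m = m' := by omega
      have e2 : g = g' := by
        have := h2.2.1.2.1
        rw [h3.2.1.2.1] at this
        have := congrArg Prod.snd this
        simp only at this
        omega
      subst e1
      subst e2
      rfl

/-! ### polygons -/

theorem noCut_eq (k n : ℕ) : KCC.NoCut k n = NoE (2 * k) n := by
  classical
  unfold KCC.NoCut NoE
  refine Finset.filter_congr fun w _ => ?_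
  rw [nar_iff]
  simp only [kec_iff]

/-- the tail bounds of KCC -/
theorem tail_thm (h : BEY_Stmt) : KCC.TAIL_Stmt := by
  intro k hk
  obtain ⟨j, rfl⟩ : ∃ j, k = j + 1 := ⟨k - 1, by omega⟩
  obtain ⟨h1, h2, h3, eta, C, h4, h5, h6, h7⟩ := h (2 * j)
  have e : 2 * j + 2 = 2 * (j + 1) := by ring
  rw [e] at h3 h5 h6
  have hzt : zst (2 * j) ≠ ∞ := ne_top_of_le_ne_top (by simp) h2
  set x : ℝ := (zst (2 * j)).toReal with hx
  have hZ : ENNReal.ofReal x = zst (2 * j) := ENNReal.ofReal_toReal hzt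
  have hx0 : 0 < x := by
    refine ENNReal.toReal_pos ?_ hzt
    intro h0
    rw [h0] at h1
    simp at h1
  set x' : ℝ := (1 + eta) * x with hx'
  have hx'0 : 0 < x' := by positivity
  have hZ' : ENNReal.ofReal x' = (1 + eta) * zst (2 * j) := by
    rw [hx', ENNReal.ofReal_mul (by positivity), hZ]
    congr 1
    rw [ENNReal.ofReal_add zero_le_one (by positivity), ENNReal.ofReal_one,
      ENNReal.ofReal_coe_nnreal]
  have hE1 : gs (Wz (zst (2 * j))) (AllE (2 * (j + 1))) ≤ ((1 : ℝ≥0) : ℝ≥0∞) :=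
    (gs_AllE_le _ _).trans (by rw [h3]; simp)
  have hE2 : 1 ≤ gs (Wz (zst (2 * j))) (AllE (2 * (j + 1))) := by
    rw [← h3]
    exact le_gs_AllE _ _
  have hE3 : gs (Wz ((1 + eta) * zst (2 * j))) (AllE (2 * (j + 1))) ≤ C := by
    refine (gs_AllE_le _ _).trans (le_trans ?_ h5)
    rw [tsum_eq_zero_add' ENNReal.summable (f := fun l => we (2 * (j + 1))
      ((1 + eta) * zst (2 * j)) l)]
    exact le_add_self
  have hq : (1 + ((1 + eta : ℝ) ^ 2 - 1)) * x ^ 2 = x' ^ 2 := by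
    rw [hx']; ring
  refine ⟨x ^ 2, (1 + (eta : ℝ)) ^ 2 - 1, max (C : ℝ) ((C : ℝ) * (x' ^ 2)⁻¹) + 1, by positivity,
    ?_, ?_, ?_, ?_, ?_, ?_, ?_⟩
  · have : (0 : ℝ) < eta := by exact_mod_cast h4
    nlinarith
  · have : (0 : ℝ) ≤ max (C : ℝ) (C * (x' ^ 2)⁻¹) := le_max_of_le_left C.2
    linarith
  · intro n
    have := sum_Pc_le hx0.le hZ hE1 n
    simpa using this
  · intro r hr
    exact exists_sum_gt hx0 hZ hE2 hr
  · intro n
    rw [hq]
    exact (sum_Pc_le hx'0.le hZ' hE3 n).trans ((le_max_left _ _).trans (by linarith))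
  · intro M
    rw [hq]
    exact (sum_cap_le hx'0 hZ' h6 M).trans ((le_max_right _ _).trans (by linarith))
  · intro n hn
    rw [hq, noCut_eq]
    have h8 := h7 n hn
    rw [e, ← hZ', ← ENNReal.ofReal_pow hx'0.le] at h8
    have h9 : ENNReal.ofReal (((NoE (2 * (j + 1)) n).card : ℝ) * x' ^ (2 * n)) ≤
        ((C * n : ℝ≥0) : ℝ≥0∞) := by
      rw [ENNReal.ofReal_mul (by positivity), ENNReal.ofReal_natCast]
      push_cast
      exact h8
    have h10 := (ENNReal.ofReal_le_iff_le_toReal ENNReal.coe_ne_top).1 h9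
    rw [ENNReal.coe_toReal] at h10
    push_cast at h10
    rw [← pow_mul]
    refine h10.trans ?_
    refine mul_le_mul_of_nonneg_right ?_ (by positivity)
    exact (le_max_left _ _).trans (by linarith)

end Pool.Agent.XM.TAIL
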